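import Pool.Agent.Helper22.MEI.Def
import Pool.Agent.Helper55.MEI.Sl1

/-!
# Project MEI, regime I: the energy in the direction of the latitude circles

Abstract interface in cylinder coordinates and the inequalities on one latitude circle.
-/

namespace Helper96.MEI

open Set MeasureTheory Real Helper22.MEI
open Pool.Agent.Helper55.MEI (nz nz_pos nz_sq nz_neg nz_cont c0 om om_pos om_neg om_cont Wz Wz_om
  Wz_cont)

/-- the interface level -/
noncomputable def z0 : ℝ := 1 / √3

/-- half width in the angle -/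
noncomputable def p0 : ℝ := Real.arctan s

noncomputable def kh (z : ℝ) : ℝ := (1 - c3 * √(1 + z ^ 2)) / √(1 + z ^ 2)

/-- weights of the linear interpolation -/
noncomputable def lp (z : ℝ) : ℝ := (z0 + z) / (2 * z0)

noncomputable def lq (z : ℝ) : ℝ := (z0 - z) / (2 * z0)

/-- linear interpolation of a row -/
noncomputable def rl (u : ℝ → ℝ) (z : ℝ) : ℝ := lp z * u z0 + lq z * u (-z0)

theorem z0_pos : 0 < z0 := by unfold z0; positivity

theorem z0_sq : z0 ^ 2 = 1 / 3 := by
  unfold z0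
  rw [div_pow, Real.sq_sqrt (by norm_num)]
  norm_num

theorem z0_eq : z0 = Pool.Agent.Helper55.MEI.z0 := rfl

theorem z0_lt_s : z0 < s := by
  have h1 := z0_sq
  have h2 := s_sq
  nlinarith [z0_pos, s_pos]

theorem p0_pos : 0 < p0 := by
  unfold p0
  rw [Real.arctan_pos]
  exact s_pos

theorem p0_lt : p0 < π / 2 := Real.arctan_lt_pi_div_two _

theorem cos_p0 : s * cos p0 = z0 := by
  have h1 : 0 < cos p0 := Real.cos_arctan_pos _
  have h2 : cos p0 ^ 2 = 2 / 3 := by
    unfold p0
    rw [Real.cos_sq_arctan, s_sq]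
    norm_num
  have h3 : (s * cos p0) ^ 2 = z0 ^ 2 := by
    rw [mul_pow, h2, s_sq, z0_sq]
    norm_num
  have h4 : 0 < s * cos p0 := mul_pos s_pos h1
  exact (pow_left_inj₀ h4.le z0_pos.le two_ne_zero).mp h3

theorem kh_z0 : kh z0 = 0 := by
  unfold kh
  rw [z0_sq]
  have h1 : √(1 + 1 / 3 : ℝ) = 2 / √3 := by
    rw [show (1 + 1 / 3 : ℝ) = (2 / √3) ^ 2 by
      rw [div_pow, Real.sq_sqrt (by norm_num)]; norm_num]
    exact Real.sqrt_sq (by positivity)
  rw [h1]
  have h2 : c3 * (2 / √3) = 1 := by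
    unfold c3
    field_simp
  rw [h2]
  simp

theorem kh_neg (z : ℝ) : kh (-z) = kh z := by unfold kh; rw [neg_sq]

theorem kh_eq (z : ℝ) : kh z = 1 / nz z - c0 := by
  have h1 := nz_pos z
  have h2 : c0 = c3 := by unfold c0 c3; rfl
  rw [h2]
  show (1 - c3 * nz z) / nz z = 1 / nz z - c3
  field_simp

theorem om_kh (z : ℝ) : om z * kh z = Wz z / 2 := by
  rw [Wz_om, kh_eq]
  ring

theorem lp_add_lq (z : ℝ) : lp z + lq z = 1 := by
  unfold lp lq
  have := z0_pos
  field_simp
  ring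

theorem lp_nonneg {z : ℝ} (hz : z ∈ Icc (-z0) z0) : 0 ≤ lp z := by
  unfold lp
  have := z0_pos
  exact div_nonneg (by linarith [hz.1]) (by linarith)

theorem lq_nonneg {z : ℝ} (hz : z ∈ Icc (-z0) z0) : 0 ≤ lq z := by
  unfold lq
  have := z0_pos
  exact div_nonneg (by linarith [hz.2]) (by linarith)

theorem kh_cont : Continuous kh := by
  unfold kh
  refine Continuous.div (by fun_prop) (by fun_prop) fun z => ?_
  positivity

/-- `w` in cylinder coordinates, with its partial derivatives `wp`, `wz` -/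
structure Cyl (w wp wz : ℝ → ℝ → ℝ) : Prop where
  dp : ∀ a ∈ Icc (-p0) p0, ∀ z ∈ Icc (-s) s, HasDerivAt (fun b => w b z) (wp a z) a
  cw : ContinuousOn (Function.uncurry w) (Icc (-p0) p0 ×ˢ Icc (-s) s)
  cp : ContinuousOn (Function.uncurry wp) (Icc (-p0) p0 ×ˢ Icc (-s) s)
  cz : ContinuousOn (Function.uncurry wz) (Icc (-p0) p0 ×ˢ Icc (-s) s)
  nn : ∀ a ∈ Icc (-p0) p0, ∀ z, |z| ≤ s * cos a → 0 ≤ w a z
  b1 : ∀ z ∈ Icc (-z0) z0, w p0 z = 0 ∧ w (-p0) z = 0
  b2 : ∀ a ∈ Icc (-p0) p0, ∀ z, |z| = s * cos a → w a z = 0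
  cc : ∀ a ∈ Icc (-p0) p0, ∀ z ∈ Icc (-z0) z0, rl (w a) z ≤ w a z
  lm : ∀ z ∈ Icc (-z0) z0, ∀ v v' : ℝ → ℝ, (∀ a ∈ Icc (-p0) p0, HasDerivAt v (v' a) a) →
    ContinuousOn v' (Icc (-p0) p0) → (∀ a ∈ Icc (-p0) p0, 0 ≤ v a) → v (-p0) = 0 → v p0 = 0 →
    ∫ a in (-p0)..p0, (-w a z + z * wz a z - kh z) * v a ≤ -∫ a in (-p0)..p0, wp a z * v' a
  ll : ∀ b ∈ Icc 0 p0, ∀ z, |z| = s * cos b → ∀ v v' : ℝ → ℝ,
    (∀ a ∈ Icc (-b) b, HasDerivAt v (v' a) a) →
    ContinuousOn v' (Icc (-b) b) → (∀ a ∈ Icc (-b) b, 0 ≤ v a) → v (-b) = 0 → v b = 0 →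
    ∫ a in (-b)..b, (-w a z + z * wz a z) * v a ≤ -∫ a in (-b)..b, wp a z * v' a

variable {w wp wz : ℝ → ℝ → ℝ}

theorem z0_mem : z0 ∈ Icc (-s) s := ⟨by linarith [z0_pos, s_pos], z0_lt_s.le⟩

theorem nz0_mem : -z0 ∈ Icc (-s) s := ⟨by linarith [z0_lt_s], by linarith [z0_pos, s_pos]⟩

theorem mid_mem {z : ℝ} (hz : z ∈ Icc (-z0) z0) : z ∈ Icc (-s) s :=
  ⟨by linarith [hz.1, z0_lt_s], by linarith [hz.2, z0_lt_s]⟩

theorem cos_le_cos_p0 {a : ℝ} (ha : a ∈ Icc (-p0) p0) : cos p0 ≤ cos a := by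
  rw [← Real.cos_abs a]
  have h1 : |a| ≤ p0 := abs_le.mpr ha
  exact Real.cos_le_cos_of_nonneg_of_le_pi (abs_nonneg _) (by linarith [p0_lt, Real.pi_pos]) h1

theorem mid_lens {a : ℝ} (ha : a ∈ Icc (-p0) p0) {z : ℝ} (hz : z ∈ Icc (-z0) z0) :
    |z| ≤ s * cos a := by
  have h1 : |z| ≤ z0 := abs_le.mpr hz
  have h2 := mul_le_mul_of_nonneg_left (cos_le_cos_p0 ha) s_pos.le
  rw [cos_p0] at h2
  linarith

theorem slice_cont {f : ℝ → ℝ → ℝ}
    (hf : ContinuousOn (Function.uncurry f) (Icc (-p0) p0 ×ˢ Icc (-s) s)) {z : ℝ}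
    (hz : z ∈ Icc (-s) s) : ContinuousOn (fun a => f a z) (Icc (-p0) p0) := by
  have h1 : ContinuousOn (fun a : ℝ => (a, z)) (Icc (-p0) p0) := by fun_prop
  exact hf.comp h1 fun a ha => ⟨ha, hz⟩

/-- the energy of a latitude circle in the middle part -/
theorem lat_mid (h : Cyl w wp wz) {z : ℝ} (hz : z ∈ Icc (-z0) z0) :
    ∫ a in (-p0)..p0, (z * wz a z * (w a z - rl (w a) z) - kh z * (w a z - rl (w a) z) -
      z0 * (lp z * |wz a z0| + lq z * |wz a (-z0)|) * w a z) ≤
    -∫ a in (-p0)..p0, (wp a z ^ 2 - w a z ^ 2) := by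
  have hzs := mid_mem hz
  have hle : -p0 ≤ p0 := by linarith [p0_pos]
  have hpos := lp_nonneg hz
  have hqos := lq_nonneg hz
  have hz0 := z0_pos
  -- continuity
  have c1 := slice_cont h.cw hzs
  have c2 := slice_cont h.cw z0_mem
  have c3' := slice_cont h.cw nz0_mem
  have p1 := slice_cont h.cp hzs
  have p2 := slice_cont h.cp z0_mem
  have p3 := slice_cont h.cp nz0_mem
  have q1 := slice_cont h.cz hzs
  have q2 := slice_cont h.cz z0_mem
  have q3 := slice_cont h.cz nz0_mem
  have ii : ∀ {f : ℝ → ℝ}, ContinuousOn f (Icc (-p0) p0) →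
      IntervalIntegrable f volume (-p0) p0 := fun {f} hf =>
    ContinuousOn.intervalIntegrable (by rwa [uIcc_of_le hle])
  -- the three tests
  have t1 := h.lm z hz (fun a => w a z - (lp z * w a z0 + lq z * w a (-z0)))
    (fun a => wp a z - (lp z * wp a z0 + lq z * wp a (-z0)))
    (fun a ha => (h.dp a ha z hzs).sub (((h.dp a ha z0 z0_mem).const_mul _).add
      ((h.dp a ha (-z0) nz0_mem).const_mul _)))
    (p1.sub ((continuousOn_const.mul p2).add (continuousOn_const.mul p3)))
    (fun a ha => by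
      have := h.cc a ha z hz
      unfold rl at this
      linarith)
    (by
      rw [(h.b1 z hz).2, (h.b1 z0 ⟨by linarith, le_refl _⟩).2,
        (h.b1 (-z0) ⟨le_refl _, by linarith⟩).2]
      ring)
    (by
      rw [(h.b1 z hz).1, (h.b1 z0 ⟨by linarith, le_refl _⟩).1,
        (h.b1 (-z0) ⟨le_refl _, by linarith⟩).1]
      ring)
  have t2 := h.lm z0 ⟨by linarith, le_refl _⟩ (fun a => lp z * w a z) (fun a => lp z * wp a z)
    (fun a ha => (h.dp a ha z hzs).const_mul _) (continuousOn_const.mul p1)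
    (fun a ha => mul_nonneg hpos (h.nn a ha z (mid_lens ha hz)))
    (by rw [(h.b1 z hz).2, mul_zero]) (by rw [(h.b1 z hz).1, mul_zero])
  have t3 := h.lm (-z0) ⟨le_refl _, by linarith⟩ (fun a => lq z * w a z)
    (fun a => lq z * wp a z)
    (fun a ha => (h.dp a ha z hzs).const_mul _) (continuousOn_const.mul p1)
    (fun a ha => mul_nonneg hqos (h.nn a ha z (mid_lens ha hz)))
    (by rw [(h.b1 z hz).2, mul_zero]) (by rw [(h.b1 z hz).1, mul_zero])
  rw [kh_neg, kh_z0] at t3
  rw [kh_z0] at t2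
  have hsum : (∫ a in (-p0)..p0, (-w a z + z * wz a z - kh z) *
        (w a z - (lp z * w a z0 + lq z * w a (-z0)))) +
      (∫ a in (-p0)..p0, (-w a z0 + z0 * wz a z0 - 0) * (lp z * w a z)) +
      (∫ a in (-p0)..p0, (-w a (-z0) + -z0 * wz a (-z0) - 0) * (lq z * w a z)) ≤
      -∫ a in (-p0)..p0, wp a z ^ 2 := by
    have e1 : -(∫ a in (-p0)..p0, wp a z ^ 2) =
        -(∫ a in (-p0)..p0, wp a z * (wp a z - (lp z * wp a z0 + lq z * wp a (-z0)))) +
        -(∫ a in (-p0)..p0, wp a z0 * (lp z * wp a z)) +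
        -(∫ a in (-p0)..p0, wp a (-z0) * (lq z * wp a z)) := by
      rw [← neg_add, ← neg_add, ← intervalIntegral.integral_add, ← intervalIntegral.integral_add]
      · congr 1
        refine intervalIntegral.integral_congr fun a _ => ?_
        ring
      · exact (ii (p1.mul (p1.sub ((continuousOn_const.mul p2).add
          (continuousOn_const.mul p3))))).add (ii (p2.mul (continuousOn_const.mul p1)))
      · exact ii (p3.mul (continuousOn_const.mul p1))
      · exact ii (p1.mul (p1.sub ((continuousOn_const.mul p2).add (continuousOn_const.mul p3))))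
      · exact ii (p2.mul (continuousOn_const.mul p1))
    rw [e1]
    linarith
  -- the integrand
  have i1 : IntervalIntegrable (fun a => (-w a z + z * wz a z - kh z) *
        (w a z - (lp z * w a z0 + lq z * w a (-z0)))) volume (-p0) p0 :=
    ii (((c1.neg.add (continuousOn_const.mul q1)).sub continuousOn_const).mul
      (c1.sub ((continuousOn_const.mul c2).add (continuousOn_const.mul c3'))))
  have i2 : IntervalIntegrable (fun a => (-w a z0 + z0 * wz a z0 - 0) * (lp z * w a z))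
      volume (-p0) p0 :=
    ii (((c2.neg.add (continuousOn_const.mul q2)).sub continuousOn_const).mul
      (continuousOn_const.mul c1))
  have i3 : IntervalIntegrable (fun a => (-w a (-z0) + -z0 * wz a (-z0) - 0) * (lq z * w a z))
      volume (-p0) p0 :=
    ii (((c3'.neg.add (continuousOn_const.mul q3)).sub continuousOn_const).mul
      (continuousOn_const.mul c1))
  have i4 : IntervalIntegrable (fun a => w a z ^ 2) volume (-p0) p0 := ii (c1.pow 2)
  have i5 : IntervalIntegrable (fun a => wp a z ^ 2) volume (-p0) p0 := ii (p1.pow 2)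
  have hmono : ∫ a in (-p0)..p0, (z * wz a z * (w a z - rl (w a) z) -
      kh z * (w a z - rl (w a) z) -
      z0 * (lp z * |wz a z0| + lq z * |wz a (-z0)|) * w a z) ≤
      ∫ a in (-p0)..p0, ((-w a z + z * wz a z - kh z) *
        (w a z - (lp z * w a z0 + lq z * w a (-z0))) +
        (-w a z0 + z0 * wz a z0 - 0) * (lp z * w a z) +
        (-w a (-z0) + -z0 * wz a (-z0) - 0) * (lq z * w a z) + w a z ^ 2) := by
    refine intervalIntegral.integral_mono_on hle ?_ (((i1.add i2).add i3).add i4) ?_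
    · refine ii ?_
      unfold rl
      refine ((((continuousOn_const.mul q1).mul (c1.sub ((continuousOn_const.mul c2).add
        (continuousOn_const.mul c3')))).sub (continuousOn_const.mul (c1.sub
        ((continuousOn_const.mul c2).add (continuousOn_const.mul c3'))))).sub
        ((continuousOn_const.mul ((continuousOn_const.mul q2.abs).add
        (continuousOn_const.mul q3.abs))).mul c1))
    · intro a ha
      have hw := h.nn a ha z (mid_lens ha hz)
      have h1 : -|wz a z0| ≤ wz a z0 := neg_abs_le _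
      have h2 : -|wz a (-z0)| ≤ -wz a (-z0) := by linarith [le_abs_self (wz a (-z0))]
      have h3 : 0 ≤ z0 * lp z * w a z := by positivity
      have h4 : 0 ≤ z0 * lq z * w a z := by positivity
      have h5 := mul_le_mul_of_nonneg_left h1 h3
      have h6 := mul_le_mul_of_nonneg_left h2 h4
      unfold rl
      nlinarith
  rw [intervalIntegral.integral_add ((i1.add i2).add i3) i4,
    intervalIntegral.integral_add (i1.add i2) i3, intervalIntegral.integral_add i1 i2] at hmono
  rw [intervalIntegral.integral_sub i5 i4]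
  linarith

/-- the energy of a latitude circle in the lens -/
theorem lat_lens (h : Cyl w wp wz) {b : ℝ} (hb : b ∈ Icc 0 p0) {z : ℝ} (hz : |z| = s * cos b) :
    -∫ a in (-b)..b, |z| * |wz a z| * w a z ≤ -∫ a in (-b)..b, (wp a z ^ 2 - w a z ^ 2) := by
  have hle : -b ≤ b := by linarith [hb.1]
  have hsub : Icc (-b) b ⊆ Icc (-p0) p0 := Icc_subset_Icc (by linarith [hb.2]) hb.2
  have hzs : z ∈ Icc (-s) s := by
    rw [mem_Icc, ← abs_le, hz]
    have := Real.cos_le_one b
    nlinarith [s_pos]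
  have c1 := (slice_cont h.cw hzs).mono hsub
  have p1 := (slice_cont h.cp hzs).mono hsub
  have q1 := (slice_cont h.cz hzs).mono hsub
  have ii : ∀ {f : ℝ → ℝ}, ContinuousOn f (Icc (-b) b) →
      IntervalIntegrable f volume (-b) b := fun {f} hf =>
    ContinuousOn.intervalIntegrable (by rwa [uIcc_of_le hle])
  have hcos : ∀ a ∈ Icc (-b) b, |z| ≤ s * cos a := by
    intro a ha
    rw [hz]
    refine mul_le_mul_of_nonneg_left ?_ s_pos.le
    rw [← Real.cos_abs a]
    exact Real.cos_le_cos_of_nonneg_of_le_pi (abs_nonneg _)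
      (by linarith [hb.2, p0_lt, Real.pi_pos]) (abs_le.mpr ha)
  have t := h.ll b hb z hz (fun a => w a z) (fun a => wp a z)
    (fun a ha => h.dp a (hsub ha) z hzs) p1 (fun a ha => h.nn a (hsub ha) z (hcos a ha))
    (h.b2 (-b) (hsub ⟨le_refl _, hle⟩) z (by rw [Real.cos_neg]; exact hz))
    (h.b2 b (hsub ⟨hle, le_refl _⟩) z hz)
  have i1 : IntervalIntegrable (fun a => (-w a z + z * wz a z) * w a z) volume (-b) b :=
    ii ((c1.neg.add (continuousOn_const.mul q1)).mul c1)
  have i4 : IntervalIntegrable (fun a => w a z ^ 2) volume (-b) b := ii (c1.pow 2)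
  have i5 : IntervalIntegrable (fun a => wp a z ^ 2) volume (-b) b := ii (p1.pow 2)
  have i6 : IntervalIntegrable (fun a => |z| * |wz a z| * w a z) volume (-b) b :=
    ii ((continuousOn_const.mul q1.abs).mul c1)
  have e5 : ∫ a in (-b)..b, wp a z * wp a z = ∫ a in (-b)..b, wp a z ^ 2 :=
    intervalIntegral.integral_congr fun a _ => (sq _).symm
  rw [e5] at t
  have hmono : ∫ a in (-b)..b, -(|z| * |wz a z| * w a z) ≤
      ∫ a in (-b)..b, ((-w a z + z * wz a z) * w a z + w a z ^ 2) := by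
    refine intervalIntegral.integral_mono_on hle i6.neg (i1.add i4) ?_
    intro a ha
    have hw := h.nn a (hsub ha) z (hcos a ha)
    have h1 : -(|z| * |wz a z|) ≤ z * wz a z := by
      rw [← abs_mul]
      exact neg_abs_le _
    nlinarith [mul_le_mul_of_nonneg_right h1 hw]
  rw [intervalIntegral.integral_add i1 i4, intervalIntegral.integral_neg] at hmono
  rw [intervalIntegral.integral_sub i5 i4]
  linarith

end Helper96.MEI
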