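import Pool.Agent.Helper96.MEI.Rr4c
import Pool.Agent.Helper72.MEI.Rr3

/-!
# The residual masses with the exact leaks of two nodes

`rr_mass4 : Id (rr_j) ≤ wc4 N j l k` (drop-in for `rr_mass3`).
-/

namespace Pool.Agent.Helper96.Rr4

open Set MeasureTheory Pool.Agent.Helper55.Sx Pool.Agent.Helper55.Mass Pool.Agent.Helper55.Apex
  Pool.Agent.Helper55.Fill Pool.Agent.Helper72.Ov

variable {N : Fin 3 → Fin 3 → ℝ} {b : Fin 3 → ℝ}

theorem LN_perm (N : Fin 3 → Fin 3 → ℝ) (x : Fin 3 → ℝ) {l j k : Fin 3} (hlj : l ≠ j)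
    (hlk : l ≠ k) (hjk : j ≠ k) (m : Fin 3) :
    LN N x m = N m l * x l + N m j * x j + N m k * x k := by
  unfold LN
  fin_cases l <;> fin_cases j <;> fin_cases k <;> simp only [Fin.zero_eta, Fin.mk_one,
    Fin.reduceFinMk, ne_eq, not_true_eq_false] at hlj hlk hjk ⊢ <;> ring

/-- the residual in terms of the exact filling -/
theorem rr_tu (hN : ∀ k m, 0 ≤ N k m) {c : ℝ} (hc : c < 1) (hcol : ∀ m, nc N m ≤ c)
    (hb : ∀ k, 0 ≤ b k) {j l k : Fin 3} (hjl : j ≠ l) (hjk : j ≠ k) (hlk : l ≠ k) :
    rr N b j ≤ max ((1 - tu N b l) * b j) ((1 - tu N b k) * b j) := by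
  have hl1 := tu_le_one (N := N) hb l
  have hbj := hb j
  have ml : (1 - tu N b l) * b j ≤ max ((1 - tu N b l) * b j) ((1 - tu N b k) * b j) :=
    le_max_left _ _
  have mk : (1 - tu N b k) * b j ≤ max ((1 - tu N b l) * b j) ((1 - tu N b k) * b j) :=
    le_max_right _ _
  have m0 : 0 ≤ max ((1 - tu N b l) * b j) ((1 - tu N b k) * b j) :=
    (mul_nonneg (sub_nonneg.2 hl1) hbj).trans (le_max_left _ _)
  unfold rr
  rw [LN_xx]
  have hcase : tq N b = tu N b j ∨ tq N b = tu N b l ∨ tq N b = tu N b k := by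
    have hi : ∀ i : Fin 3, i = j ∨ i = l ∨ i = k := by
      intro i
      revert hjl hjk hlk
      clear * -
      revert i j l k
      decide
    rcases tq_eq (N := N) (b := b) with h | h | h <;> rw [h]
    · rcases hi 0 with h' | h' | h' <;> rw [h'] <;> simp
    · rcases hi 1 with h' | h' | h' <;> rw [h'] <;> simp
    · rcases hi 2 with h' | h' | h' <;> rw [h'] <;> simp
  rcases lt_or_ge (b j) (LN N (uu N b) j) with h | h
  · have h0 := uu_zero hN hc hcol h
    have h3 : xx N b j = 0 := by rw [xx, h0, mul_zero]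
    rw [h3, zero_add]
    rcases hcase with h4 | h4 | h4
    · have h1 : tu N b j = b j / LN N (uu N b) j := by
        unfold tu
        rw [if_pos h]
      have hL : 0 < LN N (uu N b) j := lt_of_le_of_lt (hb j) h
      rw [h4, h1, div_mul_cancel₀ _ hL.ne']
      linarith
    · have h5 : tq N b * b j ≤ tq N b * LN N (uu N b) j :=
        mul_le_mul_of_nonneg_left h.le (tq_nonneg hN hc hcol hb)
      rw [h4] at h5 ⊢
      linarith
    · have h5 : tq N b * b j ≤ tq N b * LN N (uu N b) j :=
        mul_le_mul_of_nonneg_left h.le (tq_nonneg hN hc hcol hb)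
      rw [h4] at h5 ⊢
      linarith
  · have h1 := uu_exact hN hc hcol h
    have e : b j - (xx N b j + tq N b * LN N (uu N b) j) = (1 - tq N b) * b j := by
      have : xx N b j + tq N b * LN N (uu N b) j = tq N b * b j := by
        rw [xx, ← mul_add, h1]
      rw [this]; ring
    rw [e]
    rcases hcase with h4 | h4 | h4
    · have h5 : tu N b j = 1 := by
        unfold tu
        rw [if_neg (not_lt.2 h)]
      rw [h4, h5]
      linarith
    · rw [h4]
      exact ml
    · rw [h4]
      exact mk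

/-- the leak of the exact filling into a violated wall -/
theorem LN_uu_Lb (hN : ∀ k m, 0 ≤ N k m) (hd : ∀ k, N k k = 0) {c : ℝ} (hc : c < 1)
    (hcol : ∀ m, nc N m ≤ c) (hb : ∀ k, 0 ≤ b k) {j l k : Fin 3} (hjl : j ≠ l) (hjk : j ≠ k)
    (hlk : l ≠ k) (h : b l < LN N (uu N b) l) :
    LN N (uu N b) l ≤ Lb (N l j) (N l k) (N j k) (N k j) (b j) (b k) := by
  have h0 := uu_zero hN hc hcol h
  have uj := uu_nonneg hN hc hcol b j
  have uk := uu_nonneg hN hc hcol b k
  have uj' := uu_le hN hc hcol hb j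
  have uk' := uu_le hN hc hcol hb k
  have fj := uu_F hN hc hcol b j
  have fk := uu_F hN hc hcol b k
  have gj := uu_ge hN hc hcol b j
  have gk := uu_ge hN hc hcol b k
  have P := fun m => LN_perm N (uu N b) (Ne.symm hjl) hlk hjk m
  rw [P j, h0, hd j] at fj gj
  rw [P k, h0, hd k] at fk gk
  have el : LN N (uu N b) l = N l j * uu N b j + N l k * uu N b k := by
    rw [P l, h0, hd l]
    ring
  rw [el]
  have p0 := hN j k
  have q0 := hN k j
  have x1 : uu N b j ≤ pp (b j - N j k * b k) + N j k * N k j * b j := by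
    rw [fj]
    have e1 : 0 ≤ N j k * N k j * b j := mul_nonneg (mul_nonneg p0 q0) (hb j)
    refine max_le ?_ (add_nonneg (pp_nonneg _) e1)
    have e2 : b k - N k j * b j ≤ uu N b k := by
      have := mul_le_mul_of_nonneg_left uj' q0
      linarith
    have e3 := mul_le_mul_of_nonneg_left e2 p0
    have e4 := le_pp (b j - N j k * b k)
    have e5 : N j k * (b k - N k j * b j) = N j k * b k - N j k * N k j * b j := by ring
    linarith
  have x2 : uu N b k ≤ pp (b k - N k j * b j) + N j k * N k j * b k := by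
    rw [fk]
    have e1 : 0 ≤ N j k * N k j * b k := mul_nonneg (mul_nonneg p0 q0) (hb k)
    refine max_le ?_ (add_nonneg (pp_nonneg _) e1)
    have e2 : b j - N j k * b k ≤ uu N b j := by
      have := mul_le_mul_of_nonneg_left uk' p0
      linarith
    have e3 := mul_le_mul_of_nonneg_left e2 q0
    have e4 := le_pp (b k - N k j * b j)
    have e5 : N k j * (b j - N j k * b k) = N k j * b j - N j k * N k j * b k := by ring
    linarith
  exact le_min (add_le_add (mul_le_mul_of_nonneg_left x1 (hN l j))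
    (mul_le_mul_of_nonneg_left x2 (hN l k))) (add_le_add (mul_le_mul_of_nonneg_left uj' (hN l j))
    (mul_le_mul_of_nonneg_left uk' (hN l k)))

/-- the wall function -/
noncomputable def G (a b p q x y z : ℝ) : ℝ :=
  if x < Lb a b p q y z then (1 - x / Lb a b p q y z) * y else 0

theorem G_nonneg {a b p q x y z : ℝ} (hx : 0 ≤ x) (hy : 0 ≤ y) : 0 ≤ G a b p q x y z := by
  unfold G
  split_ifs with h
  · have hL : 0 < Lb a b p q y z := lt_of_le_of_lt hx h
    have : x / Lb a b p q y z ≤ 1 := by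
      rw [div_le_one hL]; exact h.le
    exact mul_nonneg (by linarith) hy
  · exact le_rfl

theorem G_le {a b p q x y z : ℝ} (hx : 0 ≤ x) (hy : 0 ≤ y) : G a b p q x y z ≤ y := by
  unfold G
  split_ifs with h
  · have hL : 0 < Lb a b p q y z := lt_of_le_of_lt hx h
    have : 0 ≤ x / Lb a b p q y z := div_nonneg hx hL.le
    exact mul_le_of_le_one_left hy (by linarith)
  · exact hy

/-- the loss of a wall is at most the wall function -/
theorem tu_G (hN : ∀ k m, 0 ≤ N k m) (hd : ∀ k, N k k = 0) {c : ℝ} (hc : c < 1)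
    (hcol : ∀ m, nc N m ≤ c) (hb : ∀ k, 0 ≤ b k) {j l k : Fin 3} (hjl : j ≠ l) (hjk : j ≠ k)
    (hlk : l ≠ k) :
    (1 - tu N b l) * b j ≤ G (N l j) (N l k) (N j k) (N k j) (b l) (b j) (b k) := by
  rcases lt_or_ge (b l) (LN N (uu N b) l) with h | h
  · have h1 := LN_uu_Lb hN hd hc hcol hb hjl hjk hlk h
    have h2 : tu N b l = b l / LN N (uu N b) l := by
      unfold tu
      rw [if_pos h]
    have hL : 0 < LN N (uu N b) l := lt_of_le_of_lt (hb l) h
    unfold G
    rw [if_pos (lt_of_lt_of_le h h1), h2]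
    refine mul_le_mul_of_nonneg_right ?_ (hb j)
    have := div_le_div_of_nonneg_left (hb l) hL h1
    linarith
  · have h2 : tu N b l = 1 := by
      unfold tu
      rw [if_neg (not_lt.2 h)]
    rw [h2, sub_self, zero_mul]
    exact G_nonneg (hb l) (hb j)

/-- near the corner the wall function is at least the own function -/
theorem G_ge {a b p q x y z : ℝ} (ha : 0 < a) (hb : 0 ≤ b) (hp : 0 ≤ p) (hq : 0 ≤ q)
    (hx : 0 ≤ x) (hy : 0 ≤ y) (hz : 0 ≤ z) (hzq : z ≤ q * y) :
    y - x / a ≤ G a b p q x y z := by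
  rcases le_or_gt (a * y) x with h | h
  · have : y ≤ x / a := by
      rw [le_div_iff₀ ha]
      linarith
    have h2 := G_nonneg (a := a) (b := b) (p := p) (q := q) (z := z) hx hy
    linarith
  · have hL : a * y ≤ Lb a b p q y z := by
      refine le_min ?_ (by linarith [mul_nonneg hb hz])
      have e1 := le_pp (y - p * z)
      have e2 := pp_nonneg (z - q * y)
      have e3 : p * z ≤ p * (q * y) := mul_le_mul_of_nonneg_left hzq hp
      have e4 : y ≤ pp (y - p * z) + p * q * y := by linarith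
      have e5 := mul_le_mul_of_nonneg_left e4 ha.le
      have e6 : 0 ≤ b * (pp (z - q * y) + p * q * z) := by positivity
      linarith
    unfold G
    rw [if_pos (lt_of_lt_of_le h hL)]
    have hay : 0 < a * y := lt_of_le_of_lt hx h
    have hy' : 0 < y := by
      by_contra hneg
      have : a * y ≤ 0 := mul_nonpos_of_nonneg_of_nonpos ha.le (not_lt.1 hneg)
      linarith
    have e7 := div_le_div_of_nonneg_left hx hay hL
    have e8 := mul_le_mul_of_nonneg_right e7 hy
    have e9 : x / (a * y) * y = x / a := by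
      field_simp
    rw [sub_mul, one_mul]
    linarith

/-- permutation of the coordinates -/
theorem perm_int (F : ℝ → ℝ → ℝ → ℝ) {l j k : Fin 3} (hlj : l ≠ j) (hlk : l ≠ k) (hjk : j ≠ k) :
    ∫ t in Sim, F (vv t l) (vv t j) (vv t k) / mm t ^ 2
      = ∫ t in Sim, F t.1 t.2 (t3 t) / mm t ^ 2 := by
  set f : ℝ × ℝ → ℝ := fun t => F t.1 t.2 (t3 t) / mm t ^ 2 with hf
  have v0 : ∀ t : ℝ × ℝ, vv t 0 = t.1 := fun _ => rfl
  have v1 : ∀ t : ℝ × ℝ, vv t 1 = t.2 := fun _ => rfl
  have v2 : ∀ t : ℝ × ℝ, vv t 2 = t3 t := fun _ => rfl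
  have s1 : ∀ t : ℝ × ℝ, t3 (t.2, t.1) = t3 t := fun t => by simp only [t3]; ring
  have s2 : ∀ t : ℝ × ℝ, t3 (sh t) = t.1 := fun t => by simp only [t3, sh]; ring
  have s3 : ∀ t : ℝ × ℝ, (sh t).1 = t3 t := fun _ => rfl
  have s4 : ∀ t : ℝ × ℝ, (sh t).2 = t.2 := fun _ => rfl
  have s5 : ∀ t : ℝ × ℝ, t3 (t.1, t3 t) = t.2 := fun t => by simp only [t3]; ring
  have s6 : ∀ t : ℝ × ℝ, t3 (t.2, t3 t) = t.1 := fun t => by simp only [t3]; ring
  have m5 : ∀ t : ℝ × ℝ, mm (t.1, t3 t) = mm t := fun t => by simp only [mm, e2, t3]; ring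
  have m6 : ∀ t : ℝ × ℝ, mm (t.2, t3 t) = mm t := fun t => by simp only [mm, e2, t3]; ring
  have A := Sim_swap f
  have B := Sim_sh f
  have C := Sim_sh (fun t => f (t.2, t.1))
  have D := Sim_swap (fun t => f (sh t))
  have E := Sim_swap (fun t => f ((sh t).2, (sh t).1))
  fin_cases l <;> fin_cases j <;> fin_cases k <;> simp only [Fin.zero_eta, Fin.mk_one,
    Fin.reduceFinMk, ne_eq, not_true_eq_false] at hlj hlk hjk ⊢
  · rfl
  · -- (0, 2, 1)
    rw [← A, ← C, ← E]
    refine setIntegral_congr_fun Sim_meas fun t _ => ?_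
    simp only [hf, v0, v1, v2, s1, s3, s4, s5, m5]
  · -- (1, 0, 2)
    rw [← A]
    refine setIntegral_congr_fun Sim_meas fun t _ => ?_
    simp only [hf, v0, v1, v2, s1, mm_swap]
  · -- (1, 2, 0)
    rw [← A, ← C]
    refine setIntegral_congr_fun Sim_meas fun t _ => ?_
    simp only [hf, v0, v1, v2, s3, s4, s6, m6]
  · -- (2, 0, 1)
    rw [← B, ← D]
    refine setIntegral_congr_fun Sim_meas fun t _ => ?_
    simp only [hf, v0, v1, v2, s1, s2, s3, s4, mm_swap, mm_sh]
  · -- (2, 1, 0)
    rw [← B]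
    refine setIntegral_congr_fun Sim_meas fun t _ => ?_
    simp only [hf, v0, v1, v2, s2, s3, s4, mm_sh]

/-- the wall constant of the coordinate `j`: exact leaks of two nodes, second order, overlap -/
noncomputable def wc4 (N : Fin 3 → Fin 3 → ℝ) (j l k : Fin 3) : ℝ :=
  P3 (N l j) (N l k) (N j k) (N k j) + P3 (N k j) (N k l) (N j l) (N l j)
    - 0.2357 * (N l j * N k j) * (1 - 0.76 * (N l j + N k j))

/-- **mass of the residual, exact leaks of two nodes** -/
theorem rr_mass4 (hN : ∀ k m, 0 ≤ N k m) (hN' : ∀ k m, N k m ≤ 2 / 5)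
    (hd : ∀ k, N k k = 0) {c : ℝ} (hc : c < 1) (hcol : ∀ m, nc N m ≤ c)
    {j l k : Fin 3} (hjl : j ≠ l) (hjk : j ≠ k) (hlk : l ≠ k) :
    Id (fun t => rr N (vv t) j) ≤ wc4 N j l k := by
  set gl : ℝ × ℝ → ℝ := fun t => G (N l j) (N l k) (N j k) (N k j) (vv t l) (vv t j) (vv t k)
    with hgl
  set gk : ℝ × ℝ → ℝ := fun t => G (N k j) (N k l) (N j l) (N l j) (vv t k) (vv t j) (vv t l)
    with hgk
  have ml := perm_int (G (N l j) (N l k) (N j k) (N k j)) (Ne.symm hjl) hlk hjk
  have mk := perm_int (G (N k j) (N k l) (N j l) (N l j)) (Ne.symm hjk) (Ne.symm hlk) hjl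
  have wBG : ∀ a b p q : ℝ, ∀ t : ℝ × ℝ, G a b p q t.1 t.2 (t3 t) / mm t ^ 2 = wB a b p q t := by
    intro a b p q t
    unfold G wB
    split_ifs
    · rfl
    · simp
  simp only [wBG] at ml mk
  have bl := wB_mass (hN l j) (hN l k) (hN j k) (hN k j) (hN' l j) (hN' l k) (hN' j k) (hN' k j)
  have bk := wB_mass (hN k j) (hN k l) (hN j l) (hN l j) (hN' k j) (hN' k l) (hN' j l) (hN' l j)
  rw [← ml] at bl
  rw [← mk] at bk
  have Gm : ∀ (a b p q : ℝ) (x y z : Fin 3),
      Measurable fun t : ℝ × ℝ => G a b p q (vv t x) (vv t y) (vv t z) := by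
    intro a b p q x y z
    have hL : Measurable fun t : ℝ × ℝ => Lb a b p q (vv t y) (vv t z) :=
      (Lb_cont a b p q).measurable.comp ((vv_meas y).prodMk (vv_meas z))
    unfold G
    exact Measurable.ite (measurableSet_lt (vv_meas x) hL)
      ((measurable_const.sub ((vv_meas x).div hL)).mul (vv_meas y)) measurable_const
  have Gi : ∀ (a b p q : ℝ) (x y z : Fin 3),
      IntegrableOn (fun t : ℝ × ℝ => G a b p q (vv t x) (vv t y) (vv t z) / mm t ^ 2) Sim := by
    intro a b p q x y z
    refine intOn (C := 1) (Gm a b p q x y z) fun t ht => ?_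
    rw [abs_of_nonneg (G_nonneg (vv_nonneg ht x) (vv_nonneg ht y))]
    exact (G_le (vv_nonneg ht x) (vv_nonneg ht y)).trans (vv_le ht y)
  have il := Gi (N l j) (N l k) (N j k) (N k j) l j k
  have ik := Gi (N k j) (N k l) (N j l) (N l j) k j l
  have hrr : ∀ t ∈ Sim, rr N (vv t) j ≤ max (gl t) (gk t) := fun t ht =>
    (rr_tu hN hc hcol (fun k => vv_nonneg ht k) hjl hjk hlk).trans (max_le_max
      (tu_G hN hd hc hcol (fun k => vv_nonneg ht k) hjl hjk hlk)
      (tu_G hN hd hc hcol (fun k => vv_nonneg ht k) hjk hjl (Ne.symm hlk)))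
  have g0 : ∀ t ∈ Sim, 0 ≤ gl t ∧ 0 ≤ gk t := fun t ht =>
    ⟨G_nonneg (vv_nonneg ht l) (vv_nonneg ht j), G_nonneg (vv_nonneg ht k) (vv_nonneg ht j)⟩
  have h0 : (0 : ℝ) ≤ 1 / √2 := by positivity
  have hsq2 : √2 ≤ (1.41422 : ℝ) := by
    rw [Real.sqrt_le_left (by norm_num)]
    norm_num
  have hr2 : 1 / 1.41422 ≤ 1 / √2 := one_div_le_one_div_of_le (by positivity) hsq2
  have y1 := integral_add il ik
  by_cases hab : N l j * N k j = 0
  · have hle : ∫ t in Sim, rr N (vv t) j / mm t ^ 2
        ≤ ∫ t in Sim, (gl t / mm t ^ 2 + gk t / mm t ^ 2) := by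
      refine setIntegral_mono_on (rr_int hN hc hcol j) (il.add ik) Sim_meas fun t ht => ?_
      have hm : 0 ≤ mm t ^ 2 := by positivity
      obtain ⟨g1, g2⟩ := g0 t ht
      have h1 : rr N (vv t) j ≤ gl t + gk t :=
        (hrr t ht).trans (max_le (by linarith) (by linarith))
      refine (div_le_div_of_nonneg_right h1 hm).trans (le_of_eq ?_)
      ring
    rw [y1] at hle
    have h1 := mul_le_mul_of_nonneg_left hle h0
    rw [mul_add] at h1
    unfold Pool.Agent.Helper55.Mass.Id wc4
    rw [hab]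
    linarith
  · have a0 := hN l j
    have b0 := hN k j
    have ap : 0 < N l j := lt_of_le_of_ne a0 fun h => hab (by rw [← h, zero_mul])
    have bp : 0 < N k j := lt_of_le_of_ne b0 fun h => hab (by rw [← h, mul_zero])
    have a1 : N l j ≤ 0.4 := (hN' l j).trans (by norm_num)
    have b1 : N k j ≤ 0.4 := (hN' k j).trans (by norm_num)
    have hg := phi_ge hjl hjk hlk ap bp a1 b1
    have ip := phi_int (j := j) (l := l) (k := k) (b := N k j) ap
    have hle : ∫ t in Sim, rr N (vv t) j / mm t ^ 2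
        ≤ ∫ t in Sim, (gl t / mm t ^ 2 + gk t / mm t ^ 2
          - phi j l k (N l j) (N k j) t / mm t ^ 2) := by
      refine setIntegral_mono_on (rr_int hN hc hcol j) ((il.add ik).sub ip) Sim_meas
        fun t ht => ?_
      have hm : 0 ≤ mm t ^ 2 := by positivity
      obtain ⟨g1, g2⟩ := g0 t ht
      have xj := vv_nonneg ht j
      have xl := vv_nonneg ht l
      have xk := vv_nonneg ht k
      have hphi : phi j l k (N l j) (N k j) t ≤ min (gl t) (gk t) := by
        rcases le_or_gt (vv t j - max (vv t l / N l j) (vv t k / N k j)) 0 with h | h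
        · have : phi j l k (N l j) (N k j) t = 0 := max_eq_right h
          rw [this]
          exact le_min g1 g2
        · have e0 : phi j l k (N l j) (N k j) t
              = vv t j - max (vv t l / N l j) (vv t k / N k j) := max_eq_left h.le
          have m1 := le_max_left (vv t l / N l j) (vv t k / N k j)
          have m2 := le_max_right (vv t l / N l j) (vv t k / N k j)
          have u1 : vv t l ≤ N l j * vv t j := by
            have : vv t l / N l j ≤ vv t j := by linarith
            rw [div_le_iff₀ ap] at this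
            linarith
          have u2 : vv t k ≤ N k j * vv t j := by
            have : vv t k / N k j ≤ vv t j := by linarith
            rw [div_le_iff₀ bp] at this
            linarith
          have w1 := G_ge (b := N l k) (p := N j k) ap (hN l k) (hN j k) (hN k j) xl xj xk u2
          have w2 := G_ge (b := N k l) (p := N j l) bp (hN k l) (hN j l) (hN l j) xk xj xl u1
          rw [e0]
          exact le_min (by linarith) (by linarith)
      have h1 : rr N (vv t) j ≤ gl t + gk t - phi j l k (N l j) (N k j) t := by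
        have e : max (gl t) (gk t) = gl t + gk t - min (gl t) (gk t) := by
          rw [eq_sub_iff_add_eq]
          exact max_add_min _ _
        have := hrr t ht
        rw [e] at this
        linarith
      refine (div_le_div_of_nonneg_right h1 hm).trans (le_of_eq ?_)
      ring
    have y2 := integral_sub (il.add ik) ip
    simp only [Pi.add_apply] at y2
    rw [y2, y1] at hle
    have h1 := mul_le_mul_of_nonneg_left hle h0
    rw [mul_sub, mul_add] at h1
    have h2 := mul_le_mul_of_nonneg_left hg h0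
    have h3 : 0.2357 * (N l j * N k j) * (1 - 0.76 * (N l j + N k j))
        ≤ 1 / √2 * (N l j * N k j / 3 * (1 - 0.76 * (N l j + N k j))) := by
      have h4 : 0 ≤ N l j * N k j * (1 - 0.76 * (N l j + N k j)) :=
        mul_nonneg (mul_nonneg a0 b0) (by linarith)
      have h5 : (0.2357 : ℝ) ≤ 1 / √2 / 3 := by linarith
      have h6 := mul_le_mul_of_nonneg_right h5 h4
      linarith
    unfold Pool.Agent.Helper55.Mass.Id wc4
    linarith

end Pool.Agent.Helper96.Rr4
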