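import Pool.Agent.Helper96.MEI.E2b

/-!
# Project MEI, regime I: (E2), assembly
-/

namespace Helper96.MEI

open Set MeasureTheory Real Helper22.MEI
open Pool.Agent.Helper55.MEI (nz nz_pos nz_sq nz_neg nz_cont c0 om om_pos om_neg om_cont Wz Wz_om
  Wz_cont)

variable {w wp wz : ℝ → ℝ → ℝ}

theorem gA_cont (h : Cyl w wp wz) :
    ContinuousOn (Function.uncurry fun a z => Wz z * w a z) (Icc (-p0) p0 ×ˢ Icc (-s) s) :=
  (cont_snd Wz_cont).mul h.cw

theorem gA1_cont (h : Cyl w wp wz) :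
    ContinuousOn (Function.uncurry fun a z => Wz z * (rl (w a) z + (w a z - rl (w a) z) / 2))
      (Icc (-p0) p0 ×ˢ Icc (-s) s) :=
  (cont_snd Wz_cont).mul ((rl_cont h).add ((h.cw.sub (rl_cont h)).div_const 2))

theorem gB_cont (h : Cyl w wp wz) :
    ContinuousOn (Function.uncurry fun a z => 2 * w a z / (1 + z ^ 2) ^ 2)
      (Icc (-p0) p0 ×ˢ Icc (-s) s) := by
  have h1 : Continuous fun z : ℝ => (1 + z ^ 2) ^ 2 := by fun_prop
  have h2 := cont_snd h1
  refine ContinuousOn.div (continuousOn_const.mul h.cw) h2 ?_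
  rintro ⟨a, z⟩ _
  show (1 + z ^ 2) ^ 2 ≠ 0
  positivity

theorem gD_cont (h : Cyl w wp wz) :
    ContinuousOn (Function.uncurry fun a z => wz a z ^ 2 / nz z) (Icc (-p0) p0 ×ˢ Icc (-s) s) :=
  ContinuousOn.div (h.cz.pow 2) (cont_snd nz_cont) fun _ _ => (nz_pos _).ne'

theorem gM_cont (h : Cyl w wp wz) :
    ContinuousOn (Function.uncurry fun a z => om z * (-(z * wz a z * (w a z - rl (w a) z)) +
      z0 * (lp z * |wz a z0| + lq z * |wz a (-z0)|) * w a z)) (Icc (-p0) p0 ×ˢ Icc (-s) s) :=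
  (cont_snd om_cont).mul (((((cont_snd continuous_id).mul h.cz).mul (h.cw.sub (rl_cont h))).neg).add
    ((continuousOn_const.mul (ml_cont h)).mul h.cw))

theorem gL_cont (h : Cyl w wp wz) :
    ContinuousOn (Function.uncurry fun a z => om z * (|z| * |wz a z| * w a z))
      (Icc (-p0) p0 ×ˢ Icc (-s) s) :=
  (cont_snd om_cont).mul (((cont_snd continuous_abs).mul h.cz.abs).mul h.cw)

theorem gP_cont (h : Cyl w wp wz) :
    ContinuousOn (Function.uncurry fun a z => om z * (wp a z ^ 2 - w a z ^ 2))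
      (Icc (-p0) p0 ×ˢ Icc (-s) s) :=
  (cont_snd om_cont).mul ((h.cp.pow 2).sub (h.cw.pow 2))

/-- one slice -/
theorem DS_sub_FS (h : Cyl w wp wz) {a : ℝ} (ha : a ∈ Icc (-p0) p0) :
    DS (s * Real.cos a) (w a) (wz a) (wp a) - FS (s * Real.cos a) (w a) (wz a) =
    (∫ z in (-z0)..z0, Gm w wp wz a z) + (∫ z in z0..(s * Real.cos a), Gl w wp wz 1 a z) +
      ∫ z in z0..(s * Real.cos a), Gl w wp wz (-1) a z := by
  have me := e_mem ha
  have mne := ne_mem ha
  have mz := z0_mem
  have mnz := nz0_mem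
  have iA := iz (gA_cont h) ha mnz mz
  have iA1 := iz (gA1_cont h) ha mnz mz
  have iM := iz (gM_cont h) ha mnz mz
  have iP := iz (gP_cont h) ha mnz mz
  have iP1 := iz (gP_cont h) ha mz me
  have iP2 := iz (gP_cont h) ha mne mnz
  have iL1 := iz (gL_cont h) ha mz me
  have iL2 := iz (gL_cont h) ha mne mnz
  have e1 : ∫ z in (-z0)..z0, Gm w wp wz a z =
      (∫ z in (-z0)..z0, Wz z * w a z) -
      (∫ z in (-z0)..z0, Wz z * (rl (w a) z + (w a z - rl (w a) z) / 2)) +
      (∫ z in (-z0)..z0, om z * (-(z * wz a z * (w a z - rl (w a) z)) +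
        z0 * (lp z * |wz a z0| + lq z * |wz a (-z0)|) * w a z)) -
      ∫ z in (-z0)..z0, om z * (wp a z ^ 2 - w a z ^ 2) := by
    rw [← intervalIntegral.integral_sub iA iA1, ← intervalIntegral.integral_add (iA.sub iA1) iM,
      ← intervalIntegral.integral_sub ((iA.sub iA1).add iM) iP]
    refine intervalIntegral.integral_congr fun z _ => ?_
    have hk := om_kh z
    show Gm w wp wz a z = _
    unfold Gm
    linear_combination (w a z - rl (w a) z) * hk
  have e2 : ∫ z in z0..(s * Real.cos a), Gl w wp wz 1 a z =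
      (∫ z in z0..(s * Real.cos a), om z * (|z| * |wz a z| * w a z)) -
      ∫ z in z0..(s * Real.cos a), om z * (wp a z ^ 2 - w a z ^ 2) := by
    rw [← intervalIntegral.integral_sub iL1 iP1]
    refine intervalIntegral.integral_congr fun z _ => ?_
    show Gl w wp wz 1 a z = _
    unfold Gl
    rw [one_mul]
    ring
  have e3 : ∫ z in z0..(s * Real.cos a), Gl w wp wz (-1) a z =
      (∫ z in (-(s * Real.cos a))..(-z0), om z * (|z| * |wz a z| * w a z)) -
      ∫ z in (-(s * Real.cos a))..(-z0), om z * (wp a z ^ 2 - w a z ^ 2) := by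
    rw [← intervalIntegral.integral_sub iL2 iP2]
    rw [← intervalIntegral.integral_comp_neg (fun z => om z * (|z| * |wz a z| * w a z) -
      om z * (wp a z ^ 2 - w a z ^ 2))]
    refine intervalIntegral.integral_congr fun z _ => ?_
    show Gl w wp wz (-1) a z = om (-z) * (|(-z)| * |wz a (-z)| * w a (-z)) -
      om (-z) * (wp a (-z) ^ 2 - w a (-z) ^ 2)
    unfold Gl
    rw [om_neg, abs_neg, neg_one_mul]
    ring
  have e4 : ∫ z in (-(s * Real.cos a))..(s * Real.cos a), om z * (wp a z ^ 2 - w a z ^ 2) =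
      (∫ z in (-(s * Real.cos a))..(-z0), om z * (wp a z ^ 2 - w a z ^ 2)) +
      (∫ z in (-z0)..z0, om z * (wp a z ^ 2 - w a z ^ 2)) +
      ∫ z in z0..(s * Real.cos a), om z * (wp a z ^ 2 - w a z ^ 2) := by
    rw [intervalIntegral.integral_add_adjacent_intervals iP2 iP,
      intervalIntegral.integral_add_adjacent_intervals (iP2.trans iP) iP1]
  unfold DS FS
  rw [e1, e2, e3, e4]
  ring

theorem DS_cont (h : Cyl w wp wz) :
    ContinuousOn (fun a => DS (s * Real.cos a) (w a) (wz a) (wp a)) (Icc (-p0) p0) := by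
  have cz0 : Continuous fun _ : ℝ => z0 := continuous_const
  have cnz0 : Continuous fun _ : ℝ => -z0 := continuous_const
  have ce := e_cont
  have cne := e_cont.neg
  unfold DS
  exact ((((param_cont (gA_cont h) cnz0 cz0 (fun _ _ => nz0_mem) fun _ _ => z0_mem).sub
    (param_cont (gB_cont h) cz0 ce (fun _ _ => z0_mem) fun _ ha => e_mem ha)).sub
    (param_cont (gB_cont h) cne cnz0 (fun _ ha => ne_mem ha) fun _ _ => nz0_mem)).sub
    (param_cont (gD_cont h) cne ce (fun _ ha => ne_mem ha) fun _ ha => e_mem ha)).sub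
    (param_cont (gP_cont h) cne ce (fun _ ha => ne_mem ha) fun _ ha => e_mem ha)

theorem FS_cont (h : Cyl w wp wz) :
    ContinuousOn (fun a => FS (s * Real.cos a) (w a) (wz a)) (Icc (-p0) p0) := by
  have cz0 : Continuous fun _ : ℝ => z0 := continuous_const
  have cnz0 : Continuous fun _ : ℝ => -z0 := continuous_const
  have ce := e_cont
  have cne := e_cont.neg
  unfold FS
  exact ((((((param_cont (gA1_cont h) cnz0 cz0 (fun _ _ => nz0_mem) fun _ _ => z0_mem).sub
    (param_cont (gB_cont h) cz0 ce (fun _ _ => z0_mem) fun _ ha => e_mem ha)).sub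
    (param_cont (gB_cont h) cne cnz0 (fun _ ha => ne_mem ha) fun _ _ => nz0_mem)).sub
    (param_cont (gD_cont h) cne ce (fun _ ha => ne_mem ha) fun _ ha => e_mem ha)).sub
    (param_cont (gM_cont h) cnz0 cz0 (fun _ _ => nz0_mem) fun _ _ => z0_mem)).sub
    (param_cont (gL_cont h) cz0 ce (fun _ _ => z0_mem) fun _ ha => e_mem ha)).sub
    (param_cont (gL_cont h) cne cnz0 (fun _ ha => ne_mem ha) fun _ _ => nz0_mem)

/-- row R3: (E2) -/
theorem E2 (h : Cyl w wp wz) :
    ∫ a in (-p0)..p0, FS (s * Real.cos a) (w a) (wz a) ≤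
    ∫ a in (-p0)..p0, DS (s * Real.cos a) (w a) (wz a) (wp a) := by
  have cz0 : Continuous fun _ : ℝ => z0 := continuous_const
  have cnz0 : Continuous fun _ : ℝ => -z0 := continuous_const
  have ce := e_cont
  have iD := ii (DS_cont h)
  have iF := ii (FS_cont h)
  have iGm := ii (param_cont (Gm_cont h) cnz0 cz0 (fun _ _ => nz0_mem) fun _ _ => z0_mem)
  have iG1 := ii (param_cont (Gl_cont h (Or.inl rfl)) cz0 ce (fun _ _ => z0_mem)
    fun _ ha => e_mem ha)
  have iG2 := ii (param_cont (Gl_cont h (Or.inr rfl)) cz0 ce (fun _ _ => z0_mem)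
    fun _ ha => e_mem ha)
  have h1 : (∫ a in (-p0)..p0, DS (s * Real.cos a) (w a) (wz a) (wp a)) -
      ∫ a in (-p0)..p0, FS (s * Real.cos a) (w a) (wz a) =
      (∫ a in (-p0)..p0, ∫ z in (-z0)..z0, Gm w wp wz a z) +
      (∫ a in (-p0)..p0, ∫ z in z0..(s * Real.cos a), Gl w wp wz 1 a z) +
      ∫ a in (-p0)..p0, ∫ z in z0..(s * Real.cos a), Gl w wp wz (-1) a z := by
    rw [← intervalIntegral.integral_sub iD iF, ← intervalIntegral.integral_add iGm iG1,
      ← intervalIntegral.integral_add (iGm.add iG1) iG2]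
    refine intervalIntegral.integral_congr fun a ha => ?_
    rw [uIcc_of_le ple] at ha
    exact DS_sub_FS h ha
  have h2 := Gm_nonneg h
  have h3 := Gl_nonneg h (Or.inl rfl)
  have h4 := Gl_nonneg h (Or.inr rfl)
  linarith

end Helper96.MEI
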