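import Pool.Agent.Helper96.MEI.Kap4

/-!
# Numbers: `kapL` from below by the column into the wall
-/

namespace Pool.Agent.Helper96.Kap

/-- separation of the two leaks into the wall -/
theorem kapL_sep {e x y p q : ℝ} (he : 0 ≤ e) (hx : 0 ≤ x) (hy : 0 ≤ y) (hp : 0 ≤ p)
    (hq : 0 ≤ q) :
    x * (0.071 - 0.071 * p - 0.0304 * (2 + e) * (x * (1 + p ^ 2)) - 0.1768 * (p ^ 3 + q ^ 2))
      + y * (0.071 - 0.071 * q - 0.0304 * (2 + e) * (y * (1 + q ^ 2)) - 0.1768 * (q ^ 3 + p ^ 2))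
      ≤ kapL e x y p q := by
  have h1 : 0 ≤ 0.0304 * (2 + e) * (2 * (x * y) * (p + q)) := by positivity
  have e1 : kapL e x y p q - (x * (0.071 - 0.071 * p - 0.0304 * (2 + e) * (x * (1 + p ^ 2))
      - 0.1768 * (p ^ 3 + q ^ 2))
      + y * (0.071 - 0.071 * q - 0.0304 * (2 + e) * (y * (1 + q ^ 2))
      - 0.1768 * (q ^ 3 + p ^ 2))) = 0.0304 * (2 + e) * (2 * (x * y) * (p + q)) := by
    unfold kapL; ring
  linarith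

/-- one leak -/
theorem one_leak {c2 x q u b : ℝ} (hx : 0 ≤ x) (hq : 0 ≤ q) (hxq : x + q ≤ u) (hu : u ≤ 0.3)
    (hc : 0.06 ≤ c2) (hb : 1 ≤ b) :
    c2 * (x * b) + 0.1768 * q ^ 2 ≤ c2 * (u * b) := by
  have h1 : x ≤ u - q := by linarith
  have h2 : c2 * (x * b) ≤ c2 * ((u - q) * b) :=
    mul_le_mul_of_nonneg_left (mul_le_mul_of_nonneg_right h1 (by linarith)) (by linarith)
  have h3 : 0.1768 * q ^ 2 ≤ c2 * (q * b) := by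
    have h4 : q * 1 ≤ q * b := mul_le_mul_of_nonneg_left hb hq
    have h5 : 0.06 * q ≤ c2 * q := mul_le_mul_of_nonneg_right hc hq
    have h6 : c2 * (q * 1) ≤ c2 * (q * b) := mul_le_mul_of_nonneg_left h4 (by linarith)
    have h7 : q * q ≤ q * 0.3 := mul_le_mul_of_nonneg_left (by linarith) hq
    nlinarith
  linarith

/-- common step: both leaks at once from the two-variable inequality -/
theorem kapL_ge {e K u v x y p q : ℝ} (he : 0 ≤ e) (hx : 0 ≤ x) (hy : 0 ≤ y) (hp : 0 ≤ p)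
    (hq : 0 ≤ q) (hu : u ≤ 0.3) (hv : v ≤ 0.3) (hxq : x + q ≤ u) (hyp : y + p ≤ v)
    (h1 : 0.071 * v + 0.0304 * (2 + e) * (u * (1 + v ^ 2)) + 0.1768 * v ^ 3 ≤ 0.071 - K)
    (h2 : 0.071 * u + 0.0304 * (2 + e) * (v * (1 + u ^ 2)) + 0.1768 * u ^ 3 ≤ 0.071 - K) :
    K * (x + y) ≤ kapL e x y p q := by
  refine le_trans ?_ (kapL_sep he hx hy hp hq)
  have hv0 : 0 ≤ v := by linarith
  have hu0 : 0 ≤ u := by linarith
  have hpv : p ≤ v := by linarith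
  have hqu : q ≤ u := by linarith
  have hc : (0.06 : ℝ) ≤ 0.0304 * (2 + e) := by linarith
  have a1 := one_leak (c2 := 0.0304 * (2 + e)) (b := 1 + p ^ 2) hx hq hxq hu hc
    (by nlinarith [sq_nonneg p])
  have a2 := one_leak (c2 := 0.0304 * (2 + e)) (b := 1 + q ^ 2) hy hp hyp hv hc
    (by nlinarith [sq_nonneg q])
  have p2 : p ^ 2 ≤ v ^ 2 := pow_le_pow_left₀ hp hpv 2
  have p3 : p ^ 3 ≤ v ^ 3 := pow_le_pow_left₀ hp hpv 3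
  have q2 : q ^ 2 ≤ u ^ 2 := pow_le_pow_left₀ hq hqu 2
  have q3 : q ^ 3 ≤ u ^ 3 := pow_le_pow_left₀ hq hqu 3
  have b1 : 0.0304 * (2 + e) * (u * (1 + p ^ 2)) ≤ 0.0304 * (2 + e) * (u * (1 + v ^ 2)) :=
    mul_le_mul_of_nonneg_left (mul_le_mul_of_nonneg_left (by linarith) hu0) (by linarith)
  have b2 : 0.0304 * (2 + e) * (v * (1 + q ^ 2)) ≤ 0.0304 * (2 + e) * (v * (1 + u ^ 2)) :=
    mul_le_mul_of_nonneg_left (mul_le_mul_of_nonneg_left (by linarith) hv0) (by linarith)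
  have c1 : K ≤ 0.071 - 0.071 * p - 0.0304 * (2 + e) * (x * (1 + p ^ 2))
      - 0.1768 * (p ^ 3 + q ^ 2) := by linarith
  have c2 : K ≤ 0.071 - 0.071 * q - 0.0304 * (2 + e) * (y * (1 + q ^ 2))
      - 0.1768 * (q ^ 3 + p ^ 2) := by linarith
  have d1 := mul_le_mul_of_nonneg_left c1 hx
  have d2 := mul_le_mul_of_nonneg_left c2 hy
  linarith

/-! ### the three budgets -/

theorem q_le {F0 F1 U0 t S : ℝ}
    (hpoly : (F0 + F1 * (t - U0) + (t - U0) ^ 2 / 4) * (2 * (1 + t / 2) ^ 2) ≤ t ^ 2)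
    (ht : 0 ≤ t) (h : t ^ 2 ≤ 2 * S * (1 + t / 2) ^ 2) :
    F0 + F1 * (t - U0) + (t - U0) ^ 2 / 4 ≤ S := by
  have hp : 0 < 2 * (1 + t / 2) ^ 2 := by positivity
  have : (F0 + F1 * (t - U0) + (t - U0) ^ 2 / 4) * (2 * (1 + t / 2) ^ 2)
      ≤ S * (2 * (1 + t / 2) ^ 2) := by linarith
  exact le_of_mul_le_mul_right this hp

theorem poly404 {t : ℝ} (h0 : 0 ≤ t) (h1 : t ≤ 0.29) :
    (0.01349 + 0.138 * (t - 0.179) + (t - 0.179) ^ 2 / 4) * (2 * (1 + t / 2) ^ 2) ≤ t ^ 2 := by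
  nlinarith [mul_nonneg h0 (sq_nonneg (t - 0.1742)), mul_nonneg (sub_nonneg.2 h1)
    (sq_nonneg (t - 0.1742)), sq_nonneg (t - 0.1742), mul_nonneg (mul_nonneg h0 (sub_nonneg.2 h1))
    (sq_nonneg (t - 0.1742)), sq_nonneg ((t - 0.1742) ^ 2)]

theorem poly504 {t : ℝ} (h0 : 0 ≤ t) (h1 : t ≤ 0.29) :
    (0.01682 + 0.151 * (t - 0.202) + (t - 0.202) ^ 2 / 4) * (2 * (1 + t / 2) ^ 2) ≤ t ^ 2 := by
  nlinarith [mul_nonneg h0 (sq_nonneg (t - 0.1947)), mul_nonneg (sub_nonneg.2 h1)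
    (sq_nonneg (t - 0.1947)), sq_nonneg (t - 0.1947), mul_nonneg (mul_nonneg h0 (sub_nonneg.2 h1))
    (sq_nonneg (t - 0.1947)), sq_nonneg ((t - 0.1947) ^ 2)]

theorem poly604 {t : ℝ} (h0 : 0 ≤ t) (h1 : t ≤ 0.29) :
    (0.02007 + 0.162 * (t - 0.223) + (t - 0.223) ^ 2 / 4) * (2 * (1 + t / 2) ^ 2) ≤ t ^ 2 := by
  nlinarith [mul_nonneg h0 (sq_nonneg (t - 0.2045)), mul_nonneg (sub_nonneg.2 h1)
    (sq_nonneg (t - 0.2045)), sq_nonneg (t - 0.2045), mul_nonneg (mul_nonneg h0 (sub_nonneg.2 h1))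
    (sq_nonneg (t - 0.2045)), sq_nonneg ((t - 0.2045) ^ 2)]

theorem two404 {u v s Su Sv : ℝ} (hu0 : 0 ≤ u) (hv0 : 0 ≤ v) (hu : u ≤ 0.29) (hv : v ≤ 0.29)
    (u1 : u ^ 2 ≤ 2 * s * (1 + u / 2) ^ 2) (u2 : u ^ 2 ≤ 2 * Su * (1 + u / 2) ^ 2)
    (v1 : v ^ 2 ≤ 2 * s * (1 + v / 2) ^ 2) (v2 : v ^ 2 ≤ 2 * Sv * (1 + v / 2) ^ 2)
    (hX : s + Su + Sv ≤ 0.0404) :
    0.071 * v + 0.0304 * (2 + 0.2235) * (u * (1 + v ^ 2)) + 0.1768 * v ^ 3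
      ≤ 0.071 - 0.0448 := by
  have a1 := q_le (poly404 hu0 hu) hu0 u1
  have a2 := q_le (poly404 hu0 hu) hu0 u2
  have b1 := q_le (poly404 hv0 hv) hv0 v1
  have b2 := q_le (poly404 hv0 hv) hv0 v2
  nlinarith [mul_nonneg (sub_nonneg.2 hv) (sq_nonneg (v - 0.179)),
    mul_nonneg (sub_nonneg.2 hu) (sq_nonneg (v - 0.179)), sq_nonneg (u - 0.179),
    sq_nonneg (v - 0.179), sq_nonneg ((u - 0.179) - (v - 0.179)), mul_nonneg hu0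
    (sq_nonneg (v - 0.179))]

theorem two504 {u v s Su Sv : ℝ} (hu0 : 0 ≤ u) (hv0 : 0 ≤ v) (hu : u ≤ 0.29) (hv : v ≤ 0.29)
    (u1 : u ^ 2 ≤ 2 * s * (1 + u / 2) ^ 2) (u2 : u ^ 2 ≤ 2 * Su * (1 + u / 2) ^ 2)
    (v1 : v ^ 2 ≤ 2 * s * (1 + v / 2) ^ 2) (v2 : v ^ 2 ≤ 2 * Sv * (1 + v / 2) ^ 2)
    (hX : s + Su + Sv ≤ 0.0504) :
    0.071 * v + 0.0304 * (2 + 0.2529) * (u * (1 + v ^ 2)) + 0.1768 * v ^ 3
      ≤ 0.071 - 0.0408 := by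
  have a1 := q_le (poly504 hu0 hu) hu0 u1
  have a2 := q_le (poly504 hu0 hu) hu0 u2
  have b1 := q_le (poly504 hv0 hv) hv0 v1
  have b2 := q_le (poly504 hv0 hv) hv0 v2
  nlinarith [mul_nonneg (sub_nonneg.2 hv) (sq_nonneg (v - 0.202)),
    mul_nonneg (sub_nonneg.2 hu) (sq_nonneg (v - 0.202)), sq_nonneg (u - 0.202),
    sq_nonneg (v - 0.202), sq_nonneg ((u - 0.202) - (v - 0.202)), mul_nonneg hu0
    (sq_nonneg (v - 0.202))]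

theorem two604 {u v s Su Sv : ℝ} (hu0 : 0 ≤ u) (hv0 : 0 ≤ v) (hu : u ≤ 0.29) (hv : v ≤ 0.29)
    (u1 : u ^ 2 ≤ 2 * s * (1 + u / 2) ^ 2) (u2 : u ^ 2 ≤ 2 * Su * (1 + u / 2) ^ 2)
    (v1 : v ^ 2 ≤ 2 * s * (1 + v / 2) ^ 2) (v2 : v ^ 2 ≤ 2 * Sv * (1 + v / 2) ^ 2)
    (hX : s + Su + Sv ≤ 0.0604) :
    0.071 * v + 0.0304 * (2 + 0.2803) * (u * (1 + v ^ 2)) + 0.1768 * v ^ 3
      ≤ 0.071 - 0.0369 := by
  have a1 := q_le (poly604 hu0 hu) hu0 u1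
  have a2 := q_le (poly604 hu0 hu) hu0 u2
  have b1 := q_le (poly604 hv0 hv) hv0 v1
  have b2 := q_le (poly604 hv0 hv) hv0 v2
  nlinarith [mul_nonneg (sub_nonneg.2 hv) (sq_nonneg (v - 0.228)),
    mul_nonneg (sub_nonneg.2 hu) (sq_nonneg (v - 0.228)), sq_nonneg (u - 0.226),
    sq_nonneg (v - 0.232), sq_nonneg ((u - 0.226) - (v - 0.232)), mul_nonneg hu0
    (sq_nonneg (v - 0.228))]

/-- **(KC), budget .0404** -/
theorem KC404 {x y p q s Sj Sk : ℝ} (hx : 0 ≤ x) (hy : 0 ≤ y) (hp : 0 ≤ p) (hq : 0 ≤ q)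
    (hj : x + q ≤ 0.29) (hk : y + p ≤ 0.29)
    (j1 : (x + q) ^ 2 ≤ 2 * s * (1 + (x + q) / 2) ^ 2)
    (j2 : (x + q) ^ 2 ≤ 2 * Sj * (1 + (x + q) / 2) ^ 2)
    (k1 : (y + p) ^ 2 ≤ 2 * s * (1 + (y + p) / 2) ^ 2)
    (k2 : (y + p) ^ 2 ≤ 2 * Sk * (1 + (y + p) / 2) ^ 2) (hX : s + Sj + Sk ≤ 0.0404) :
    0.0448 * (x + y) ≤ kapL 0.2235 x y p q :=
  kapL_ge (by norm_num) hx hy hp hq (by linarith) (by linarith) le_rfl le_rfl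
    (two404 (by linarith) (by linarith) hj hk j1 j2 k1 k2 hX)
    (two404 (by linarith) (by linarith) hk hj k1 k2 j1 j2 (by linarith))

/-- **(KC), budget .0504** -/
theorem KC504 {x y p q s Sj Sk : ℝ} (hx : 0 ≤ x) (hy : 0 ≤ y) (hp : 0 ≤ p) (hq : 0 ≤ q)
    (hj : x + q ≤ 0.29) (hk : y + p ≤ 0.29)
    (j1 : (x + q) ^ 2 ≤ 2 * s * (1 + (x + q) / 2) ^ 2)
    (j2 : (x + q) ^ 2 ≤ 2 * Sj * (1 + (x + q) / 2) ^ 2)
    (k1 : (y + p) ^ 2 ≤ 2 * s * (1 + (y + p) / 2) ^ 2)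
    (k2 : (y + p) ^ 2 ≤ 2 * Sk * (1 + (y + p) / 2) ^ 2) (hX : s + Sj + Sk ≤ 0.0504) :
    0.0408 * (x + y) ≤ kapL 0.2529 x y p q :=
  kapL_ge (by norm_num) hx hy hp hq (by linarith) (by linarith) le_rfl le_rfl
    (two504 (by linarith) (by linarith) hj hk j1 j2 k1 k2 hX)
    (two504 (by linarith) (by linarith) hk hj k1 k2 j1 j2 (by linarith))

/-- **(KC), budget .0604** -/
theorem KC604 {x y p q s Sj Sk : ℝ} (hx : 0 ≤ x) (hy : 0 ≤ y) (hp : 0 ≤ p) (hq : 0 ≤ q)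
    (hj : x + q ≤ 0.29) (hk : y + p ≤ 0.29)
    (j1 : (x + q) ^ 2 ≤ 2 * s * (1 + (x + q) / 2) ^ 2)
    (j2 : (x + q) ^ 2 ≤ 2 * Sj * (1 + (x + q) / 2) ^ 2)
    (k1 : (y + p) ^ 2 ≤ 2 * s * (1 + (y + p) / 2) ^ 2)
    (k2 : (y + p) ^ 2 ≤ 2 * Sk * (1 + (y + p) / 2) ^ 2) (hX : s + Sj + Sk ≤ 0.0604) :
    0.0369 * (x + y) ≤ kapL 0.2803 x y p q :=
  kapL_ge (by norm_num) hx hy hp hq (by linarith) (by linarith) le_rfl le_rfl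
    (two604 (by linarith) (by linarith) hj hk j1 j2 k1 k2 hX)
    (two604 (by linarith) (by linarith) hk hj k1 k2 j1 j2 (by linarith))

/-- **(KB)**, bilinear form on the box -/
theorem kapL_bil {e K0 x y p q : ℝ} (he : 0 ≤ e) (he3 : e ≤ 0.3) (hx : 0 ≤ x) (hy : 0 ≤ y)
    (hp : 0 ≤ p) (hq : 0 ≤ q) (hxq : x + q ≤ e) (hyp : y + p ≤ e)
    (hK : ∀ z : ℝ, 0 ≤ z → z ≤ e → K0 ≤ 0.071 + 0.019 * z
      - 0.0304 * (2 + e) * (e * (1 + z ^ 2)) - 0.1768 * z ^ 3) :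
    K0 * (x + y) - 0.09 * (y * q + x * p) ≤ kapL e x y p q := by
  refine le_trans ?_ (kapL_sep he hx hy hp hq)
  have hc : (0.06 : ℝ) ≤ 0.0304 * (2 + e) := by linarith
  have a1 := one_leak (c2 := 0.0304 * (2 + e)) (b := 1 + p ^ 2) hx hq hxq he3 hc
    (by nlinarith [sq_nonneg p])
  have a2 := one_leak (c2 := 0.0304 * (2 + e)) (b := 1 + q ^ 2) hy hp hyp he3 hc
    (by nlinarith [sq_nonneg q])
  have k1 := hK p hp (by linarith)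
  have k2 := hK q hq (by linarith)
  have c1 : K0 - 0.09 * p ≤ 0.071 - 0.071 * p - 0.0304 * (2 + e) * (x * (1 + p ^ 2))
      - 0.1768 * (p ^ 3 + q ^ 2) := by linarith
  have c2 : K0 - 0.09 * q ≤ 0.071 - 0.071 * q - 0.0304 * (2 + e) * (y * (1 + q ^ 2))
      - 0.1768 * (q ^ 3 + p ^ 2) := by linarith
  have d1 := mul_le_mul_of_nonneg_left c1 hx
  have d2 := mul_le_mul_of_nonneg_left c2 hy
  linarith

theorem KB404 {x y p q : ℝ} (hx : 0 ≤ x) (hy : 0 ≤ y) (hp : 0 ≤ p) (hq : 0 ≤ q)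
    (hxq : x + q ≤ 0.2235) (hyp : y + p ≤ 0.2235) :
    0.0558 * (x + y) - 0.09 * (y * q + x * p) ≤ kapL 0.2235 x y p q := by
  refine kapL_bil (by norm_num) (by norm_num) hx hy hp hq hxq hyp fun z h0 h1 => ?_
  nlinarith [mul_nonneg h0 (sub_nonneg.2 h1), mul_nonneg (mul_nonneg h0 h0) (sub_nonneg.2 h1)]

theorem KB504 {x y p q : ℝ} (hx : 0 ≤ x) (hy : 0 ≤ y) (hp : 0 ≤ p) (hq : 0 ≤ q)
    (hxq : x + q ≤ 0.2529) (hyp : y + p ≤ 0.2529) :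
    0.0536 * (x + y) - 0.09 * (y * q + x * p) ≤ kapL 0.2529 x y p q := by
  refine kapL_bil (by norm_num) (by norm_num) hx hy hp hq hxq hyp fun z h0 h1 => ?_
  nlinarith [mul_nonneg h0 (sub_nonneg.2 h1), mul_nonneg (mul_nonneg h0 h0) (sub_nonneg.2 h1)]

theorem KB604 {x y p q : ℝ} (hx : 0 ≤ x) (hy : 0 ≤ y) (hp : 0 ≤ p) (hq : 0 ≤ q)
    (hxq : x + q ≤ 0.2803) (hyp : y + p ≤ 0.2803) :
    0.0514 * (x + y) - 0.09 * (y * q + x * p) ≤ kapL 0.2803 x y p q := by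
  refine kapL_bil (by norm_num) (by norm_num) hx hy hp hq hxq hyp fun z h0 h1 => ?_
  nlinarith [mul_nonneg h0 (sub_nonneg.2 h1), mul_nonneg (mul_nonneg h0 h0) (sub_nonneg.2 h1)]

end Pool.Agent.Helper96.Kap
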