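import Pool.Agent.Helper96.MEI.Kap3

/-!
# Lower bound of the mass of `kap`: assembly
-/

namespace Pool.Agent.Helper96.Kap

open Set MeasureTheory Pool.Agent.Helper55.Sx Pool.Agent.Helper55.Mass
open Pool.Agent.Helper55.Apex (nc)
open Pool.Agent.Helper55.Fill

/-- **integral of the minorant** -/
theorem wm_Sim {A B p q e A1 B1 : ℝ} (hE : 0 ≤ A + B) (hA : A ≤ A1) (hB : B ≤ B1)
    (hA1 : 0 ≤ A1) (hB1 : 0 ≤ B1) (hAe : A ≤ e) (hBe : B ≤ e) (he : 0 ≤ e)
    (hp : 0 ≤ p) (hq : 0 ≤ q) :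
    (A + B) / 2 * (129641 / 645120)
      - (2 + e) / 6 * (A ^ 2 + B ^ 2) * (1848503 / 7168000)
      - p ^ 2 / 4 * (B1 + p * A1) - q ^ 2 / 4 * (A1 + q * B1)
      ≤ ∫ t in Sim, wm A B p q t := by
  rw [ray_int (wm_meas _ _ _ _)]
  set H : ℝ × ℝ → ℝ := fun z => (1 - z.1) * wm A B p q (ray z) with hH
  have hHm : Measurable H :=
    (by fun_prop : Measurable fun z : ℝ × ℝ => 1 - z.1).mul
      ((wm_meas _ _ _ _).comp ray_contin.measurable)
  have hrS : ∀ z ∈ Sq, ray z ∈ Sim := by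
    rintro z ⟨⟨a1, a2⟩, a3, a4⟩
    have hx : 0 ≤ 1 - z.1 := by linarith
    refine ⟨a1, mul_nonneg hx a3, ?_⟩
    have : (1 - z.1) * z.2 ≤ 1 - z.1 := mul_le_of_le_one_right hx a4
    simp only [ray]
    linarith
  have hHi : IntegrableOn H Sq := by
    refine Measure.integrableOn_of_bounded (M := 9 / 4) Sq_fin.ne
      hHm.aestronglyMeasurable ?_
    filter_upwards [ae_restrict_mem Sq_meas] with z hz
    obtain ⟨b1, b2⟩ := wm_bd (A := A) (B := B) (p := p) (q := q) (hrS z hz)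
    have hx : 0 ≤ 1 - z.1 := by linarith [hz.1.2]
    have hx1 : 1 - z.1 ≤ 1 := by linarith [hz.1.1]
    rw [Real.norm_eq_abs, abs_of_nonneg (mul_nonneg hx b1)]
    exact (mul_le_of_le_one_left b1 hx1).trans b2
  have hi := hHi
  rw [IntegrableOn, Sq, Measure.volume_eq_prod, ← Measure.prod_restrict] at hi
  have hFub : ∫ z in Sq, H z = ∫ s in Icc (0 : ℝ) 1, ∫ x in Icc (0 : ℝ) 1, H (x, s) := by
    rw [Sq, Measure.volume_eq_prod, ← Measure.prod_restrict]
    exact integral_prod_symm _ hi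
  have hInn : IntegrableOn (fun s => ∫ x in Icc (0 : ℝ) 1, H (x, s)) (Icc (0 : ℝ) 1) :=
    hi.integral_prod_right
  rw [hFub]
  set c := (2 + e) / 6 with hc
  have hc0 : 0 ≤ c := by positivity
  set s1 := p / (1 + p) with hs1
  set s2 := q / (1 + q) with hs2
  have s10 : 0 ≤ s1 := by positivity
  have s20 : 0 ≤ s2 := by positivity
  have s11 : s1 ≤ 1 := by
    rw [hs1, div_le_one (by positivity)]; linarith
  have s21 : s2 ≤ 1 := by
    rw [hs2, div_le_one (by positivity)]; linarith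
  have s1p : s1 ≤ p := by
    rw [hs1, div_le_iff₀ (by positivity)]; nlinarith
  have s2q : s2 ≤ q := by
    rw [hs2, div_le_iff₀ (by positivity)]; nlinarith
  set M1 := (B1 + p * A1) / 2 * (1 + p) ^ 2 with hM1
  set M2 := (A1 + q * B1) / 2 * (1 + q) ^ 2 with hM2
  have M10 : 0 ≤ M1 := by positivity
  have M20 : 0 ≤ M2 := by positivity
  obtain ⟨ci1, cv1⟩ := corner_int (M := M1) s10 s11
  obtain ⟨ci2, cv2⟩ := corner_int' (M := M2) s20 s21
  have hsI : IntegrableOn (hs A B c) (Icc (0 : ℝ) 1) :=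
    (hs_cont A B c).continuousOn.integrableOn_compact isCompact_Icc
  have hval := hs_int (A := A) (B := B) hE hc0
  have hD : ∫ s in Icc (0 : ℝ) 1, (hs A B c s
      - (Icc (0 : ℝ) s1).indicator (fun s => s * M1) s
      - (Icc (1 - s2) 1).indicator (fun s => (1 - s) * M2) s)
      = (∫ s in Icc (0 : ℝ) 1, hs A B c s) - s1 ^ 2 / 2 * M1 - s2 ^ 2 / 2 * M2 := by
    have h1 := integral_sub (hsI.sub ci1) ci2
    have h2 := integral_sub hsI ci1
    simp only [Pi.sub_apply] at h1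
    rw [h1, h2, cv1, cv2]
  have c1 : s1 ^ 2 / 2 * M1 = p ^ 2 / 4 * (B1 + p * A1) := by
    rw [hs1, hM1]
    field_simp
    ring
  have c2 : s2 ^ 2 / 2 * M2 = q ^ 2 / 4 * (A1 + q * B1) := by
    rw [hs2, hM2]
    field_simp
    ring
  rw [c1, c2] at hD
  have hlow : (A + B) / 2 * (129641 / 645120)
      - c * (A ^ 2 + B ^ 2) * (1848503 / 7168000)
      - p ^ 2 / 4 * (B1 + p * A1) - q ^ 2 / 4 * (A1 + q * B1)
      ≤ ∫ s in Icc (0 : ℝ) 1, (hs A B c s
      - (Icc (0 : ℝ) s1).indicator (fun s => s * M1) s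
      - (Icc (1 - s2) 1).indicator (fun s => (1 - s) * M2) s) := by
    rw [hD]
    linarith
  refine hlow.trans ?_
  refine setIntegral_mono_on ((hsI.sub ci1).sub ci2) hInn measurableSet_Icc fun s hs' => ?_
  obtain ⟨s0, sl⟩ := hs'
  have sr : 0 ≤ 1 - s := by linarith
  have i1 : 0 ≤ (Icc (0 : ℝ) s1).indicator (fun s => s * M1) s :=
    indicator_nonneg (fun x hx => mul_nonneg hx.1 M10) s
  have i2 : 0 ≤ (Icc (1 - s2) 1).indicator (fun s => (1 - s) * M2) s :=
    indicator_nonneg (fun x hx => mul_nonneg (by linarith [hx.2]) M20) s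
  have k1 : 0 ≤ s * (1 - s) := mul_nonneg s0 sr
  have k2 : s * (1 - s) ≤ 1 / 4 := by nlinarith [sq_nonneg (s - 1 / 2)]
  have hg : 3 / 4 ≤ 1 - s + s ^ 2 := by nlinarith
  have hεe : A * s + B * (1 - s) ≤ e := by
    nlinarith [mul_le_mul_of_nonneg_right hAe s0, mul_le_mul_of_nonneg_right hBe sr]
  have hmin0 : 0 ≤ min s (1 - s) := le_min s0 sr
  by_cases hC : p * (1 - s) ≤ s ∧ q * s ≤ 1 - s
  · have e1 : ∫ x in Icc (0 : ℝ) 1, H (x, s)
        = ∫ x in Icc (0 : ℝ) 1, fibf (1 - s + s ^ 2) (A * s + B * (1 - s)) (min s (1 - s)) x :=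
      setIntegral_congr_fun measurableSet_Icc fun x hx => wm_ray hx hC
    rw [e1]
    have hf := fibre_low hg hεe hmin0 he
    rw [← hc] at hf
    unfold hs
    linarith
  · -- outside of the corner conditions
    have hnn : 0 ≤ ∫ x in Icc (0 : ℝ) 1, H (x, s) := by
      refine setIntegral_nonneg measurableSet_Icc fun x hx => ?_
      exact mul_nonneg (by simp only; linarith [hx.2]) (wm_bd (hrS (x, s) ⟨hx, s0, sl⟩)).1
    refine le_trans ?_ hnn
    have hG3 : 0 ≤ 1 / (1 - s + s ^ 2) ^ 3 := by positivity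
    have hG2 : 0 ≤ 1 / (1 - s + s ^ 2) ^ 2 := by positivity
    have hsq : 0 ≤ c * (A * s + B * (1 - s)) ^ 2 * (1 / (1 - s + s ^ 2) ^ 3) := by positivity
    have hle : hs A B c s ≤ min s (1 - s) * ((A * s + B * (1 - s)) / 2
        * (1 / (1 - s + s ^ 2) ^ 2)) := by
      unfold hs
      exact mul_le_mul_of_nonneg_left (by linarith) hmin0
    rcases not_and_or.1 hC with h | h
    · push Not at h
      have hss : s < s1 := by
        rw [hs1, lt_div_iff₀ (by positivity)]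
        linarith
      have hmem : s ∈ Icc (0 : ℝ) s1 := ⟨s0, hss.le⟩
      rw [indicator_of_mem hmem]
      have hε : A * s + B * (1 - s) ≤ B1 + p * A1 := by
        have t1 := mul_le_mul_of_nonneg_right hA s0
        have t2 := mul_le_mul_of_nonneg_right hB sr
        have t3 := mul_le_mul_of_nonneg_left (hss.le.trans s1p) hA1
        have t4 := mul_nonneg hB1 s0
        linarith
      have hgp : 1 / (1 - s + s ^ 2) ^ 2 ≤ (1 + p) ^ 2 := by
        have hg1 : 1 / (1 + p) ≤ 1 - s + s ^ 2 := by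
          rw [div_le_iff₀ (by positivity)]
          nlinarith [mul_nonneg (sq_nonneg s) (show 0 ≤ 1 + p by positivity)]
        have hg2 : 1 / (1 - s + s ^ 2) ≤ 1 + p := by
          rw [div_le_iff₀ (by positivity)]
          rw [div_le_iff₀ (by positivity)] at hg1
          linarith
        have hg3 : 1 / (1 - s + s ^ 2) ^ 2 = (1 / (1 - s + s ^ 2)) ^ 2 := by
          rw [div_pow, one_pow]
        rw [hg3]
        exact pow_le_pow_left₀ (by positivity) hg2 2
      have hb1 : (A * s + B * (1 - s)) / 2 * (1 / (1 - s + s ^ 2) ^ 2) ≤ M1 := by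
        rw [hM1]
        have t1 : (A * s + B * (1 - s)) / 2 * (1 / (1 - s + s ^ 2) ^ 2)
            ≤ (B1 + p * A1) / 2 * (1 / (1 - s + s ^ 2) ^ 2) :=
          mul_le_mul_of_nonneg_right (by linarith) hG2
        exact t1.trans (mul_le_mul_of_nonneg_left hgp (by positivity))
      have hb2 : min s (1 - s) * ((A * s + B * (1 - s)) / 2 * (1 / (1 - s + s ^ 2) ^ 2))
          ≤ s * M1 := by
        have t1 := mul_le_mul_of_nonneg_left hb1 hmin0
        exact t1.trans (mul_le_mul_of_nonneg_right (min_le_left _ _) M10)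
      linarith
    · push Not at h
      have hss : 1 - s < s2 := by
        rw [hs2, lt_div_iff₀ (by positivity)]
        linarith
      have hmem : s ∈ Icc (1 - s2) 1 := ⟨by linarith, sl⟩
      rw [indicator_of_mem hmem]
      have hε : A * s + B * (1 - s) ≤ A1 + q * B1 := by
        have t1 := mul_le_mul_of_nonneg_right hA s0
        have t2 := mul_le_mul_of_nonneg_right hB sr
        have t3 := mul_le_mul_of_nonneg_left (hss.le.trans s2q) hB1
        have t4 := mul_nonneg hA1 sr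
        linarith
      have hgp : 1 / (1 - s + s ^ 2) ^ 2 ≤ (1 + q) ^ 2 := by
        have hg1 : 1 / (1 + q) ≤ 1 - s + s ^ 2 := by
          rw [div_le_iff₀ (by positivity)]
          nlinarith [mul_nonneg (sq_nonneg (1 - s)) (show 0 ≤ 1 + q by positivity)]
        have hg2 : 1 / (1 - s + s ^ 2) ≤ 1 + q := by
          rw [div_le_iff₀ (by positivity)]
          rw [div_le_iff₀ (by positivity)] at hg1
          linarith
        have hg3 : 1 / (1 - s + s ^ 2) ^ 2 = (1 / (1 - s + s ^ 2)) ^ 2 := by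
          rw [div_pow, one_pow]
        rw [hg3]
        exact pow_le_pow_left₀ (by positivity) hg2 2
      have hb1 : (A * s + B * (1 - s)) / 2 * (1 / (1 - s + s ^ 2) ^ 2) ≤ M2 := by
        rw [hM2]
        have t1 : (A * s + B * (1 - s)) / 2 * (1 / (1 - s + s ^ 2) ^ 2)
            ≤ (A1 + q * B1) / 2 * (1 / (1 - s + s ^ 2) ^ 2) :=
          mul_le_mul_of_nonneg_right (by linarith) hG2
        exact t1.trans (mul_le_mul_of_nonneg_left hgp (by positivity))
      have hb2 : min s (1 - s) * ((A * s + B * (1 - s)) / 2 * (1 / (1 - s + s ^ 2) ^ 2))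
          ≤ (1 - s) * M2 := by
        have t1 := mul_le_mul_of_nonneg_left hb1 hmin0
        exact t1.trans (mul_le_mul_of_nonneg_right (min_le_right _ _) M20)
      linarith

/-- the lower bound function of the mass of `kap` -/
noncomputable def kapL (e x y p q : ℝ) : ℝ :=
  0.071 * ((x - y * q) + (y - x * p))
    - 0.0304 * (2 + e) * ((x - y * q) ^ 2 + (y - x * p) ^ 2)
    - 0.1768 * (p ^ 2 * (y + p * x) + q ^ 2 * (x + q * y))

theorem wm_mass {x y p q e : ℝ} (hx : 0 ≤ x) (hy : 0 ≤ y) (hp : 0 ≤ p) (hq : 0 ≤ q)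
    (hp1 : p ≤ 1) (hq1 : q ≤ 1) (hxe : x ≤ e) (hye : y ≤ e) :
    kapL e x y p q ≤ 1 / √2 * ∫ t in Sim, wm (x - y * q) (y - x * p) p q t := by
  have he : 0 ≤ e := hx.trans hxe
  have h1 : x - y * q ≤ x := by linarith [mul_nonneg hy hq]
  have h2 : y - x * p ≤ y := by linarith [mul_nonneg hx hp]
  have hE : 0 ≤ (x - y * q) + (y - x * p) := by
    have t1 := mul_le_of_le_one_right hy hq1
    have t2 := mul_le_of_le_one_right hx hp1
    linarith
  have h := wm_Sim (A := x - y * q) (B := y - x * p) (p := p) (q := q) hE h1 h2 hx hy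
    (h1.trans hxe) (h2.trans hye) he hp hq
  have h0 : (0 : ℝ) ≤ 1 / √2 := by positivity
  have hsq : (1.4142 : ℝ) ≤ √2 := Real.le_sqrt_of_sq_le (by norm_num)
  have hsq2 : √2 ≤ (1.41422 : ℝ) := by
    rw [Real.sqrt_le_left (by norm_num)]
    norm_num
  have c1 : 0.071 ≤ 1 / √2 * (1 / 2 * (129641 / 645120) : ℝ) := by
    rw [one_div, ← div_eq_inv_mul, le_div_iff₀ (by positivity)]
    nlinarith
  have c2 : 1 / √2 * (1 / 6 * (1848503 / 7168000) : ℝ) ≤ 0.0304 := by
    rw [one_div, inv_mul_le_iff₀ (by positivity)]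
    nlinarith
  have c3 : 1 / √2 * (1 / 4 : ℝ) ≤ 0.1768 := by
    rw [one_div, inv_mul_le_iff₀ (by positivity)]
    nlinarith
  have m1 := mul_le_mul_of_nonneg_right c1 hE
  have m2 := mul_le_mul_of_nonneg_right c2
    (show 0 ≤ (2 + e) * ((x - y * q) ^ 2 + (y - x * p) ^ 2) by positivity)
  have m3 := mul_le_mul_of_nonneg_right c3
    (show 0 ≤ p ^ 2 * (y + p * x) + q ^ 2 * (x + q * y) by positivity)
  have h3 := mul_le_mul_of_nonneg_left h h0
  refine le_trans ?_ h3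
  unfold kapL
  calc _ ≤ 1 / √2 * (1 / 2 * (129641 / 645120)) * ((x - y * q) + (y - x * p))
        - 1 / √2 * (1 / 6 * (1848503 / 7168000)) * ((2 + e) * ((x - y * q) ^ 2 + (y - x * p) ^ 2))
        - 1 / √2 * (1 / 4) * (p ^ 2 * (y + p * x) + q ^ 2 * (x + q * y)) := by linarith
    _ = _ := by ring

section
variable {N : Fin 3 → Fin 3 → ℝ}
variable (hN : ∀ k m, 0 ≤ N k m) {c : ℝ} (hc : c < 1) (hcol : ∀ m, nc N m ≤ c)
include hN hc hcol

/-- pointwise, in the coordinates of the side -/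
theorem wm_le_kap (hd : ∀ k, N k k = 0) {l j k : Fin 3} (hlj : l ≠ j) (hlk : l ≠ k) (hjk : j ≠ k)
    (hc1 : N l j * N j l + N l k * N k l ≤ 1) {t s : ℝ × ℝ} (ht : t ∈ Sim)
    (h1 : s.1 = vv t l) (h2 : s.2 = vv t j) (h3 : t3 s = vv t k) (hm : mm s = mm t) :
    wm (N l j - N l k * N k j) (N l k - N l j * N j k) (N j k) (N k j) s
      ≤ kap N (vv t) l / mm t ^ 2 := by
  have hb := fun k => vv_nonneg ht k
  have hmp := mm_pos t
  unfold wm
  rw [h1, h2, h3, hm]
  split_ifs with hC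
  · refine div_le_div_of_nonneg_right ?_ (by positivity)
    exact kap_ge hN hc hcol hd hb hlj hlk hjk hc1 hC.2.1 hC.2.2 hC.1
  · exact div_nonneg (kap_nonneg hN hc hcol hb l) (by positivity)

omit hN hc hcol in
/-- the simplex in the coordinates of a side -/
theorem perm_ex {l j k : Fin 3} (hlj : l ≠ j) (hlk : l ≠ k) (hjk : j ≠ k) :
    ∃ φ : ℝ × ℝ → ℝ × ℝ, Measurable φ ∧ (∀ t ∈ Sim, φ t ∈ Sim) ∧
      (∀ t, (φ t).1 = vv t l ∧ (φ t).2 = vv t j ∧ t3 (φ t) = vv t k ∧ mm (φ t) = mm t) ∧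
      ∀ f : ℝ × ℝ → ℝ, ∫ t in Sim, f (φ t) = ∫ t in Sim, f t := by
  have hsw : ∀ t ∈ Sim, ((t.2, t.1) : ℝ × ℝ) ∈ Sim := by
    rintro t ⟨a1, a2, a3⟩
    exact ⟨a2, a1, by simp only; linarith⟩
  have hsh : ∀ t ∈ Sim, sh t ∈ Sim := by
    rintro t ⟨a1, a2, a3⟩
    exact ⟨by simp only [sh]; linarith, a2, by simp only [sh]; linarith⟩
  have msw : Measurable fun t : ℝ × ℝ => ((t.2, t.1) : ℝ × ℝ) := measurable_snd.prodMk measurable_fst
  fin_cases l <;> fin_cases j <;> fin_cases k <;> simp only [Fin.zero_eta, Fin.mk_one,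
    Fin.reduceFinMk, ne_eq, not_true_eq_false] at hlj hlk hjk ⊢
  · exact ⟨id, measurable_id, fun t ht => ht, fun t => ⟨rfl, rfl, rfl, rfl⟩, fun f => rfl⟩
  · refine ⟨fun t => ((sh (t.2, t.1)).2, (sh (t.2, t.1)).1), msw.comp (sh_meas.comp msw),
      fun t ht => hsw _ (hsh _ (hsw _ ht)), fun t => ⟨rfl, ?_, ?_, ?_⟩, fun f => ?_⟩
    · change 1 - t.2 - t.1 = t3 t
      simp only [t3]; ring
    · change 1 - t.1 - (1 - t.2 - t.1) = t.2
      ring
    · rw [mm_swap (sh (t.2, t.1)), mm_sh, mm_swap]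
    · rw [Sim_swap fun t => f ((sh t).2, (sh t).1), Sim_sh fun t => f (t.2, t.1), Sim_swap]
  · refine ⟨fun t => (t.2, t.1), msw, hsw, fun t => ⟨rfl, rfl, ?_, mm_swap t⟩, Sim_swap⟩
    change 1 - t.2 - t.1 = t3 t
    simp only [t3]; ring
  · refine ⟨fun t => ((sh t).2, (sh t).1), msw.comp sh_meas, fun t ht => hsw _ (hsh _ ht),
      fun t => ⟨rfl, rfl, ?_, ?_⟩, fun f => ?_⟩
    · change 1 - t.2 - (1 - t.1 - t.2) = t.1
      ring
    · rw [mm_swap (sh t), mm_sh]
    · rw [Sim_sh fun t => f (t.2, t.1), Sim_swap]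
  · refine ⟨fun t => sh (t.2, t.1), sh_meas.comp msw, fun t ht => hsh _ (hsw _ ht),
      fun t => ⟨?_, rfl, ?_, ?_⟩, fun f => ?_⟩
    · change 1 - t.2 - t.1 = t3 t
      simp only [t3]; ring
    · change 1 - (1 - t.2 - t.1) - t.1 = t.2
      ring
    · rw [mm_sh, mm_swap]
    · rw [Sim_swap fun t => f (sh t), Sim_sh]
  · refine ⟨sh, sh_meas, hsh, fun t => ⟨rfl, rfl, ?_, mm_sh t⟩, Sim_sh⟩
    change 1 - (1 - t.1 - t.2) - t.2 = t.1
    ring

/-- **mass of the residual in the strip of the wall `l`** -/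
theorem kap_mass (hd : ∀ k, N k k = 0) {e : ℝ} {l j k : Fin 3} (hlj : l ≠ j)
    (hlk : l ≠ k) (hjk : j ≠ k) (hc1 : N l j * N j l + N l k * N k l ≤ 1)
    (hxe : N l j ≤ e) (hye : N l k ≤ e) (hp1 : N j k ≤ 1) (hq1 : N k j ≤ 1) :
    kapL e (N l j) (N l k) (N j k) (N k j)
      ≤ 1 / √2 * ∫ t in Sim, kap N (vv t) l / mm t ^ 2 := by
  have hw := wm_mass (hN l j) (hN l k) (hN j k) (hN k j) hp1 hq1 hxe hye
  have h0 : (0 : ℝ) ≤ 1 / √2 := by positivity
  refine hw.trans (mul_le_mul_of_nonneg_left ?_ h0)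
  obtain ⟨φ, hφ, hφS, hφe, hφi⟩ := perm_ex hlj hlk hjk
  rw [← hφi]
  refine setIntegral_mono_on ?_ (kap_int hN hc hcol l) Sim_meas fun t ht => ?_
  · refine Measure.integrableOn_of_bounded (M := 9 / 4) Sim_compact.measure_lt_top.ne
      ((wm_meas _ _ _ _).comp hφ).aestronglyMeasurable ?_
    filter_upwards [ae_restrict_mem Sim_meas] with t ht
    obtain ⟨b1, b2⟩ := wm_bd (A := N l j - N l k * N k j) (B := N l k - N l j * N j k)
      (p := N j k) (q := N k j) (hφS t ht)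
    rw [Real.norm_eq_abs, abs_of_nonneg b1]
    exact b2
  · obtain ⟨g1, g2, g3, g4⟩ := hφe t
    exact wm_le_kap hN hc hcol hd hlj hlk hjk hc1 ht g1 g2 g3 g4

end

end Pool.Agent.Helper96.Kap
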