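import Pool.Agent.Helper96.MEI.Top
import Pool.Agent.Helper93.MEI.Reduce2
import Pool.Agent.Helper33.MEI.Frame

/-!
# From the core statement for smooth bodies to the theorem for all bodies of constant width
-/

namespace Helper96.MEI

open Set Metric MeasureTheory Helper80.CW Helper93.MEI

/-- the conclusion: the theorem of Bonnesen and Fenchel's problem -/
def Concl : Prop := ∀ K : Set (EuclideanSpace ℝ (Fin 3)), IsCompact K → Convex ℝ K →
  (∀ u : EuclideanSpace ℝ (Fin 3), ‖u‖ = 1 →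
      sSup ((fun x => inner ℝ x u) '' K) - sInf ((fun x => inner ℝ x u) '' K) = 1) →
  ENNReal.ofReal (Real.pi * (2 / 3 - Real.sqrt 3 / 4 * Real.arccos (1 / 3))) ≤ volume K ∧
    (volume K = ENNReal.ofReal (Real.pi * (2 / 3 - Real.sqrt 3 / 4 * Real.arccos (1 / 3))) ↔
      ∃ a : Fin 4 → EuclideanSpace ℝ (Fin 3), (∀ i j, i ≠ j → dist (a i) (a j) = 1) ∧
        ∃ c : Fin 3 → Bool, K = MB a c)

/-- **Final assembly.** The core statement is for smooth bodies: the inequality with a positive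
multiple of the largest violation `dist q (a i) ^ 2 - 1`, for one regular tetrahedron `a`. -/
theorem concl_of_core {κ : ℝ} (hκ : 0 < κ)
    (h1 : ∀ f : E3 → ℝ, SSup f 1 → (∀ x, x ≠ 0 → 0 < f x) →
      ENNReal.ofReal VMe ≤ volume (Bd f))
    (h2 : ∀ f : E3 → ℝ, SSup f 1 → (∀ x, x ≠ 0 → 0 < f x) →
      ∃ a : Fin 4 → E3, (∀ i j, i ≠ j → dist (a i) (a j) = 1) ∧
        ∀ i, ∀ q ∈ Bd f, ENNReal.ofReal (VMe + κ * (dist q (a i) ^ 2 - 1)) ≤ volume (Bd f)) :
    Concl := by
  intro K hK hc hw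
  exact top_of_quant hκ hK hc hw (reduce h1 hK hc hw) (reduce_s hκ h2 hK hc hw)

/-- the same with one core statement, `S` is any upper bound of the violations -/
theorem concl_of_core' {κ : ℝ} (hκ : 0 < κ)
    (h : ∀ f : E3 → ℝ, SSup f 1 → (∀ x, x ≠ 0 → 0 < f x) →
      ∃ a : Fin 4 → E3, (∀ i j, i ≠ j → dist (a i) (a j) = 1) ∧
        ∃ S : ℝ, 0 ≤ S ∧ (∀ i, ∀ q ∈ Bd f, dist q (a i) ^ 2 - 1 ≤ S) ∧
          ENNReal.ofReal (VMe + κ * S) ≤ volume (Bd f)) : Concl := by
  apply concl_of_core hκ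
  · intro f hf hp
    obtain ⟨a, -, S, hS, -, hV⟩ := h f hf hp
    refine (ENNReal.ofReal_le_ofReal ?_).trans hV
    have := mul_nonneg hκ.le hS
    linarith
  · intro f hf hp
    obtain ⟨a, ha, S, -, hq, hV⟩ := h f hf hp
    refine ⟨a, ha, fun i q hqK => (ENNReal.ofReal_le_ofReal ?_).trans hV⟩
    have := mul_le_mul_of_nonneg_left (hq i q hqK) hκ.le
    linarith

/-- a regular tetrahedron with a given centre -/
theorem exists_tetra (x0 : E3) : ∃ a : Fin 4 → E3, (∀ i j, i ≠ j → dist (a i) (a j) = 1) ∧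
    ∀ i, dist x0 (a i) ^ 2 = 3 / 8 := by
  refine ⟨fun i => x0 + Helper33.MEI.std i, ?_, ?_⟩
  · intro i j hij
    rw [dist_add_left, dist_eq_norm]
    have h : ‖Helper33.MEI.std i - Helper33.MEI.std j‖ ^ 2 = 1 := by
      rw [norm_sub_sq_real, ← real_inner_self_eq_norm_sq, ← real_inner_self_eq_norm_sq,
        Helper33.MEI.std_gram, Helper33.MEI.std_gram, Helper33.MEI.std_gram, if_pos rfl,
        if_pos rfl, if_neg hij]
      norm_num
    exact (pow_eq_one_iff_of_nonneg (norm_nonneg _) two_ne_zero).1 h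
  · intro i
    rw [dist_eq_norm]
    have e : x0 - (x0 + Helper33.MEI.std i) = -(Helper33.MEI.std i) := by abel
    rw [e, norm_neg, ← real_inner_self_eq_norm_sq, Helper33.MEI.std_gram, if_pos rfl]

/-- **Bodies with a fixed surplus** (small circumradius): the core statement holds with any
regular tetrahedron centred in the body. -/
theorem core_of_surplus {κ δ : ℝ} (hδ : κ * 2 ≤ δ) {K : Set E3} (hK : IsCompact K)
    (hw : Width1 K) (hV : ENNReal.ofReal (VMe + δ) ≤ volume K) :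
    ∃ a : Fin 4 → E3, (∀ i j, i ≠ j → dist (a i) (a j) = 1) ∧
      ∃ S : ℝ, 0 ≤ S ∧ (∀ i, ∀ q ∈ K, dist q (a i) ^ 2 - 1 ≤ S) ∧
        ENNReal.ofReal (VMe + κ * S) ≤ volume K := by
  obtain ⟨x0, hx0⟩ := hw.nonempty
  obtain ⟨a, ha, h38⟩ := exists_tetra x0
  refine ⟨a, ha, 2, by norm_num, ?_, (ENNReal.ofReal_le_ofReal (by linarith)).trans hV⟩
  intro i q hq
  have h1 : dist q x0 ≤ 1 := Helper82.CW.diam_le hK hw q hq x0 hx0
  have h2 := dist_triangle q x0 (a i)
  have h3 := h38 i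
  have h4 := dist_nonneg (x := x0) (y := a i)
  have h5 : dist x0 (a i) ≤ 0.7 := by
    by_contra hcon
    nlinarith
  have h6 := dist_nonneg (x := q) (y := a i)
  nlinarith

end Helper96.MEI
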