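import Pool.Agent.Helper29.MEI.Tent

/-!
# Project MEI (M2): integrals over the contact cone

Linear change of variables for integrals of homogeneous functions over the flat triangle.
-/

namespace Helper96.Cone

open MeasureTheory Set Helper29.MEI
open scoped ENNReal

/-- the closed orthant -/
def Cp : Set (ℝ × ℝ × ℝ) := {p | 0 ≤ p.1 ∧ 0 ≤ p.2.1 ∧ 0 ≤ p.2.2}

theorem Cp_meas : MeasurableSet Cp := by
  have h1 : MeasurableSet {p : ℝ × ℝ × ℝ | 0 ≤ p.1} :=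
    measurableSet_le measurable_const measurable_fst
  have h2 : MeasurableSet {p : ℝ × ℝ × ℝ | 0 ≤ p.2.1} :=
    measurableSet_le measurable_const (measurable_fst.comp measurable_snd)
  have h3 : MeasurableSet {p : ℝ × ℝ × ℝ | 0 ≤ p.2.2} :=
    measurableSet_le measurable_const (measurable_snd.comp measurable_snd)
  exact h1.inter (h2.inter h3)

/-- a point of the flat triangle with its third coordinate -/
def fl (t : ℝ × ℝ) : ℝ × ℝ × ℝ := (t.1, t.2, 1 - t.1 - t.2)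

theorem fl_meas : Measurable fl := by
  unfold fl
  fun_prop

theorem fl_mem {t : ℝ × ℝ} : fl t ∈ Cp ↔ t ∈ TD := by
  constructor
  · rintro ⟨h1, h2, h3⟩
    exact ⟨h1, h2, by have : 0 ≤ 1 - t.1 - t.2 := h3; linarith⟩
  · rintro ⟨h1, h2, h3⟩
    exact ⟨h1, h2, by show 0 ≤ 1 - t.1 - t.2; linarith⟩

/-- scaling of a triple -/
def sc (τ : ℝ) (p : ℝ × ℝ × ℝ) : ℝ × ℝ × ℝ := (τ * p.1, τ * p.2.1, τ * p.2.2)

theorem sc_mem {τ : ℝ} (hτ : 0 < τ) {p : ℝ × ℝ × ℝ} : sc τ p ∈ Cp ↔ p ∈ Cp := by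
  constructor
  · rintro ⟨h1, h2, h3⟩
    exact ⟨nonneg_of_mul_nonneg_right h1 hτ, nonneg_of_mul_nonneg_right h2 hτ,
      nonneg_of_mul_nonneg_right h3 hτ⟩
  · rintro ⟨h1, h2, h3⟩
    exact ⟨mul_nonneg hτ.le h1, mul_nonneg hτ.le h2, mul_nonneg hτ.le h3⟩

/-- a linear functional -/
def Sf (s : ℝ × ℝ × ℝ) (p : ℝ × ℝ × ℝ) : ℝ := s.1 * p.1 + s.2.1 * p.2.1 + s.2.2 * p.2.2

theorem Sf_sc (s : ℝ × ℝ × ℝ) (τ : ℝ) (p : ℝ × ℝ × ℝ) : Sf s (sc τ p) = τ * Sf s p := by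
  unfold Sf sc
  ring

theorem Sf_meas (s : ℝ × ℝ × ℝ) : Measurable (Sf s) := by
  unfold Sf
  fun_prop

theorem Sf_pos {s : ℝ × ℝ × ℝ} (h1 : 0 < s.1) (h2 : 0 < s.2.1) (h3 : 0 < s.2.2) {t : ℝ × ℝ}
    (ht : t ∈ TD) : 0 < Sf s (fl t) := by
  obtain ⟨a, b, c⟩ := ht
  unfold Sf fl
  simp only
  have k3 : 0 ≤ 1 - t.1 - t.2 := by linarith
  by_contra hneg
  push Not at hneg
  have e1 := mul_nonneg h1.le a
  have e2 := mul_nonneg h2.le b
  have e3 := mul_nonneg h3.le k3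
  have f1 : s.1 * t.1 = 0 := by linarith
  have f2 : s.2.1 * t.2 = 0 := by linarith
  have f3 : s.2.2 * (1 - t.1 - t.2) = 0 := by linarith
  have g1 : t.1 = 0 := by
    rcases mul_eq_zero.1 f1 with h | h
    · exact absurd h h1.ne'
    · exact h
  have g2 : t.2 = 0 := by
    rcases mul_eq_zero.1 f2 with h | h
    · exact absurd h h2.ne'
    · exact h
  rw [g1, g2] at f3
  norm_num at f3
  exact h3.ne' f3

/-- the truncated function -/
noncomputable def Ft (h : ℝ × ℝ × ℝ → ℝ≥0∞) (s : ℝ × ℝ × ℝ) : ℝ × ℝ × ℝ → ℝ≥0∞ :=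
  (Cp ∩ {p | Sf s p ≤ 1}).indicator fun p => h p * ENNReal.ofReal (Sf s p)

theorem Ft_meas {h : ℝ × ℝ × ℝ → ℝ≥0∞} (hm : Measurable h) (s : ℝ × ℝ × ℝ) :
    Measurable (Ft h s) :=
  (hm.mul (Sf_meas s).ennreal_ofReal).indicator
    (Cp_meas.inter (measurableSet_le (Sf_meas s) measurable_const))

/-- the radial integral -/
theorem rad_int {h : ℝ × ℝ × ℝ → ℝ≥0∞} {s : ℝ × ℝ × ℝ} (h1 : 0 < s.1) (h2 : 0 < s.2.1)
    (h3 : 0 < s.2.2)
    (hh : ∀ τ : ℝ, 0 < τ → ∀ p ∈ Cp, h (sc τ p) = ENNReal.ofReal ((τ⁻¹) ^ 3) * h p) (t : ℝ × ℝ) :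
    ∫⁻ τ, ENNReal.ofReal (τ ^ 2) * Ft h s (sc τ (fl t)) = TD.indicator (fun t => h (fl t)) t := by
  classical
  by_cases ht : t ∈ TD
  · rw [indicator_of_mem ht]
    have hS := Sf_pos h1 h2 h3 ht
    set S := Sf s (fl t) with hSd
    have e : ∀ τ : ℝ, ENNReal.ofReal (τ ^ 2) * Ft h s (sc τ (fl t)) =
        (Ioc 0 S⁻¹).indicator (fun _ => h (fl t) * ENNReal.ofReal S) τ := by
      intro τ
      by_cases hτ : 0 < τ
      · have hp : fl t ∈ Cp := fl_mem.2 ht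
        have hp' : sc τ (fl t) ∈ Cp := (sc_mem hτ).2 hp
        by_cases hle : τ ≤ S⁻¹
        · have hle' : τ * S ≤ 1 := by
            rw [← le_div_iff₀ hS, one_div]; exact hle
          rw [indicator_of_mem (show τ ∈ Ioc 0 S⁻¹ from ⟨hτ, hle⟩)]
          have hm : sc τ (fl t) ∈ Cp ∩ {p | Sf s p ≤ 1} := ⟨hp', by
            show Sf s (sc τ (fl t)) ≤ 1
            rw [Sf_sc]; exact hle'⟩
          unfold Ft
          rw [indicator_of_mem hm, hh τ hτ _ hp, Sf_sc, ← hSd,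
            ENNReal.ofReal_mul hτ.le (p := τ)]
          have k : ENNReal.ofReal (τ ^ 2) * (ENNReal.ofReal ((τ⁻¹) ^ 3) * ENNReal.ofReal τ) = 1 := by
            rw [← ENNReal.ofReal_mul (by positivity), ← ENNReal.ofReal_mul (by positivity)]
            have : τ ^ 2 * (τ⁻¹ ^ 3 * τ) = 1 := by field_simp
            rw [this, ENNReal.ofReal_one]
          calc ENNReal.ofReal (τ ^ 2) * (ENNReal.ofReal (τ⁻¹ ^ 3) * h (fl t) *
                (ENNReal.ofReal τ * ENNReal.ofReal S)) =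
              (ENNReal.ofReal (τ ^ 2) * (ENNReal.ofReal ((τ⁻¹) ^ 3) * ENNReal.ofReal τ)) *
                (h (fl t) * ENNReal.ofReal S) := by ring
            _ = h (fl t) * ENNReal.ofReal S := by rw [k, one_mul]
        · rw [indicator_of_notMem (show τ ∉ Ioc 0 S⁻¹ from fun h => hle h.2)]
          have hm : sc τ (fl t) ∉ Cp ∩ {p | Sf s p ≤ 1} := by
            rintro ⟨_, h4⟩
            have h5 : Sf s (sc τ (fl t)) ≤ 1 := h4
            rw [Sf_sc] at h5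
            apply hle
            rw [← one_div, le_div_iff₀ hS]
            exact h5
          unfold Ft
          rw [indicator_of_notMem hm, mul_zero]
      · rw [indicator_of_notMem (show τ ∉ Ioc 0 S⁻¹ from fun h => hτ h.1)]
        push Not at hτ
        rcases hτ.eq_or_lt with h0 | h0
        · rw [h0]; simp
        · have hm : sc τ (fl t) ∉ Cp ∩ {p | Sf s p ≤ 1} := by
            rintro ⟨⟨k1, k2, k3⟩, _⟩
            have k1' : 0 ≤ τ * t.1 := k1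
            have k2' : 0 ≤ τ * t.2 := k2
            have k3' : 0 ≤ τ * (1 - t.1 - t.2) := k3
            have : τ * t.1 + τ * t.2 + τ * (1 - t.1 - t.2) = τ := by ring
            linarith
          unfold Ft
          rw [indicator_of_notMem hm, mul_zero]
    simp only [e]
    rw [lintegral_indicator measurableSet_Ioc, setLIntegral_const, Real.volume_Ioc, sub_zero,
      mul_assoc, ← ENNReal.ofReal_mul hS.le, mul_inv_cancel₀ hS.ne', ENNReal.ofReal_one, mul_one]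
  · rw [indicator_of_notMem ht]
    have e : ∀ τ : ℝ, ENNReal.ofReal (τ ^ 2) * Ft h s (sc τ (fl t)) = 0 := by
      intro τ
      by_cases h0 : τ = 0
      · rw [h0]; simp
      · have hm : sc τ (fl t) ∉ Cp ∩ {p | Sf s p ≤ 1} := by
          rintro ⟨hc, _⟩
          have hτ : 0 < τ := by
            obtain ⟨k1, k2, k3⟩ := hc
            have k1' : 0 ≤ τ * t.1 := k1
            have k2' : 0 ≤ τ * t.2 := k2
            have k3' : 0 ≤ τ * (1 - t.1 - t.2) := k3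
            have e3 : τ * t.1 + τ * t.2 + τ * (1 - t.1 - t.2) = τ := by ring
            have h5 : 0 ≤ τ := by linarith
            exact lt_of_le_of_ne h5 (Ne.symm h0)
          exact ht (fl_mem.1 ((sc_mem hτ).1 hc))
        unfold Ft
        rw [indicator_of_notMem hm, mul_zero]
    simp only [e, lintegral_zero]

/-- **homogeneous functions of degree `-3`**: the integral over the orthant with any cut off
functional equals the integral over the flat triangle -/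
theorem orth_int {h : ℝ × ℝ × ℝ → ℝ≥0∞} (hm : Measurable h) {s : ℝ × ℝ × ℝ} (h1 : 0 < s.1)
    (h2 : 0 < s.2.1) (h3 : 0 < s.2.2)
    (hh : ∀ τ : ℝ, 0 < τ → ∀ p ∈ Cp, h (sc τ p) = ENNReal.ofReal ((τ⁻¹) ^ 3) * h p) :
    ∫⁻ p, Ft h s p = ∫⁻ t in TD, h (fl t) := by
  have hF := Ft_meas hm s
  have e1 : ∫⁻ p, Ft h s p = ∫⁻ a, ∫⁻ b, ∫⁻ c, Ft h s (a, b, c) := by
    rw [Measure.volume_eq_prod, lintegral_prod _ hF.aemeasurable]
    refine lintegral_congr fun a => ?_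
    rw [Measure.volume_eq_prod]
    exact lintegral_prod (fun q : ℝ × ℝ => Ft h s (a, q))
      (hF.comp (measurable_prodMk_left (x := a))).aemeasurable
  have e2 := cone_lint (F := fun a b c => Ft h s (a, b, c)) hF
  have e3 : ∀ x y : ℝ, ∫⁻ τ, ENNReal.ofReal (τ ^ 2) *
      Ft h s (τ * x, τ * y, τ * (1 - x - y)) = TD.indicator (fun t => h (fl t)) (x, y) :=
    fun x y => rad_int h1 h2 h3 hh (x, y)
  rw [e1, e2]
  simp only [e3]
  rw [← lintegral_indicator TD_meas, Measure.volume_eq_prod]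
  exact (lintegral_prod (TD.indicator fun t : ℝ × ℝ => h (fl t))
    ((hm.comp fl_meas).indicator TD_meas).aemeasurable).symm

/-- matrix times triple -/
def mv (M : Matrix (Fin 3) (Fin 3) ℝ) (p : ℝ × ℝ × ℝ) : ℝ × ℝ × ℝ :=
  (M 0 0 * p.1 + M 0 1 * p.2.1 + M 0 2 * p.2.2, M 1 0 * p.1 + M 1 1 * p.2.1 + M 1 2 * p.2.2,
    M 2 0 * p.1 + M 2 1 * p.2.1 + M 2 2 * p.2.2)

theorem mv_meas (M : Matrix (Fin 3) (Fin 3) ℝ) : Measurable (mv M) := by
  unfold mv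
  fun_prop

/-- triples and vectors -/
def eT : (Fin 3 → ℝ) ≃ₗ[ℝ] ℝ × ℝ × ℝ where
  toFun v := (v 0, v 1, v 2)
  invFun p := ![p.1, p.2.1, p.2.2]
  map_add' v w := rfl
  map_smul' c v := rfl
  left_inv v := by
    ext i
    fin_cases i <;> rfl
  right_inv p := rfl

theorem mv_eq (M : Matrix (Fin 3) (Fin 3) ℝ) (p : ℝ × ℝ × ℝ) :
    mv M p = (eT.toLinearMap ∘ₗ Matrix.toLin' M ∘ₗ eT.symm.toLinearMap) p := by
  have h : ∀ i, (Matrix.toLin' M (eT.symm p)) i = M i 0 * p.1 + M i 1 * p.2.1 + M i 2 * p.2.2 := by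
    intro i
    rw [Matrix.toLin'_apply, Matrix.mulVec, dotProduct, Fin.sum_univ_three]
    rfl
  show mv M p = ((Matrix.toLin' M (eT.symm p)) 0, (Matrix.toLin' M (eT.symm p)) 1,
    (Matrix.toLin' M (eT.symm p)) 2)
  rw [h, h, h]
  rfl

/-- linear change of variables -/
theorem lin_lint {M : Matrix (Fin 3) (Fin 3) ℝ} (hM : M.det ≠ 0) {F : ℝ × ℝ × ℝ → ℝ≥0∞}
    (hF : Measurable F) : ∫⁻ p, F p = ENNReal.ofReal |M.det| * ∫⁻ p, F (mv M p) := by
  set f : (ℝ × ℝ × ℝ) →ₗ[ℝ] ℝ × ℝ × ℝ := eT.toLinearMap ∘ₗ Matrix.toLin' M ∘ₗ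
    eT.symm.toLinearMap with hf
  have hdet : LinearMap.det f = M.det := by
    have h1 := LinearMap.det_conj (Matrix.toLin' M) eT
    rw [hf, h1, LinearMap.det_toLin']
  have i2 : (volume : Measure (ℝ × ℝ)).IsAddHaarMeasure := by
    rw [Measure.volume_eq_prod]
    infer_instance
  have i3 : (volume : Measure (ℝ × ℝ × ℝ)).IsAddHaarMeasure := by
    rw [Measure.volume_eq_prod]
    infer_instance
  have h2 := Measure.map_linearMap_addHaar_eq_smul_addHaar (μ := (volume : Measure (ℝ × ℝ × ℝ)))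
    (f := f) (by rw [hdet]; exact hM)
  rw [hdet] at h2
  have hfe : ∀ p, f p = mv M p := fun p => (mv_eq M p).symm
  have hfm : Measurable f := by
    have : (f : ℝ × ℝ × ℝ → ℝ × ℝ × ℝ) = mv M := funext hfe
    rw [this]
    exact mv_meas M
  have h3 : ∫⁻ p, F p ∂(Measure.map f volume) = ∫⁻ p, F (mv M p) := by
    rw [lintegral_map hF hfm]
    refine lintegral_congr fun p => ?_
    rw [hfe]
  rw [← h3, h2, lintegral_smul_measure, smul_eq_mul, ← mul_assoc,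
    ← ENNReal.ofReal_mul (abs_nonneg _), ← abs_mul, mul_inv_cancel₀ hM, abs_one,
    ENNReal.ofReal_one, one_mul]

theorem mv_mul (M N : Matrix (Fin 3) (Fin 3) ℝ) (p : ℝ × ℝ × ℝ) :
    mv M (mv N p) = mv (M * N) p := by
  have h : ∀ i j, (M * N) i j = M i 0 * N 0 j + M i 1 * N 1 j + M i 2 * N 2 j := by
    intro i j
    rw [Matrix.mul_apply, Fin.sum_univ_three]
  unfold mv
  simp only [h]
  refine Prod.ext ?_ (Prod.ext ?_ ?_) <;> simp only <;> ring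

theorem mv_one (p : ℝ × ℝ × ℝ) : mv 1 p = p := by
  unfold mv
  simp

theorem mv_sc (M : Matrix (Fin 3) (Fin 3) ℝ) (τ : ℝ) (p : ℝ × ℝ × ℝ) :
    mv M (sc τ p) = sc τ (mv M p) := by
  unfold mv sc
  refine Prod.ext ?_ (Prod.ext ?_ ?_) <;> simp only <;> ring

theorem mv_mem {M : Matrix (Fin 3) (Fin 3) ℝ} (h0 : ∀ i j, 0 ≤ M i j) {p : ℝ × ℝ × ℝ}
    (hp : p ∈ Cp) : mv M p ∈ Cp := by
  obtain ⟨a, b, c⟩ := hp
  refine ⟨?_, ?_, ?_⟩
  · have := mul_nonneg (h0 0 0) a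
    have := mul_nonneg (h0 0 1) b
    have := mul_nonneg (h0 0 2) c
    show 0 ≤ M 0 0 * p.1 + M 0 1 * p.2.1 + M 0 2 * p.2.2
    linarith
  · have := mul_nonneg (h0 1 0) a
    have := mul_nonneg (h0 1 1) b
    have := mul_nonneg (h0 1 2) c
    show 0 ≤ M 1 0 * p.1 + M 1 1 * p.2.1 + M 1 2 * p.2.2
    linarith
  · have := mul_nonneg (h0 2 0) a
    have := mul_nonneg (h0 2 1) b
    have := mul_nonneg (h0 2 2) c
    show 0 ≤ M 2 0 * p.1 + M 2 1 * p.2.1 + M 2 2 * p.2.2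
    linarith

/-- **linear change of variables on the flat triangle, degree `-3`, `ENNReal` form**:
the cone `M (orthant)` against the whole triangle -/
theorem cone_lint3 {M : Matrix (Fin 3) (Fin 3) ℝ} (h0 : ∀ i j, 0 ≤ M i j) (hdet : 0 < M.det)
    (hcol : ∀ j, 0 < M 0 j + M 1 j + M 2 j) {h : ℝ × ℝ × ℝ → ℝ≥0∞} (hm : Measurable h)
    (hh : ∀ τ : ℝ, 0 < τ → ∀ p ∈ Cp, h (sc τ p) = ENNReal.ofReal ((τ⁻¹) ^ 3) * h p) :
    ∫⁻ t in TD ∩ {t | mv M⁻¹ (fl t) ∈ Cp}, h (fl t) =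
      ENNReal.ofReal M.det * ∫⁻ t in TD, h (mv M (fl t)) := by
  have hinv : M⁻¹ * M = 1 := Matrix.nonsing_inv_mul M (isUnit_iff_ne_zero.2 hdet.ne')
  have hR : MeasurableSet {p : ℝ × ℝ × ℝ | mv M⁻¹ p ∈ Cp} := mv_meas _ Cp_meas
  set h' : ℝ × ℝ × ℝ → ℝ≥0∞ := {p | mv M⁻¹ p ∈ Cp}.indicator h with hh'
  have hm' : Measurable h' := hm.indicator hR
  have hom' : ∀ τ : ℝ, 0 < τ → ∀ p ∈ Cp, h' (sc τ p) = ENNReal.ofReal ((τ⁻¹) ^ 3) * h' p := by
    intro τ hτ p hp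
    by_cases hc : mv M⁻¹ p ∈ Cp
    · have hc' : mv M⁻¹ (sc τ p) ∈ Cp := by rw [mv_sc]; exact (sc_mem hτ).2 hc
      rw [hh', indicator_of_mem (show sc τ p ∈ {p | mv M⁻¹ p ∈ Cp} from hc'),
        indicator_of_mem (show p ∈ {p | mv M⁻¹ p ∈ Cp} from hc)]
      exact hh τ hτ p hp
    · have hc' : mv M⁻¹ (sc τ p) ∉ Cp := by rw [mv_sc]; exact fun k => hc ((sc_mem hτ).1 k)
      rw [hh', indicator_of_notMem (show sc τ p ∉ {p | mv M⁻¹ p ∈ Cp} from hc'),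
        indicator_of_notMem (show p ∉ {p | mv M⁻¹ p ∈ Cp} from hc), mul_zero]
  have e1 := orth_int hm' (s := ((1 : ℝ), (1 : ℝ), (1 : ℝ))) one_pos one_pos one_pos hom'
  have e2 : ∫⁻ t in TD, h' (fl t) = ∫⁻ t in TD ∩ {t | mv M⁻¹ (fl t) ∈ Cp}, h (fl t) := by
    have hR2 : MeasurableSet {t : ℝ × ℝ | mv M⁻¹ (fl t) ∈ Cp} := fl_meas hR
    rw [← lintegral_indicator TD_meas, ← lintegral_indicator (TD_meas.inter hR2)]
    refine lintegral_congr fun t => ?_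
    by_cases ht : t ∈ TD
    · rw [indicator_of_mem ht]
      by_cases hc : mv M⁻¹ (fl t) ∈ Cp
      · rw [indicator_of_mem (show t ∈ TD ∩ {t | mv M⁻¹ (fl t) ∈ Cp} from ⟨ht, hc⟩), hh',
          indicator_of_mem (show fl t ∈ {p | mv M⁻¹ p ∈ Cp} from hc)]
      · rw [indicator_of_notMem (show t ∉ TD ∩ {t | mv M⁻¹ (fl t) ∈ Cp} from fun k => hc k.2), hh',
          indicator_of_notMem (show fl t ∉ {p | mv M⁻¹ p ∈ Cp} from hc)]
    · rw [indicator_of_notMem ht,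
        indicator_of_notMem (show t ∉ TD ∩ {t | mv M⁻¹ (fl t) ∈ Cp} from fun k => ht k.1)]
  rw [← e2, ← e1, lin_lint hdet.ne' (Ft_meas hm' _), abs_of_pos hdet]
  congr 1
  set s : ℝ × ℝ × ℝ := (M 0 0 + M 1 0 + M 2 0, M 0 1 + M 1 1 + M 2 1, M 0 2 + M 1 2 + M 2 2)
    with hs
  have e3 := orth_int (h := fun p => h (mv M p)) (hm.comp (mv_meas M)) (s := s) (hcol 0) (hcol 1)
    (hcol 2) (fun τ hτ p hp => by
      rw [mv_sc]
      exact hh τ hτ _ (mv_mem h0 hp))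
  rw [← e3]
  refine lintegral_congr fun p => ?_
  have hS : Sf ((1 : ℝ), (1 : ℝ), (1 : ℝ)) (mv M p) = Sf s p := by
    unfold Sf mv
    rw [hs]
    simp only
    ring
  have hMM : mv M⁻¹ (mv M p) = p := by
    rw [mv_mul, hinv, mv_one]
  unfold Ft
  by_cases hp : p ∈ Cp
  · have hp1 : mv M p ∈ Cp := mv_mem h0 hp
    have hp2 : mv M p ∈ {p | mv M⁻¹ p ∈ Cp} := by
      show mv M⁻¹ (mv M p) ∈ Cp
      rw [hMM]; exact hp
    by_cases hle : Sf s p ≤ 1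
    · rw [indicator_of_mem (show p ∈ Cp ∩ {p | Sf s p ≤ 1} from ⟨hp, hle⟩),
        indicator_of_mem (show mv M p ∈ Cp ∩ {p | Sf ((1 : ℝ), (1 : ℝ), (1 : ℝ)) p ≤ 1} from
          ⟨hp1, by show Sf _ (mv M p) ≤ 1; rw [hS]; exact hle⟩), hS, hh', indicator_of_mem hp2]
    · rw [indicator_of_notMem (show p ∉ Cp ∩ {p | Sf s p ≤ 1} from fun k => hle k.2),
        indicator_of_notMem]
      rintro ⟨_, k⟩
      have k' : Sf ((1 : ℝ), (1 : ℝ), (1 : ℝ)) (mv M p) ≤ 1 := k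
      rw [hS] at k'
      exact hle k'
  · rw [indicator_of_notMem (show p ∉ Cp ∩ {p | Sf s p ≤ 1} from fun k => hp k.1)]
    have hp2 : mv M p ∉ {p | mv M⁻¹ p ∈ Cp} := by
      show mv M⁻¹ (mv M p) ∉ Cp
      rw [hMM]; exact hp
    rw [hh']
    by_cases k : mv M p ∈ Cp ∩ {p | Sf ((1 : ℝ), (1 : ℝ), (1 : ℝ)) p ≤ 1}
    · rw [indicator_of_mem k, indicator_of_notMem hp2, zero_mul]
    · rw [indicator_of_notMem k]

/-- the quadratic form of the lengths -/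
def Qf (p : ℝ × ℝ × ℝ) : ℝ :=
  p.1 ^ 2 + p.2.1 ^ 2 + p.2.2 ^ 2 + p.1 * p.2.1 + p.1 * p.2.2 + p.2.1 * p.2.2

theorem Qf_sc (τ : ℝ) (p : ℝ × ℝ × ℝ) : Qf (sc τ p) = τ ^ 2 * Qf p := by
  unfold Qf sc
  ring

theorem Qf_fl (t : ℝ × ℝ) : Qf (fl t) = 1 - e2 t.1 t.2 := by
  unfold Qf fl e2
  ring

theorem Qf_meas : Measurable Qf := by
  unfold Qf
  fun_prop

/-- **(CONE)**: integrals over the contact cone, `f` homogeneous of degree one and nonnegative -/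
theorem cone_int {M : Matrix (Fin 3) (Fin 3) ℝ} (h0 : ∀ i j, 0 ≤ M i j) (hdet : 0 < M.det)
    (hcol : ∀ j, 0 < M 0 j + M 1 j + M 2 j) {f : ℝ × ℝ × ℝ → ℝ} (hf : Measurable f)
    (hf0 : ∀ p ∈ Cp, 0 ≤ f p) (hf1 : ∀ τ : ℝ, 0 < τ → ∀ p ∈ Cp, f (sc τ p) = τ * f p) :
    ∫ t in TD ∩ {t | mv M⁻¹ (fl t) ∈ Cp}, f (mv M⁻¹ (fl t)) / (1 - e2 t.1 t.2) ^ 2 =
      M.det * ∫ t in TD, f (fl t) / Qf (mv M (fl t)) ^ 2 := by
  have hinv : M⁻¹ * M = 1 := Matrix.nonsing_inv_mul M (isUnit_iff_ne_zero.2 hdet.ne')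
  have hR : MeasurableSet {p : ℝ × ℝ × ℝ | mv M⁻¹ p ∈ Cp} := mv_meas _ Cp_meas
  have hR2 : MeasurableSet {t : ℝ × ℝ | mv M⁻¹ (fl t) ∈ Cp} := fl_meas hR
  -- the function of degree minus three
  set g : ℝ × ℝ × ℝ → ℝ := fun p => f (mv M⁻¹ p) / Qf p ^ 2 with hg
  have hgm : Measurable g := (hf.comp (mv_meas _)).div (Qf_meas.pow_const 2)
  set k : ℝ × ℝ × ℝ → ℝ≥0∞ := {p | mv M⁻¹ p ∈ Cp}.indicator fun p => ENNReal.ofReal (g p) with hk
  have hkm : Measurable k := hgm.ennreal_ofReal.indicator hR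
  have hkh : ∀ τ : ℝ, 0 < τ → ∀ p ∈ Cp, k (sc τ p) = ENNReal.ofReal ((τ⁻¹) ^ 3) * k p := by
    intro τ hτ p hp
    by_cases hc : mv M⁻¹ p ∈ Cp
    · have hc' : mv M⁻¹ (sc τ p) ∈ Cp := by rw [mv_sc]; exact (sc_mem hτ).2 hc
      rw [hk, indicator_of_mem (show sc τ p ∈ {p | mv M⁻¹ p ∈ Cp} from hc'),
        indicator_of_mem (show p ∈ {p | mv M⁻¹ p ∈ Cp} from hc),
        ← ENNReal.ofReal_mul (by positivity)]
      congr 1
      rw [hg]
      simp only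
      rw [mv_sc, hf1 τ hτ _ hc, Qf_sc]
      by_cases hq : Qf p = 0
      · rw [hq]; simp
      · field_simp
    · have hc' : mv M⁻¹ (sc τ p) ∉ Cp := by rw [mv_sc]; exact fun k => hc ((sc_mem hτ).1 k)
      rw [hk, indicator_of_notMem (show sc τ p ∉ {p | mv M⁻¹ p ∈ Cp} from hc'),
        indicator_of_notMem (show p ∉ {p | mv M⁻¹ p ∈ Cp} from hc), mul_zero]
  have key := cone_lint3 h0 hdet hcol hkm hkh
  have hMM : ∀ p, mv M⁻¹ (mv M p) = p := fun p => by rw [mv_mul, hinv, mv_one]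
  have hA : ∫⁻ t in TD ∩ {t | mv M⁻¹ (fl t) ∈ Cp}, k (fl t) =
      ∫⁻ t in TD ∩ {t | mv M⁻¹ (fl t) ∈ Cp},
        ENNReal.ofReal (f (mv M⁻¹ (fl t)) / (1 - e2 t.1 t.2) ^ 2) := by
    refine setLIntegral_congr_fun (TD_meas.inter hR2) fun t ht => ?_
    show k (fl t) = _
    rw [hk, indicator_of_mem (show fl t ∈ {p | mv M⁻¹ p ∈ Cp} from ht.2), hg]
    simp only
    rw [Qf_fl]
  have hB : ∫⁻ t in TD, k (mv M (fl t)) =
      ∫⁻ t in TD, ENNReal.ofReal (f (fl t) / Qf (mv M (fl t)) ^ 2) := by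
    refine setLIntegral_congr_fun TD_meas fun t ht => ?_
    show k (mv M (fl t)) = _
    rw [hk, indicator_of_mem (show mv M (fl t) ∈ {p | mv M⁻¹ p ∈ Cp} from by
      show mv M⁻¹ (mv M (fl t)) ∈ Cp
      rw [hMM]; exact fl_mem.2 ht), hg]
    simp only
    rw [hMM]
  rw [hA, hB] at key
  rw [integral_eq_lintegral_of_nonneg_ae, integral_eq_lintegral_of_nonneg_ae, key,
    ENNReal.toReal_mul, ENNReal.toReal_ofReal hdet.le]
  · filter_upwards [ae_restrict_mem TD_meas] with t ht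
    exact div_nonneg (hf0 _ (fl_mem.2 ht)) (sq_nonneg _)
  · exact ((hf.comp fl_meas).div
      ((Qf_meas.comp ((mv_meas M).comp fl_meas)).pow_const 2)).aestronglyMeasurable
  · filter_upwards [ae_restrict_mem (TD_meas.inter hR2)] with t ht
    exact div_nonneg (hf0 _ ht.2) (sq_nonneg _)
  · have hem : Measurable fun t : ℝ × ℝ => (1 - e2 t.1 t.2) ^ 2 := by
      have : Continuous fun t : ℝ × ℝ => (1 - e2 t.1 t.2) ^ 2 :=
        (continuous_const.sub e2_cont).pow 2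
      exact this.measurable
    exact ((hf.comp ((mv_meas _).comp fl_meas)).div hem).aestronglyMeasurable

end Helper96.Cone
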