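import Pool.Agent.Helper96.MEI.E2a

/-!
# Project MEI, regime I: (E2), integration over the latitudes
-/

namespace Helper96.MEI

open Set MeasureTheory Real Helper22.MEI
open Pool.Agent.Helper55.MEI (nz nz_pos nz_sq nz_neg nz_cont c0 om om_pos om_neg om_cont Wz Wz_om
  Wz_cont)

/-- lower bound for one slice -/
noncomputable def FS (e : ℝ) (u u' : ℝ → ℝ) : ℝ :=
  (∫ z in (-z0)..z0, Wz z * (rl u z + (u z - rl u z) / 2)) -
  (∫ z in z0..e, 2 * u z / (1 + z ^ 2) ^ 2) - (∫ z in (-e)..(-z0), 2 * u z / (1 + z ^ 2) ^ 2) -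
  (∫ z in (-e)..e, u' z ^ 2 / nz z) -
  (∫ z in (-z0)..z0, om z * (-(z * u' z * (u z - rl u z)) +
    z0 * (lp z * |u' z0| + lq z * |u' (-z0)|) * u z)) -
  (∫ z in z0..e, om z * (|z| * |u' z| * u z)) - ∫ z in (-e)..(-z0), om z * (|z| * |u' z| * u z)

/-- one slice of the functional -/
noncomputable def DS (e : ℝ) (u u' up : ℝ → ℝ) : ℝ :=
  (∫ z in (-z0)..z0, Wz z * u z) -
  (∫ z in z0..e, 2 * u z / (1 + z ^ 2) ^ 2) - (∫ z in (-e)..(-z0), 2 * u z / (1 + z ^ 2) ^ 2) -
  (∫ z in (-e)..e, u' z ^ 2 / nz z) - ∫ z in (-e)..e, om z * (up z ^ 2 - u z ^ 2)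

/-! ### clamping and parametric integrals -/

noncomputable def cla (a : ℝ) : ℝ := max (-p0) (min a p0)

noncomputable def clz (z : ℝ) : ℝ := max (-s) (min z s)

theorem cla_mem (a : ℝ) : cla a ∈ Icc (-p0) p0 := by
  unfold cla
  have := p0_pos
  exact ⟨le_max_left _ _, max_le (by linarith) (min_le_right _ _)⟩

theorem clz_mem (z : ℝ) : clz z ∈ Icc (-s) s := by
  unfold clz
  have := s_pos
  exact ⟨le_max_left _ _, max_le (by linarith) (min_le_right _ _)⟩

theorem cla_eq {a : ℝ} (ha : a ∈ Icc (-p0) p0) : cla a = a := by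
  unfold cla
  rw [min_eq_left ha.2, max_eq_right ha.1]

theorem clz_eq {z : ℝ} (hz : z ∈ Icc (-s) s) : clz z = z := by
  unfold clz
  rw [min_eq_left hz.2, max_eq_right hz.1]

theorem clamp_cont {F : ℝ → ℝ → ℝ}
    (hF : ContinuousOn (Function.uncurry F) (Icc (-p0) p0 ×ˢ Icc (-s) s)) :
    Continuous (Function.uncurry fun a z => F (cla a) (clz z)) := by
  have h1 : Continuous fun q : ℝ × ℝ => (cla q.1, clz q.2) := by
    unfold cla clz
    fun_prop
  exact hF.comp_continuous h1 fun q => ⟨cla_mem _, clz_mem _⟩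

theorem param_cont {F : ℝ → ℝ → ℝ}
    (hF : ContinuousOn (Function.uncurry F) (Icc (-p0) p0 ×ˢ Icc (-s) s)) {α β : ℝ → ℝ}
    (hα : Continuous α) (hβ : Continuous β) (hα1 : ∀ a ∈ Icc (-p0) p0, α a ∈ Icc (-s) s)
    (hβ1 : ∀ a ∈ Icc (-p0) p0, β a ∈ Icc (-s) s) :
    ContinuousOn (fun a => ∫ z in (α a)..(β a), F a z) (Icc (-p0) p0) := by
  have h1 := clamp_cont hF
  have h2 : Continuous fun a => (∫ z in (0 : ℝ)..(β a), F (cla a) (clz z)) -
      ∫ z in (0 : ℝ)..(α a), F (cla a) (clz z) :=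
    (intervalIntegral.continuous_parametric_intervalIntegral_of_continuous h1 hβ).sub
      (intervalIntegral.continuous_parametric_intervalIntegral_of_continuous h1 hα)
  refine h2.continuousOn.congr fun a ha => ?_
  have h3 : ∀ x y : ℝ, IntervalIntegrable (fun z => F (cla a) (clz z)) volume x y := fun x y => by
    refine Continuous.intervalIntegrable ?_ _ _
    exact h1.comp (by fun_prop : Continuous fun z : ℝ => (a, z))
  show ∫ z in (α a)..(β a), F a z = (∫ z in (0 : ℝ)..(β a), F (cla a) (clz z)) -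
    ∫ z in (0 : ℝ)..(α a), F (cla a) (clz z)
  rw [intervalIntegral.integral_interval_sub_left (h3 _ _) (h3 _ _)]
  refine intervalIntegral.integral_congr fun z hz => ?_
  have hz2 : z ∈ Icc (-s) s := by
    have h4 := uIcc_subset_Icc (hα1 a ha) (hβ1 a ha) hz
    exact h4
  show F a z = F (cla a) (clz z)
  rw [cla_eq ha, clz_eq hz2]

theorem e_cont : Continuous fun a : ℝ => s * Real.cos a := by fun_prop

theorem z0_le_e {a : ℝ} (ha : a ∈ Icc (-p0) p0) : z0 ≤ s * Real.cos a := by
  have h2 := mul_le_mul_of_nonneg_left (cos_le_cos_p0 ha) s_pos.le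
  rwa [cos_p0] at h2

theorem e_le_s (a : ℝ) : s * Real.cos a ≤ s := by
  have := Real.cos_le_one a
  nlinarith [s_pos]

theorem e_mem {a : ℝ} (ha : a ∈ Icc (-p0) p0) : s * Real.cos a ∈ Icc (-s) s :=
  ⟨by linarith [z0_le_e ha, z0_pos, s_pos], e_le_s a⟩

theorem ne_mem {a : ℝ} (ha : a ∈ Icc (-p0) p0) : -(s * Real.cos a) ∈ Icc (-s) s :=
  ⟨by linarith [e_le_s a], by linarith [z0_le_e ha, z0_pos, s_pos]⟩

theorem ple : -p0 ≤ p0 := by linarith [p0_pos]

theorem ii {f : ℝ → ℝ} (hf : ContinuousOn f (Icc (-p0) p0)) :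
    IntervalIntegrable f volume (-p0) p0 :=
  ContinuousOn.intervalIntegrable (by rwa [uIcc_of_le ple])

/-- slices in `z` are integrable -/
theorem iz {F : ℝ → ℝ → ℝ}
    (hF : ContinuousOn (Function.uncurry F) (Icc (-p0) p0 ×ˢ Icc (-s) s)) {a : ℝ}
    (ha : a ∈ Icc (-p0) p0) {x y : ℝ} (hx : x ∈ Icc (-s) s) (hy : y ∈ Icc (-s) s) :
    IntervalIntegrable (F a) volume x y := by
  refine ContinuousOn.intervalIntegrable ?_
  have h1 : ContinuousOn (fun z : ℝ => (a, z)) (uIcc x y) := by fun_prop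
  exact hF.comp h1 fun z hz => ⟨ha, uIcc_subset_Icc hx hy hz⟩

/-! ### swapping the integrals -/

theorem prod_int {F : ℝ × ℝ → ℝ} (hF : ContinuousOn F (Icc (-p0) p0 ×ˢ Icc (-s) s)) {x y : ℝ}
    (hx : -s ≤ x) (hy : y ≤ s) {E : Set (ℝ × ℝ)} (hE : MeasurableSet E) :
    Integrable (E.indicator F)
      ((volume.restrict (Ioc (-p0) p0)).prod (volume.restrict (Ioc x y))) := by
  rw [Measure.prod_restrict]
  refine Integrable.indicator ?_ hE
  have h1 : IntegrableOn F (Icc (-p0) p0 ×ˢ Icc (-s) s) (volume.prod volume) :=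
    hF.integrableOn_compact (isCompact_Icc.prod isCompact_Icc)
  exact h1.mono_set (prod_mono Ioc_subset_Icc_self
    (Ioc_subset_Icc_self.trans (Icc_subset_Icc hx hy)))

/-- nonnegativity of a double integral from the nonnegativity of the inner integrals in the other
order -/
theorem swap_nonneg {F : ℝ × ℝ → ℝ} (hF : ContinuousOn F (Icc (-p0) p0 ×ˢ Icc (-s) s)) {x y : ℝ}
    (hx : -s ≤ x) (hy : y ≤ s) {E : Set (ℝ × ℝ)} (hE : MeasurableSet E)
    (h : ∀ z ∈ Ioc x y, 0 ≤ ∫ a in Ioc (-p0) p0, E.indicator F (a, z)) :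
    0 ≤ ∫ a in Ioc (-p0) p0, ∫ z in Ioc x y, E.indicator F (a, z) := by
  rw [integral_integral_swap (f := fun a z => E.indicator F (a, z)) (prod_int hF hx hy hE)]
  exact setIntegral_nonneg measurableSet_Ioc h

variable {w wp wz : ℝ → ℝ → ℝ}

/-- the middle part -/
noncomputable def Gm (w wp wz : ℝ → ℝ → ℝ) (a z : ℝ) : ℝ :=
  om z * (kh z * (w a z - rl (w a) z) - (wp a z ^ 2 - w a z ^ 2) -
    z * wz a z * (w a z - rl (w a) z) +
    z0 * (lp z * |wz a z0| + lq z * |wz a (-z0)|) * w a z)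

theorem cont_snd {f : ℝ → ℝ} (hf : Continuous f) :
    ContinuousOn (fun q : ℝ × ℝ => f q.2) (Icc (-p0) p0 ×ˢ Icc (-s) s) :=
  (hf.comp continuous_snd).continuousOn

theorem cont_lev {F : ℝ → ℝ → ℝ}
    (hF : ContinuousOn (Function.uncurry F) (Icc (-p0) p0 ×ˢ Icc (-s) s)) {z : ℝ}
    (hz : z ∈ Icc (-s) s) :
    ContinuousOn (fun q : ℝ × ℝ => F q.1 z) (Icc (-p0) p0 ×ˢ Icc (-s) s) := by
  have h1 : ContinuousOn (fun q : ℝ × ℝ => (q.1, z)) (Icc (-p0) p0 ×ˢ Icc (-s) s) := by fun_prop
  exact hF.comp h1 fun q hq => ⟨hq.1, hz⟩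

theorem lp_cont : Continuous lp := by unfold lp; fun_prop

theorem lq_cont : Continuous lq := by unfold lq; fun_prop

theorem rl_cont (h : Cyl w wp wz) :
    ContinuousOn (fun q : ℝ × ℝ => rl (w q.1) q.2) (Icc (-p0) p0 ×ˢ Icc (-s) s) := by
  unfold rl
  exact ((cont_snd lp_cont).mul (cont_lev h.cw z0_mem)).add
    ((cont_snd lq_cont).mul (cont_lev h.cw nz0_mem))

theorem ml_cont (h : Cyl w wp wz) :
    ContinuousOn (fun q : ℝ × ℝ => lp q.2 * |wz q.1 z0| + lq q.2 * |wz q.1 (-z0)|)
      (Icc (-p0) p0 ×ˢ Icc (-s) s) :=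
  ((cont_snd lp_cont).mul (cont_lev h.cz z0_mem).abs).add
    ((cont_snd lq_cont).mul (cont_lev h.cz nz0_mem).abs)

theorem Gm_cont (h : Cyl w wp wz) :
    ContinuousOn (Function.uncurry (Gm w wp wz)) (Icc (-p0) p0 ×ˢ Icc (-s) s) := by
  have cw : ContinuousOn (fun q : ℝ × ℝ => w q.1 q.2) (Icc (-p0) p0 ×ˢ Icc (-s) s) := h.cw
  have cp : ContinuousOn (fun q : ℝ × ℝ => wp q.1 q.2) (Icc (-p0) p0 ×ˢ Icc (-s) s) := h.cp
  have cz : ContinuousOn (fun q : ℝ × ℝ => wz q.1 q.2) (Icc (-p0) p0 ×ˢ Icc (-s) s) := h.cz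
  have cr := rl_cont h
  have cm := ml_cont h
  show ContinuousOn (fun q : ℝ × ℝ => om q.2 * (kh q.2 * (w q.1 q.2 - rl (w q.1) q.2) -
    (wp q.1 q.2 ^ 2 - w q.1 q.2 ^ 2) - q.2 * wz q.1 q.2 * (w q.1 q.2 - rl (w q.1) q.2) +
    z0 * (lp q.2 * |wz q.1 z0| + lq q.2 * |wz q.1 (-z0)|) * w q.1 q.2)) _
  exact (cont_snd om_cont).mul (((((cont_snd kh_cont).mul (cw.sub cr)).sub
    ((cp.pow 2).sub (cw.pow 2))).sub (((cont_snd continuous_id).mul cz).mul (cw.sub cr))).add
    ((continuousOn_const.mul cm).mul cw))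

/-- the middle part is nonnegative -/
theorem Gm_nonneg (h : Cyl w wp wz) :
    0 ≤ ∫ a in (-p0)..p0, ∫ z in (-z0)..z0, Gm w wp wz a z := by
  have hz0 := z0_pos
  rw [intervalIntegral.integral_of_le ple]
  have h1 := swap_nonneg (Gm_cont h) (x := -z0) (y := z0) nz0_mem.1 z0_mem.2
    (E := univ) MeasurableSet.univ (fun z hz => by
      have hz' : z ∈ Icc (-z0) z0 := Ioc_subset_Icc_self hz
      simp only [indicator_univ, Function.uncurry_apply_pair]
      rw [← intervalIntegral.integral_of_le ple]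
      have hl := lat_mid h hz'
      have hzs := mid_mem hz'
      have c1 := slice_cont h.cw hzs
      have c2 := slice_cont h.cw z0_mem
      have c3' := slice_cont h.cw nz0_mem
      have p1 := slice_cont h.cp hzs
      have q1 := slice_cont h.cz hzs
      have q2 := slice_cont h.cz z0_mem
      have q3 := slice_cont h.cz nz0_mem
      have i1 : IntervalIntegrable (fun a => z * wz a z * (w a z - rl (w a) z) -
          kh z * (w a z - rl (w a) z) -
          z0 * (lp z * |wz a z0| + lq z * |wz a (-z0)|) * w a z) volume (-p0) p0 := by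
        refine ii ?_
        unfold rl
        exact ((((continuousOn_const.mul q1).mul (c1.sub ((continuousOn_const.mul c2).add
          (continuousOn_const.mul c3')))).sub (continuousOn_const.mul (c1.sub
          ((continuousOn_const.mul c2).add (continuousOn_const.mul c3'))))).sub
          ((continuousOn_const.mul ((continuousOn_const.mul q2.abs).add
          (continuousOn_const.mul q3.abs))).mul c1))
      have i2 : IntervalIntegrable (fun a => wp a z ^ 2 - w a z ^ 2) volume (-p0) p0 :=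
        ii ((p1.pow 2).sub (c1.pow 2))
      have i2n : IntervalIntegrable (fun a => -(wp a z ^ 2 - w a z ^ 2)) volume (-p0) p0 := i2.neg
      have e1 : ∫ a in (-p0)..p0, Gm w wp wz a z = om z *
          (-(∫ a in (-p0)..p0, (wp a z ^ 2 - w a z ^ 2)) -
          ∫ a in (-p0)..p0, (z * wz a z * (w a z - rl (w a) z) -
          kh z * (w a z - rl (w a) z) -
          z0 * (lp z * |wz a z0| + lq z * |wz a (-z0)|) * w a z)) := by
        rw [← intervalIntegral.integral_neg, ← intervalIntegral.integral_sub i2n i1,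
          ← intervalIntegral.integral_const_mul]
        refine intervalIntegral.integral_congr fun a _ => ?_
        show Gm w wp wz a z = _
        unfold Gm
        ring
      rw [e1]
      exact mul_nonneg (om_pos z).le (by linarith))
  refine h1.trans (le_of_eq ?_)
  refine setIntegral_congr_fun measurableSet_Ioc fun a _ => ?_
  simp only [indicator_univ, Function.uncurry_apply_pair]
  rw [← intervalIntegral.integral_of_le (by linarith)]

/-- the lens part, `σ = 1` or `σ = -1` -/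
noncomputable def Gl (w wp wz : ℝ → ℝ → ℝ) (σ a z : ℝ) : ℝ :=
  om z * (-(wp a (σ * z) ^ 2 - w a (σ * z) ^ 2) + |z| * |wz a (σ * z)| * w a (σ * z))

theorem sig_mem {σ : ℝ} (hσ : σ = 1 ∨ σ = -1) {z : ℝ} (hz : z ∈ Icc (-s) s) :
    σ * z ∈ Icc (-s) s := by
  rcases hσ with h | h <;> rw [h]
  · rwa [one_mul]
  · exact ⟨by linarith [hz.2], by linarith [hz.1]⟩

theorem comp_sig {F : ℝ → ℝ → ℝ} {σ : ℝ} (hσ : σ = 1 ∨ σ = -1)
    (hF : ContinuousOn (Function.uncurry F) (Icc (-p0) p0 ×ˢ Icc (-s) s)) :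
    ContinuousOn (fun q : ℝ × ℝ => F q.1 (σ * q.2)) (Icc (-p0) p0 ×ˢ Icc (-s) s) := by
  have h1 : ContinuousOn (fun q : ℝ × ℝ => (q.1, σ * q.2)) (Icc (-p0) p0 ×ˢ Icc (-s) s) := by
    fun_prop
  exact hF.comp h1 fun q hq => ⟨hq.1, sig_mem hσ hq.2⟩

theorem Gl_cont (h : Cyl w wp wz) {σ : ℝ} (hσ : σ = 1 ∨ σ = -1) :
    ContinuousOn (Function.uncurry (Gl w wp wz σ)) (Icc (-p0) p0 ×ˢ Icc (-s) s) := by
  have cw := comp_sig hσ h.cw
  have cp := comp_sig hσ h.cp
  have cz := comp_sig hσ h.cz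
  show ContinuousOn (fun q : ℝ × ℝ => om q.2 * (-(wp q.1 (σ * q.2) ^ 2 - w q.1 (σ * q.2) ^ 2) +
    |q.2| * |wz q.1 (σ * q.2)| * w q.1 (σ * q.2))) _
  exact (cont_snd om_cont).mul ((((cp.pow 2).sub (cw.pow 2)).neg).add
    (((cont_snd continuous_abs).mul cz.abs).mul cw))

/-- the lens part is nonnegative -/
theorem Gl_nonneg (h : Cyl w wp wz) {σ : ℝ} (hσ : σ = 1 ∨ σ = -1) :
    0 ≤ ∫ a in (-p0)..p0, ∫ z in z0..(s * Real.cos a), Gl w wp wz σ a z := by
  have hz0 := z0_pos
  have hs := s_pos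
  have hσa : |σ| = 1 := by rcases hσ with h | h <;> rw [h] <;> simp
  set E : Set (ℝ × ℝ) := {q | q.2 < s * Real.cos q.1} with hE
  have hEm : MeasurableSet E :=
    measurableSet_lt measurable_snd (measurable_const.mul (Real.measurable_cos.comp measurable_fst))
  rw [intervalIntegral.integral_of_le ple]
  have h1 := swap_nonneg (Gl_cont h hσ) (x := z0) (y := s) z0_mem.1 le_rfl hEm (fun z hz => by
      -- `b = arccos (z / s)`
      set b : ℝ := Real.arccos (z / s) with hb
      have hzs : z / s ≤ 1 := (div_le_one hs).2 hz.2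
      have hzs0 : 0 < z / s := div_pos (by linarith [hz.1]) hs
      have hcb : Real.cos b = z / s := Real.cos_arccos (by linarith) hzs
      have hb0 : 0 ≤ b := Real.arccos_nonneg _
      have hbp : b ≤ p0 := by
        have h2 : Real.cos p0 ≤ z / s := by
          rw [le_div_iff₀ hs, mul_comm, cos_p0]
          exact hz.1.le
        calc b ≤ Real.arccos (Real.cos p0) := Real.arccos_le_arccos h2
          _ = p0 := Real.arccos_cos p0_pos.le (by linarith [p0_lt, Real.pi_pos])
      have hsc : s * Real.cos b = z := by rw [hcb, mul_div_cancel₀ _ hs.ne']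
      have hind : ∀ a ∈ Ioc (-p0) p0, E.indicator (Function.uncurry (Gl w wp wz σ)) (a, z) =
          (Ioo (-b) b).indicator (fun a => Gl w wp wz σ a z) a := by
        intro a ha
        have hiff : (a, z) ∈ E ↔ a ∈ Ioo (-b) b := by
          show z < s * Real.cos a ↔ a ∈ Ioo (-b) b
          rw [mem_Ioo, ← abs_lt, ← hsc, ← Real.cos_abs a]
          have h2 : |a| ≤ p0 := abs_le.mpr ⟨ha.1.le, ha.2⟩
          rw [mul_lt_mul_iff_right₀ hs]
          constructor
          · intro h3
            by_contra h4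
            push Not at h4
            have := Real.cos_le_cos_of_nonneg_of_le_pi hb0
              (by linarith [p0_lt, Real.pi_pos]) h4
            linarith
          · intro h3
            exact Real.cos_lt_cos_of_nonneg_of_le_pi (abs_nonneg _)
              (by linarith [p0_lt, Real.pi_pos]) h3
        by_cases hm : a ∈ Ioo (-b) b
        · rw [indicator_of_mem (hiff.mpr hm), indicator_of_mem hm]
          rfl
        · rw [indicator_of_notMem (fun hh => hm (hiff.mp hh)), indicator_of_notMem hm]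
      rw [setIntegral_congr_fun measurableSet_Ioc hind, setIntegral_indicator measurableSet_Ioo]
      have hinter : Ioc (-p0) p0 ∩ Ioo (-b) b = Ioo (-b) b :=
        inter_eq_right.mpr fun a ha => ⟨by linarith [ha.1], by linarith [ha.2]⟩
      rw [hinter, ← integral_Ioc_eq_integral_Ioo, ← intervalIntegral.integral_of_le (by linarith)]
      have hzabs : |σ * z| = s * Real.cos b := by
        rw [abs_mul, hσa, one_mul, hsc, abs_of_pos (by linarith [hz.1])]
      have hl := lat_lens h (b := b) ⟨hb0, hbp⟩ hzabs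
      have hzm : σ * z ∈ Icc (-s) s := sig_mem hσ ⟨by linarith [hz.1], hz.2⟩
      have hsub : Icc (-b) b ⊆ Icc (-p0) p0 := Icc_subset_Icc (by linarith) hbp
      have c1 := (slice_cont h.cw hzm).mono hsub
      have p1 := (slice_cont h.cp hzm).mono hsub
      have q1 := (slice_cont h.cz hzm).mono hsub
      have jj : ∀ {f : ℝ → ℝ}, ContinuousOn f (Icc (-b) b) →
          IntervalIntegrable f volume (-b) b := fun {f} hf =>
        ContinuousOn.intervalIntegrable (by rwa [uIcc_of_le (by linarith)])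
      have i1 : IntervalIntegrable (fun a => |σ * z| * |wz a (σ * z)| * w a (σ * z))
          volume (-b) b := jj ((continuousOn_const.mul q1.abs).mul c1)
      have i2 : IntervalIntegrable (fun a => wp a (σ * z) ^ 2 - w a (σ * z) ^ 2)
          volume (-b) b := jj ((p1.pow 2).sub (c1.pow 2))
      have i2n : IntervalIntegrable (fun a => -(wp a (σ * z) ^ 2 - w a (σ * z) ^ 2))
          volume (-b) b := i2.neg
      have e1 : ∫ a in (-b)..b, Gl w wp wz σ a z = om z *
          (-(∫ a in (-b)..b, (wp a (σ * z) ^ 2 - w a (σ * z) ^ 2)) +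
          ∫ a in (-b)..b, |σ * z| * |wz a (σ * z)| * w a (σ * z)) := by
        rw [← intervalIntegral.integral_neg, ← intervalIntegral.integral_add i2n i1,
          ← intervalIntegral.integral_const_mul]
        refine intervalIntegral.integral_congr fun a _ => ?_
        show Gl w wp wz σ a z = _
        unfold Gl
        rw [abs_mul, hσa, one_mul]
      rw [e1]
      exact mul_nonneg (om_pos z).le (by linarith))
  refine h1.trans (le_of_eq ?_)
  refine setIntegral_congr_fun measurableSet_Ioc fun a ha => ?_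
  have ha' : a ∈ Icc (-p0) p0 := ⟨ha.1.le, ha.2⟩
  have hind : ∀ z, E.indicator (Function.uncurry (Gl w wp wz σ)) (a, z) =
      (Iio (s * Real.cos a)).indicator (fun z => Gl w wp wz σ a z) z := by
    intro z
    by_cases hm : z ∈ Iio (s * Real.cos a)
    · rw [indicator_of_mem (show (a, z) ∈ E from hm), indicator_of_mem hm]
      rfl
    · rw [indicator_of_notMem (show (a, z) ∉ E from hm), indicator_of_notMem hm]
  show ∫ z in Ioc z0 s, E.indicator (Function.uncurry (Gl w wp wz σ)) (a, z) = _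
  simp only [hind]
  rw [setIntegral_indicator measurableSet_Iio]
  have hinter : Ioc z0 s ∩ Iio (s * Real.cos a) = Ioo z0 (s * Real.cos a) := by
    ext z
    simp only [mem_inter_iff, mem_Ioc, mem_Iio, mem_Ioo]
    constructor
    · rintro ⟨⟨h2, h3⟩, h4⟩
      exact ⟨h2, h4⟩
    · rintro ⟨h2, h3⟩
      exact ⟨⟨h2, by linarith [e_le_s a]⟩, h3⟩
  rw [hinter, ← integral_Ioc_eq_integral_Ioo,
    ← intervalIntegral.integral_of_le (z0_le_e ha')]

end Helper96.MEI
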