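import Pool.Agent.Helper22.MEI.Main

/-!
# Equality in the class T theorem: contact points
-/

namespace Helper96.MEI

open Set Metric MeasureTheory Helper80.CW Helper82.CW Helper14.CW Helper22.MEI
open scoped ContDiff Topology RealInnerProductSpace Real

/-- the frame of a configuration of four vectors -/
structure Fr (v : Fin 4 → E3) (b : OrthonormalBasis (Fin 3) ℝ E3) : Prop where
  e0 : b 0 = v 0 - v 1
  e1 : b 1 = v 2 - v 3
  e2 : b 2 = Real.sqrt 2 • (v 0 + v 1)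

section
variable {K : Set E3} {v : Fin 4 → E3} {x0 : E3} {b : OrthonormalBasis (Fin 3) ℝ E3}

theorem b_nsq (b : OrthonormalBasis (Fin 3) ℝ E3) (x : E3) :
    ‖x‖ ^ 2 = ⟪b 0, x⟫ ^ 2 + ⟪b 1, x⟫ ^ 2 + ⟪b 2, x⟫ ^ 2 := by
  have h1 := b.sum_sq_norm_inner_right x
  rw [Fin.sum_univ_three] at h1
  simp only [Real.norm_eq_abs, sq_abs] at h1
  exact h1.symm

theorem b_ext (b : OrthonormalBasis (Fin 3) ℝ E3) {x y : E3} (h0 : ⟪b 0, x⟫ = ⟪b 0, y⟫)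
    (h1 : ⟪b 1, x⟫ = ⟪b 1, y⟫) (h2 : ⟪b 2, x⟫ = ⟪b 2, y⟫) : x = y := by
  have h := b_nsq b (x - y)
  rw [inner_sub_right, inner_sub_right, inner_sub_right, h0, h1, h2] at h
  have h3 : ‖x - y‖ = 0 := by
    have : ‖x - y‖ ^ 2 = 0 := by rw [h]; ring
    exact pow_eq_zero_iff (two_ne_zero) |>.1 this
  exact sub_eq_zero.1 (norm_eq_zero.1 h3)

/-- squares of the distances from the vertices in coordinates -/
theorem nsq_v (h : Gram4 v) (hb : Fr v b) (x : E3) :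
    ‖x - v 0‖ ^ 2 = ⟪b 0, x⟫ ^ 2 + ⟪b 1, x⟫ ^ 2 + ⟪b 2, x⟫ ^ 2 - ⟪b 0, x⟫ -
      Real.sqrt 2 / 2 * ⟪b 2, x⟫ + 3 / 8 ∧
    ‖x - v 1‖ ^ 2 = ⟪b 0, x⟫ ^ 2 + ⟪b 1, x⟫ ^ 2 + ⟪b 2, x⟫ ^ 2 + ⟪b 0, x⟫ -
      Real.sqrt 2 / 2 * ⟪b 2, x⟫ + 3 / 8 ∧
    ‖x - v 2‖ ^ 2 = ⟪b 0, x⟫ ^ 2 + ⟪b 1, x⟫ ^ 2 + ⟪b 2, x⟫ ^ 2 - ⟪b 1, x⟫ +
      Real.sqrt 2 / 2 * ⟪b 2, x⟫ + 3 / 8 ∧
    ‖x - v 3‖ ^ 2 = ⟪b 0, x⟫ ^ 2 + ⟪b 1, x⟫ ^ 2 + ⟪b 2, x⟫ ^ 2 + ⟪b 1, x⟫ +
      Real.sqrt 2 / 2 * ⟪b 2, x⟫ + 3 / 8 := by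
  obtain ⟨a0, a1, a2, a3⟩ := frame_inner h hb.e0 hb.e1 hb.e2 x
  have hn := b_nsq b x
  have key : ∀ i, ‖x - v i‖ ^ 2 = ‖x‖ ^ 2 - 2 * ⟪v i, x⟫ + 3 / 8 := by
    intro i
    rw [norm_sub_sq_real, real_inner_comm, ← real_inner_self_eq_norm_sq (v i), h.diag]
  refine ⟨?_, ?_, ?_, ?_⟩
  · rw [key, hn, a0]; ring
  · rw [key, hn, a1]; ring
  · rw [key, hn, a2]; ring
  · rw [key, hn, a3]; ring

theorem sqlem {x : ℝ} (hx0 : 0 ≤ x) (h : x ≤ 1) : x ^ 2 ≤ 1 := by nlinarith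

/-- the points of the sharp arc in coordinates -/
theorem arc_coords (h : Gram4 v) (hb : Fr v b) {x : E3} (h2 : ‖x - v 2‖ = 1)
    (h3 : ‖x - v 3‖ = 1) (h0 : ‖x - v 0‖ ≤ 1) (h1 : ‖x - v 1‖ ≤ 1) :
    ⟪b 1, x⟫ = 0 ∧ ⟪b 0, x⟫ ^ 2 + (⟪b 2, x⟫ + t) ^ 2 = 3 / 4 ∧ 0 < ⟪b 2, x⟫ + t ∧
      |⟪b 0, x⟫| ≤ s * (⟪b 2, x⟫ + t) := by
  obtain ⟨n0, n1, n2, n3⟩ := nsq_v h hb x
  rw [h2] at n2
  rw [h3] at n3
  have q0 := sqlem (norm_nonneg _) h0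
  have q1 := sqlem (norm_nonneg _) h1
  rw [n0] at q0
  rw [n1] at q1
  have s2 : Real.sqrt 2 * Real.sqrt 2 = 2 := Real.mul_self_sqrt (by norm_num)
  have s0 : 0 < Real.sqrt 2 := by positivity
  set x' : ℝ := ⟪b 0, x⟫
  set y' : ℝ := ⟪b 1, x⟫
  set z' : ℝ := ⟪b 2, x⟫
  have hy : y' = 0 := by linarith
  rw [hy] at n2 q0 q1
  have ht : t = Real.sqrt 2 / 4 := rfl
  have hs : s = Real.sqrt 2 / 2 := rfl
  have hw : x' ^ 2 + (z' + t) ^ 2 = 3 / 4 := by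
    rw [ht]
    linear_combination -n2 + (1 / 16) * s2
  have hx1 : |x'| ≤ Real.sqrt 2 * z' := by
    rw [abs_le]
    constructor <;> linarith
  have hz : 0 ≤ z' := by
    have := (abs_nonneg x').trans hx1
    exact nonneg_of_mul_nonneg_right this s0
  have hw0 : 0 < z' + t := by rw [ht]; positivity
  refine ⟨hy, hw, hw0, ?_⟩
  by_contra hcon
  push Not at hcon
  have hsw : 0 < s * (z' + t) := mul_pos s_pos hw0
  have h5 : (s * (z' + t)) ^ 2 < x' ^ 2 := by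
    rw [← sq_abs x']
    exact pow_lt_pow_left₀ hcon hsw.le two_ne_zero
  have h6 : (z' + t) ^ 2 < 1 / 2 := by
    rw [mul_pow, s_sq] at h5
    linarith
  have h7 : z' + t < s := by
    rw [← s_sq] at h6
    exact lt_of_pow_lt_pow_left₀ 2 s_pos.le h6
  have h8 : s * (z' + t) < Real.sqrt 2 * z' := lt_of_lt_of_le hcon hx1
  have e1 : Real.sqrt 2 * z' = 2 * (s * z') := by rw [hs]; ring
  rw [e1] at h8
  have h9 : 0 < s * (z' - t) := by linarith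
  have h10 := (mul_pos_iff_of_pos_left s_pos).1 h9
  have h11 := s_eq
  linarith

/-- **contact points**: the sharp arc is in the body -/
theorem contact (hK : IsCompact K) (hw : Width1 K) (h : Gram4 v)
    (hv : ∀ i, x0 + v i ∈ K) (hb : Fr v b) (hf : ∀ p ∈ Helper22.MEI.SQ, chP K x0 b p = f0 p)
    {x : E3} (h2 : ‖x - v 2‖ = 1) (h3 : ‖x - v 3‖ = 1) (h0 : ‖x - v 0‖ ≤ 1)
    (h1 : ‖x - v 1‖ ≤ 1) : x0 + x ∈ K := by
  obtain ⟨hy, hw2, hw0, hx⟩ := arc_coords h hb h2 h3 h0 h1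
  obtain ⟨n0, n1, n2, n3⟩ := nsq_v h hb x
  have s2 : Real.sqrt 2 * Real.sqrt 2 = 2 := Real.mul_self_sqrt (by norm_num)
  have ht : t = Real.sqrt 2 / 4 := rfl
  have hs : s = Real.sqrt 2 / 2 := rfl
  rcases eq_or_lt_of_le hx with hx | hx
  · -- the endpoints
    have e1 : ⟪b 0, x⟫ ^ 2 = 1 / 2 * (⟪b 2, x⟫ + t) ^ 2 := by
      rw [← sq_abs, hx, mul_pow, s_sq]
    have e2 : (⟪b 2, x⟫ + t) ^ 2 = 1 / 2 := by linarith
    have e3 : ⟪b 2, x⟫ + t = s := by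
      rw [← s_sq] at e2
      exact (pow_left_inj₀ hw0.le s_pos.le two_ne_zero).1 e2
    have e4 : ⟪b 2, x⟫ = Real.sqrt 2 / 4 := by
      rw [ht, hs] at e3
      linarith
    have e5 : |⟪b 0, x⟫| = 1 / 2 := by
      rw [hx, e3, ← sq, s_sq]
    rcases abs_cases ⟪b 0, x⟫ with ⟨e6, _⟩ | ⟨e6, _⟩
    · rw [e6] at e5
      rw [e5, e4, hy] at n0
      have : ‖x - v 0‖ ^ 2 = 0 := by
        rw [n0]
        linear_combination (-1 / 16) * s2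
      have h5 := pow_eq_zero_iff (two_ne_zero) |>.1 this
      rw [sub_eq_zero.1 (norm_eq_zero.1 h5)]
      exact hv 0
    · rw [e6] at e5
      have e7 : ⟪b 0, x⟫ = -(1 / 2) := by linarith
      rw [e7, e4, hy] at n1
      have : ‖x - v 1‖ ^ 2 = 0 := by
        rw [n1]
        linear_combination (-1 / 16) * s2
      have h5 := pow_eq_zero_iff (two_ne_zero) |>.1 this
      rw [sub_eq_zero.1 (norm_eq_zero.1 h5)]
      exact hv 1
  · obtain ⟨w, hwd⟩ : ∃ w : ℝ, w = ⟪b 2, x⟫ + t := ⟨_, rfl⟩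
    rw [← hwd] at hw2 hw0 hx
    obtain ⟨X, hX⟩ : ∃ X : ℝ, X = ⟪b 0, x⟫ / w := ⟨_, rfl⟩
    have hXw : ⟪b 0, x⟫ = X * w := by rw [hX]; field_simp
    have hX2 : (1 + X ^ 2) * w ^ 2 = 3 / 4 := by
      linear_combination hw2 - (⟪b 0, x⟫ + X * w) * hXw
    have hA : AA X = c3 / w := by
      unfold AA
      rw [show 1 + X ^ 2 = (c3 / w) ^ 2 by
        rw [div_pow, c3_sq, eq_div_iff (by positivity)]
        exact hX2]
      exact Real.sqrt_sq (div_nonneg c3_pos.le hw0.le)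
    have hXs : |X| < s := by
      rw [hX, abs_div, abs_of_pos hw0, div_lt_iff₀ hw0]
      exact hx
    have hXs' := abs_lt.1 hXs
    have hp : ((X, 0) : ℝ × ℝ) ∈ Helper22.MEI.SQ :=
      ⟨hXs', ⟨by simpa using s_pos, s_pos⟩⟩
    -- local formula
    have hopen : IsOpen Helper22.MEI.SQ := isOpen_Ioo.prod isOpen_Ioo
    have hev : chP K x0 b =ᶠ[𝓝 (X, 0)] fun q : ℝ × ℝ => c3 * AA q.1 - t := by
      have o2 : IsOpen {q : ℝ × ℝ | 3 * q.2 ^ 2 < 1 + q.1 ^ 2} :=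
        isOpen_lt (by fun_prop) (by fun_prop)
      have m2 : ((X, 0) : ℝ × ℝ) ∈ {q : ℝ × ℝ | 3 * q.2 ^ 2 < 1 + q.1 ^ 2} := by
        show 3 * (0 : ℝ) ^ 2 < 1 + X ^ 2
        nlinarith [sq_nonneg X]
      filter_upwards [hopen.mem_nhds hp, o2.mem_nhds m2] with q hq hq2
      rw [hf q hq]
      unfold f0
      rw [if_pos (le_of_lt hq2)]
    obtain ⟨g, hg, hgx⟩ := supp_attained hK hw.nonempty (pt b X 0 1)
    have hd := chP_hasFDerivAt hK hw x0 (X, 0) hg hgx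
    have hd2 := (phi1_fd (X, 0)).congr_of_eventuallyEq hev
    have hu := hd.unique hd2
    have u0 := congrArg (fun L : ℝ × ℝ →L[ℝ] ℝ => L (1, 0)) hu
    have u1 := congrArg (fun L : ℝ × ℝ →L[ℝ] ℝ => L (0, 1)) hu
    simp at u0 u1
    have hval : ⟪g - x0, pt b X 0 1⟫ = c3 * AA X - t := by
      have h5 := hev.self_of_nhds
      unfold chP H0 at h5
      simp only at h5
      rw [hgx] at h5
      rw [inner_sub_left]
      exact h5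
    have hval2 := inner_pt b X 0 1 (g - x0)
    rw [real_inner_comm (g - x0) (pt b X 0 1), hval] at hval2
    rw [real_inner_comm (b 0) (g - x0)] at u0
    rw [real_inner_comm (b 1) (g - x0)] at u1
    have hc := c3_pos
    have hcne := hc.ne'
    have hwne := hw0.ne'
    have u0' : ⟪b 0, g - x0⟫ = X * w := by
      rw [u0, hA]
      field_simp
    have hcA : c3 * AA X = (1 + X ^ 2) * w := by
      rw [hA]
      have e9 : c3 * (c3 / w) = c3 ^ 2 / w := by ring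
      rw [e9, c3_sq, div_eq_iff hwne]
      linear_combination -hX2
    have hgx0 : g - x0 = x := by
      apply b_ext b
      · rw [u0', hXw]
      · rw [u1, hy]
      · rw [u0', u1, hcA] at hval2
        linear_combination -hval2 + (X ^ 2 + 1 - X ^ 2) * hwd
    rw [← hgx0]
    have : x0 + (g - x0) = g := by abel
    rw [this]
    exact hg

end

end Helper96.MEI
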