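import Pool.Agent.Helper96.MEI.Eq1
import Pool.Agent.Helper22.MEI.Facts2

/-!
# Equality in the class T theorem: the support inequalities on the squares
-/

namespace Helper96.MEI

open Set Metric MeasureTheory Helper80.CW Helper82.CW Helper14.CW Helper22.MEI
open scoped ContDiff Topology RealInnerProductSpace Real

section
variable {K : Set E3} {v : Fin 4 → E3} {x0 : E3} {b : OrthonormalBasis (Fin 3) ℝ E3}

theorem c3_AA (X : ℝ) : c3 * AA X = 3 / 2 * yi X := by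
  unfold yi c3
  have h : √3 * √3 = 3 := Real.mul_self_sqrt (by norm_num)
  have h0 : √3 ≠ 0 := by positivity
  field_simp
  linear_combination AA X * h

/-- the arc point of a direction -/
theorem eta_pt (h : Gram4 v) (hb : Fr v b) {X : ℝ} (hX : |X| ≤ s) :
    ∃ η : E3, ‖η - v 0‖ ≤ 1 ∧ ‖η - v 1‖ ≤ 1 ∧ ‖η - v 2‖ = 1 ∧ ‖η - v 3‖ = 1 ∧
      ⟪b 0, η⟫ = X / (2 * yi X) ∧ ⟪b 1, η⟫ = 0 ∧ ⟪b 2, η⟫ = 1 / (2 * yi X) - t := by
  obtain ⟨k, hk⟩ : ∃ k, k = yi X := ⟨_, rfl⟩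
  have k0 : 0 < k := hk ▸ yi_pos X
  have k2 : 3 * k ^ 2 = 1 + X ^ 2 := hk ▸ yi_sq X
  have ks : k ≤ s := hk ▸ yi_le hX
  rw [← hk]
  refine ⟨pt b (X / (2 * k)) 0 (1 / (2 * k) - t), ?_⟩
  have e0 : ⟪b 0, pt b (X / (2 * k)) 0 (1 / (2 * k) - t)⟫ = X / (2 * k) := by
    rw [inner_pt_b]; simp
  have e1 : ⟪b 1, pt b (X / (2 * k)) 0 (1 / (2 * k) - t)⟫ = 0 := by
    rw [inner_pt_b]; simp
  have e2 : ⟪b 2, pt b (X / (2 * k)) 0 (1 / (2 * k) - t)⟫ = 1 / (2 * k) - t := by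
    rw [inner_pt_b]; simp
  obtain ⟨n0, n1, n2, n3⟩ := nsq_v h hb (pt b (X / (2 * k)) 0 (1 / (2 * k) - t))
  rw [e0, e1, e2] at n0 n1 n2 n3
  obtain ⟨w, hw⟩ : ∃ w, w = 1 / (2 * k) := ⟨_, rfl⟩
  have hXw : X / (2 * k) = X * w := by rw [hw]; ring
  have hwk : w * k = 1 / 2 := by rw [hw]; field_simp
  have w0 : 0 < w := by rw [hw]; positivity
  rw [hXw, ← hw] at n0 n1 n2 n3
  have s2 : Real.sqrt 2 * Real.sqrt 2 = 2 := Real.mul_self_sqrt (by norm_num)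
  have ht : t = Real.sqrt 2 / 4 := rfl
  have hs : s = Real.sqrt 2 / 2 := rfl
  have hc : (X * w) ^ 2 + w ^ 2 = 3 / 4 := by
    have : (X * w) ^ 2 + w ^ 2 = (1 + X ^ 2) * w ^ 2 := by ring
    rw [this, ← k2]
    have : 3 * k ^ 2 * w ^ 2 = 3 * (w * k) ^ 2 := by ring
    rw [this, hwk]
    norm_num
  have hws : s ≤ w := by
    have h1 : 2 * s ^ 2 = 1 := by rw [s_sq]; norm_num
    have h2 : s * k ≤ w * k := by
      rw [hwk]
      have := mul_le_mul_of_nonneg_left ks s_pos.le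
      nlinarith
    exact le_of_mul_le_mul_right h2 k0
  have hX' := abs_le.1 hX
  have g0 : 1 / 2 ≤ w * (Real.sqrt 2 + X) := by
    have h1 : s * s ≤ w * (Real.sqrt 2 + X) := by
      apply mul_le_mul hws _ s_pos.le w0.le
      have : Real.sqrt 2 = 2 * s := by rw [hs]; ring
      linarith [hX'.1]
    have := s_sq
    nlinarith
  have g1 : 1 / 2 ≤ w * (Real.sqrt 2 - X) := by
    have h1 : s * s ≤ w * (Real.sqrt 2 - X) := by
      apply mul_le_mul hws _ s_pos.le w0.le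
      have : Real.sqrt 2 = 2 * s := by rw [hs]; ring
      linarith [hX'.2]
    have := s_sq
    nlinarith
  have m0 : ‖pt b (X * w) 0 (w - t) - v 0‖ ^ 2 = 3 / 2 - w * (Real.sqrt 2 + X) := by
    rw [n0, ht]
    linear_combination hc + (1 / 16 + 1 / 8) * s2
  have m1 : ‖pt b (X * w) 0 (w - t) - v 1‖ ^ 2 = 3 / 2 - w * (Real.sqrt 2 - X) := by
    rw [n1, ht]
    linear_combination hc + (1 / 16 + 1 / 8) * s2
  have m2 : ‖pt b (X * w) 0 (w - t) - v 2‖ ^ 2 = 1 := by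
    rw [n2, ht]
    linear_combination hc + (1 / 16 - 1 / 8) * s2
  have m3 : ‖pt b (X * w) 0 (w - t) - v 3‖ ^ 2 = 1 := by
    rw [n3, ht]
    linear_combination hc + (1 / 16 - 1 / 8) * s2
  rw [e0, e1, e2, ← hw, hXw]
  refine ⟨?_, ?_, ?_, ?_, rfl, rfl, rfl⟩
  · exact (sq_le_one_iff₀ (norm_nonneg _)).1 (by rw [m0]; linarith)
  · exact (sq_le_one_iff₀ (norm_nonneg _)).1 (by rw [m1]; linarith)
  · exact (pow_eq_one_iff_of_nonneg (norm_nonneg _) two_ne_zero).1 m2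
  · exact (pow_eq_one_iff_of_nonneg (norm_nonneg _) two_ne_zero).1 m3

/-- the hypotheses on the point -/
structure InM (v : Fin 4 → E3) (x : E3) : Prop where
  ball : ∀ m, ‖x - v m‖ ≤ 1
  arc : ∀ η : E3, ‖η - v 2‖ = 1 → ‖η - v 3‖ = 1 → (∀ m, ‖η - v m‖ ≤ 1) → ‖x - η‖ ≤ 1

theorem inner_le_of {x y u : E3} (h : ‖x - y‖ ≤ 1) : ⟪x, u⟫ ≤ ‖u‖ + ⟪y, u⟫ := by
  have h1 := real_inner_le_norm (x - y) u
  rw [inner_sub_left] at h1
  have h2 := mul_le_mul_of_nonneg_right h (norm_nonneg u)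
  linarith

/-- the lower inequality for all second coordinates -/
theorem low_ineq (h : Gram4 v) (hb : Fr v b) {x : E3} (hx : InM v x) {X : ℝ} (hX : |X| ≤ s)
    (Y : ℝ) : -(⟪b 0, x⟫ * X + ⟪b 1, x⟫ * Y + ⟪b 2, x⟫) ≤ NN (X, Y) - (3 / 2 * yi X - t) := by
  obtain ⟨η, n0, n1, n2, n3, e0, e1, e2⟩ := eta_pt h hb hX
  have hd := hx.arc η n2 n3 (by
    intro m
    fin_cases m
    · exact n0
    · exact n1
    · exact n2.le
    · exact n3.le)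
  rw [norm_sub_rev] at hd
  have h1 := inner_le_of (u := pt b X Y 1) hd
  rw [real_inner_comm (pt b X Y 1) η, real_inner_comm (pt b X Y 1) x, inner_pt, inner_pt, e0, e1,
    e2] at h1
  have h2 : ‖pt b X Y 1‖ = NN (X, Y) := norm_pt_one b (X, Y)
  rw [h2] at h1
  have k0 := yi_pos X
  have k2 := yi_sq X
  have h3 : X * (X / (2 * yi X)) + 1 / (2 * yi X) = 3 / 2 * yi X := by
    have : X * (X / (2 * yi X)) + 1 / (2 * yi X) = (1 + X ^ 2) / (2 * yi X) := by ring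
    rw [this, ← k2]
    field_simp
  linarith

theorem y_bound (h : Gram4 v) (hb : Fr v b) {x : E3} (hx : InM v x) :
    ⟪b 0, x⟫ ^ 2 + ⟪b 1, x⟫ ^ 2 + |⟪b 1, x⟫| + (⟪b 2, x⟫ + t) ^ 2 ≤ 3 / 4 ∧
      |⟪b 1, x⟫| ≤ 1 / 2 := by
  obtain ⟨n0, n1, n2, n3⟩ := nsq_v h hb x
  have q2 := sqlem (norm_nonneg _) (hx.ball 2)
  have q3 := sqlem (norm_nonneg _) (hx.ball 3)
  rw [n2] at q2
  rw [n3] at q3
  have s2 : Real.sqrt 2 * Real.sqrt 2 = 2 := Real.mul_self_sqrt (by norm_num)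
  have ht : t = Real.sqrt 2 / 4 := rfl
  have hw : (⟪b 2, x⟫ + t) ^ 2 = ⟪b 2, x⟫ ^ 2 + Real.sqrt 2 / 2 * ⟪b 2, x⟫ + 1 / 8 := by
    rw [ht]
    linear_combination (1 / 16) * s2
  have h1 : ⟪b 0, x⟫ ^ 2 + ⟪b 1, x⟫ ^ 2 + |⟪b 1, x⟫| + (⟪b 2, x⟫ + t) ^ 2 ≤ 3 / 4 := by
    rcases abs_cases ⟪b 1, x⟫ with ⟨e, _⟩ | ⟨e, _⟩
    · rw [e]; linarith
    · rw [e]; linarith
  refine ⟨h1, ?_⟩
  have h2 := sq_abs ⟪b 1, x⟫
  have h3 := abs_nonneg ⟪b 1, x⟫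
  nlinarith [sq_nonneg ⟪b 0, x⟫, sq_nonneg (⟪b 2, x⟫ + t)]

/-- **the square inequalities** -/
theorem sq_ineq (h : Gram4 v) (hb : Fr v b) {x : E3} (hx : InM v x) {X Y : ℝ} (hX : |X| ≤ s) :
    ⟪b 0, x⟫ * X + ⟪b 1, x⟫ * Y + ⟪b 2, x⟫ ≤ f0 (X, Y) ∧
    -(⟪b 0, x⟫ * X + ⟪b 1, x⟫ * Y + ⟪b 2, x⟫) ≤ NN (X, Y) - f0 (X, Y) := by
  obtain ⟨hq, hy⟩ := y_bound h hb hx
  have hlow := low_ineq h hb hx hX
  have k0 := yi_pos X
  have k2 := yi_sq X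
  rcases le_total |Y| (yi X) with hY | hY
  · rw [f0_mid hY, c3_AA]
    refine ⟨?_, hlow Y⟩
    have h1 : (⟪b 0, x⟫ * X + (⟪b 2, x⟫ + t)) ^ 2 ≤ ((3 / 2 - |⟪b 1, x⟫|) * yi X) ^ 2 := by
      have e1 : ((3 / 2 - |⟪b 1, x⟫|) * yi X) ^ 2 =
          (9 / 4 - 3 * |⟪b 1, x⟫| + ⟪b 1, x⟫ ^ 2) * yi X ^ 2 := by
        rw [← sq_abs ⟪b 1, x⟫]
        ring
      have e2 : (⟪b 0, x⟫ * X + (⟪b 2, x⟫ + t)) ^ 2 ≤
          (⟪b 0, x⟫ ^ 2 + (⟪b 2, x⟫ + t) ^ 2) * (1 + X ^ 2) := by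
        nlinarith [sq_nonneg (⟪b 0, x⟫ - (⟪b 2, x⟫ + t) * X)]
      rw [← k2] at e2
      rw [e1]
      refine e2.trans ?_
      have e3 : ⟪b 0, x⟫ ^ 2 + (⟪b 2, x⟫ + t) ^ 2 ≤ 3 / 4 - |⟪b 1, x⟫| := by
        nlinarith [sq_nonneg ⟪b 1, x⟫]
      have e4 : 0 ≤ yi X ^ 2 := sq_nonneg _
      have e5 := mul_le_mul_of_nonneg_right e3 e4
      nlinarith [mul_nonneg (sq_nonneg ⟪b 1, x⟫) e4]
    have h2 : ⟪b 0, x⟫ * X + (⟪b 2, x⟫ + t) ≤ (3 / 2 - |⟪b 1, x⟫|) * yi X := by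
      apply le_of_abs_le
      apply abs_le_of_sq_le_sq h1
      apply mul_nonneg _ k0.le
      linarith
    have h3 : ⟪b 1, x⟫ * Y ≤ |⟪b 1, x⟫| * yi X := by
      refine (le_abs_self _).trans ?_
      rw [abs_mul]
      exact mul_le_mul_of_nonneg_left hY (abs_nonneg _)
    linarith
  · rw [f0_lens hY]
    constructor
    · have h1 := inner_le_of (u := pt b X Y 1) (hx.ball 2)
      have h2 := inner_le_of (u := pt b X Y 1) (hx.ball 3)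
      obtain ⟨-, -, a2, a3⟩ := lins h hb.e0 hb.e1 hb.e2 (X, Y)
      have h3 : ‖pt b X Y 1‖ = NN (X, Y) := norm_pt_one b (X, Y)
      rw [h3, real_inner_comm (pt b X Y 1) x, inner_pt] at h1 h2
      simp only at a2 a3
      rw [a2] at h1
      rw [a3] at h2
      have ht : t = Real.sqrt 2 / 4 := rfl
      rcases abs_cases Y with ⟨e, _⟩ | ⟨e, _⟩
      · rw [e, ht]; linarith
      · rw [e, ht]; linarith
    · -- from the interface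
      have hN : NN (X, yi X) = 2 * yi X := by
        unfold NN
        rw [show 1 + (X, yi X).1 ^ 2 + (X, yi X).2 ^ 2 = (2 * yi X) ^ 2 by
          show 1 + X ^ 2 + yi X ^ 2 = (2 * yi X) ^ 2
          linarith]
        exact Real.sqrt_sq (by positivity)
      have hN' : NN (X, -yi X) = 2 * yi X := by
        rw [← hN]
        unfold NN
        simp
      have l1 := hlow (yi X)
      have l2 := hlow (-yi X)
      rw [hN] at l1
      rw [hN'] at l2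
      have l3 : |⟪b 1, x⟫| * yi X - ⟪b 0, x⟫ * X - ⟪b 2, x⟫ ≤ 1 / 2 * yi X + t := by
        rcases abs_cases ⟪b 1, x⟫ with ⟨e, _⟩ | ⟨e, _⟩
        · rw [e]; linarith
        · rw [e]; linarith
      have l4 : -(⟪b 1, x⟫ * Y) ≤ |⟪b 1, x⟫| * |Y| := by
        rw [← abs_mul]
        exact neg_le_abs _
      have l5 : (1 / 2 - |⟪b 1, x⟫|) * yi X ≤ (1 / 2 - |⟪b 1, x⟫|) * |Y| :=
        mul_le_mul_of_nonneg_left hY (by linarith)
      nlinarith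

end

end Helper96.MEI
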