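import Mathlib

/-!
# The Meissner bodies

`a 0, a 1, a 2, a 3` are the vertices of a regular tetrahedron of edge `1` and `R` is the
intersection of the four closed unit balls about the vertices.
-/

namespace Helper96.MEI

open Metric

/-- The arc in which the unit spheres about `a k` and `a l` meet inside `R`. If `{i, j}` is the
complement of `{k, l}` this arc joins `a i` and `a j`: it is the arc `γ_ij` of the edge
`a i, a j`. -/
def arc (a : Fin 4 → EuclideanSpace ℝ (Fin 3)) (k l : Fin 4) : Set (EuclideanSpace ℝ (Fin 3)) :=
  {x | dist x (a k) = 1 ∧ dist x (a l) = 1 ∧ ∀ m, dist x (a m) ≤ 1}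

/-- The union of three arcs, one for an edge out of every pair of opposite edges: `c 0` chooses
between the edges `01` (true) and `23` (false), `c 1` between `02` and `13`, `c 2` between `03`
and `12`. -/
def sharp (a : Fin 4 → EuclideanSpace ℝ (Fin 3)) (c : Fin 3 → Bool) :
    Set (EuclideanSpace ℝ (Fin 3)) :=
  (if c 0 then arc a 2 3 else arc a 0 1) ∪ (if c 1 then arc a 1 3 else arc a 0 2) ∪
    (if c 2 then arc a 1 2 else arc a 0 3)

/-- The Meissner body: the intersection of `R` with the closed unit balls about all points of the
three chosen arcs. Among the `8` choices `c` there are `4` for which the chosen edges share a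
vertex and `4` for which they bound a face. -/
def MB (a : Fin 4 → EuclideanSpace ℝ (Fin 3)) (c : Fin 3 → Bool) :
    Set (EuclideanSpace ℝ (Fin 3)) :=
  (⋂ i, closedBall (a i) 1) ∩ ⋂ x ∈ sharp a c, closedBall x 1

end Helper96.MEI
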