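import Pool.Agent.Helper96.MEI.Eq2
import Pool.Agent.Helper96.MEI.MDef

/-!
# Equality in the class T theorem: the body is a Meissner body
-/

namespace Helper96.MEI

open Set Metric MeasureTheory Helper80.CW Helper82.CW Helper14.CW Helper22.MEI
open scoped ContDiff Topology RealInnerProductSpace Real

section
variable {K : Set E3} {v : Fin 4 → E3} {x0 : E3} {b : OrthonormalBasis (Fin 3) ℝ E3}

theorem chP_cont (hK : IsCompact K) (hw : Width1 K) (x0 : E3) : Continuous (chP K x0 b) :=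
  (chP_diff hK hw x0).continuous

/-- the formula holds on the closed square -/
theorem f0_closed (hK : IsCompact K) (hw : Width1 K)
    (hf : ∀ p ∈ Helper22.MEI.SQ, chP K x0 b p = f0 p) {X Y : ℝ} (hX : |X| ≤ s) (hY : |Y| ≤ s) :
    chP K x0 b (X, Y) = f0 (X, Y) := by
  have h1 : EqOn (chP K x0 b) f0 Helper22.MEI.SQ := hf
  have h2 := h1.closure (chP_cont hK hw x0) f0_cont
  apply h2
  have hs := s_pos
  have hne : -s ≠ s := by
    intro h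
    linarith
  unfold Helper22.MEI.SQ
  rw [closure_prod_eq, closure_Ioo hne]
  exact ⟨abs_le.1 hX, abs_le.1 hY⟩

/-- **the inequalities on the cone of a square** -/
theorem cone_ineq (hK : IsCompact K) (hw : Width1 K) (hx0 : x0 ∈ K) (h : Gram4 v) (hb : Fr v b)
    (hf : ∀ p ∈ Helper22.MEI.SQ, chP K x0 b p = f0 p) {x : E3} (hx : InM v x) {u : E3}
    (c0 : 0 ≤ ⟪v 0, u⟫) (c1 : 0 ≤ ⟪v 1, u⟫) (c2 : ⟪v 2, u⟫ ≤ 0) (c3' : ⟪v 3, u⟫ ≤ 0) :
    ⟪x, u⟫ ≤ H0 K x0 u ∧ ⟪x, -u⟫ ≤ H0 K x0 (-u) := by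
  have hS := supp1 hK hw hx0
  obtain ⟨a0, a1, a2, a3⟩ := frame_inner h hb.e0 hb.e1 hb.e2 u
  rw [a0] at c0
  rw [a1] at c1
  rw [a2] at c2
  rw [a3] at c3'
  have s0 : 0 < Real.sqrt 2 := by positivity
  have hs : s = Real.sqrt 2 / 2 := rfl
  obtain ⟨z, hz⟩ : ∃ z, z = ⟪b 2, u⟫ := ⟨_, rfl⟩
  rw [← hz] at c0 c1 c2 c3'
  have hz0 : 0 ≤ z := by
    have : 0 ≤ Real.sqrt 2 / 4 * z := by linarith
    exact nonneg_of_mul_nonneg_right this (by positivity)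
  have hbX : |⟪b 0, u⟫| ≤ s * z := by
    rw [hs, abs_le]
    constructor <;> linarith
  have hbY : |⟪b 1, u⟫| ≤ s * z := by
    rw [hs, abs_le]
    constructor <;> linarith
  rcases eq_or_lt_of_le hz0 with hz1 | hz1
  · rw [← hz1, mul_zero] at hbX hbY
    have u0 : u = 0 := by
      apply b_ext b
      · rw [inner_zero_right]
        exact abs_eq_zero.1 (le_antisymm hbX (abs_nonneg _))
      · rw [inner_zero_right]
        exact abs_eq_zero.1 (le_antisymm hbY (abs_nonneg _))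
      · rw [inner_zero_right, ← hz, ← hz1]
    rw [u0, neg_zero, hS.zero, inner_zero_right]
    exact ⟨le_rfl, le_rfl⟩
  · obtain ⟨X, hX⟩ : ∃ X, X = ⟪b 0, u⟫ / z := ⟨_, rfl⟩
    obtain ⟨Y, hY⟩ : ∃ Y, Y = ⟪b 1, u⟫ / z := ⟨_, rfl⟩
    have hXs : |X| ≤ s := by
      rw [hX, abs_div, abs_of_pos hz1, div_le_iff₀ hz1]
      exact hbX
    have hYs : |Y| ≤ s := by
      rw [hY, abs_div, abs_of_pos hz1, div_le_iff₀ hz1]
      exact hbY
    have hu : u = z • pt b X Y 1 := by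
      apply b_ext b
      · rw [real_inner_smul_right, inner_pt_b]
        simp
        rw [hX]
        field_simp
      · rw [real_inner_smul_right, inner_pt_b]
        simp
        rw [hY]
        field_simp
      · rw [real_inner_smul_right, inner_pt_b]
        simp
        exact hz.symm
    have hch : H0 K x0 (pt b X Y 1) = f0 (X, Y) := f0_closed hK hw hf hXs hYs
    obtain ⟨q1, q2⟩ := sq_ineq (Y := Y) h hb hx hXs
    have hin : ⟪x, pt b X Y 1⟫ = ⟪b 0, x⟫ * X + ⟪b 1, x⟫ * Y + ⟪b 2, x⟫ := by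
      rw [real_inner_comm, inner_pt]
      ring
    have hn : ‖pt b X Y 1‖ = NN (X, Y) := norm_pt_one b (X, Y)
    have hneg : H0 K x0 (-(pt b X Y 1)) = NN (X, Y) - f0 (X, Y) := by
      rw [H0_width hK hw, hn, hch]
    have hnegu : -u = z • (-(pt b X Y 1)) := by
      rw [hu, smul_neg]
    constructor
    · rw [hu, hS.smul z hz0, real_inner_smul_right, hch, hin]
      exact mul_le_mul_of_nonneg_left q1 hz0
    · rw [hnegu, hS.smul z hz0, real_inner_smul_right, hneg, inner_neg_right, hin]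
      exact mul_le_mul_of_nonneg_left q2 hz0

/-- the frame of the opposite edge turns `f1` into `f0` -/
theorem swap_frame (hK : IsCompact K) (hw : Width1 K) (h : Gram4 v) (hb : Fr v b)
    (hf : ∀ p ∈ Helper22.MEI.SQ, chP K x0 b p = f1 p) :
    ∃ b' : OrthonormalBasis (Fin 3) ℝ E3, b' 0 = v 2 - v 3 ∧ b' 1 = v 0 - v 1 ∧
      b' 2 = Real.sqrt 2 • (v 2 + v 3) ∧ ∀ p ∈ Helper22.MEI.SQ, chP K x0 b' p = f0 p := by
  obtain ⟨b', h0, h1, h2⟩ := (h.perm (Equiv.swap 0 2 * Equiv.swap 1 3)).frame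
  have p0 : (Equiv.swap 0 2 * Equiv.swap 1 3 : Equiv.Perm (Fin 4)) 0 = 2 := by decide
  have p1 : (Equiv.swap 0 2 * Equiv.swap 1 3 : Equiv.Perm (Fin 4)) 1 = 3 := by decide
  have p2 : (Equiv.swap 0 2 * Equiv.swap 1 3 : Equiv.Perm (Fin 4)) 2 = 0 := by decide
  have p3 : (Equiv.swap 0 2 * Equiv.swap 1 3 : Equiv.Perm (Fin 4)) 3 = 1 := by decide
  simp only [p0, p1, p2, p3] at h0 h1 h2
  refine ⟨b', h0, h1, h2, ?_⟩
  intro p hp
  have hp' : ((-p.2, -p.1) : ℝ × ℝ) ∈ Helper22.MEI.SQ := by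
    obtain ⟨⟨a1, a2⟩, ⟨a3, a4⟩⟩ := hp
    refine ⟨⟨?_, ?_⟩, ⟨?_, ?_⟩⟩ <;> simp only <;> linarith
  have e2 : b' 2 = -(b 2) := by
    rw [h2, hb.e2, ← smul_neg]
    congr 1
    have := h.sum
    have e : v 2 + v 3 = (v 0 + v 1 + v 2 + v 3) - (v 0 + v 1) := by abel
    rw [e, this, zero_sub]
  have e3 : pt b' p.1 p.2 1 = -(pt b (-p.2) (-p.1) 1) := by
    unfold pt
    rw [h0, h1, e2, hb.e0, hb.e1]
    module
  have e4 := chP_neg (b := b) hK hw x0 (-p.2, -p.1)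
  have e5 := hf _ hp'
  unfold chP at e5 ⊢
  rw [e3]
  unfold chP at e4
  rw [e4, e5]
  unfold f1
  have n1 : Nn (-p.2, -p.1) = NN (-p.2, -p.1) := rfl
  have n2 : f0 (-p.1, -p.2) = f0 p := by
    unfold f0 AA NN
    simp
  simp only
  rw [n1, n2]
  ring

/-- the sharp edge `v i, v j` in the body -/
def ShE (K : Set E3) (x0 : E3) (v : Fin 4 → E3) (i j k l : Fin 4) : Prop :=
  ∃ b : OrthonormalBasis (Fin 3) ℝ E3, b 0 = v i - v j ∧ b 1 = v k - v l ∧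
    b 2 = Real.sqrt 2 • (v i + v j) ∧ ∀ p ∈ Helper22.MEI.SQ, chP K x0 b p = f0 p

theorem ShE.contact {i j k l : Fin 4} (hE : ShE K x0 v i j k l)
    (hσ : ∃ σ : Equiv.Perm (Fin 4), σ 0 = i ∧ σ 1 = j ∧ σ 2 = k ∧ σ 3 = l)
    (hK : IsCompact K) (hw : Width1 K) (h : Gram4 v) (hv : ∀ i, x0 + v i ∈ K)
    {x : E3} (h2 : ‖x - v k‖ = 1) (h3 : ‖x - v l‖ = 1) (hm : ∀ m, ‖x - v m‖ ≤ 1) :
    x0 + x ∈ K := by
  obtain ⟨σ, rfl, rfl, rfl, rfl⟩ := hσ
  obtain ⟨b, e0, e1, e2, hf⟩ := hE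
  exact Helper96.MEI.contact hK hw (h.perm σ) (fun i => hv _) ⟨e0, e1, e2⟩ hf h2 h3 (hm _) (hm _)

theorem ShE.ineq {i j k l : Fin 4} (hE : ShE K x0 v i j k l)
    (hσ : ∃ σ : Equiv.Perm (Fin 4), σ 0 = i ∧ σ 1 = j ∧ σ 2 = k ∧ σ 3 = l)
    (hK : IsCompact K) (hw : Width1 K) (hx0 : x0 ∈ K) (h : Gram4 v)
    {x : E3} (hm : ∀ m, ‖x - v m‖ ≤ 1)
    (ha : ∀ η : E3, ‖η - v k‖ = 1 → ‖η - v l‖ = 1 → (∀ m, ‖η - v m‖ ≤ 1) → ‖x - η‖ ≤ 1)
    {u : E3} (c0 : 0 ≤ ⟪v i, u⟫) (c1 : 0 ≤ ⟪v j, u⟫) (c2 : ⟪v k, u⟫ ≤ 0) (c3' : ⟪v l, u⟫ ≤ 0) :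
    ⟪x, u⟫ ≤ H0 K x0 u ∧ ⟪x, -u⟫ ≤ H0 K x0 (-u) := by
  obtain ⟨σ, rfl, rfl, rfl, rfl⟩ := hσ
  obtain ⟨b, e0, e1, e2, hf⟩ := hE
  refine cone_ineq hK hw hx0 (h.perm σ) ⟨e0, e1, e2⟩ hf (x := x) ⟨fun m => hm _, ?_⟩ c0 c1 c2 c3'
  intro η n2 n3 nm
  apply ha η n2 n3
  intro m
  have := nm (σ.symm m)
  simpa using this

/-- the two sides of a pair of opposite edges -/
theorem pair_ineq {i j k l : Fin 4} {c : Bool}
    (hE : if c then ShE K x0 v i j k l else ShE K x0 v k l i j)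
    (hσ : ∃ σ : Equiv.Perm (Fin 4), σ 0 = i ∧ σ 1 = j ∧ σ 2 = k ∧ σ 3 = l)
    (hσ' : ∃ σ : Equiv.Perm (Fin 4), σ 0 = k ∧ σ 1 = l ∧ σ 2 = i ∧ σ 3 = j)
    (hK : IsCompact K) (hw : Width1 K) (hx0 : x0 ∈ K) (h : Gram4 v)
    {x : E3} (hm : ∀ m, ‖x - v m‖ ≤ 1)
    (ha : ∀ η : E3, (if c then ‖η - v k‖ = 1 ∧ ‖η - v l‖ = 1 else ‖η - v i‖ = 1 ∧ ‖η - v j‖ = 1) →
      (∀ m, ‖η - v m‖ ≤ 1) → ‖x - η‖ ≤ 1)
    {u : E3} (c0 : 0 ≤ ⟪v i, u⟫) (c1 : 0 ≤ ⟪v j, u⟫) (c2 : ⟪v k, u⟫ ≤ 0) (c3' : ⟪v l, u⟫ ≤ 0) :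
    ⟪x, u⟫ ≤ H0 K x0 u ∧ ⟪x, -u⟫ ≤ H0 K x0 (-u) := by
  cases c with
  | true =>
    simp only [if_true] at hE ha
    exact hE.ineq hσ hK hw hx0 h hm (fun η n2 n3 nm => ha η ⟨n2, n3⟩ nm) c0 c1 c2 c3'
  | false =>
    simp only [Bool.false_eq_true, if_false] at hE ha
    have := hE.ineq (u := -u) hσ' hK hw hx0 h hm (fun η n2 n3 nm => ha η ⟨n2, n3⟩ nm)
      (by rw [inner_neg_right]; linarith) (by rw [inner_neg_right]; linarith)
      (by rw [inner_neg_right]; linarith) (by rw [inner_neg_right]; linarith)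
    rw [neg_neg] at this
    exact ⟨this.2, this.1⟩

/-- the inequality for three nonpositive products -/
theorem tri_ineq (hK : IsCompact K) (hw : Width1 K) (hx0 : x0 ∈ K) (h : Gram4 v)
    (hv : ∀ i, x0 + v i ∈ K) {x : E3} (hm : ∀ m, ‖x - v m‖ ≤ 1) (i : Fin 4) {u : E3}
    (hu : ∀ j, j ≠ i → ⟪v j, u⟫ ≤ 0) : ⟪x, u⟫ ≤ H0 K x0 u ∧ ⟪x, -u⟫ ≤ H0 K x0 (-u) := by
  have hH := H0_tri' hK hw (supp1 hK hw hx0) h hv i hu
  constructor
  · rw [hH]
    -- `u` is a positive combination of `v i - v j`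
    have ht := h.tight u
    have hs : ⟪v 0, u⟫ + ⟪v 1, u⟫ + ⟪v 2, u⟫ + ⟪v 3, u⟫ = (0 : ℝ) := by
      rw [← inner_add_left, ← inner_add_left, ← inner_add_left, h.sum, inner_zero_left]
    have key : ∀ j, j ≠ i → ⟪x - v i, v i - v j⟫ ≤ 0 := by
      intro j hj
      have e1 : x - v j = (x - v i) + (v i - v j) := by abel
      have e2 := hm j
      have e3 := norm_add_sq_real (x - v i) (v i - v j)
      rw [← e1] at e3
      have e4 : ‖v i - v j‖ ^ 2 = 1 := by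
        rw [← real_inner_self_eq_norm_sq, inner_sub_left, inner_sub_right, inner_sub_right,
          h.diag, h.diag, h.off i j (Ne.symm hj), h.off j i hj]
        norm_num
      have e5 := sqlem (norm_nonneg _) e2
      have e6 := sq_nonneg ‖x - v i‖
      linarith
    have hsum : ∑ j, ⟪v j, u⟫ = 0 := by rw [Fin.sum_univ_four]; exact hs
    have hu2 : u = ∑ j, (-2 * ⟪v j, u⟫) • (v i - v j) := by
      have e1 : ∑ j, (-2 * ⟪v j, u⟫) • (v i - v j) =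
          (∑ j, (-2 * ⟪v j, u⟫)) • v i + ∑ j, (2 * ⟪v j, u⟫) • v j := by
        rw [Finset.sum_smul, ← Finset.sum_add_distrib]
        apply Finset.sum_congr rfl
        intro j _
        module
      rw [e1, ← Finset.mul_sum, hsum, mul_zero, zero_smul, zero_add, Fin.sum_univ_four]
      exact ht
    have e7 : ⟪x - v i, u⟫ = ∑ j, (-2 * ⟪v j, u⟫) * ⟪x - v i, v i - v j⟫ := by
      conv_lhs => rw [hu2]
      rw [inner_sum]
      apply Finset.sum_congr rfl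
      intro j _
      rw [real_inner_smul_right]
    have e8 : ⟪x - v i, u⟫ ≤ 0 := by
      rw [e7]
      apply Finset.sum_nonpos
      intro j _
      by_cases hj : j = i
      · rw [hj, sub_self, inner_zero_right, mul_zero]
      · have a1 := key j hj
        have a2 := hu j hj
        nlinarith
    rw [inner_sub_left] at e8
    linarith
  · rw [H0_width hK hw, hH, inner_neg_right]
    have h1 := hm i
    rw [norm_sub_rev] at h1
    have := inner_le_of (u := u) h1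
    linarith

end

end Helper96.MEI
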