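import Pool.Agent.Helper96.MEI.Eq3

/-!
# Equality in the class T theorem: assembly of the geometric part
-/

namespace Helper96.MEI

open Set Metric MeasureTheory Helper80.CW Helper82.CW Helper14.CW Helper22.MEI
open scoped ContDiff Topology RealInnerProductSpace Real

section
variable {K : Set E3} {v : Fin 4 → E3} {x0 : E3} {b : OrthonormalBasis (Fin 3) ℝ E3}

/-- all directions from the sign patterns -/
theorem all_ineq {v : Fin 4 → E3} {Q : E3 → Prop}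
    (P0 : ∀ u, 0 ≤ ⟪v 0, u⟫ → 0 ≤ ⟪v 1, u⟫ → ⟪v 2, u⟫ ≤ 0 → ⟪v 3, u⟫ ≤ 0 → Q u ∧ Q (-u))
    (P1 : ∀ u, 0 ≤ ⟪v 0, u⟫ → 0 ≤ ⟪v 2, u⟫ → ⟪v 1, u⟫ ≤ 0 → ⟪v 3, u⟫ ≤ 0 → Q u ∧ Q (-u))
    (P2 : ∀ u, 0 ≤ ⟪v 0, u⟫ → 0 ≤ ⟪v 3, u⟫ → ⟪v 2, u⟫ ≤ 0 → ⟪v 1, u⟫ ≤ 0 → Q u ∧ Q (-u))
    (T : ∀ (i : Fin 4) (u : E3), (∀ j, j ≠ i → ⟪v j, u⟫ ≤ 0) → Q u ∧ Q (-u)) (u : E3) : Q u := by
  have hT0 : ∀ u, ⟪v 1, u⟫ ≤ 0 → ⟪v 2, u⟫ ≤ 0 → ⟪v 3, u⟫ ≤ 0 → Q u ∧ Q (-u) := by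
    intro u h1 h2 h3
    apply T 0
    intro j hj
    fin_cases j
    · exact absurd rfl hj
    · exact h1
    · exact h2
    · exact h3
  have hT1 : ∀ u, ⟪v 0, u⟫ ≤ 0 → ⟪v 2, u⟫ ≤ 0 → ⟪v 3, u⟫ ≤ 0 → Q u ∧ Q (-u) := by
    intro u h1 h2 h3
    apply T 1
    intro j hj
    fin_cases j
    · exact h1
    · exact absurd rfl hj
    · exact h2
    · exact h3
  have hT2 : ∀ u, ⟪v 0, u⟫ ≤ 0 → ⟪v 1, u⟫ ≤ 0 → ⟪v 3, u⟫ ≤ 0 → Q u ∧ Q (-u) := by
    intro u h1 h2 h3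
    apply T 2
    intro j hj
    fin_cases j
    · exact h1
    · exact h2
    · exact absurd rfl hj
    · exact h3
  have hT3 : ∀ u, ⟪v 0, u⟫ ≤ 0 → ⟪v 1, u⟫ ≤ 0 → ⟪v 2, u⟫ ≤ 0 → Q u ∧ Q (-u) := by
    intro u h1 h2 h3
    apply T 3
    intro j hj
    fin_cases j
    · exact h1
    · exact h2
    · exact h3
    · exact absurd rfl hj
  have ng : ∀ i, 0 ≤ ⟪v i, u⟫ → ⟪v i, -u⟫ ≤ 0 := by
    intro i hi
    rw [inner_neg_right]
    linarith
  have np : ∀ i, ⟪v i, u⟫ ≤ 0 → 0 ≤ ⟪v i, -u⟫ := by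
    intro i hi
    rw [inner_neg_right]
    linarith
  have nn : Q (- -u) → Q u := by rw [neg_neg]; exact id
  rcases le_total ⟪v 0, u⟫ 0 with h0 | h0 <;> rcases le_total ⟪v 1, u⟫ 0 with h1 | h1 <;>
    rcases le_total ⟪v 2, u⟫ 0 with h2 | h2 <;> rcases le_total ⟪v 3, u⟫ 0 with h3 | h3
  · exact (hT0 u h1 h2 h3).1
  · exact (hT3 u h0 h1 h2).1
  · exact (hT2 u h0 h1 h3).1
  · exact nn (P0 (-u) (np 0 h0) (np 1 h1) (ng 2 h2) (ng 3 h3)).2
  · exact (hT1 u h0 h2 h3).1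
  · exact nn (P1 (-u) (np 0 h0) (np 2 h2) (ng 1 h1) (ng 3 h3)).2
  · exact nn (P2 (-u) (np 0 h0) (np 3 h3) (ng 2 h2) (ng 1 h1)).2
  · exact nn (hT0 (-u) (ng 1 h1) (ng 2 h2) (ng 3 h3)).2
  · exact (hT0 u h1 h2 h3).1
  · exact (P2 u h0 h3 h2 h1).1
  · exact (P1 u h0 h2 h1 h3).1
  · exact nn (hT1 (-u) (ng 0 h0) (ng 2 h2) (ng 3 h3)).2
  · exact (P0 u h0 h1 h2 h3).1
  · exact nn (hT2 (-u) (ng 0 h0) (ng 1 h1) (ng 3 h3)).2
  · exact nn (hT3 (-u) (ng 0 h0) (ng 1 h1) (ng 2 h2)).2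
  · exact nn (hT0 (-u) (ng 1 h1) (ng 2 h2) (ng 3 h3)).2

/-- a point which satisfies all support inequalities is in the body -/
theorem mem_of_ineq (hK : IsCompact K) (hc : Convex ℝ K) (hw : Width1 K) {x : E3}
    (hx : ∀ u, ⟪x, u⟫ ≤ H0 K x0 u) : x0 + x ∈ K := by
  have h1 := body_sub' (k0 := x0) (f := H0 K x0) (δ := 0) hK hc hw (fun u => by simp) le_rfl
  have h2 := h1 hx
  rw [cthickening_zero] at h2
  have h3 : IsClosed ((fun y => y + x0) ⁻¹' K) := hK.isClosed.preimage (by fun_prop)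
  rw [h3.closure_eq] at h2
  rw [add_comm]
  exact h2

/-- **The body is a Meissner body.** -/
theorem eq_MB (hK : IsCompact K) (hc : Convex ℝ K) (hw : Width1 K) {a : Fin 4 → E3}
    (ha : ∀ i, a i ∈ K) (hd : ∀ i j, i ≠ j → dist (a i) (a j) = 1) (c : Fin 3 → Bool)
    (h0 : if c 0 then ShE K (cen a) (al a) 0 1 2 3 else ShE K (cen a) (al a) 2 3 0 1)
    (h1 : if c 1 then ShE K (cen a) (al a) 0 2 1 3 else ShE K (cen a) (al a) 1 3 0 2)
    (h2 : if c 2 then ShE K (cen a) (al a) 0 3 2 1 else ShE K (cen a) (al a) 2 1 0 3) :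
    K = MB a c := by
  have h := gram_of_dist hd
  have hx0 : cen a ∈ K := by
    have e : cen a = (1 / 2 : ℝ) • ((1 / 2 : ℝ) • a 0 + (1 / 2 : ℝ) • a 1) +
        (1 / 2 : ℝ) • ((1 / 2 : ℝ) • a 2 + (1 / 2 : ℝ) • a 3) := by
      unfold cen
      module
    rw [e]
    have g1 := hc (ha 0) (ha 1) (by norm_num : (0 : ℝ) ≤ 1 / 2) (by norm_num : (0 : ℝ) ≤ 1 / 2)
      (by norm_num)
    have g2 := hc (ha 2) (ha 3) (by norm_num : (0 : ℝ) ≤ 1 / 2) (by norm_num : (0 : ℝ) ≤ 1 / 2)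
      (by norm_num)
    exact hc g1 g2 (by norm_num) (by norm_num) (by norm_num)
  have hv : ∀ i, cen a + al a i ∈ K := by
    intro i
    have : cen a + al a i = a i := by
      unfold al
      abel
    rw [this]
    exact ha i
  have hdist : ∀ (x : E3) (m : Fin 4), ‖(x - cen a) - al a m‖ = dist x (a m) := by
    intro x m
    rw [dist_eq_norm]
    congr 1
    unfold al
    abel
  -- contact
  have hcon : ∀ {i j k l : Fin 4}, ShE K (cen a) (al a) i j k l →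
      (∃ σ : Equiv.Perm (Fin 4), σ 0 = i ∧ σ 1 = j ∧ σ 2 = k ∧ σ 3 = l) →
      ∀ y, dist y (a k) = 1 → dist y (a l) = 1 → (∀ m, dist y (a m) ≤ 1) → y ∈ K := by
    intro i j k l hE hσ y n2 n3 nm
    have := hE.contact hσ hK hw h hv (x := y - cen a) (by rw [hdist]; exact n2)
      (by rw [hdist]; exact n3) (fun m => by rw [hdist]; exact nm m)
    have e : cen a + (y - cen a) = y := by abel
    rwa [e] at this
  have p0123 : ∃ σ : Equiv.Perm (Fin 4), σ 0 = 0 ∧ σ 1 = 1 ∧ σ 2 = 2 ∧ σ 3 = 3 := ⟨1, by decide⟩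
  have p2301 : ∃ σ : Equiv.Perm (Fin 4), σ 0 = 2 ∧ σ 1 = 3 ∧ σ 2 = 0 ∧ σ 3 = 1 :=
    ⟨Equiv.swap 0 2 * Equiv.swap 1 3, by decide⟩
  have p0213 : ∃ σ : Equiv.Perm (Fin 4), σ 0 = 0 ∧ σ 1 = 2 ∧ σ 2 = 1 ∧ σ 3 = 3 :=
    ⟨Equiv.swap 1 2, by decide⟩
  have p1302 : ∃ σ : Equiv.Perm (Fin 4), σ 0 = 1 ∧ σ 1 = 3 ∧ σ 2 = 0 ∧ σ 3 = 2 :=
    ⟨Equiv.swap 1 2 * (Equiv.swap 0 2 * Equiv.swap 1 3), by decide⟩
  have p0321 : ∃ σ : Equiv.Perm (Fin 4), σ 0 = 0 ∧ σ 1 = 3 ∧ σ 2 = 2 ∧ σ 3 = 1 :=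
    ⟨Equiv.swap 1 3, by decide⟩
  have p2103 : ∃ σ : Equiv.Perm (Fin 4), σ 0 = 2 ∧ σ 1 = 1 ∧ σ 2 = 0 ∧ σ 3 = 3 :=
    ⟨Equiv.swap 1 3 * (Equiv.swap 0 2 * Equiv.swap 1 3), by decide⟩
  have hsharp : ∀ y ∈ sharp a c, y ∈ K := by
    intro y hy
    rcases hy with (hy | hy) | hy
    · by_cases hc0 : c 0 = true
      · rw [if_pos hc0] at hy h0
        exact hcon h0 p0123 y hy.1 hy.2.1 hy.2.2
      · rw [if_neg hc0] at hy h0
        exact hcon h0 p2301 y hy.1 hy.2.1 hy.2.2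
    · by_cases hc1 : c 1 = true
      · rw [if_pos hc1] at hy h1
        exact hcon h1 p0213 y hy.1 hy.2.1 hy.2.2
      · rw [if_neg hc1] at hy h1
        exact hcon h1 p1302 y hy.1 hy.2.1 hy.2.2
    · by_cases hc2 : c 2 = true
      · rw [if_pos hc2] at hy h2
        exact hcon h2 p0321 y hy.2.1 hy.1 hy.2.2
      · rw [if_neg hc2] at hy h2
        exact hcon h2 p2103 y hy.1 hy.2.1 hy.2.2
  apply Subset.antisymm
  · intro x hx
    refine ⟨mem_iInter.2 (fun i => ?_), mem_iInter₂.2 (fun y hy => ?_)⟩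
    · rw [mem_closedBall]
      exact diam_le hK hw x hx (a i) (ha i)
    · rw [mem_closedBall]
      exact diam_le hK hw x hx y (hsharp y hy)
  · rintro x ⟨hx1, hx2⟩
    have hm : ∀ m, ‖(x - cen a) - al a m‖ ≤ 1 := by
      intro m
      rw [hdist]
      exact mem_closedBall.1 (mem_iInter.1 hx1 m)
    have hs : ∀ y ∈ sharp a c, dist x y ≤ 1 := fun y hy =>
      mem_closedBall.1 (mem_iInter₂.1 hx2 y hy)
    have hη : ∀ η : E3, cen a + η ∈ sharp a c → ‖(x - cen a) - η‖ ≤ 1 := by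
      intro η hη
      have := hs _ hη
      rw [dist_eq_norm] at this
      have e : (x - cen a) - η = x - (cen a + η) := by abel
      rwa [e]
    have hdη : ∀ (η : E3) (m : Fin 4), dist (cen a + η) (a m) = ‖η - al a m‖ := by
      intro η m
      rw [dist_eq_norm]
      congr 1
      unfold al
      abel
    have key : ∀ u, ⟪x - cen a, u⟫ ≤ H0 K (cen a) u := by
      apply all_ineq (v := al a) (Q := fun u => ⟪x - cen a, u⟫ ≤ H0 K (cen a) u)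
      · intro u c0 c1 c2 c3'
        refine pair_ineq h0 p0123 p2301 hK hw hx0 h hm ?_ c0 c1 c2 c3'
        intro η hη1 hη2
        apply hη
        left
        left
        by_cases hc0 : c 0 = true
        · rw [if_pos hc0] at hη1 ⊢
          exact ⟨by rw [hdη]; exact hη1.1, by rw [hdη]; exact hη1.2,
            fun m => by rw [hdη]; exact hη2 m⟩
        · rw [if_neg hc0] at hη1 ⊢
          exact ⟨by rw [hdη]; exact hη1.1, by rw [hdη]; exact hη1.2,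
            fun m => by rw [hdη]; exact hη2 m⟩
      · intro u c0 c1 c2 c3'
        refine pair_ineq h1 p0213 p1302 hK hw hx0 h hm ?_ c0 c1 c2 c3'
        intro η hη1 hη2
        apply hη
        left
        right
        by_cases hc1 : c 1 = true
        · rw [if_pos hc1] at hη1 ⊢
          exact ⟨by rw [hdη]; exact hη1.1, by rw [hdη]; exact hη1.2,
            fun m => by rw [hdη]; exact hη2 m⟩
        · rw [if_neg hc1] at hη1 ⊢
          exact ⟨by rw [hdη]; exact hη1.1, by rw [hdη]; exact hη1.2,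
            fun m => by rw [hdη]; exact hη2 m⟩
      · intro u c0 c1 c2 c3'
        refine pair_ineq h2 p0321 p2103 hK hw hx0 h hm ?_ c0 c1 c2 c3'
        intro η hη1 hη2
        apply hη
        right
        by_cases hc2 : c 2 = true
        · rw [if_pos hc2] at hη1 ⊢
          exact ⟨by rw [hdη]; exact hη1.2, by rw [hdη]; exact hη1.1,
            fun m => by rw [hdη]; exact hη2 m⟩
        · rw [if_neg hc2] at hη1 ⊢
          exact ⟨by rw [hdη]; exact hη1.1, by rw [hdη]; exact hη1.2,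
            fun m => by rw [hdη]; exact hη2 m⟩
      · intro i u hu
        exact tri_ineq hK hw hx0 h hv hm i hu
    have := mem_of_ineq hK hc hw key
    have e : cen a + (x - cen a) = x := by abel
    rwa [e] at this

/-- a pair of opposite edges from the two possible chart functions -/
theorem pair_alt (hK : IsCompact K) (hw : Width1 K) {i j k l : Fin 4} {v : Fin 4 → E3}
    (h : Gram4 v)
    (hσ : ∃ σ : Equiv.Perm (Fin 4), σ 0 = i ∧ σ 1 = j ∧ σ 2 = k ∧ σ 3 = l)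
    {b : OrthonormalBasis (Fin 3) ℝ E3} (e0 : b 0 = v i - v j) (e1 : b 1 = v k - v l)
    (e2 : b 2 = Real.sqrt 2 • (v i + v j))
    (hf : (∀ p ∈ Helper22.MEI.SQ, chP K x0 b p = f0 p) ∨
      (∀ p ∈ Helper22.MEI.SQ, chP K x0 b p = f1 p)) :
    ∃ c : Bool, if c then ShE K x0 v i j k l else ShE K x0 v k l i j := by
  rcases hf with hf | hf
  · exact ⟨true, by rw [if_pos rfl]; exact ⟨b, e0, e1, e2, hf⟩⟩
  · refine ⟨false, ?_⟩
    rw [if_neg (by decide)]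
    obtain ⟨σ, rfl, rfl, rfl, rfl⟩ := hσ
    obtain ⟨b', q0, q1, q2, hq⟩ := swap_frame hK hw (h.perm σ) (b := b) ⟨e0, e1, e2⟩ hf
    exact ⟨b', q0, q1, q2, hq⟩

end

end Helper96.MEI
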