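import Pool.Agent.Helper96.MEI.Eq4
import Pool.Agent.Helper75.MEI.Top

/-!
# Equality in the class T theorem, from the equality case of the analytic inequality
-/

namespace Helper96.MEI

open Set Metric MeasureTheory Helper80.CW Helper82.CW Helper14.CW Helper22.MEI
open scoped ContDiff Topology RealInnerProductSpace Real

theorem VM_nonneg : 0 ≤ Real.pi * (2 / 3 - √3 / 4 * Real.arccos (1 / 3)) := by
  have h1 : Real.arccos (1 / 3) ≤ 1.5 := by
    have hp := Real.pi_lt_d2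
    have hp2 := Real.pi_gt_three
    have e : Real.arccos (Real.cos 1.5) = 1.5 := Real.arccos_cos (by norm_num) (by linarith)
    have hcos : Real.cos 1.5 ≤ 1 / 3 := by
      have e2 : Real.cos 1.5 = Real.sin (π / 2 - 1.5) := (Real.sin_pi_div_two_sub _).symm
      rw [e2]
      have := Real.sin_le (x := π / 2 - 1.5) (by linarith)
      linarith
    calc Real.arccos (1 / 3) ≤ Real.arccos (Real.cos 1.5) := Real.arccos_le_arccos hcos
      _ = 1.5 := e
  have h0 := Real.arccos_nonneg (1 / 3)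
  have h3 : √3 ≤ 1.7321 := by
    rw [Real.sqrt_le_left (by norm_num)]
    norm_num
  apply mul_nonneg Real.pi_pos.le
  have h4 := mul_le_mul h3 h1 h0 (by norm_num)
  linarith

/-- the values of a volume at the Meissner value force equality on the three squares -/
theorem meissner_of
    (hH1 : ∀ f : ℝ × ℝ → ℝ, Adm f → Vt f = Vt f0 → ∀ p ∈ Helper22.MEI.SQ, f p = f0 p)
    {K : Set E3} (hK : IsCompact K) (hc : Convex ℝ K) (hw : Width1 K) {a : Fin 4 → E3}
    (ha : ∀ i, a i ∈ K) (hd : ∀ i j, i ≠ j → dist (a i) (a j) = 1)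
    (hV : volume K = ENNReal.ofReal (Real.pi * (2 / 3 - √3 / 4 * Real.arccos (1 / 3)))) :
    ∃ c, K = MB a c := by
  have h := gram_of_dist hd
  have hx0 : cen a ∈ K := by
    have e : cen a = (1 / 2 : ℝ) • ((1 / 2 : ℝ) • a 0 + (1 / 2 : ℝ) • a 1) +
        (1 / 2 : ℝ) • ((1 / 2 : ℝ) • a 2 + (1 / 2 : ℝ) • a 3) := by
      unfold cen
      module
    rw [e]
    have g1 := hc (ha 0) (ha 1) (by norm_num : (0 : ℝ) ≤ 1 / 2) (by norm_num : (0 : ℝ) ≤ 1 / 2)
      (by norm_num)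
    have g2 := hc (ha 2) (ha 3) (by norm_num : (0 : ℝ) ≤ 1 / 2) (by norm_num : (0 : ℝ) ≤ 1 / 2)
      (by norm_num)
    exact hc g1 g2 (by norm_num) (by norm_num) (by norm_num)
  have hv : ∀ i, cen a + al a i ∈ K := by
    intro i
    have : cen a + al a i = a i := by
      unfold al
      abel
    rw [this]
    exact ha i
  set σ : Equiv.Perm (Fin 4) := Equiv.swap 1 2 with hσ
  set τ : Equiv.Perm (Fin 4) := Equiv.swap 1 3 with hτ
  have s0 : σ 0 = 0 := by decide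
  have s1 : σ 1 = 2 := by decide
  have s2 : σ 2 = 1 := by decide
  have s3 : σ 3 = 3 := by decide
  have t0 : τ 0 = 0 := by decide
  have t1 : τ 1 = 3 := by decide
  have t2 : τ 2 = 2 := by decide
  have t3 : τ 3 = 1 := by decide
  obtain ⟨b1, h10, h11, h12⟩ := h.frame
  obtain ⟨b2, h20, h21, h22⟩ := (h.perm σ).frame
  obtain ⟨b3, h30, h31, h32⟩ := (h.perm τ).frame
  have A1 := chP_adm hK hw hx0 h hv h10 h11 h12
  have A2 := chP_adm hK hw hx0 (h.perm σ) (fun i => hv _) h20 h21 h22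
  have A3 := chP_adm hK hw hx0 (h.perm τ) (fun i => hv _) h30 h31 h32
  simp only [s0, s1, s2, s3, t0, t1, t2, t3] at h20 h21 h22 h30 h31 h32
  have hvol := volume_tetra hK hc hw hx0 h hv ⟨h10, h11, h12⟩ ⟨h20, h21, h22⟩ ⟨h30, h31, h32⟩
  rw [hV, ENNReal.ofReal_le_ofReal_iff VM_nonneg] at hvol
  have hL := L3_holds
  unfold L3 at hL
  have hM := Helper75.MEI.m1A
  have B1 := bridge A1
  have B2 := bridge A2
  have B3 := bridge A3
  have D1 := hM _ A1
  have D2 := hM _ A2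
  have D3 := hM _ A3
  have hvol' : Helper14.CW.CT + 1 / 2 * ((∫ p in Helper22.MEI.SQ,
      Helper22.MEI.qd (chP K (cen a) b1) p * (NN p ^ 3)⁻¹) +
      (∫ p in Helper22.MEI.SQ, Helper22.MEI.qd (chP K (cen a) b2) p * (NN p ^ 3)⁻¹) +
      (∫ p in Helper22.MEI.SQ, Helper22.MEI.qd (chP K (cen a) b3) p * (NN p ^ 3)⁻¹)) ≤
      Real.pi * (2 / 3 - √3 / 4 * Real.arccos (1 / 3)) := hvol
  have key : ∀ f : ℝ × ℝ → ℝ, Adm f → Dfun (fun p => f0 p - f p) = 0 →
      (∀ p ∈ Helper22.MEI.SQ, f p = f0 p) ∨ (∀ p ∈ Helper22.MEI.SQ, f p = f1 p) := by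
    intro f hf hD
    have e1 := (Helper55.MEI.st_D f hf).1
    rw [hD] at e1
    rcases (Helper75.MEI.main_eq hf).2 (by linarith) with e2 | e2
    · exact Or.inl (hH1 f hf e2)
    · right
      intro p hp
      have hp' : ((p.2, p.1) : ℝ × ℝ) ∈ Helper22.MEI.SQ := ⟨hp.2, hp.1⟩
      have e3 := hH1 _ hf.swap e2 _ hp'
      unfold sw at e3
      simp only at e3
      unfold f1
      have e4 : NN (p.2, p.1) = NN p := NN_swap p
      rw [e4] at e3
      linarith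
  have z1 := key _ A1 (by linarith)
  have z2 := key _ A2 (by linarith)
  have z3 := key _ A3 (by linarith)
  have p0123 : ∃ σ : Equiv.Perm (Fin 4), σ 0 = 0 ∧ σ 1 = 1 ∧ σ 2 = 2 ∧ σ 3 = 3 := ⟨1, by decide⟩
  have p0213 : ∃ σ : Equiv.Perm (Fin 4), σ 0 = 0 ∧ σ 1 = 2 ∧ σ 2 = 1 ∧ σ 3 = 3 :=
    ⟨Equiv.swap 1 2, by decide⟩
  have p0321 : ∃ σ : Equiv.Perm (Fin 4), σ 0 = 0 ∧ σ 1 = 3 ∧ σ 2 = 2 ∧ σ 3 = 1 :=
    ⟨Equiv.swap 1 3, by decide⟩
  obtain ⟨c0, hc0⟩ := pair_alt (x0 := cen a) hK hw h p0123 h10 h11 h12 z1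
  obtain ⟨c1, hc1⟩ := pair_alt (x0 := cen a) hK hw h p0213 h20 h21 h22 z2
  obtain ⟨c2, hc2⟩ := pair_alt (x0 := cen a) hK hw h p0321 h30 h31 h32 z3
  exact ⟨![c0, c1, c2], eq_MB hK hc hw ha hd ![c0, c1, c2] hc0 hc1 hc2⟩

end Helper96.MEI
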