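import Pool.Agent.Helper75.MEI.Top
import Pool.Agent.Helper22.MEI.Facts2

/-!
# Equality in the analytic inequality: the function with the largest volume
-/

namespace Helper96.MEI

open Set MeasureTheory Filter Topology Helper22.MEI

variable {f : ℝ × ℝ → ℝ}

/-- lower bound for the determinant of a convex combination -/
theorem det_comb {a1 b1 c1 a2 b2 c2 r : ℝ} (hA : ∀ x y : ℝ, 0 ≤ a1 * x ^ 2 + 2 * b1 * x * y + c1 * y ^ 2)
    (hB : ∀ x y : ℝ, 0 ≤ a2 * x ^ 2 + 2 * b2 * x * y + c2 * y ^ 2) (hA' : 0 ≤ a1 * c1 - b1 * b1)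
    (hB' : 0 ≤ a2 * c2 - b2 * b2) (h0 : 0 ≤ r) (h1 : r ≤ 1) :
    r ^ 2 * (a2 * c2 - b2 * b2) ≤ ((1 - r) * a1 + r * a2) * ((1 - r) * c1 + r * c2) -
      ((1 - r) * b1 + r * b2) * ((1 - r) * b1 + r * b2) := by
  have a10 : 0 ≤ a1 := by have := hA 1 0; linarith
  have c10 : 0 ≤ c1 := by have := hA 0 1; linarith
  have a20 : 0 ≤ a2 := by have := hB 1 0; linarith
  have c20 : 0 ≤ c2 := by have := hB 0 1; linarith
  have hm : 2 * b1 * b2 ≤ a1 * c2 + a2 * c1 := by
    apply le_of_abs_le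
    apply abs_le_of_sq_le_sq _ (by positivity)
    have e1 : b1 * b1 * (b2 * b2) ≤ (a1 * c1) * (a2 * c2) :=
      mul_le_mul (by linarith) (by linarith) (mul_self_nonneg _) (by positivity)
    nlinarith [sq_nonneg (a1 * c2 - a2 * c1)]
  have hr : 0 ≤ 1 - r := by linarith
  have t1 : 0 ≤ (1 - r) ^ 2 * (a1 * c1 - b1 * b1) := mul_nonneg (sq_nonneg _) hA'
  have t2 : 0 ≤ r * (1 - r) * (a1 * c2 + a2 * c1 - 2 * b1 * b2) :=
    mul_nonneg (mul_nonneg h0 hr) (by linarith)
  nlinarith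

theorem hq_ge {h : ℝ × ℝ → ℝ} {p : ℝ × ℝ} (Hf : Hess f p) (Hh : Hess h p) {r : ℝ}
    (h0 : 0 ≤ r) (h1 : r ≤ 1) : r ^ 2 * hd h p ≤ hq f h (p, r) := by
  have n1 := hd_nonneg Hf
  have n2 := hd_nonneg Hh
  unfold hd at n1 n2 ⊢
  unfold hq it
  simp only
  rw [Hf.symm, Hh.symm] at *
  exact det_comb Hf.pos Hh.pos n1 n2 h0 h1

/-- the volume difference controls `P` on the lens -/
theorem lens_int (hf : Adm f) (hV : Vt f = Vt f0) : ∫ p in SQ, (f0 p - f p) * hd f0 p = 0 := by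
  have A0 := Helper55.MEI.adm_f0
  have i1 := Helper75.MEI.id_smooth1 (1 / 3)
  have i2 := Helper75.MEI.id_smooth2 (1 / 3)
  have i3 := Helper75.MEI.id_smooth3 (1 / 3)
  have e := flux' i1 i2 i3 hf A0
  rw [Helper75.MEI.Phi_id, Helper75.MEI.Phi_id, hV, sub_self] at e
  have hP0 : ∀ p ∈ SQ, 0 ≤ f0 p - f p := fun p hp =>
    sub_nonneg.2 (hf.le_f0 (Helper75.MEI.mem_SQ hp).1)
  have hae : ∀ᵐ p : ℝ × ℝ ∂(volume.restrict SQ), Hess f p ∧ Hess f0 p ∧ p ∈ SQ := by
    filter_upwards [ae_restrict_of_ae hf.hess_ae, ae_restrict_of_ae A0.hess_ae,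
      ae_restrict_mem SQ_meas] with p a b c
    exact ⟨a, b, c⟩
  set c : ℝ := ∫ p in SQ, (f0 p - f p) * hd f0 p with hc
  have hc0 : 0 ≤ c := by
    apply setIntegral_nonneg_of_ae_restrict
    filter_upwards [hae] with p hp
    exact mul_nonneg (hP0 p hp.2.2) (hd_nonneg hp.2.1)
  have hG : Good (fun p => (f0 p - f p) * hd f0 p) := (A0.gf.sub hf.gf).mul A0.ghd
  have hin : ∀ r ∈ Ioc (0 : ℝ) 1, r ^ 2 * c ≤ ∫ p in SQ,
      dq (fun q : ℝ × ℝ × ℝ => 1 / 3 * q.1) (fun q => 1 / 3 * q.2.1) (fun q => 1 / 3 * q.2.2)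
        f f0 (p, r) := by
    intro r hr
    rw [hc, ← integral_const_mul]
    apply integral_mono_ae (hG.int.const_mul _) ((dq_GB i1 i2 i3 hf A0).slice r).int
    filter_upwards [hae] with p hp
    unfold dq
    rw [Helper75.MEI.dv_id]
    have h1 := hq_ge hp.1 hp.2.1 hr.1.le hr.2
    have h2 := mul_le_mul_of_nonneg_left h1 (hP0 p hp.2.2)
    simp only
    norm_num
    linarith
  have hout : ∫ r in Ioc (0 : ℝ) 1, r ^ 2 * c ≤ 0 := by
    have : (∫ r in Ioc (0 : ℝ) 1, r ^ 2 * c) ≤ ∫ r in Ioc (0 : ℝ) 1, ∫ p in SQ,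
        dq (fun q : ℝ × ℝ × ℝ => 1 / 3 * q.1) (fun q => 1 / 3 * q.2.1) (fun q => 1 / 3 * q.2.2)
        f f0 (p, r) := by
      apply setIntegral_mono_on _ (dq_GB i1 i2 i3 hf A0).outer measurableSet_Ioc hin
      exact (Continuous.integrableOn_Icc (by fun_prop)).mono_set Ioc_subset_Icc_self
    linarith
  rw [integral_mul_const, ← intervalIntegral.integral_of_le zero_le_one, integral_pow] at hout
  norm_num at hout
  linarith

/-- on the lens the function is `f0` -/
theorem eq_lens (hf : Adm f) (hV : Vt f = Vt f0) {p : ℝ × ℝ} (hp : p ∈ SQ)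
    (hl : 1 + p.1 ^ 2 < 3 * p.2 ^ 2) : f p = f0 p := by
  have A0 := Helper55.MEI.adm_f0
  have hI := lens_int hf hV
  have hG : Good (fun p => (f0 p - f p) * hd f0 p) := (A0.gf.sub hf.gf).mul A0.ghd
  have hae : ∀ᵐ p : ℝ × ℝ ∂(volume.restrict SQ), 0 ≤ (f0 p - f p) * hd f0 p := by
    filter_upwards [ae_restrict_of_ae A0.hess_ae, ae_restrict_mem SQ_meas] with p a b
    exact mul_nonneg (sub_nonneg.2 (hf.le_f0 (Helper75.MEI.mem_SQ b).1)) (hd_nonneg a)
  rw [integral_eq_zero_iff_of_nonneg_ae hae hG.int] at hI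
  set U : Set (ℝ × ℝ) := SQ ∩ {p | 1 + p.1 ^ 2 < 3 * p.2 ^ 2} with hU
  have hoS : IsOpen SQ := isOpen_Ioo.prod isOpen_Ioo
  have hoU : IsOpen U := hoS.inter (isOpen_lt (by fun_prop) (by fun_prop))
  have h1 : (fun p => f p) =ᵐ[volume.restrict U] f0 := by
    have h2 := ae_mono (Measure.restrict_mono (inter_subset_left : U ⊆ SQ) le_rfl) hI
    filter_upwards [h2, ae_restrict_mem hoU.measurableSet] with p h3 h4
    have h5 := Helper52.MEI.hd_f0_lens h4.2
    simp only [Pi.zero_apply] at h3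
    rw [h5] at h3
    have h6 : (1 : ℝ) / NN p ^ 4 ≠ 0 := by
      have := NN_pos p
      positivity
    have := (mul_eq_zero.1 h3).resolve_right h6
    linarith
  have h7 := Measure.eqOn_open_of_ae_eq h1 hoU hf.diff.continuous.continuousOn
    f0_cont.continuousOn
  exact h7 ⟨hp, hl⟩

/-- **Row H1**: the function with the largest volume is `f0`. -/
theorem eq_f0 (hf : Adm f) (hV : Vt f = Vt f0) : ∀ p ∈ SQ, f p = f0 p := by
  rintro ⟨x, y⟩ hp
  have hx : |x| < s := abs_lt.2 hp.1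
  have k0 := yi_pos x
  have k2 := yi_sq x
  have hks : yi x < s := by
    have h1 : x ^ 2 < s ^ 2 := by
      rw [← sq_abs x]
      exact pow_lt_pow_left₀ hx (abs_nonneg _) two_ne_zero
    have h2 := s_sq
    have h3 : yi x ^ 2 < s ^ 2 := by linarith
    exact lt_of_pow_lt_pow_left₀ 2 s_pos.le h3
  have hlens : ∀ z ∈ Ioo (yi x) s, f (x, z) = f0 (x, z) := by
    intro z hz
    have hs := s_pos
    have hz1 : -s < z := by linarith [hz.1]
    have hzS : ((x, z) : ℝ × ℝ) ∈ SQ := ⟨hp.1, ⟨hz1, hz.2⟩⟩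
    apply eq_lens hf hV hzS
    show 1 + x ^ 2 < 3 * z ^ 2
    rw [← k2]
    have := pow_lt_pow_left₀ hz.1 k0.le two_ne_zero
    linarith
  rcases lt_or_ge (yi x) |y| with hy | hy
  · apply eq_lens hf hV hp
    show 1 + x ^ 2 < 3 * y ^ 2
    rw [← k2, ← sq_abs y]
    have := pow_lt_pow_left₀ hy k0.le two_ne_zero
    linarith
  · -- the interface
    have hcf : Continuous (fun z => f (x, z)) := hf.diff.continuous.comp (by fun_prop)
    have hc0 : Continuous (fun z => f0 (x, z)) := f0_cont.comp (by fun_prop)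
    have hcl : EqOn (fun z => f (x, z)) (fun z => f0 (x, z)) (Icc (yi x) s) := by
      have h1 : EqOn (fun z => f (x, z)) (fun z => f0 (x, z)) (Ioo (yi x) s) := hlens
      have h2 := h1.closure hcf hc0
      rwa [closure_Ioo hks.ne] at h2
    have hk : f (x, yi x) = f0 (x, yi x) := hcl ⟨le_rfl, hks.le⟩
    -- the derivative of `P` vanishes there
    have hd : Differentiable ℝ (fun z => PP f (x, z)) := by
      unfold PP
      have h1 : Differentiable ℝ (fun z : ℝ => f0 (x, z)) := f0_diff.comp (by fun_prop)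
      have h2 : Differentiable ℝ (fun z : ℝ => f (x, z)) := hf.diff.comp (by fun_prop)
      exact h1.sub h2
    have hmin : IsLocalMin (fun z => PP f (x, z)) (yi x) := by
      filter_upwards with z
      have h1 : PP f (x, yi x) = 0 := by
        unfold PP
        rw [hk, sub_self]
      rw [h1]
      exact PP_nonneg hf (p := (x, z)) hx.le
    have hder : HasDerivAt (fun z => PP f (x, z)) 0 (yi x) := by
      have := (hd (yi x)).hasDerivAt
      rwa [hmin.deriv_eq_zero] at this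
    have hcc := PP_mid_concave hf x
    have hy' := abs_le.1 hy
    have hle : PP f (x, y) ≤ 0 := by
      rcases eq_or_lt_of_le hy'.2 with h1 | h1
      · rw [h1]
        unfold PP
        rw [hk, sub_self]
      · have h2 := hcc.le_slope_of_hasDerivAt (x := y) (y := yi x) hy'
          ⟨by linarith, le_rfl⟩ h1 hder
        rw [slope_def_field] at h2
        have h3 : 0 < yi x - y := by linarith
        have h4 : PP f (x, yi x) = 0 := by
          unfold PP
          rw [hk, sub_self]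
        rw [h4, le_div_iff₀ h3] at h2
        linarith
    have hge := PP_nonneg hf (p := (x, y)) hx.le
    have h5 : PP f (x, y) = 0 := le_antisymm hle hge
    unfold PP at h5
    linarith

end Helper96.MEI
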