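import Pool.Agent.Helper96.MEI.Eq5
import Pool.Agent.Helper96.MEI.Eq6

/-!
# The case of equality for bodies of constant width containing a regular tetrahedron
-/

namespace Helper96.MEI

open MeasureTheory

/-- **Bodies of constant width one with the vertices of a regular unit tetrahedron**: the volume is
at least the volume of the Meissner bodies, and in the case of equality the body is one of the
eight Meissner bodies of the tetrahedron. -/
theorem class_T_equality {K : Set (EuclideanSpace ℝ (Fin 3))} (hcompact : IsCompact K)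
    (hconvex : Convex ℝ K)
    (hwidth : ∀ u : EuclideanSpace ℝ (Fin 3), ‖u‖ = 1 →
      sSup ((fun x => inner ℝ x u) '' K) - sInf ((fun x => inner ℝ x u) '' K) = 1)
    {a : Fin 4 → EuclideanSpace ℝ (Fin 3)} (ha : ∀ i, a i ∈ K)
    (hd : ∀ i j, i ≠ j → dist (a i) (a j) = 1) :
    ENNReal.ofReal (Real.pi * (2 / 3 - Real.sqrt 3 / 4 * Real.arccos (1 / 3))) ≤ volume K ∧
      (volume K = ENNReal.ofReal (Real.pi * (2 / 3 - Real.sqrt 3 / 4 * Real.arccos (1 / 3))) →
        ∃ c : Fin 3 → Bool, K = MB a c) :=
  ⟨Helper75.MEI.class_T hcompact hconvex hwidth ha hd,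
    meissner_of (fun _ hf hV => eq_f0 hf hV) hcompact hconvex hwidth ha hd⟩

end Helper96.MEI
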