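import Pool.Agent.Helper96.MEI.VolLe
import Pool.Agent.Helper14.CW.Adm

/-!
# The volume formula for bodies of constant width is an equality
-/

namespace Helper96.MEI

open Set Metric MeasureTheory Helper80.CW Helper82.CW Helper14.CW
open scoped ContDiff Topology RealInnerProductSpace Real Pointwise

/-- **First order volume formula**, upper bound. -/
theorem volume_first_le {K : Set E3} (hK : IsCompact K) (hw : Width1 K) {x0 : E3}
    (hx0 : x0 ∈ K) {m : ℝ} (hm : 0 < m) (hpos : ∀ x, m * ‖x‖ ≤ H0 K x0 x) :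
    volume K ≤ ENNReal.ofReal (3 / 4 * (∫ x in ball (0 : E3) 1, Fv (H0 K x0) x) - π / 3) := by
  have hne := hw.nonempty
  have hsub : K ⊆ closedBall x0 1 := by
    intro y hy
    rw [mem_closedBall]
    exact diam_le hK hw y hy x0 hx0
  have hR := H0_supp_ball hK hw le_rfl hsub
  set K0 : Set E3 := (fun y => y + x0) ⁻¹' K with hK0
  have hvol : volume K0 = volume K := measure_preimage_add_right volume x0 K
  rw [← hvol]
  have hstep : ∀ ε : ℝ, 0 < ε → ε < 1 → ε < m →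
      volume K0 ≤ ENNReal.ofReal ((1 + ε / (m - ε)) ^ 3 *
        (3 * cw ε / 4 * (∫ x in ball (0 : E3) 1, Fv (Ht (H0 K x0) ε) x) - π * cw ε ^ 3 / 3)) := by
    intro ε hε hε1 hεm
    have hS := Ht_SSup hR hε hε1
    have hme : 0 < m - ε := by linarith
    have hlow : ∀ x, (m - ε) * ‖x‖ ≤ Ht (H0 K x0) ε x := by
      intro x
      have h1 := Ht_ge hR hε x
      have h2 := hpos x
      linarith
    have hp : ∀ x, x ≠ 0 → 0 < Ht (H0 K x0) ε x := by
      intro x hx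
      have h1 := mul_pos hme (norm_pos_iff.2 hx)
      exact lt_of_lt_of_le h1 (hlow x)
    have h1 := smooth_ball_le hS hp
    set k : ℝ := 1 + ε / (m - ε) with hk
    have hk0 : 0 < k := by
      rw [hk]
      positivity
    have hsubset : K0 ⊆ k • {y : E3 | ∀ z, ⟪y, z⟫ ≤ Ht (H0 K x0) ε z} := by
      intro y hy
      rw [mem_smul_set_iff_inv_smul_mem₀ hk0.ne']
      intro z
      rw [real_inner_smul_left, inv_mul_le_iff₀ hk0]
      have h2 := supp_ge hK hne z (y := y + x0) hy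
      have h3 := Ht_ge hR hε z
      have h4 := hlow z
      have h5 : ⟪y, z⟫ ≤ H0 K x0 z := by
        unfold H0
        rw [inner_add_left] at h2
        linarith
      have h6 : ε * ‖z‖ ≤ ε / (m - ε) * Ht (H0 K x0) ε z := by
        rw [div_mul_eq_mul_div, le_div_iff₀ hme]
        have := mul_le_mul_of_nonneg_left h4 hε.le
        linarith
      rw [hk]
      linarith
    have hfr : Module.finrank ℝ E3 = 3 := by simp
    calc volume K0 ≤ volume (k • {y : E3 | ∀ z, ⟪y, z⟫ ≤ Ht (H0 K x0) ε z}) :=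
          measure_mono hsubset
      _ = ENNReal.ofReal (k ^ 3) * volume {y : E3 | ∀ z, ⟪y, z⟫ ≤ Ht (H0 K x0) ε z} := by
          rw [Measure.addHaar_smul, hfr, abs_of_pos (by positivity)]
      _ ≤ ENNReal.ofReal (k ^ 3) * ENNReal.ofReal
            (3 * cw ε / 4 * (∫ x in ball (0 : E3) 1, Fv (Ht (H0 K x0) ε) x) -
              π * cw ε ^ 3 / 3) := by gcongr
      _ = _ := by rw [← ENNReal.ofReal_mul (by positivity)]
  have hlim2 : Filter.Tendsto (fun ε : ℝ => ENNReal.ofReal ((1 + ε / (m - ε)) ^ 3 *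
      (3 * cw ε / 4 * (∫ x in ball (0 : E3) 1, Fv (Ht (H0 K x0) ε) x) - π * cw ε ^ 3 / 3)))
      (𝓝[>] 0) (𝓝 (ENNReal.ofReal
        (3 / 4 * (∫ x in ball (0 : E3) 1, Fv (H0 K x0) x) - π / 3))) := by
    apply ENNReal.tendsto_ofReal
    have h1 := ((cw_tendsto.const_mul 3).div_const 4).mul (int_tendsto hR)
    have h2 := ((cw_tendsto.pow 3).const_mul π).div_const 3
    have h3 := h1.sub h2
    simp only [mul_one, one_pow] at h3
    have h4 : Filter.Tendsto (fun ε : ℝ => (1 + ε / (m - ε)) ^ 3) (𝓝[>] 0) (𝓝 1) := by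
      have hc : ContinuousAt (fun ε : ℝ => (1 + ε / (m - ε)) ^ 3) 0 := by
        apply ContinuousAt.pow
        apply continuousAt_const.add
        apply continuousAt_id.div (continuousAt_const.sub continuousAt_id)
        simpa using hm.ne'
      have h5 := hc.tendsto
      simp only [zero_div, add_zero, one_pow] at h5
      exact h5.mono_left nhdsWithin_le_nhds
    have h6 := h4.mul h3
    rw [one_mul] at h6
    exact h6
  apply ge_of_tendsto hlim2
  have hlt : ∀ᶠ ε : ℝ in 𝓝 0, ε < 1 := eventually_lt_nhds one_pos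
  have hlt2 : ∀ᶠ ε : ℝ in 𝓝 0, ε < m := eventually_lt_nhds hm
  filter_upwards [self_mem_nhdsWithin, hlt.filter_mono nhdsWithin_le_nhds,
    hlt2.filter_mono nhdsWithin_le_nhds] with ε h1 h2 h3
  exact hstep ε h1 h2 h3

section
variable {K : Set E3} {v : Fin 4 → E3} {x0 : E3} {b : OrthonormalBasis (Fin 3) ℝ E3}

/-- the support function is positive -/
theorem H0_lower (hK : IsCompact K) (hw : Width1 K) (h : Gram4 v) (hv : ∀ i, x0 + v i ∈ K)
    (x : E3) : 1 / 9 * ‖x‖ ≤ H0 K x0 x := by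
  have g0 := H0_ge hK hw x0 (hv 0) x
  have g1 := H0_ge hK hw x0 (hv 1) x
  have g2 := H0_ge hK hw x0 (hv 2) x
  have g3 := H0_ge hK hw x0 (hv 3) x
  have hs : ⟪v 0, x⟫ + ⟪v 1, x⟫ + ⟪v 2, x⟫ + ⟪v 3, x⟫ = (0 : ℝ) := by
    rw [← inner_add_left, ← inner_add_left, ← inner_add_left, h.sum, inner_zero_left]
  have ht := congrArg (fun y => ⟪y, x⟫) (h.tight x)
  simp only [inner_add_left, real_inner_smul_left] at ht
  rw [real_inner_self_eq_norm_sq] at ht
  have hM : 0 ≤ H0 K x0 x := by linarith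
  have key : ∀ y : ℝ, y ≤ H0 K x0 x → -(3 * H0 K x0 x) ≤ y → y ^ 2 ≤ 9 * H0 K x0 x ^ 2 := by
    intro y h1 h2
    nlinarith
  have k0 := key _ g0 (by linarith)
  have k1 := key _ g1 (by linarith)
  have k2 := key _ g2 (by linarith)
  have k3 := key _ g3 (by linarith)
  have h5 : (1 / 9 * ‖x‖) ^ 2 ≤ H0 K x0 x ^ 2 := by
    have e : (1 / 9 * ‖x‖) ^ 2 = 1 / 81 * ‖x‖ ^ 2 := by ring
    rw [e, ht]
    nlinarith
  exact le_of_sq_le_sq h5 hM

theorem tetra_formula (hK : IsCompact K) (hw : Width1 K) (hx0 : x0 ∈ K)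
    (h : Gram4 v) (hv : ∀ i, x0 + v i ∈ K) {b1 b2 b3 : OrthonormalBasis (Fin 3) ℝ E3}
    (h1 : b1 0 = v 0 - v 1 ∧ b1 1 = v 2 - v 3 ∧ b1 2 = Real.sqrt 2 • (v 0 + v 1))
    (h2 : b2 0 = v 0 - v 2 ∧ b2 1 = v 1 - v 3 ∧ b2 2 = Real.sqrt 2 • (v 0 + v 2))
    (h3 : b3 0 = v 0 - v 3 ∧ b3 1 = v 2 - v 1 ∧ b3 2 = Real.sqrt 2 • (v 0 + v 3)) :
    CT + 1 / 2 * ((∫ p in SQ, qd (chP K x0 b1) p * (Nn p ^ 3)⁻¹) +
      (∫ p in SQ, qd (chP K x0 b2) p * (Nn p ^ 3)⁻¹) +
      (∫ p in SQ, qd (chP K x0 b3) p * (Nn p ^ 3)⁻¹)) =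
      3 / 4 * (∫ x in ball (0 : E3) 1, Fv (H0 K x0) x) - π / 3 := by
  have hS := supp1 hK hw hx0
  have hint : IntegrableOn (Fv (H0 K x0)) (ball (0 : E3) 1) := by
    apply Measure.integrableOn_of_bounded (M := 4) measure_ball_lt_top.ne
    · exact (Fv_meas hS).aestronglyMeasurable
    · have hae : ∀ᵐ x : E3, x ≠ 0 := by simp [ae_iff, measure_singleton]
      filter_upwards [ae_restrict_of_ae hae] with x hx
      rw [Real.norm_eq_abs]
      exact Fv_bd hK hw hx0 hx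
  rw [ball_decomp h hint]
  have g : ∀ σ : Equiv.Perm (Fin 4), Gram4 (fun i => v (σ i)) := fun σ => h.perm σ
  have gv : ∀ σ : Equiv.Perm (Fin 4), ∀ i, x0 + (fun i => v (σ i)) i ∈ K := fun σ i => hv _
  rw [tri_part hK hw hx0 h hv, tri_part hK hw hx0 (g _) (gv _), tri_part hK hw hx0 (g _) (gv _),
    tri_part hK hw hx0 (g _) (gv _), sq_part hK hw hx0 h h1.1 h1.2.1 h1.2.2,
    sq_part hK hw hx0 (g _) (b := b2) h2.1 h2.2.1 h2.2.2,
    sq_part hK hw hx0 (g _) (b := b3) h3.1 h3.2.1 h3.2.2]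
  unfold CT
  ring

/-- **The volume of a body of constant width containing a regular tetrahedron of edge `1`.** -/
theorem volume_tetra_eq (hK : IsCompact K) (hc : Convex ℝ K) (hw : Width1 K) (hx0 : x0 ∈ K)
    (h : Gram4 v) (hv : ∀ i, x0 + v i ∈ K) {b1 b2 b3 : OrthonormalBasis (Fin 3) ℝ E3}
    (h1 : b1 0 = v 0 - v 1 ∧ b1 1 = v 2 - v 3 ∧ b1 2 = Real.sqrt 2 • (v 0 + v 1))
    (h2 : b2 0 = v 0 - v 2 ∧ b2 1 = v 1 - v 3 ∧ b2 2 = Real.sqrt 2 • (v 0 + v 2))
    (h3 : b3 0 = v 0 - v 3 ∧ b3 1 = v 2 - v 1 ∧ b3 2 = Real.sqrt 2 • (v 0 + v 3)) :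
    volume K = ENNReal.ofReal (CT + 1 / 2 * ((∫ p in SQ, qd (chP K x0 b1) p * (Nn p ^ 3)⁻¹) +
      (∫ p in SQ, qd (chP K x0 b2) p * (Nn p ^ 3)⁻¹) +
      (∫ p in SQ, qd (chP K x0 b3) p * (Nn p ^ 3)⁻¹))) := by
  apply le_antisymm
  · rw [tetra_formula hK hw hx0 h hv h1 h2 h3]
    exact volume_first_le hK hw hx0 (by norm_num : (0 : ℝ) < 1 / 9) (H0_lower hK hw h hv)
  · exact volume_tetra hK hc hw hx0 h hv h1 h2 h3

end

end Helper96.MEI
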