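import Pool.Agent.Helper96.MEI.Eq7
import Pool.Agent.Helper96.MEI.VolUp

/-!
# The volume of the Meissner bodies, and the case of equality as an equivalence
-/

namespace Helper96.MEI

open Set Metric MeasureTheory Helper80.CW Helper82.CW Helper14.CW Helper22.MEI
open scoped ContDiff Topology RealInnerProductSpace Real

section
variable {K : Set E3} {v : Fin 4 → E3} {x0 : E3} {b : OrthonormalBasis (Fin 3) ℝ E3}

/-- the chart of a body all of whose points satisfy the ball conditions -/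
theorem chart_f0 (hK : IsCompact K) (hw : Width1 K) (h : Gram4 v) (hb : Fr v b)
    (hin : ∀ y ∈ K, InM v (y - x0)) {p : ℝ × ℝ} (hp : p ∈ Helper22.MEI.SQ) :
    chP K x0 b p = f0 p := by
  obtain ⟨X, Y⟩ := p
  have hX : |X| ≤ s := (abs_lt.2 hp.1).le
  have hne := hw.nonempty
  apply le_antisymm
  · obtain ⟨g, hg, hgx⟩ := supp_attained hK hne (pt b X Y 1)
    have h1 := (sq_ineq (Y := Y) h hb (hin g hg) hX).1
    have h2 : ⟪g - x0, pt b X Y 1⟫ = ⟪b 0, g - x0⟫ * X + ⟪b 1, g - x0⟫ * Y + ⟪b 2, g - x0⟫ := by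
      rw [real_inner_comm, inner_pt]
      ring
    unfold chP H0
    simp only
    rw [hgx, ← inner_sub_left, h2]
    exact h1
  · obtain ⟨g, hg, hgx⟩ := supp_attained hK hne (-(pt b X Y 1))
    have h1 := (sq_ineq (Y := Y) h hb (hin g hg) hX).2
    have h2 : ⟪g - x0, pt b X Y 1⟫ = ⟪b 0, g - x0⟫ * X + ⟪b 1, g - x0⟫ * Y + ⟪b 2, g - x0⟫ := by
      rw [real_inner_comm, inner_pt]
      ring
    have h3 := chP_neg (b := b) hK hw x0 (X, Y)
    have h4 : H0 K x0 (-(pt b X Y 1)) = -⟪g - x0, pt b X Y 1⟫ := by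
      unfold H0
      rw [hgx, ← inner_sub_left, inner_neg_right]
    have h5 : Nn (X, Y) = NN (X, Y) := rfl
    simp only at h3
    rw [h4, h2, h5] at h3
    linarith

/-- the chart of the opposite frame -/
theorem chart_f1 (hK : IsCompact K) (hw : Width1 K) (h : Gram4 v) (hb : Fr v b)
    (hin : ∀ y ∈ K, InM (fun i => v ((Equiv.swap 0 2 * Equiv.swap 1 3 : Equiv.Perm (Fin 4)) i))
      (y - x0)) {p : ℝ × ℝ} (hp : p ∈ Helper22.MEI.SQ) : chP K x0 b p = f1 p := by
  obtain ⟨b', h0, h1, h2⟩ := (h.perm (Equiv.swap 0 2 * Equiv.swap 1 3)).frame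
  have p0 : (Equiv.swap 0 2 * Equiv.swap 1 3 : Equiv.Perm (Fin 4)) 0 = 2 := by decide
  have p1 : (Equiv.swap 0 2 * Equiv.swap 1 3 : Equiv.Perm (Fin 4)) 1 = 3 := by decide
  have p2 : (Equiv.swap 0 2 * Equiv.swap 1 3 : Equiv.Perm (Fin 4)) 2 = 0 := by decide
  have p3 : (Equiv.swap 0 2 * Equiv.swap 1 3 : Equiv.Perm (Fin 4)) 3 = 1 := by decide
  have hp' : ((-p.2, -p.1) : ℝ × ℝ) ∈ Helper22.MEI.SQ := by
    obtain ⟨⟨a1, a2⟩, ⟨a3, a4⟩⟩ := hp
    refine ⟨⟨?_, ?_⟩, ⟨?_, ?_⟩⟩ <;> simp only <;> linarith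
  have e5 := chart_f0 hK hw (h.perm _) ⟨h0, h1, h2⟩ hin hp'
  simp only [p0, p1, p2, p3] at h0 h1 h2
  have e2 : b' 2 = -(b 2) := by
    rw [h2, hb.e2, ← smul_neg]
    congr 1
    have := h.sum
    have e : v 2 + v 3 = (v 0 + v 1 + v 2 + v 3) - (v 0 + v 1) := by abel
    rw [e, this, zero_sub]
  have e3 : pt b' (-p.2) (-p.1) 1 = -(pt b p.1 p.2 1) := by
    unfold pt
    rw [h0, h1, e2, hb.e0, hb.e1]
    module
  have e4 := chP_neg (b := b) hK hw x0 p
  have e6 : chP K x0 b' (-p.2, -p.1) = H0 K x0 (-(pt b p.1 p.2 1)) := by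
    unfold chP
    simp only
    rw [e3]
  rw [e6, e4] at e5
  have n2 : f0 (-p.2, -p.1) = f0 (p.2, p.1) := by
    unfold f0 AA NN
    simp
  unfold f1
  have n1 : Nn p = NN p := rfl
  rw [n2, n1] at e5
  linarith

theorem SQ_open : IsOpen Helper22.MEI.SQ := isOpen_Ioo.prod isOpen_Ioo

theorem qd_congr {f g : ℝ × ℝ → ℝ} (hfg : ∀ p ∈ Helper22.MEI.SQ, f p = g p) :
    ∫ p in Helper22.MEI.SQ, Helper22.MEI.qd f p * (NN p ^ 3)⁻¹ =
      ∫ p in Helper22.MEI.SQ, Helper22.MEI.qd g p * (NN p ^ 3)⁻¹ := by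
  apply setIntegral_congr_fun SQ_open.measurableSet
  intro p hp
  have hev : f =ᶠ[𝓝 p] g := by
    filter_upwards [SQ_open.mem_nhds hp] with q hq using hfg q hq
  have hd := hev.fderiv_eq (𝕜 := ℝ)
  simp only
  unfold Helper22.MEI.qd Helper22.MEI.dX Helper22.MEI.dY
  rw [hd, hfg p hp]

theorem qd_f1 : ∫ p in Helper22.MEI.SQ, Helper22.MEI.qd f1 p * (NN p ^ 3)⁻¹ =
    ∫ p in Helper22.MEI.SQ, Helper22.MEI.qd f0 p * (NN p ^ 3)⁻¹ := by
  have A1 := Helper55.MEI.adm_f1
  have h1 := bridge A1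
  have h2 := (Helper55.MEI.st_D f1 A1).1
  have h3 : sw f1 = f0 := by
    funext p
    unfold sw f1
    simp only
    rw [NN_swap]
    ring
  rw [h3, add_comm (Vt f1) (Vt f0), sub_self, mul_zero] at h2
  linarith

/-- **The volume of a Meissner body.** -/
theorem volume_MB (hK : IsCompact K) (hc : Convex ℝ K) (hw : Width1 K) {a : Fin 4 → E3}
    (ha : ∀ i, a i ∈ K) (hd : ∀ i j, i ≠ j → dist (a i) (a j) = 1) (c : Fin 3 → Bool)
    (hMB : K = MB a c) :
    volume K = ENNReal.ofReal (Real.pi * (2 / 3 - √3 / 4 * Real.arccos (1 / 3))) := by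
  have h := gram_of_dist hd
  have hx0 : cen a ∈ K := by
    have e : cen a = (1 / 2 : ℝ) • ((1 / 2 : ℝ) • a 0 + (1 / 2 : ℝ) • a 1) +
        (1 / 2 : ℝ) • ((1 / 2 : ℝ) • a 2 + (1 / 2 : ℝ) • a 3) := by
      unfold cen
      module
    rw [e]
    have g1 := hc (ha 0) (ha 1) (by norm_num : (0 : ℝ) ≤ 1 / 2) (by norm_num : (0 : ℝ) ≤ 1 / 2)
      (by norm_num)
    have g2 := hc (ha 2) (ha 3) (by norm_num : (0 : ℝ) ≤ 1 / 2) (by norm_num : (0 : ℝ) ≤ 1 / 2)
      (by norm_num)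
    exact hc g1 g2 (by norm_num) (by norm_num) (by norm_num)
  have hv : ∀ i, cen a + al a i ∈ K := by
    intro i
    have : cen a + al a i = a i := by
      unfold al
      abel
    rw [this]
    exact ha i
  have hdist : ∀ (x : E3) (m : Fin 4), ‖(x - cen a) - al a m‖ = dist x (a m) := by
    intro x m
    rw [dist_eq_norm]
    congr 1
    unfold al
    abel
  have hdη : ∀ (η : E3) (m : Fin 4), dist (cen a + η) (a m) = ‖η - al a m‖ := by
    intro η m
    rw [dist_eq_norm]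
    congr 1
    unfold al
    abel
  have hball : ∀ y ∈ K, ∀ m, ‖(y - cen a) - al a m‖ ≤ 1 := by
    intro y hy m
    rw [hMB] at hy
    rw [hdist]
    exact mem_closedBall.1 (mem_iInter.1 hy.1 m)
  have harc : ∀ y ∈ K, ∀ η : E3, cen a + η ∈ sharp a c → ‖(y - cen a) - η‖ ≤ 1 := by
    intro y hy η hη
    rw [hMB] at hy
    have := mem_closedBall.1 (mem_iInter₂.1 hy.2 _ hη)
    rw [dist_eq_norm] at this
    have e : (y - cen a) - η = y - (cen a + η) := by abel
    rwa [e]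
  -- the ball conditions for a permutation
  have hin : ∀ σ : Equiv.Perm (Fin 4),
      (∀ η : E3, dist (cen a + η) (a (σ 2)) = 1 → dist (cen a + η) (a (σ 3)) = 1 →
        (∀ m, dist (cen a + η) (a m) ≤ 1) → cen a + η ∈ sharp a c) →
      ∀ y ∈ K, InM (fun i => al a (σ i)) (y - cen a) := by
    intro σ hσ y hy
    refine ⟨fun m => hball y hy _, ?_⟩
    intro η n2 n3 nm
    apply harc y hy
    apply hσ η
    · rw [hdη]
      exact n2
    · rw [hdη]
      exact n3
    · intro m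
      rw [hdη]
      have := nm (σ.symm m)
      simpa using this
  set σ : Equiv.Perm (Fin 4) := Equiv.swap 1 2 with hσ
  set τ : Equiv.Perm (Fin 4) := Equiv.swap 1 3 with hτ
  set ρ : Equiv.Perm (Fin 4) := Equiv.swap 0 2 * Equiv.swap 1 3 with hρ
  obtain ⟨b1, h10, h11, h12⟩ := h.frame
  obtain ⟨b2, h20, h21, h22⟩ := (h.perm σ).frame
  obtain ⟨b3, h30, h31, h32⟩ := (h.perm τ).frame
  have k1 : ∫ p in Helper22.MEI.SQ, Helper22.MEI.qd (chP K (cen a) b1) p * (NN p ^ 3)⁻¹ =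
      ∫ p in Helper22.MEI.SQ, Helper22.MEI.qd f0 p * (NN p ^ 3)⁻¹ := by
    by_cases hc0 : c 0 = true
    · apply qd_congr
      intro p hp
      apply chart_f0 hK hw h ⟨h10, h11, h12⟩ _ hp
      apply hin 1
      intro η n2 n3 nm
      left
      left
      rw [if_pos hc0]
      exact ⟨n2, n3, nm⟩
    · rw [← qd_f1]
      apply qd_congr
      intro p hp
      apply chart_f1 hK hw h ⟨h10, h11, h12⟩ _ hp
      apply hin ρ
      intro η n2 n3 nm
      have r2 : ρ 2 = 0 := by decide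
      have r3 : ρ 3 = 1 := by decide
      rw [r2] at n2
      rw [r3] at n3
      left
      left
      rw [if_neg hc0]
      exact ⟨n2, n3, nm⟩
  have k2 : ∫ p in Helper22.MEI.SQ, Helper22.MEI.qd (chP K (cen a) b2) p * (NN p ^ 3)⁻¹ =
      ∫ p in Helper22.MEI.SQ, Helper22.MEI.qd f0 p * (NN p ^ 3)⁻¹ := by
    by_cases hc1 : c 1 = true
    · apply qd_congr
      intro p hp
      apply chart_f0 hK hw (h.perm σ) ⟨h20, h21, h22⟩ _ hp
      apply hin σ
      intro η n2 n3 nm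
      have r2 : σ 2 = 1 := by decide
      have r3 : σ 3 = 3 := by decide
      rw [r2] at n2
      rw [r3] at n3
      left
      right
      rw [if_pos hc1]
      exact ⟨n2, n3, nm⟩
    · rw [← qd_f1]
      apply qd_congr
      intro p hp
      apply chart_f1 hK hw (h.perm σ) ⟨h20, h21, h22⟩ _ hp
      apply hin (σ * ρ)
      intro η n2 n3 nm
      have r2 : (σ * ρ) 2 = 0 := by decide
      have r3 : (σ * ρ) 3 = 2 := by decide
      rw [r2] at n2
      rw [r3] at n3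
      left
      right
      rw [if_neg hc1]
      exact ⟨n2, n3, nm⟩
  have k3 : ∫ p in Helper22.MEI.SQ, Helper22.MEI.qd (chP K (cen a) b3) p * (NN p ^ 3)⁻¹ =
      ∫ p in Helper22.MEI.SQ, Helper22.MEI.qd f0 p * (NN p ^ 3)⁻¹ := by
    by_cases hc2 : c 2 = true
    · apply qd_congr
      intro p hp
      apply chart_f0 hK hw (h.perm τ) ⟨h30, h31, h32⟩ _ hp
      apply hin τ
      intro η n2 n3 nm
      have r2 : τ 2 = 2 := by decide
      have r3 : τ 3 = 1 := by decide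
      rw [r2] at n2
      rw [r3] at n3
      right
      rw [if_pos hc2]
      exact ⟨n3, n2, nm⟩
    · rw [← qd_f1]
      apply qd_congr
      intro p hp
      apply chart_f1 hK hw (h.perm τ) ⟨h30, h31, h32⟩ _ hp
      apply hin (τ * ρ)
      intro η n2 n3 nm
      have r2 : (τ * ρ) 2 = 0 := by decide
      have r3 : (τ * ρ) 3 = 3 := by decide
      rw [r2] at n2
      rw [r3] at n3
      right
      rw [if_neg hc2]
      exact ⟨n2, n3, nm⟩
  have s0 : σ 0 = 0 := by decide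
  have s1 : σ 1 = 2 := by decide
  have s2 : σ 2 = 1 := by decide
  have s3 : σ 3 = 3 := by decide
  have t0 : τ 0 = 0 := by decide
  have t1 : τ 1 = 3 := by decide
  have t2 : τ 2 = 2 := by decide
  have t3 : τ 3 = 1 := by decide
  simp only [s0, s1, s2, s3, t0, t1, t2, t3] at h20 h21 h22 h30 h31 h32
  have hvol := volume_tetra_eq hK hc hw hx0 h hv ⟨h10, h11, h12⟩ ⟨h20, h21, h22⟩ ⟨h30, h31, h32⟩
  have hvol' : volume K = ENNReal.ofReal (Helper14.CW.CT + 1 / 2 * ((∫ p in Helper22.MEI.SQ,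
      Helper22.MEI.qd (chP K (cen a) b1) p * (NN p ^ 3)⁻¹) +
      (∫ p in Helper22.MEI.SQ, Helper22.MEI.qd (chP K (cen a) b2) p * (NN p ^ 3)⁻¹) +
      (∫ p in Helper22.MEI.SQ, Helper22.MEI.qd (chP K (cen a) b3) p * (NN p ^ 3)⁻¹))) := hvol
  have hL := L3_holds
  unfold L3 at hL
  rw [hvol', k1, k2, k3]
  congr 1
  linarith

end

/-- **Bodies of constant width one with the vertices of a regular unit tetrahedron**: the volume is
at least the volume of the Meissner bodies, with equality if and only if the body is one of the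
eight Meissner bodies of the tetrahedron. -/
theorem class_T_iff {K : Set (EuclideanSpace ℝ (Fin 3))} (hcompact : IsCompact K)
    (hconvex : Convex ℝ K)
    (hwidth : ∀ u : EuclideanSpace ℝ (Fin 3), ‖u‖ = 1 →
      sSup ((fun x => inner ℝ x u) '' K) - sInf ((fun x => inner ℝ x u) '' K) = 1)
    {a : Fin 4 → EuclideanSpace ℝ (Fin 3)} (ha : ∀ i, a i ∈ K)
    (hd : ∀ i j, i ≠ j → dist (a i) (a j) = 1) :
    ENNReal.ofReal (Real.pi * (2 / 3 - Real.sqrt 3 / 4 * Real.arccos (1 / 3))) ≤ volume K ∧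
      (volume K = ENNReal.ofReal (Real.pi * (2 / 3 - Real.sqrt 3 / 4 * Real.arccos (1 / 3))) ↔
        ∃ c : Fin 3 → Bool, K = MB a c) := by
  obtain ⟨h1, h2⟩ := class_T_equality hcompact hconvex hwidth ha hd
  exact ⟨h1, h2, fun ⟨c, hc⟩ => volume_MB hcompact hconvex hwidth ha hd c hc⟩

end Helper96.MEI
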