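import Mathlib

/-!
# Equality of weighted integrals: from continuous test functions to bounded measurable ones
-/

namespace Helper96.MEI

open MeasureTheory Set

/-- an integral identity which holds for all continuous test functions holds for all bounded
measurable ones -/
theorem ext_meas {X Y : Type*} [MeasurableSpace X] [MeasurableSpace Y] {α : Measure X}
    [IsFiniteMeasure α] {β : Measure Y} [IsFiniteMeasure β] {F : X → ℝ × ℝ} (hF : Measurable F)
    {G : Y → ℝ × ℝ} (hG : Measurable G) {w : X → ℝ} (hw : Measurable w) {W : ℝ} (hW0 : 0 ≤ W)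
    (hwb : ∀ᵐ x ∂α, |w x| ≤ W) (c : ℝ)
    (h : ∀ g : ℝ × ℝ → ℝ, Continuous g → (∃ C, ∀ t, |g t| ≤ C) →
      ∫ x, w x * g (F x) ∂α = c * ∫ y, g (G y) ∂β)
    {g : ℝ × ℝ → ℝ} (hg : Measurable g) {C : ℝ} (hC : ∀ t, |g t| ≤ C) :
    ∫ x, w x * g (F x) ∂α = c * ∫ y, g (G y) ∂β := by
  have fA : IsFiniteMeasure (α.map F) := Measure.isFiniteMeasure_map α F
  have fB : IsFiniteMeasure (β.map G) := Measure.isFiniteMeasure_map β G
  set μ : Measure (ℝ × ℝ) := α.map F + β.map G with hμ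
  have hgb : ∀ (ν : Measure (ℝ × ℝ)) [IsFiniteMeasure ν], Integrable g ν := fun ν _ =>
    Integrable.of_bound hg.aestronglyMeasurable C (Filter.Eventually.of_forall fun t => by
      rw [Real.norm_eq_abs]; exact hC t)
  have key : ∀ ε : ℝ, 0 < ε →
      |(∫ x, w x * g (F x) ∂α) - c * ∫ y, g (G y) ∂β| ≤ (W + |c|) * ε := by
    intro ε hε
    obtain ⟨g', hs, hi, hc, hint⟩ := (hgb μ).exists_hasCompactSupport_integral_sub_le hε
    obtain ⟨C', hC'⟩ := hs.exists_bound_of_continuous hc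
    have hCa : ∀ t, |g' t| ≤ C' := fun t => by rw [← Real.norm_eq_abs]; exact hC' t
    have h0 := h g' hc ⟨C', hCa⟩
    have hdm : Measurable (fun t => ‖g t - g' t‖) := (hg.sub hc.measurable).norm
    have hdb : ∀ (ν : Measure (ℝ × ℝ)) [IsFiniteMeasure ν],
        Integrable (fun t => ‖g t - g' t‖) ν := fun ν _ =>
      Integrable.of_bound hdm.aestronglyMeasurable (C + C')
        (Filter.Eventually.of_forall fun t => by
          rw [norm_norm, Real.norm_eq_abs]
          exact (abs_sub _ _).trans (add_le_add (hC t) (hCa t)))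
    have hsum : (∫ t, ‖g t - g' t‖ ∂(α.map F)) + ∫ t, ‖g t - g' t‖ ∂(β.map G) ≤ ε := by
      rw [← integral_add_measure (hdb _) (hdb _)]
      exact hi
    have n1 : 0 ≤ ∫ t, ‖g t - g' t‖ ∂(α.map F) := integral_nonneg fun t => norm_nonneg _
    have n2 : 0 ≤ ∫ t, ‖g t - g' t‖ ∂(β.map G) := integral_nonneg fun t => norm_nonneg _
    have m1 : ∫ t, ‖g t - g' t‖ ∂(α.map F) = ∫ x, ‖g (F x) - g' (F x)‖ ∂α :=
      integral_map hF.aemeasurable hdm.aestronglyMeasurable
    have m2 : ∫ t, ‖g t - g' t‖ ∂(β.map G) = ∫ y, ‖g (G y) - g' (G y)‖ ∂β :=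
      integral_map hG.aemeasurable hdm.aestronglyMeasurable
    have iA : ∀ {k : ℝ × ℝ → ℝ}, Measurable k → (∃ D, ∀ t, |k t| ≤ D) →
        Integrable (fun x => w x * k (F x)) α := by
      rintro k hk ⟨D, hD⟩
      refine Integrable.of_bound (hw.mul (hk.comp hF)).aestronglyMeasurable (W * D) ?_
      filter_upwards [hwb] with x hx
      rw [Real.norm_eq_abs, abs_mul]
      exact mul_le_mul hx (hD _) (abs_nonneg _) hW0
    have iB : ∀ {k : ℝ × ℝ → ℝ}, Measurable k → (∃ D, ∀ t, |k t| ≤ D) →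
        Integrable (fun y => k (G y)) β := by
      rintro k hk ⟨D, hD⟩
      refine Integrable.of_bound (hk.comp hG).aestronglyMeasurable D
        (Filter.Eventually.of_forall fun y => ?_)
      rw [Real.norm_eq_abs]
      exact hD _
    have d1 : |(∫ x, w x * g (F x) ∂α) - ∫ x, w x * g' (F x) ∂α| ≤
        W * ∫ x, ‖g (F x) - g' (F x)‖ ∂α := by
      rw [← integral_sub (iA hg ⟨C, hC⟩) (iA hc.measurable ⟨C', hCa⟩), ← Real.norm_eq_abs,
        ← integral_const_mul]
      refine norm_integral_le_of_norm_le ?_ ?_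
      · have e := (hdb (α.map F)).comp_measurable hF
        exact e.const_mul W
      · filter_upwards [hwb] with x hx
        rw [← mul_sub, norm_mul, Real.norm_eq_abs (w x)]
        exact mul_le_mul_of_nonneg_right hx (norm_nonneg _)
    have d2 : |(∫ y, g (G y) ∂β) - ∫ y, g' (G y) ∂β| ≤ ∫ y, ‖g (G y) - g' (G y)‖ ∂β := by
      rw [← integral_sub (iB hg ⟨C, hC⟩) (iB hc.measurable ⟨C', hCa⟩), ← Real.norm_eq_abs]
      exact norm_integral_le_integral_norm _
    have e3 : (∫ x, w x * g (F x) ∂α) - c * ∫ y, g (G y) ∂β =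
        ((∫ x, w x * g (F x) ∂α) - ∫ x, w x * g' (F x) ∂α) -
          c * ((∫ y, g (G y) ∂β) - ∫ y, g' (G y) ∂β) := by
      rw [h0]; ring
    rw [e3]
    rw [m1] at hsum n1
    rw [m2] at hsum n2
    have d3 : |c * ((∫ y, g (G y) ∂β) - ∫ y, g' (G y) ∂β)| ≤
        |c| * ∫ y, ‖g (G y) - g' (G y)‖ ∂β := by
      rw [abs_mul]
      exact mul_le_mul_of_nonneg_left d2 (abs_nonneg _)
    have d4 := abs_sub ((∫ x, w x * g (F x) ∂α) - ∫ x, w x * g' (F x) ∂α)
      (c * ((∫ y, g (G y) ∂β) - ∫ y, g' (G y) ∂β))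
    have k1 : W * ∫ x, ‖g (F x) - g' (F x)‖ ∂α ≤ W * ε :=
      mul_le_mul_of_nonneg_left (by linarith) hW0
    have k2 : |c| * ∫ y, ‖g (G y) - g' (G y)‖ ∂β ≤ |c| * ε :=
      mul_le_mul_of_nonneg_left (by linarith) (abs_nonneg _)
    linarith
  have h0 : |(∫ x, w x * g (F x) ∂α) - c * ∫ y, g (G y) ∂β| ≤ 0 := by
    refine le_of_forall_pos_le_add fun δ hδ => ?_
    have hc0 := abs_nonneg c
    have h1 := key (δ / (W + |c| + 1)) (by positivity)
    have h2 : (W + |c|) * (δ / (W + |c| + 1)) ≤ δ := by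
      rw [mul_div_assoc', div_le_iff₀ (by positivity)]
      nlinarith
    linarith
  exact sub_eq_zero.1 (abs_eq_zero.1 (le_antisymm h0 (abs_nonneg _)))

end Helper96.MEI
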