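import Pool.Agent.Helper33.MEI.FacePM
import Pool.Agent.Helper96.MEI.ExtM

/-!
# Project MEI (M2): the reduction of a face cell for bounded measurable lower bounds

Same statements as `Helper33.MEI.face_red`, `face_red_pt`, `face_pm`, but `Lam` is only required to
be measurable and bounded on the simplex, so it may be defined by cases.
-/

namespace Helper96.MEI

open Set Metric MeasureTheory Real Helper80.CW Helper82.CW Helper14.CW Helper93.MEI Helper22.Sig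
open Helper22.Wedge Helper14.MEI2 Pool.Agent.Helper73.MEI Helper33.MEI
open scoped RealInnerProductSpace ENNReal

variable {a : Fin 4 → E3}

/-- **reduction of a face cell** (abstract form: `FF1` and `RAD` are helper14's flux identities) -/
theorem face_red_core_m {σ : Measure (E3 × E3)} [IsFiniteMeasure σ] {K : Set E3} (hK : IsCompact K)
    (ha : ∀ i j, i ≠ j → dist (a i) (a j) = 1)
    (hσ : ∀ᵐ z ∂σ, z.1 ∈ K ∧ z.2 ∈ K) {A : ℝ} (hA : 0 ≤ A) {chi : ℝ → ℝ} (hcm : Measurable chi)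
    (hc0 : ∀ l, 0 ≤ chi l) (hc1 : ∀ l, chi l ≤ 1) (hcz : ∀ l, l ≤ 1 / 2 → chi l = 0)
    (hco : ∀ l, 1 ≤ l → chi l = 1)
    (FF1 : ∫ z in {z : E3 × E3 | z.1 ∈ Wc a 0},
      (1 - ((1 - bar a 0 z.1)⁻¹) ^ 3) * ⟪z.1 - a 0, z.1 - z.2⟫ ∂σ = 3 * volume.real (K ∩ Wc a 0))
    (RAD : ∀ h : ℝ × ℝ → ℝ, Continuous h → ∫ z in {z : E3 × E3 | z.1 ∈ TC a 0},
      chi (1 - bar a 0 z.1) * ((1 - bar a 0 z.1)⁻¹) ^ 3 * h (tx a z.1) * ⟪z.1 - a 0, z.1 - z.2⟫ ∂σ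
        = 3 * ∫ x in T0 a, h (tx a x))
    {Lam : ℝ × ℝ → ℝ} (hL : Measurable Lam) {CL : ℝ} (hLb : ∀ t ∈ Dl, |Lam t| ≤ CL)
    (hW : ∀ᵐ z ∂σ, z.1 ∈ Wc a 0 → Lam (tx a z.1) * ⟪z.1 - a 0, z.1 - z.2⟫ ≤
      A * (‖z.1 - a 0‖ ^ 3 - 1) / 3 * ⟪z.1 - a 0, z.1 - z.2⟫ +
        ‖z.1 - a 0‖ ^ 3 * (⟪z.1 - a 0, z.1 - z.2⟫ - 1) / 4)
    (hT : ∀ᵐ z ∂σ, z.1 ∈ TC a 0 → 1 / 2 < 1 - bar a 0 z.1 → 0 ≤ bar a 0 z.1 →
      0 ≤ ⟪z.1 - a 0, z.1 - z.2⟫ ∧ Lam (tx a z.1) ≤ A * (‖z.1 - a 0‖ ^ 3 - 1) / 3) :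
    (√2)⁻¹ * ∫ t in Dl, Lam t * M3 t ≤ A * (volume.real (K ∩ Wc a 0) - (Om / 3 - √2 / 12)) +
      ∫ z in {z : E3 × E3 | z.1 ∈ Wc a 0}, (⟪z.1 - a 0, z.1 - z.2⟫ - 1) / 4 ∂σ := by
  classical
  set h : ℝ × ℝ → ℝ := fun t => Lam t * M3 t + A * (M3 t - 1) / 3 with hh
  have hhm : Measurable h := (hL.mul M3_cont.measurable).add ((measurable_const.mul
    (M3_cont.measurable.sub measurable_const)).div_const 3)
  obtain ⟨C3, hC30, hC3⟩ := bd_Dl M3_cont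
  have hCL0 : 0 ≤ CL := (abs_nonneg _).trans (hLb (1 / 3, 1 / 3)
    ⟨by norm_num, by norm_num, by norm_num⟩)
  obtain ⟨C, hC0, hC⟩ : ∃ C, 0 ≤ C ∧ ∀ t ∈ Dl, |h t| ≤ C := by
    refine ⟨CL * C3 + A * (C3 + 1) / 3, by positivity, fun t ht => ?_⟩
    have h1 := hLb t ht
    have h2 := hC3 t ht
    have h3 : |Lam t * M3 t| ≤ CL * C3 := by
      rw [abs_mul]
      exact mul_le_mul h1 h2 (abs_nonneg _) hCL0
    have h4 : |A * (M3 t - 1) / 3| ≤ A * (C3 + 1) / 3 := by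
      rw [abs_div, abs_mul, abs_of_nonneg hA, abs_of_pos (by norm_num : (0 : ℝ) < 3)]
      refine div_le_div_of_nonneg_right (mul_le_mul_of_nonneg_left ?_ hA) (by norm_num)
      have h5 := abs_sub (M3 t) (1 : ℝ)
      rw [abs_one] at h5
      linarith
    exact (abs_add_le _ _).trans (add_le_add h3 h4)
  have hSc : Continuous (fun z : E3 × E3 => ⟪z.1 - a 0, z.1 - z.2⟫) := by fun_prop
  obtain ⟨B, hB⟩ := (hK.prod hK).bddAbove_image (hSc.abs).continuousOn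
  have hB' : ∀ᵐ z ∂σ, |⟪z.1 - a 0, z.1 - z.2⟫| ≤ B := by
    filter_upwards [hσ] with z hz
    exact hB ⟨z, ⟨hz.1, hz.2⟩, rfl⟩
  have mTC : MeasurableSet {z : E3 × E3 | z.1 ∈ TC a 0} :=
    measurable_fst (TC_open ha 0).measurableSet
  have mWc : MeasurableSet {z : E3 × E3 | z.1 ∈ Wc a 0} :=
    measurable_fst (Wc_open ha 0).measurableSet
  have mlam : Measurable (fun z : E3 × E3 => 1 - bar a 0 z.1) :=
    measurable_const.sub ((bar_cont a 0).measurable.comp measurable_fst)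
  have mtx : Measurable (fun z : E3 × E3 => tx a z.1) := (tx_meas a).comp measurable_fst
  -- the two integrands
  set g1 : E3 × E3 → ℝ := fun z => chi (1 - bar a 0 z.1) * ((1 - bar a 0 z.1)⁻¹) ^ 3 *
    h (tx a z.1) * ⟪z.1 - a 0, z.1 - z.2⟫ with hg1
  set g2 : E3 × E3 → ℝ := fun z => A * (1 - ((1 - bar a 0 z.1)⁻¹) ^ 3) / 3 *
    ⟪z.1 - a 0, z.1 - z.2⟫ + (⟪z.1 - a 0, z.1 - z.2⟫ - 1) / 4 with hg2
  have RADm : ∫ z in {z : E3 × E3 | z.1 ∈ TC a 0}, g1 z ∂σ = 3 * ∫ x in T0 a, h (tx a x) := by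
    have hT0m : MeasurableSet (T0 a) := (T0_open a).measurableSet
    have hsubT : T0 a ⊆ TC a 0 := by
      rw [TC_bar ha]
      intro x hx k _
      exact hx k
    have hT0f : volume (T0 a) ≠ ⊤ := by
      have hsub : T0 a ⊆ TT a := by
        intro x hx k
        have := hx k
        unfold bar at this
        linarith
      refine ne_top_of_le_ne_top ?_ (measure_mono hsub)
      rw [vol_TT' ha]
      exact ENNReal.ofReal_ne_top
    have fT : IsFiniteMeasure (volume.restrict (T0 a)) := ⟨by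
      rw [Measure.restrict_apply_univ]; exact hT0f.lt_top⟩
    set w : E3 × E3 → ℝ := fun z => chi (1 - bar a 0 z.1) * ((1 - bar a 0 z.1)⁻¹) ^ 3 *
      ⟪z.1 - a 0, z.1 - z.2⟫ with hw
    have hwm : Measurable w := ((hcm.comp mlam).mul (mlam.inv.pow_const 3)).mul hSc.measurable
    have hwb : ∀ᵐ z ∂(σ.restrict {z : E3 × E3 | z.1 ∈ TC a 0}), |w z| ≤ 8 * |B| := by
      filter_upwards [ae_restrict_mem mTC, ae_restrict_of_ae hB'] with z hz hzB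
      have h2 : |chi (1 - bar a 0 z.1) * ((1 - bar a 0 z.1)⁻¹) ^ 3| ≤ 8 := by
        rcases le_or_gt (1 - bar a 0 z.1) (1 / 2) with hl | hl
        · rw [hcz _ hl, zero_mul, abs_zero]; norm_num
        · have h3 : (1 - bar a 0 z.1)⁻¹ ≤ 2 := by
            rw [inv_le_comm₀ (by linarith) (by norm_num)]; linarith
          have h4 : 0 ≤ (1 - bar a 0 z.1)⁻¹ := by
            apply inv_nonneg.2; linarith
          have h5 : ((1 - bar a 0 z.1)⁻¹) ^ 3 ≤ 2 ^ 3 := pow_le_pow_left₀ h4 h3 3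
          rw [abs_mul, abs_of_nonneg (hc0 _), abs_of_nonneg (pow_nonneg h4 3)]
          calc chi (1 - bar a 0 z.1) * ((1 - bar a 0 z.1)⁻¹) ^ 3 ≤ 1 * 2 ^ 3 :=
                mul_le_mul (hc1 _) h5 (pow_nonneg h4 3) zero_le_one
            _ = 8 := by norm_num
      show |chi (1 - bar a 0 z.1) * ((1 - bar a 0 z.1)⁻¹) ^ 3 *
        ⟪z.1 - a 0, z.1 - z.2⟫| ≤ 8 * |B|
      rw [abs_mul]
      exact mul_le_mul h2 (hzB.trans (le_abs_self B)) (abs_nonneg _) (by norm_num)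
    have hq : Measurable (Dl.indicator h) := hhm.indicator Dl_meas
    have hqb : ∀ t, |Dl.indicator h t| ≤ C := by
      intro t
      by_cases ht : t ∈ Dl
      · rw [indicator_of_mem ht]; exact hC t ht
      · rw [indicator_of_notMem ht, abs_zero]; exact hC0
    have h1 := Helper96.MEI.ext_meas (α := σ.restrict {z : E3 × E3 | z.1 ∈ TC a 0})
      (β := volume.restrict (T0 a)) (F := fun z => tx a z.1) mtx (G := tx a) (tx_meas a)
      hwm (W := 8 * |B|) (by positivity) hwb 3 (fun g hg _ => by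
        have h2 := RAD g hg
        rw [← h2]
        refine integral_congr_ae (Filter.Eventually.of_forall fun z => ?_)
        show chi (1 - bar a 0 z.1) * ((1 - bar a 0 z.1)⁻¹) ^ 3 *
          ⟪z.1 - a 0, z.1 - z.2⟫ * g (tx a z.1) = chi (1 - bar a 0 z.1) *
            ((1 - bar a 0 z.1)⁻¹) ^ 3 * g (tx a z.1) * ⟪z.1 - a 0, z.1 - z.2⟫
        ring) hq hqb
    have e1 : ∫ x in T0 a, Dl.indicator h (tx a x) = ∫ x in T0 a, h (tx a x) := by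
      refine setIntegral_congr_fun hT0m fun x hx => ?_
      exact indicator_of_mem (tx_mem ha (hsubT hx)) h
    rw [e1] at h1
    rw [← h1]
    refine setIntegral_congr_fun mTC fun z hz => ?_
    show chi (1 - bar a 0 z.1) * ((1 - bar a 0 z.1)⁻¹) ^ 3 * h (tx a z.1) *
        ⟪z.1 - a 0, z.1 - z.2⟫ = chi (1 - bar a 0 z.1) * ((1 - bar a 0 z.1)⁻¹) ^ 3 *
          ⟪z.1 - a 0, z.1 - z.2⟫ * Dl.indicator h (tx a z.1)
    rw [indicator_of_mem (tx_mem ha hz)]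
    ring
  have i1 : IntegrableOn g1 {z : E3 × E3 | z.1 ∈ TC a 0} σ := by
    refine Measure.integrableOn_of_bounded (M := 8 * C * B) (measure_ne_top σ _) ?_ ?_
    · exact ((((hcm.comp mlam).mul (mlam.inv.pow_const 3)).mul
        (hhm.comp mtx)).mul hSc.measurable).aestronglyMeasurable
    · filter_upwards [ae_restrict_mem mTC, ae_restrict_of_ae hB'] with z hz hzB
      have h1 := hC _ (tx_mem ha hz)
      have h2 : |chi (1 - bar a 0 z.1) * ((1 - bar a 0 z.1)⁻¹) ^ 3| ≤ 8 := by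
        rcases le_or_gt (1 - bar a 0 z.1) (1 / 2) with hl | hl
        · rw [hcz _ hl, zero_mul, abs_zero]; norm_num
        · have h3 : (1 - bar a 0 z.1)⁻¹ ≤ 2 := by
            rw [inv_le_comm₀ (by linarith) (by norm_num)]; linarith
          have h4 : 0 ≤ (1 - bar a 0 z.1)⁻¹ := by
            apply inv_nonneg.2; linarith
          have h5 : ((1 - bar a 0 z.1)⁻¹) ^ 3 ≤ 2 ^ 3 := pow_le_pow_left₀ h4 h3 3
          rw [abs_mul, abs_of_nonneg (hc0 _), abs_of_nonneg (pow_nonneg h4 3)]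
          calc chi (1 - bar a 0 z.1) * ((1 - bar a 0 z.1)⁻¹) ^ 3 ≤ 1 * 2 ^ 3 :=
                mul_le_mul (hc1 _) h5 (pow_nonneg h4 3) zero_le_one
            _ = 8 := by norm_num
      rw [norm_eq_abs]
      show |chi (1 - bar a 0 z.1) * ((1 - bar a 0 z.1)⁻¹) ^ 3 * h (tx a z.1) *
        ⟪z.1 - a 0, z.1 - z.2⟫| ≤ 8 * C * B
      rw [abs_mul, abs_mul]
      exact mul_le_mul (mul_le_mul h2 h1 (abs_nonneg _) (by norm_num)) hzB (abs_nonneg _)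
        (by positivity)
  have hlW : ∀ z : E3 × E3, z.1 ∈ Wc a 0 → 1 < 1 - bar a 0 z.1 := by
    intro z hz
    have := hz.1
    linarith
  have i2a : IntegrableOn (fun z : E3 × E3 => (1 - ((1 - bar a 0 z.1)⁻¹) ^ 3) *
      ⟪z.1 - a 0, z.1 - z.2⟫) {z : E3 × E3 | z.1 ∈ Wc a 0} σ := by
    refine Measure.integrableOn_of_bounded (M := 1 * B) (measure_ne_top σ _) ?_ ?_
    · exact ((measurable_const.sub (mlam.inv.pow_const 3)).mul hSc.measurable).aestronglyMeasurable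
    · filter_upwards [ae_restrict_mem mWc, ae_restrict_of_ae hB'] with z hz hzB
      have hl := hlW z hz
      have h3 : (1 - bar a 0 z.1)⁻¹ ≤ 1 := by
        rw [inv_le_comm₀ (by linarith) (by norm_num)]; linarith
      have h4 : 0 ≤ (1 - bar a 0 z.1)⁻¹ := by
        apply inv_nonneg.2; linarith
      have h5 : ((1 - bar a 0 z.1)⁻¹) ^ 3 ≤ 1 ^ 3 := pow_le_pow_left₀ h4 h3 3
      have h6 := pow_nonneg h4 3
      rw [norm_mul]
      refine mul_le_mul ?_ hzB (norm_nonneg _) zero_le_one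
      rw [norm_eq_abs, abs_le]
      constructor <;> linarith
  have i2b : IntegrableOn (fun z : E3 × E3 => (⟪z.1 - a 0, z.1 - z.2⟫ - 1) / 4)
      {z : E3 × E3 | z.1 ∈ Wc a 0} σ := by
    refine Measure.integrableOn_of_bounded (M := (B + 1) / 4) (measure_ne_top σ _) ?_ ?_
    · exact ((hSc.measurable.sub measurable_const).div_const 4).aestronglyMeasurable
    · filter_upwards [ae_restrict_of_ae hB'] with z hzB
      rw [norm_eq_abs, abs_div, abs_of_pos (by norm_num : (0 : ℝ) < 4)]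
      apply div_le_div_of_nonneg_right _ (by norm_num)
      have := abs_sub (⟪z.1 - a 0, z.1 - z.2⟫) (1 : ℝ)
      rw [abs_one] at this
      linarith
  have i2 : IntegrableOn g2 {z : E3 × E3 | z.1 ∈ Wc a 0} σ := by
    have h1 : Integrable ((fun z : E3 × E3 => A / 3 * ((1 - ((1 - bar a 0 z.1)⁻¹) ^ 3) *
      ⟪z.1 - a 0, z.1 - z.2⟫)) + fun z : E3 × E3 => (⟪z.1 - a 0, z.1 - z.2⟫ - 1) / 4)
      (σ.restrict {z : E3 × E3 | z.1 ∈ Wc a 0}) := (i2a.const_mul (A / 3)).add i2b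
    refine Integrable.congr h1 (Filter.Eventually.of_forall fun z => ?_)
    show A / 3 * ((1 - ((1 - bar a 0 z.1)⁻¹) ^ 3) * ⟪z.1 - a 0, z.1 - z.2⟫) +
      (⟪z.1 - a 0, z.1 - z.2⟫ - 1) / 4 = A * (1 - ((1 - bar a 0 z.1)⁻¹) ^ 3) / 3 *
    ⟪z.1 - a 0, z.1 - z.2⟫ + (⟪z.1 - a 0, z.1 - z.2⟫ - 1) / 4
    ring
  have hsub : {z : E3 × E3 | z.1 ∈ Wc a 0} ⊆ {z : E3 × E3 | z.1 ∈ TC a 0} := by
    intro z hz
    show z.1 ∈ TC a 0
    rw [TC_bar ha]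
    exact hz.2
  -- the pointwise comparison
  have hcomp : ∀ᵐ z ∂(σ.restrict {z : E3 × E3 | z.1 ∈ TC a 0}),
      g1 z ≤ {z : E3 × E3 | z.1 ∈ Wc a 0}.indicator g2 z := by
    filter_upwards [ae_restrict_mem mTC, ae_restrict_of_ae hW, ae_restrict_of_ae hT]
      with z hz hzW hzT
    have hlam := lam_pos ha hz
    have hs : 0 < √(mt (tx a z.1)) := Real.sqrt_pos.2 mt_pos
    have hr : ‖z.1 - a 0‖ = (1 - bar a 0 z.1) * √(mt (tx a z.1)) := by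
      have h1 := dist_mt ha hlam.ne'
      have h2 : ((1 - bar a 0 z.1) * √(mt (tx a z.1))) ^ 2 = ‖z.1 - a 0‖ ^ 2 := by
        rw [mul_pow, Real.sq_sqrt mt_pos.le, h1]
      exact ((sq_eq_sq₀ (norm_nonneg _) (by positivity)).1 h2.symm)
    by_cases hc : z.1 ∈ Wc a 0
    · rw [indicator_of_mem (show z ∈ {z : E3 × E3 | z.1 ∈ Wc a 0} from hc)]
      have h1 := hzW hc
      rw [hr] at h1
      have h2 := dens_alg hlam hs h1
      show chi (1 - bar a 0 z.1) * ((1 - bar a 0 z.1)⁻¹) ^ 3 * h (tx a z.1) *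
        ⟪z.1 - a 0, z.1 - z.2⟫ ≤ A * (1 - ((1 - bar a 0 z.1)⁻¹) ^ 3) / 3 *
        ⟪z.1 - a 0, z.1 - z.2⟫ + (⟪z.1 - a 0, z.1 - z.2⟫ - 1) / 4
      rw [hco _ (hlW z hc).le, one_mul]
      exact h2
    · rw [indicator_of_notMem (show z ∉ {z : E3 × E3 | z.1 ∈ Wc a 0} from hc)]
      have hb : 0 ≤ bar a 0 z.1 := by
        by_contra hneg
        push Not at hneg
        have hz' : z.1 ∈ TC a 0 := hz
        rw [TC_bar ha] at hz'
        exact hc ⟨hneg, hz'⟩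
      show chi (1 - bar a 0 z.1) * ((1 - bar a 0 z.1)⁻¹) ^ 3 * h (tx a z.1) *
        ⟪z.1 - a 0, z.1 - z.2⟫ ≤ 0
      rcases le_or_gt (1 - bar a 0 z.1) (1 / 2) with hl | hl
      · rw [hcz _ hl]; simp
      · obtain ⟨h1, h2⟩ := hzT hz hl hb
        rw [hr] at h2
        have h3 := dens_alg' hA hlam (by linarith) hs h2
        have h4 : h (tx a z.1) ≤ 0 := h3
        refine mul_nonpos_of_nonpos_of_nonneg ?_ h1
        refine mul_nonpos_of_nonneg_of_nonpos ?_ h4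
        exact mul_nonneg (hc0 _) (pow_nonneg (inv_nonneg.2 hlam.le) 3)
  have hle : ∫ z in {z : E3 × E3 | z.1 ∈ TC a 0}, g1 z ∂σ ≤
      ∫ z in {z : E3 × E3 | z.1 ∈ Wc a 0}, g2 z ∂σ := by
    have e1 : ∫ z in {z : E3 × E3 | z.1 ∈ Wc a 0}, g2 z ∂σ =
        ∫ z in {z : E3 × E3 | z.1 ∈ TC a 0}, {z : E3 × E3 | z.1 ∈ Wc a 0}.indicator g2 z ∂σ := by
      rw [setIntegral_indicator mWc, inter_eq_self_of_subset_right hsub]
    rw [e1]
    refine integral_mono_ae i1 ?_ hcomp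
    exact ((integrable_indicator_iff mWc).2 i2).integrableOn
  have e3 : ∫ z in {z : E3 × E3 | z.1 ∈ TC a 0}, g1 z ∂σ =
      ((√2)⁻¹ * ∫ t in Dl, Lam t * M3 t) + A * ((√2)⁻¹ * ∫ t in Dl, (M3 t - 1) / 3) := by
    have h1 := RADm
    rw [int_T0 ha hhm hC] at h1
    have h2 : ∫ t in Dl, h t = (∫ t in Dl, Lam t * M3 t) + A * ∫ t in Dl, (M3 t - 1) / 3 := by
      have k1 : IntegrableOn (fun t => Lam t * M3 t) Dl := by
        refine Measure.integrableOn_of_bounded (M := CL * C3) Dl_fin.ne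
          (hL.mul M3_cont.measurable).aestronglyMeasurable ?_
        filter_upwards [ae_restrict_mem Dl_meas] with t ht
        rw [norm_mul]
        exact mul_le_mul (hLb t ht) (hC3 t ht) (norm_nonneg _) hCL0
      have k2 : IntegrableOn (fun t => A * ((M3 t - 1) / 3)) Dl :=
        int_Dl_on (continuous_const.mul ((M3_cont.sub continuous_const).div_const 3))
      rw [← integral_const_mul, ← integral_add k1 k2]
      refine integral_congr_ae (Filter.Eventually.of_forall fun t => ?_)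
      show Lam t * M3 t + A * (M3 t - 1) / 3 = Lam t * M3 t + A * ((M3 t - 1) / 3)
      ring
    rw [h2] at h1
    rw [h1]
    ring
  have e4 : ∫ z in {z : E3 × E3 | z.1 ∈ Wc a 0}, g2 z ∂σ = A * volume.real (K ∩ Wc a 0) +
      ∫ z in {z : E3 × E3 | z.1 ∈ Wc a 0}, (⟪z.1 - a 0, z.1 - z.2⟫ - 1) / 4 ∂σ := by
    have h1 : ∫ z in {z : E3 × E3 | z.1 ∈ Wc a 0}, g2 z ∂σ =
        ∫ z in {z : E3 × E3 | z.1 ∈ Wc a 0}, (A / 3 * ((1 - ((1 - bar a 0 z.1)⁻¹) ^ 3) *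
          ⟪z.1 - a 0, z.1 - z.2⟫) + (⟪z.1 - a 0, z.1 - z.2⟫ - 1) / 4) ∂σ := by
      refine integral_congr_ae (Filter.Eventually.of_forall fun z => ?_)
      show A * (1 - ((1 - bar a 0 z.1)⁻¹) ^ 3) / 3 *
        ⟪z.1 - a 0, z.1 - z.2⟫ + (⟪z.1 - a 0, z.1 - z.2⟫ - 1) / 4 =
        A / 3 * ((1 - ((1 - bar a 0 z.1)⁻¹) ^ 3) * ⟪z.1 - a 0, z.1 - z.2⟫) +
          (⟪z.1 - a 0, z.1 - z.2⟫ - 1) / 4
      ring
    rw [h1, integral_add (i2a.const_mul (A / 3)) i2b, integral_const_mul, FF1]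
    ring
  have e5 : Om / 3 - √2 / 12 = (√2)⁻¹ * ∫ t in Dl, (M3 t - 1) / 3 := cOm ha
  rw [e3, e4] at hle
  rw [e5]
  linarith

variable {σ : Measure (E3 × E3)} [IsFiniteMeasure σ] {K : Set E3}

/-- **reduction of a face cell, exact density** -/
theorem face_red_m (hK : IsCompact K) (ha : ∀ i j, i ≠ j → dist (a i) (a j) = 1)
    (hσ : ∀ᵐ z ∂σ, z.1 ∈ K ∧ z.2 ∈ K) {n : ℕ∞} (hn : 1 ≤ n)
    (hU : ∀ G : E3 → E3, ContDiff ℝ n G → ∫ z, ⟪G z.1, z.1 - z.2⟫ ∂σ = ∫ x in K, dvg G x)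
    (hlay : ∀ x ∈ TC a 0, 1 / 2 ≤ 1 - bar a 0 x → 1 - bar a 0 x ≤ 3 / 4 → x ∈ K)
    {A : ℝ} (hA : 0 ≤ A) {Lam : ℝ × ℝ → ℝ} (hL : Measurable Lam)
    {CL : ℝ} (hLb : ∀ t ∈ Dl, |Lam t| ≤ CL)
    (hW : ∀ᵐ z ∂σ, z.1 ∈ Wc a 0 → Lam (tx a z.1) * ⟪z.1 - a 0, z.1 - z.2⟫ ≤
      A * (‖z.1 - a 0‖ ^ 3 - 1) / 3 * ⟪z.1 - a 0, z.1 - z.2⟫ +
        ‖z.1 - a 0‖ ^ 3 * (⟪z.1 - a 0, z.1 - z.2⟫ - 1) / 4)
    (hT : ∀ᵐ z ∂σ, z.1 ∈ TC a 0 → 1 / 2 < 1 - bar a 0 z.1 → 0 ≤ bar a 0 z.1 →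
      0 ≤ ⟪z.1 - a 0, z.1 - z.2⟫ ∧ Lam (tx a z.1) ≤ A * (‖z.1 - a 0‖ ^ 3 - 1) / 3) :
    (√2)⁻¹ * ∫ t in Dl, Lam t * M3 t ≤ Wi a 0 K σ A := by
  have h1 := face_red_core_m hK ha hσ hA (chi := Helper14.MEI3.chs)
    (Helper14.MEI3.chs_cd (n := 1)).continuous.measurable Helper14.MEI3.chs_nonneg
    Helper14.MEI3.chs_le (fun l hl => Helper14.MEI3.chs_zero hl)
    (fun l hl => Helper14.MEI3.chs_one (by linarith))
    (Helper14.MEI3.FF1 ha hK hσ hn hU 0)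
    (fun h hh => Helper14.MEI3.RAD ha hK hσ hn hU hh (i := 0) (j := 1) (k := 2) (by decide)
      (by decide) hlay) hL hLb hW hT
  have e : ∫ z in {z : E3 × E3 | z.1 ∈ Wc a 0}, (⟪z.1 - a 0, z.1 - z.2⟫ - 1) / 4 ∂σ =
      ∫ z in {z : E3 × E3 | z.1 ∈ Wc a 0}, (⟪(1 / 4 : ℝ) • (z.1 - a 0), z.1 - z.2⟫ - 1 / 4) ∂σ := by
    refine integral_congr_ae (Filter.Eventually.of_forall fun z => ?_)
    dsimp only
    rw [real_inner_smul_left]
    ring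
  rw [e] at h1
  exact h1

/-- **reduction of a face cell, pointwise form with the second order terms**: it suffices that
`Lam ≤ (A/2 + 1/8) Q(p) - 0.127 w / (1 - w/2)`, `w = ‖a 0 - q‖²` -/
theorem face_red_pt_m (hK : IsCompact K) (ha : ∀ i j, i ≠ j → dist (a i) (a j) = 1)
    (hσ : ∀ᵐ z ∂σ, z.1 ∈ K ∧ z.2 ∈ K) (hσ1 : ∀ᵐ z ∂σ, ‖z.1 - z.2‖ = 1 ∧
      ∀ y ∈ K, ⟪y, z.1 - z.2⟫ ≤ ⟪z.1, z.1 - z.2⟫) {n : ℕ∞} (hn : 1 ≤ n)
    (hU : ∀ G : E3 → E3, ContDiff ℝ n G → ∫ z, ⟪G z.1, z.1 - z.2⟫ ∂σ = ∫ x in K, dvg G x)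
    (hlay : ∀ x ∈ TC a 0, 1 / 2 ≤ 1 - bar a 0 x → 1 - bar a 0 x ≤ 3 / 4 → x ∈ K)
    {A : ℝ} (hA : 7 / 2 ≤ A) {Lam : ℝ × ℝ → ℝ} (hL : Measurable Lam)
    {CL : ℝ} (hLb : ∀ t ∈ Dl, |Lam t| ≤ CL)
    (hQ : ∀ x ∈ K, Qv a 0 x ≤ 3 / 16)
    (hP : ∀ᵐ z ∂σ, z.1 ∈ TC a 0 → 3 / 4 ≤ 1 - bar a 0 z.1 →
      Lam (tx a z.1) ≤ (A / 2 + 1 / 8) * Qv a 0 z.1 -
        0.127 * ‖a 0 - z.2‖ ^ 2 / (1 - ‖a 0 - z.2‖ ^ 2 / 2)) :
    (√2)⁻¹ * ∫ t in Dl, Lam t * M3 t ≤ Wi a 0 K σ A := by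
  have hin : ∀ z : E3 × E3, ‖z.1 - z.2‖ = 1 →
      ⟪z.1 - a 0, z.1 - z.2⟫ = 1 + (Qv a 0 z.1 - ‖a 0 - z.2‖ ^ 2) / 2 := by
    intro z hz
    rw [inner_half, hz, norm_sub_rev z.2 (a 0)]
    unfold Qv
    ring
  have hw1 : ∀ z : E3 × E3, z.2 ∈ K → ‖a 0 - z.2‖ ^ 2 ≤ 19 / 16 := by
    intro z hz
    have h1 := hQ z.2 hz
    unfold Qv at h1
    rw [norm_sub_rev (a 0) z.2]
    linarith
  refine face_red_m hK ha hσ hn hU hlay (by linarith) hL hLb ?_ ?_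
  · filter_upwards [hσ, hσ1, hP] with z hz hz1 hzP hzW
    have hTC : z.1 ∈ TC a 0 := by
      rw [TC_bar ha]; exact hzW.2
    have hlam : 1 < 1 - bar a 0 z.1 := by
      have := hzW.1
      linarith
    have h1 := hzP hTC (by linarith)
    have hd := dist_mt ha (x := z.1) (by linarith)
    have hm := mt_ge (t := tx a z.1)
    have hQ1 := hQ z.1 hz.1
    have hQv : Qv a 0 z.1 = ‖z.1 - a 0‖ ^ 2 - 1 := rfl
    have hQl : -(1 / 3) ≤ Qv a 0 z.1 := by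
      rw [hQv, hd]
      nlinarith
    have hr : 0 < ‖z.1 - a 0‖ := by
      by_contra hneg
      have h0 : ‖z.1 - a 0‖ = 0 := le_antisymm (not_lt.1 hneg) (norm_nonneg _)
      rw [h0] at hQv
      norm_num at hQv
      linarith
    have h2 := ptw (r := ‖z.1 - a 0‖) hA hQl hQ1 (sq_nonneg ‖a 0 - z.2‖) (hw1 z hz.2) hr
      (by rw [hQv]; ring)
    have hS := hin z hz1.1
    have hSp : 0 ≤ 1 + (Qv a 0 z.1 - ‖a 0 - z.2‖ ^ 2) / 2 := by
      have := hw1 z hz.2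
      linarith
    have h3 := mul_le_mul_of_nonneg_right h1 hSp
    rw [hS]
    refine h3.trans (h2.trans (le_of_eq ?_))
    ring
  · filter_upwards [hσ, hσ1, hP] with z hz hz1 hzP hTC hl hb
    have hl2 : 3 / 4 ≤ 1 - bar a 0 z.1 := by
      by_contra hneg
      push Not at hneg
      have hUo : IsOpen {x : E3 | x ∈ TC a 0 ∧ 1 / 2 < 1 - bar a 0 x ∧ 1 - bar a 0 x < 3 / 4} := by
        have c1 : Continuous fun x : E3 => 1 - bar a 0 x := continuous_const.sub (bar_cont a 0)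
        exact (TC_open ha 0).inter ((isOpen_lt continuous_const c1).inter
          (isOpen_lt c1 continuous_const))
      exact not_open hz1.1 hz1.2 hUo (fun x hx => hlay x hx.1 hx.2.1.le hx.2.2.le)
        ⟨hTC, hl, hneg⟩
    have h1 := hzP hTC hl2
    have hd := dist_mt ha (x := z.1) (by linarith)
    have hm := mt_ge (t := tx a z.1)
    have hm1 := mt_le (tx_mem ha hTC)
    have hQv : Qv a 0 z.1 = ‖z.1 - a 0‖ ^ 2 - 1 := rfl
    have hw := hw1 z hz.2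
    have hQl : -(5 / 8) ≤ Qv a 0 z.1 := by
      rw [hQv, hd]
      nlinarith
    have hQu : Qv a 0 z.1 ≤ 0 := by
      rw [hQv, hd]
      have h4 : (1 - bar a 0 z.1) ^ 2 ≤ 1 := by nlinarith
      nlinarith [mt_pos (t := tx a z.1)]
    refine ⟨?_, ?_⟩
    · rw [hin z hz1.1]
      linarith
    · have h2 := r3_ge' (Q := Qv a 0 z.1) (norm_nonneg (z.1 - a 0)) (by rw [hQv]; ring)
      have h3 : 0 ≤ 0.127 * ‖a 0 - z.2‖ ^ 2 / (1 - ‖a 0 - z.2‖ ^ 2 / 2) := by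
        apply div_nonneg (by positivity)
        linarith
      have h5 : A / 2 * Qv a 0 z.1 ≤ A * (‖z.1 - a 0‖ ^ 3 - 1) / 3 := by
        have := mul_le_mul_of_nonneg_left h2 (by linarith : (0 : ℝ) ≤ A)
        linarith
      linarith

/-- **the face cell of any vertex** (`τ 0` is the vertex) -/
theorem face_pm_m (h : PM K σ) (ha : ∀ i j, i ≠ j → dist (a i) (a j) = 1)
    (hull : ∀ p, (∀ q ∈ K, ‖p - q‖ ≤ 1) → p ∈ K) (hQ : ∀ i, ∀ q ∈ K, Qv a i q ≤ 3 / 16)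
    (τ : Equiv.Perm (Fin 4)) {A : ℝ} (hA : 7 / 2 ≤ A) {Lam : ℝ × ℝ → ℝ} (hL : Measurable Lam)
    {CL : ℝ} (hLb : ∀ t ∈ Dl, |Lam t| ≤ CL)
    (hP : ∀ᵐ z ∂σ, z.1 ∈ TC (fun i => a (τ i)) 0 → 3 / 4 ≤ 1 - bar a (τ 0) z.1 →
      Lam (tx (fun i => a (τ i)) z.1) ≤ (A / 2 + 1 / 8) * Qv a (τ 0) z.1 -
        0.127 * ‖a (τ 0) - z.2‖ ^ 2 / (1 - ‖a (τ 0) - z.2‖ ^ 2 / 2)) :
    (√2)⁻¹ * ∫ t in Dl, Lam t * M3 t ≤ Wi a (τ 0) K σ A := by
  have ha' : ∀ i j, i ≠ j → dist (a (τ i)) (a (τ j)) = 1 :=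
    fun i j hij => ha _ _ fun h => hij (τ.injective h)
  rw [← Wi_perm τ]
  refine face_red_pt_m (a := fun i => a (τ i)) h.cpt ha' h.mem (h.ae.mono fun _ hz => hz.2.2)
    (n := ⊤) le_top h.flux (hlay_of ha' hull fun i q hq => hQ (τ i) q hq) hA hL hLb
    (fun x hx => hQ (τ 0) x hx) ?_
  filter_upwards [hP] with z hz h1 h2
  rw [bar_perm] at h2
  exact hz h1 h2

end Helper96.MEI
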