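import Pool.Agent.Helper55.MEI.Fill

/-!
# The residual of the exact filling in the wall strips: pointwise facts

`kap N b l` is the smaller of the two residuals at the nodes different from `l`.  It is positive
only where the wall `l` is the binding one, and it is bounded below by an explicit function.
-/

namespace Pool.Agent.Helper96.Kap

open Set MeasureTheory Pool.Agent.Helper55.Sx Pool.Agent.Helper55.Mass
open Pool.Agent.Helper55.Apex (nc)
open Pool.Agent.Helper55.Fill

variable {N : Fin 3 → Fin 3 → ℝ} {b : Fin 3 → ℝ}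

/-- the smaller residual at the two other nodes -/
noncomputable def kap (N : Fin 3 → Fin 3 → ℝ) (b : Fin 3 → ℝ) (l : Fin 3) : ℝ :=
  min (rr N b (l + 1)) (rr N b (l + 2))

theorem kap_eq {l j k : Fin 3} (hlj : l ≠ j) (hlk : l ≠ k) (hjk : j ≠ k) :
    kap N b l = min (rr N b j) (rr N b k) := by
  unfold kap
  fin_cases l <;> fin_cases j <;> fin_cases k <;> simp only [Fin.zero_eta, Fin.mk_one,
    Fin.reduceFinMk, ne_eq, not_true_eq_false] at hlj hlk hjk ⊢
  · rfl
  · exact min_comm _ _
  · exact min_comm _ _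
  · rfl
  · rfl
  · exact min_comm _ _

section
variable (hN : ∀ k m, 0 ≤ N k m) {c : ℝ} (hc : c < 1) (hcol : ∀ m, nc N m ≤ c)
include hN hc hcol

theorem kap_nonneg (hb : ∀ k, 0 ≤ b k) (l : Fin 3) : 0 ≤ kap N b l :=
  le_min (rr_nonneg hN hc hcol hb _) (rr_nonneg hN hc hcol hb _)

theorem rr_le_self (hb : ∀ k, 0 ≤ b k) (k : Fin 3) : rr N b k ≤ b k := by
  have h1 := xx_nonneg hN hc hcol hb k
  have h2 := LN_nonneg hN (xx_nonneg hN hc hcol hb) k
  unfold rr
  linarith

omit hN hc hcol in
theorem kap_le_of_ne (l k : Fin 3) (h : l ≠ k) : kap N b l ≤ rr N b k := by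
  unfold kap
  fin_cases l <;> fin_cases k <;> simp only [Fin.zero_eta, Fin.mk_one,
    Fin.reduceFinMk, ne_eq, not_true_eq_false] at h ⊢
  · exact min_le_left _ _
  · exact min_le_right _ _
  · exact min_le_right _ _
  · exact min_le_left _ _
  · exact min_le_left _ _
  · exact min_le_right _ _

theorem kap_meas (l : Fin 3) : Measurable fun t => kap N (vv t) l :=
  (rr_meas hN hc hcol _).min (rr_meas hN hc hcol _)

theorem kap_le_one {t : ℝ × ℝ} (ht : t ∈ Sim) (l : Fin 3) : kap N (vv t) l ≤ 1 :=
  (min_le_left _ _).trans ((rr_le_self hN hc hcol (fun k => vv_nonneg ht k) _).trans (vv_le ht _))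

/-- some residual vanishes -/
theorem rr_zero_some (hb : ∀ k, 0 ≤ b k) : ∃ m, rr N b m = 0 := by
  have key : ∀ m, tq N b = tu N b m → rr N b m = 0 := by
    intro m hm
    unfold rr
    rw [LN_xx]
    rcases lt_or_ge (b m) (LN N (uu N b) m) with h | h
    · have h0 := uu_zero hN hc hcol h
      have h3 : xx N b m = 0 := by rw [xx, h0, mul_zero]
      have h1 : tu N b m = b m / LN N (uu N b) m := by
        unfold tu
        rw [if_pos h]
      have hL : 0 < LN N (uu N b) m := lt_of_le_of_lt (hb m) h
      rw [h3, hm, h1, div_mul_cancel₀ _ hL.ne']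
      ring
    · have h1 := uu_exact hN hc hcol h
      have h2 : tu N b m = 1 := by
        unfold tu
        rw [if_neg (not_lt.2 h)]
      rw [xx, hm, h2]
      linarith
  rcases tq_eq (N := N) (b := b) with h | h | h
  · exact ⟨0, key 0 h⟩
  · exact ⟨1, key 1 h⟩
  · exact ⟨2, key 2 h⟩

/-- **the shares `kap` at the walls different from `k` fit into the residual of `k`** -/
theorem kap_add (hb : ∀ k, 0 ≤ b k) {j l k : Fin 3} (hjl : j ≠ l) (hjk : j ≠ k) (hlk : l ≠ k) :
    kap N b j + kap N b l ≤ rr N b k := by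
  obtain ⟨m, hm⟩ := rr_zero_some hN hc hcol hb
  have hi : m = j ∨ m = l ∨ m = k := by
    clear hm hb hcol hc hN
    revert hjl hjk hlk
    clear * -
    revert m j l k
    decide
  have nj := kap_nonneg hN hc hcol hb j
  have nl := kap_nonneg hN hc hcol hb l
  rcases hi with h | h | h
  · -- residual of `j` vanishes: `kap l = 0`
    have h1 := kap_le_of_ne (N := N) (b := b) l j hjl.symm
    have h2 := kap_le_of_ne (N := N) (b := b) j k hjk
    rw [← h, hm] at h1
    linarith
  · have h1 := kap_le_of_ne (N := N) (b := b) j l hjl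
    have h2 := kap_le_of_ne (N := N) (b := b) l k hlk
    rw [← h, hm] at h1
    linarith
  · have h1 := kap_le_of_ne (N := N) (b := b) j k hjk
    have h2 := kap_le_of_ne (N := N) (b := b) l k hlk
    rw [← h, hm] at h1 h2
    rw [← h, hm]
    linarith

omit hN hc hcol in
theorem LN_three (hd : ∀ k, N k k = 0) (u : Fin 3 → ℝ) {l j k : Fin 3} (hlj : l ≠ j)
    (hlk : l ≠ k) (hjk : j ≠ k) : LN N u l = N l j * u j + N l k * u k := by
  unfold LN
  fin_cases l <;> fin_cases j <;> fin_cases k <;> simp only [Fin.zero_eta, Fin.mk_one,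
    Fin.reduceFinMk, ne_eq, not_true_eq_false] at hlj hlk hjk ⊢ <;> rw [hd] <;> ring

/-- **lower bound of the residual in the strip of the wall `l`** -/
theorem kap_ge (hd : ∀ k, N k k = 0) (hb : ∀ k, 0 ≤ b k) {l j k : Fin 3} (hlj : l ≠ j)
    (hlk : l ≠ k) (hjk : j ≠ k) (hc1 : N l j * N j l + N l k * N k l ≤ 1)
    (hj : N j k * b k ≤ b j) (hk : N k j * b j ≤ b k)
    (hL : b l < (N l j - N l k * N k j) * b j + (N l k - N l j * N j k) * b k) :
    (1 - b l / ((N l j - N l k * N k j) * b j + (N l k - N l j * N j k) * b k)) * min (b j) (b k)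
      ≤ kap N b l := by
  set L := (N l j - N l k * N k j) * b j + (N l k - N l j * N j k) * b k with hLd
  have uj := uu_le hN hc hcol hb j
  have uk := uu_le hN hc hcol hb k
  have ul0 := uu_nonneg hN hc hcol b l
  have gj := uu_ge hN hc hcol b j
  have gk := uu_ge hN hc hcol b k
  rw [LN_three hd _ hlj.symm hjk hlk] at gj
  rw [LN_three hd _ hlk.symm hjk.symm hlj] at gk
  have e1 := mul_le_mul_of_nonneg_left uk (hN j k)
  have e2 := mul_le_mul_of_nonneg_left uj (hN k j)
  have lj : b j - N j k * b k - N j l * uu N b l ≤ uu N b j := by linarith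
  have lk : b k - N k j * b j - N k l * uu N b l ≤ uu N b k := by linarith
  have m1 := mul_le_mul_of_nonneg_left lj (hN l j)
  have m2 := mul_le_mul_of_nonneg_left lk (hN l k)
  have hLN : LN N (uu N b) l = N l j * uu N b j + N l k * uu N b k := LN_three hd _ hlj hlk hjk
  have hLN2 : L - (N l j * N j l + N l k * N k l) * uu N b l ≤ LN N (uu N b) l := by
    rw [hLN, hLd]
    nlinarith
  have hviol : b l < LN N (uu N b) l := by
    by_contra hcon
    push Not at hcon
    have h1 := uu_exact hN hc hcol hcon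
    have h2 := mul_le_mul_of_nonneg_right hc1 ul0
    linarith
  have u0 := uu_zero hN hc hcol hviol
  rw [u0, mul_zero, sub_zero] at hLN2
  have hL0 : 0 < L := lt_of_le_of_lt (hb l) hL
  have htu : tu N b l ≤ b l / L := by
    unfold tu
    rw [if_pos hviol]
    exact div_le_div_of_nonneg_left (hb l) hL0 hLN2
  have htq : tq N b ≤ b l / L := (tq_le l).trans htu
  have ex : ∀ m, LN N (uu N b) m ≤ b m → (1 - b l / L) * b m ≤ rr N b m := by
    intro m hm
    have h1 := uu_exact hN hc hcol hm
    have e : rr N b m = (1 - tq N b) * b m := by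
      have : xx N b m + LN N (xx N b) m = tq N b * b m := by
        rw [LN_xx, xx, ← mul_add, h1]
      rw [rr, this]; ring
    rw [e]
    exact mul_le_mul_of_nonneg_right (by linarith) (hb m)
  have hjE : LN N (uu N b) j ≤ b j := by
    rw [LN_three hd _ hlj.symm hjk hlk, u0, mul_zero, zero_add]
    linarith
  have hkE : LN N (uu N b) k ≤ b k := by
    rw [LN_three hd _ hlk.symm hjk.symm hlj, u0, mul_zero, zero_add]
    linarith
  have rj := ex j hjE
  have rk := ex k hkE
  have h1L : 0 ≤ 1 - b l / L := by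
    have : b l / L ≤ 1 := by
      rw [div_le_one hL0]; exact hL.le
    linarith
  rw [kap_eq hlj hlk hjk]
  refine le_min ?_ ?_
  · exact (mul_le_mul_of_nonneg_left (min_le_left _ _) h1L).trans rj
  · exact (mul_le_mul_of_nonneg_left (min_le_right _ _) h1L).trans rk

theorem kap_int (l : Fin 3) : IntegrableOn (fun t => kap N (vv t) l / mm t ^ 2) Sim :=
  intOn (C := 1) (kap_meas hN hc hcol l) fun t ht => by
    rw [abs_of_nonneg (kap_nonneg hN hc hcol (fun k => vv_nonneg ht k) l)]
    exact kap_le_one hN hc hcol ht l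

end

end Pool.Agent.Helper96.Kap
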