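import Pool.Agent.Helper96.MEI.Kap

/-!
# Lower bound of the fibre integral in the strip
-/

namespace Pool.Agent.Helper96.Kap

open Set MeasureTheory Pool.Agent.Helper55.Sx Pool.Agent.Helper55.Mass

/-- pointwise: `1/(g + u + u²)² ≥ (1/g²) (1 - (2/g) (u + u²))` -/
theorem ptw_low {g u : ℝ} (hg : 0 < g) (hu : 0 ≤ u) :
    (1 - 2 / g * (u + u ^ 2)) * (1 / g ^ 2) ≤ 1 / (g + u + u ^ 2) ^ 2 := by
  have hz : 0 ≤ (u + u ^ 2) / g := by positivity
  set z := (u + u ^ 2) / g with hzd
  have e1 : g + u + u ^ 2 = g * (1 + z) := by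
    rw [hzd]
    field_simp
    ring
  have e2 : 1 - 2 / g * (u + u ^ 2) = 1 - 2 * z := by
    rw [hzd]
    field_simp
  rw [e1, e2, mul_pow, le_div_iff₀ (by positivity)]
  have e3 : (1 - 2 * z) * (1 / g ^ 2) * (g ^ 2 * (1 + z) ^ 2) = (1 - 2 * z) * (1 + z) ^ 2 := by
    field_simp
  rw [e3]
  have h2 : 0 ≤ z ^ 2 := by positivity
  have h3 : 0 ≤ z ^ 3 := by positivity
  nlinarith

/-- the fibre function -/
noncomputable def fibf (g ε S : ℝ) (x : ℝ) : ℝ :=
  (1 - x) * (if x < (1 - x) * ε then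
      (1 - x / ((1 - x) * ε)) * ((1 - x) * S) / (g * (1 - x) ^ 2 + x) ^ 2 else 0)

theorem fibf_meas (g ε S : ℝ) : Measurable (fibf g ε S) := by
  unfold fibf
  refine (by fun_prop : Measurable fun x : ℝ => 1 - x).mul
    (Measurable.ite (measurableSet_lt measurable_id (by fun_prop)) ?_ measurable_const)
  exact ((measurable_const.sub (measurable_id.div (by fun_prop))).mul (by fun_prop)).div
    (by fun_prop)

theorem fibf_bd {g ε S : ℝ} (hg : 3 / 4 ≤ g) (hS : 0 ≤ S) {x : ℝ}
    (hx : x ∈ Icc (0 : ℝ) 1) : 0 ≤ fibf g ε S x ∧ fibf g ε S x ≤ 4 * S := by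
  obtain ⟨a1, a2⟩ := hx
  unfold fibf
  split_ifs with hc
  · have h6 : 0 < 1 - x := by
      rcases eq_or_lt_of_le a2 with h | h
      · rw [h] at hc
        norm_num at hc
      · linarith
    have hL : 0 < (1 - x) * ε := lt_of_le_of_lt a1 hc
    have n0 : 0 ≤ x / ((1 - x) * ε) := div_nonneg a1 hL.le
    have n1 : x / ((1 - x) * ε) ≤ 1 := (div_le_one hL).2 hc.le
    have m1 : (1 / 2 : ℝ) ≤ g * (1 - x) ^ 2 + x := by
      have := mul_le_mul_of_nonneg_right hg (sq_nonneg (1 - x))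
      nlinarith [sq_nonneg (x - 1 / 3)]
    have m2 : (1 / 4 : ℝ) ≤ (g * (1 - x) ^ 2 + x) ^ 2 := by nlinarith
    have p1 : 0 ≤ (1 - x / ((1 - x) * ε)) * ((1 - x) * S) :=
      mul_nonneg (by linarith) (mul_nonneg h6.le hS)
    have p2 : (1 - x / ((1 - x) * ε)) * ((1 - x) * S) ≤ S := by
      have q1 : (1 - x) * S ≤ 1 * S := mul_le_mul_of_nonneg_right (by linarith) hS
      have q2 := mul_le_mul_of_nonneg_right (show 1 - x / ((1 - x) * ε) ≤ 1 by linarith)
        (mul_nonneg h6.le hS)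
      linarith
    have p3 : (1 - x / ((1 - x) * ε)) * ((1 - x) * S) / (g * (1 - x) ^ 2 + x) ^ 2 ≤ 4 * S := by
      rw [div_le_iff₀ (by positivity)]
      have := mul_le_mul_of_nonneg_left m2 (show 0 ≤ 4 * S by positivity)
      linarith
    have p4 : 0 ≤ (1 - x / ((1 - x) * ε)) * ((1 - x) * S) / (g * (1 - x) ^ 2 + x) ^ 2 := by
      positivity
    refine ⟨mul_nonneg h6.le p4, ?_⟩
    have := mul_le_mul_of_nonneg_right (show 1 - x ≤ 1 by linarith) p4
    linarith
  · simp only [mul_zero, le_refl, true_and]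
    positivity

theorem fibf_int {g ε S : ℝ} (hg : 3 / 4 ≤ g) (hS : 0 ≤ S) :
    IntegrableOn (fibf g ε S) (Icc (0 : ℝ) 1) := by
  refine Measure.integrableOn_of_bounded (M := 4 * S) (by simp)
    (fibf_meas g ε S).aestronglyMeasurable ?_
  filter_upwards [ae_restrict_mem measurableSet_Icc] with x hx
  obtain ⟨b1, b2⟩ := fibf_bd (ε := ε) hg hS hx
  rw [Real.norm_eq_abs, abs_of_nonneg b1]
  exact b2

/-- **fibre integral, lower bound** -/
theorem fibre_low {g ε e S : ℝ} (hg : 3 / 4 ≤ g) (hεe : ε ≤ e) (hS : 0 ≤ S) (he : 0 ≤ e) :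
    S * (ε / 2 * (1 / g ^ 2) - (2 + e) / 6 * ε ^ 2 * (1 / g ^ 3))
      ≤ ∫ x in Icc (0 : ℝ) 1, fibf g ε S x := by
  have hg0 : 0 < g := by linarith
  rcases le_or_gt ε 0 with hε | hεp
  · have h0 : 0 ≤ ∫ x in Icc (0 : ℝ) 1, fibf g ε S x :=
      setIntegral_nonneg measurableSet_Icc fun x hx => (fibf_bd hg hS hx).1
    refine le_trans ?_ h0
    refine mul_nonpos_of_nonneg_of_nonpos hS ?_
    have h1 : 0 ≤ 1 / g ^ 2 := by positivity
    have h2 : 0 ≤ (2 + e) / 6 * ε ^ 2 * (1 / g ^ 3) := by positivity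
    have h3 := mul_nonneg (show 0 ≤ -ε by linarith) h1
    linarith
  set k : ℝ := 2 / g with hk
  set xe : ℝ := ε / (1 + ε) with hxe
  have hxe0 : 0 ≤ xe := by positivity
  have hxe1 : xe < 1 := by
    rw [hxe, div_lt_one (by positivity)]
    linarith
  have hxee : xe / (1 - xe) = ε := by
    rw [hxe]
    field_simp
    ring
  have hder : ∀ x ∈ uIcc 0 xe, HasDerivAt
      (fun x : ℝ => (S * ((x / (1 - x)) - (x / (1 - x)) ^ 2 / (2 * ε)
        - k * ((x / (1 - x)) ^ 2 / 2 - (x / (1 - x)) ^ 3 / (3 * ε))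
        - k * ((x / (1 - x)) ^ 3 / 3 - (x / (1 - x)) ^ 4 / (4 * ε)))) * (1 / g ^ 2))
      (S * (1 - x / (1 - x) / ε) * (1 - k * (x / (1 - x) + (x / (1 - x)) ^ 2)) / (1 - x) ^ 2
        * (1 / g ^ 2)) x := by
    intro x hx
    rw [uIcc_of_le hxe0] at hx
    have h1 : 0 < 1 - x := by linarith [hx.2]
    have hu : HasDerivAt (fun x : ℝ => x / (1 - x)) (1 / (1 - x) ^ 2) x := by
      have := (hasDerivAt_id x).div ((hasDerivAt_id x).const_sub 1) h1.ne'
      refine this.congr_deriv ?_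
      simp only [id]
      field_simp
      ring
    have h2 := (((((hu.sub ((hu.pow 2).div_const (2 * ε))).sub
      ((((hu.pow 2).div_const 2).sub ((hu.pow 3).div_const (3 * ε))).const_mul k)).sub
      ((((hu.pow 3).div_const 3).sub ((hu.pow 4).div_const (4 * ε))).const_mul k))).const_mul
        S).mul_const (1 / g ^ 2)
    refine h2.congr_deriv ?_
    simp only [Nat.cast_ofNat, show (2 : ℕ) - 1 = 1 from rfl, show (3 : ℕ) - 1 = 2 from rfl,
      show (4 : ℕ) - 1 = 3 from rfl, pow_one]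
    field_simp
    ring
  have hne : ∀ x ∈ Icc 0 xe, (1 - x) ≠ 0 := fun x hx => by
    have : 0 < 1 - x := by linarith [hx.2]
    exact this.ne'
  have hcu : ContinuousOn (fun x : ℝ => x / (1 - x)) (Icc 0 xe) :=
    continuousOn_id.div (by fun_prop) hne
  have hco : ContinuousOn (fun x : ℝ => S * (1 - x / (1 - x) / ε)
      * (1 - k * (x / (1 - x) + (x / (1 - x)) ^ 2)) / (1 - x) ^ 2
        * (1 / g ^ 2)) (Icc 0 xe) := by
    refine ContinuousOn.mul (ContinuousOn.div ?_ (by fun_prop) fun x hx => pow_ne_zero 2 (hne x hx))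
      continuousOn_const
    refine ContinuousOn.mul (continuousOn_const.mul (continuousOn_const.sub
      (hcu.div_const ε))) ?_
    exact continuousOn_const.sub (continuousOn_const.mul (hcu.add (hcu.pow 2)))
  have hcont : ContinuousOn (fun x : ℝ => S * (1 - x / (1 - x) / ε)
      * (1 - k * (x / (1 - x) + (x / (1 - x)) ^ 2)) / (1 - x) ^ 2
        * (1 / g ^ 2)) (uIcc 0 xe) := by
    rw [uIcc_of_le hxe0]
    exact hco
  have hint := intervalIntegral.integral_eq_sub_of_hasDerivAt hder hcont.intervalIntegrable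
  have hval : ∫ x in (0 : ℝ)..xe, S * (1 - x / (1 - x) / ε)
      * (1 - k * (x / (1 - x) + (x / (1 - x)) ^ 2)) / (1 - x) ^ 2 * (1 / g ^ 2)
      = S * (ε / 2 - k * ε ^ 2 / 6 - k * ε ^ 3 / 12) * (1 / g ^ 2) := by
    rw [hint, hxee]
    have e0 : (0 : ℝ) / (1 - 0) = 0 := by simp
    rw [e0]
    field_simp
    ring
  have hfin : S * (ε / 2 * (1 / g ^ 2) - (2 + e) / 6 * ε ^ 2 * (1 / g ^ 3))
      ≤ S * (ε / 2 - k * ε ^ 2 / 6 - k * ε ^ 3 / 12) * (1 / g ^ 2) := by
    rw [mul_assoc S]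
    refine mul_le_mul_of_nonneg_left ?_ hS
    have e1 : (ε / 2 - k * ε ^ 2 / 6 - k * ε ^ 3 / 12) * (1 / g ^ 2)
        = ε / 2 * (1 / g ^ 2) - (2 + ε) / 6 * ε ^ 2 * (1 / g ^ 3) := by
      rw [hk]
      field_simp
      ring
    rw [e1]
    have h1 : (2 + ε) / 6 ≤ (2 + e) / 6 := by linarith
    have h2 : 0 ≤ ε ^ 2 * (1 / g ^ 3) := by positivity
    have h3 := mul_le_mul_of_nonneg_right h1 h2
    linarith
  refine hfin.trans ?_
  rw [← hval, intervalIntegral.integral_of_le hxe0, ← integral_Icc_eq_integral_Ioc,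
    ← integral_indicator measurableSet_Icc, ← integral_indicator measurableSet_Icc]
  refine integral_mono ((integrable_indicator_iff measurableSet_Icc).2
      (hco.integrableOn_compact isCompact_Icc)) ((integrable_indicator_iff measurableSet_Icc).2
      (fibf_int hg hS)) fun x => ?_
  by_cases h1 : x ∈ Icc (0 : ℝ) 1
  · rw [indicator_of_mem h1]
    by_cases h3 : x ∈ Icc (0 : ℝ) xe
    · rw [indicator_of_mem h3]
      have h6 : 0 < 1 - x := by linarith [h3.2]
      have hu0 : 0 ≤ x / (1 - x) := div_nonneg h1.1 h6.le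
      have hue : x ≤ (1 - x) * ε := by
        have := h3.2
        rw [hxe, le_div_iff₀ (by positivity)] at this
        nlinarith
      have hue2 : x / (1 - x) / ε ≤ 1 := by
        rw [div_div, div_le_one (by positivity)]
        exact hue
      have hP := ptw_low (u := x / (1 - x)) hg0 hu0
      rw [← hk] at hP
      have hm : (g * (1 - x) ^ 2 + x) ^ 2
          = (1 - x) ^ 4 * (g + x / (1 - x) + (x / (1 - x)) ^ 2) ^ 2 := by
        field_simp
        ring
      have h8 : 0 ≤ (1 - x / (1 - x) / ε) * S := mul_nonneg (by linarith) hS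
      have hne' : 0 < (g + x / (1 - x) + (x / (1 - x)) ^ 2) := by positivity
      rcases eq_or_lt_of_le hue with heq | hlt
      · have e2 : x / (1 - x) / ε = 1 := by
          rw [div_div, ← heq, div_self]
          rw [heq]
          positivity
        rw [e2, sub_self, mul_zero, zero_mul, zero_div, zero_mul]
        exact (fibf_bd hg hS h1).1
      · unfold fibf
        rw [if_pos hlt]
        calc S * (1 - x / (1 - x) / ε) * (1 - k * (x / (1 - x) + (x / (1 - x)) ^ 2))
                / (1 - x) ^ 2 * (1 / g ^ 2)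
            = ((1 - x / (1 - x) / ε) * S) / (1 - x) ^ 2
                * ((1 - k * (x / (1 - x) + (x / (1 - x)) ^ 2)) * (1 / g ^ 2)) := by ring
          _ ≤ ((1 - x / (1 - x) / ε) * S) / (1 - x) ^ 2
                * (1 / (g + x / (1 - x) + (x / (1 - x)) ^ 2) ^ 2) :=
              mul_le_mul_of_nonneg_left hP (by positivity)
          _ = (1 - x) * ((1 - x / ((1 - x) * ε)) * ((1 - x) * S)
                / (g * (1 - x) ^ 2 + x) ^ 2) := by
              rw [hm, div_div x (1 - x) ε]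
              field_simp
    · rw [indicator_of_notMem h3]
      exact (fibf_bd hg hS h1).1
  · rw [indicator_of_notMem h1]
    by_cases h3 : x ∈ Icc (0 : ℝ) xe
    · exact absurd ⟨h3.1, by linarith [h3.2]⟩ h1
    · rw [indicator_of_notMem h3]

end Pool.Agent.Helper96.Kap
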