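import Pool.Agent.Helper96.MEI.Kap2

/-!
# Lower bound of the mass of `kap`
-/

namespace Pool.Agent.Helper96.Kap

open Set MeasureTheory Pool.Agent.Helper55.Sx Pool.Agent.Helper55.Mass
open Pool.Agent.Helper55.Apex (nc)
open Pool.Agent.Helper55.Fill

/-- explicit minorant of `kap / m ^ 2` near the side `t.1 = 0` -/
noncomputable def wm (A B p q : ℝ) (t : ℝ × ℝ) : ℝ :=
  if t.1 < A * t.2 + B * t3 t ∧ p * t3 t ≤ t.2 ∧ q * t.2 ≤ t3 t then
    (1 - t.1 / (A * t.2 + B * t3 t)) * min t.2 (t3 t) / mm t ^ 2 else 0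

theorem t3_meas : Measurable t3 := by unfold t3; fun_prop

theorem wm_meas (A B p q : ℝ) : Measurable (wm A B p q) := by
  have h3 := t3_meas
  have h4 : Measurable fun t : ℝ × ℝ => A * t.2 + B * t3 t :=
    (measurable_snd.const_mul _).add (h3.const_mul _)
  unfold wm
  refine Measurable.ite ?_ ?_ measurable_const
  · have s1 : MeasurableSet {t : ℝ × ℝ | t.1 < A * t.2 + B * t3 t} :=
      measurableSet_lt measurable_fst h4
    have s2 : MeasurableSet {t : ℝ × ℝ | p * t3 t ≤ t.2} :=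
      measurableSet_le (h3.const_mul _) measurable_snd
    have s3 : MeasurableSet {t : ℝ × ℝ | q * t.2 ≤ t3 t} :=
      measurableSet_le (measurable_snd.const_mul _) h3
    exact s1.inter (s2.inter s3)
  · exact ((measurable_const.sub (measurable_fst.div h4)).mul
      (measurable_snd.min h3)).div (mm_cont.measurable.pow_const 2)

theorem wm_bd {A B p q : ℝ} {t : ℝ × ℝ} (ht : t ∈ Sim) :
    0 ≤ wm A B p q t ∧ wm A B p q t ≤ 9 / 4 := by
  obtain ⟨a1, a2, a3⟩ := ht
  have a4 : 0 ≤ t3 t := by simp only [t3]; linarith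
  unfold wm
  split_ifs with hc
  · have hL : 0 < A * t.2 + B * t3 t := lt_of_le_of_lt a1 hc.1
    have hm := mm_pos t
    have hm2 : (4 / 9 : ℝ) ≤ mm t ^ 2 := by nlinarith
    have n0 : 0 ≤ t.1 / (A * t.2 + B * t3 t) := div_nonneg a1 hL.le
    have n1 : t.1 / (A * t.2 + B * t3 t) ≤ 1 := (div_le_one hL).2 hc.1.le
    have n3 : 0 ≤ min t.2 (t3 t) := le_min a2 a4
    have n4 : min t.2 (t3 t) ≤ 1 := (min_le_left _ _).trans (by linarith)
    have n5 : 0 ≤ 1 - t.1 / (A * t.2 + B * t3 t) := by linarith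
    refine ⟨by positivity, ?_⟩
    rw [div_le_iff₀ (by positivity)]
    have k1 := mul_le_one₀ (show 1 - t.1 / (A * t.2 + B * t3 t) ≤ 1 by linarith) n3 n4
    linarith
  · exact ⟨le_rfl, by norm_num⟩

theorem wm_ray {A B p q : ℝ} {x s : ℝ} (hx : x ∈ Icc (0 : ℝ) 1)
    (hc : p * (1 - s) ≤ s ∧ q * s ≤ 1 - s) :
    (1 - x) * wm A B p q (ray (x, s))
      = fibf (1 - s + s ^ 2) (A * s + B * (1 - s)) (min s (1 - s)) x := by
  have e1 : A * ((1 - x) * s) + B * t3 (x, (1 - x) * s)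
      = (1 - x) * (A * s + B * (1 - s)) := by
    simp only [t3]; ring
  have e3 : t3 (x, (1 - x) * s) = (1 - x) * (1 - s) := by simp only [t3]; ring
  have hx1 : 0 ≤ 1 - x := by linarith [hx.2]
  have e2 : min ((1 - x) * s) (t3 (x, (1 - x) * s)) = (1 - x) * min s (1 - s) := by
    rw [e3, mul_min_of_nonneg _ _ hx1]
  have c1 : p * t3 (x, (1 - x) * s) ≤ (1 - x) * s := by
    rw [e3]
    have := mul_le_mul_of_nonneg_left hc.1 hx1
    linarith
  have c2 : q * ((1 - x) * s) ≤ t3 (x, (1 - x) * s) := by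
    rw [e3]
    have := mul_le_mul_of_nonneg_left hc.2 hx1
    linarith
  unfold fibf
  simp only [wm, ray, mm_ray, e1, e2, c1, c2, and_true]

/-! ### the outer integral -/

theorem Q2_le {σ : ℝ} (h0 : 0 ≤ σ) (h1 : σ ≤ 1 / 4) :
    1 + 2 * σ + 3 * σ ^ 2 + 4 * σ ^ 3 + 5 * σ ^ 4 ≤ 1 / (1 - σ) ^ 2 := by
  have hg : 0 < 1 - σ := by linarith
  rw [le_div_iff₀ (by positivity)]
  have e : 1 - (1 + 2 * σ + 3 * σ ^ 2 + 4 * σ ^ 3 + 5 * σ ^ 4) * (1 - σ) ^ 2
      = σ ^ 5 * (6 - 5 * σ) := by ring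
  have : 0 ≤ σ ^ 5 * (6 - 5 * σ) := mul_nonneg (by positivity) (by linarith)
  linarith

theorem Q3_ge {σ : ℝ} (h0 : 0 ≤ σ) (h1 : σ ≤ 1 / 4) :
    1 / (1 - σ) ^ 3 ≤ 1 + 3 * σ + 6 * σ ^ 2 + 15.71 * σ ^ 3 := by
  have hg : 0 < 1 - σ := by linarith
  rw [div_le_iff₀ (by positivity)]
  have e : (1 + 3 * σ + 6 * σ ^ 2 + 15.71 * σ ^ 3) * (1 - σ) ^ 3 - 1
      = σ ^ 3 * (15.71 * (1 - σ) ^ 3 - (10 - 15 * σ + 6 * σ ^ 2)) := by ring
  have h2 : 0 ≤ 15.71 * (1 - σ) ^ 3 - (10 - 15 * σ + 6 * σ ^ 2) := by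
    nlinarith [mul_nonneg h0 (sub_nonneg.2 h1), mul_nonneg (mul_nonneg h0 h0) (sub_nonneg.2 h1)]
  have : 0 ≤ σ ^ 3 * (15.71 * (1 - σ) ^ 3 - (10 - 15 * σ + 6 * σ ^ 2)) :=
    mul_nonneg (by positivity) h2
  linarith

theorem int_K1 : ∫ s in (0 : ℝ)..(1 / 2), s * (1 + 2 * (s * (1 - s)) + 3 * (s * (1 - s)) ^ 2
    + 4 * (s * (1 - s)) ^ 3 + 5 * (s * (1 - s)) ^ 4) = 129641 / 645120 := by
  refine Eq.trans (intervalIntegral.integral_congr fun y _ => ?_)
    ((P11 0 1 2 1 (-2) (-4) (-8) 26 (-20) 5 0 (0 : ℝ) (1 / 2)).trans ?_)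
  · ring
  · norm_num

theorem int_K2 : ∫ s in (0 : ℝ)..(1 / 2), s * (1 + 3 * (s * (1 - s)) + 6 * (s * (1 - s)) ^ 2
    + 15.71 * (s * (1 - s)) ^ 3) = 1848503 / 7168000 := by
  refine Eq.trans (intervalIntegral.integral_congr fun y _ => ?_)
    ((P11 0 1 3 3 (371 / 100) (-4113 / 100) (4713 / 100) (-1571 / 100) 0 0 0
      (0 : ℝ) (1 / 2)).trans ?_)
  · ring
  · norm_num

/-- the smooth part of the minorant of the fibre -/
noncomputable def hs (A B c s : ℝ) : ℝ :=
  min s (1 - s) * ((A * s + B * (1 - s)) / 2 * (1 / (1 - s + s ^ 2) ^ 2)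
    - c * (A * s + B * (1 - s)) ^ 2 * (1 / (1 - s + s ^ 2) ^ 3))

theorem hs_cont (A B c : ℝ) : Continuous (hs A B c) := by
  have hg : ∀ s : ℝ, (1 - s + s ^ 2) ≠ 0 := fun s => by
    have : 0 < 1 - s + s ^ 2 := by nlinarith [sq_nonneg (s - 1 / 2)]
    exact this.ne'
  unfold hs
  refine (by fun_prop : Continuous fun s : ℝ => min s (1 - s)).mul (Continuous.sub ?_ ?_)
  · exact (by fun_prop : Continuous fun s : ℝ => (A * s + B * (1 - s)) / 2).mul
      (continuous_const.div (by fun_prop) fun s => pow_ne_zero 2 (hg s))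
  · exact (by fun_prop : Continuous fun s : ℝ => c * (A * s + B * (1 - s)) ^ 2).mul
      (continuous_const.div (by fun_prop) fun s => pow_ne_zero 3 (hg s))

theorem hs_int {A B c : ℝ} (hE : 0 ≤ A + B) (hc : 0 ≤ c) :
    (A + B) / 2 * (129641 / 645120) - c * (A ^ 2 + B ^ 2) * (1848503 / 7168000)
      ≤ ∫ s in Icc (0 : ℝ) 1, hs A B c s := by
  rw [integral_Icc_eq_integral_Ioc, ← intervalIntegral.integral_of_le zero_le_one,
    ← intervalIntegral.integral_add_adjacent_intervals (b := 1 / 2)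
      ((hs_cont A B c).intervalIntegrable _ _) ((hs_cont A B c).intervalIntegrable _ _)]
  have e1 : ∫ s in (1 / 2 : ℝ)..1, hs A B c s = ∫ s in (0 : ℝ)..(1 / 2), hs A B c (1 - s) := by
    rw [intervalIntegral.integral_comp_sub_left (fun s => hs A B c s) 1]
    norm_num
  have hc' : Continuous fun s => hs A B c (1 - s) := (hs_cont A B c).comp (by fun_prop)
  rw [e1, ← intervalIntegral.integral_add ((hs_cont A B c).intervalIntegrable _ _)
    (hc'.intervalIntegrable _ _), ← int_K1, ← int_K2, ← intervalIntegral.integral_const_mul,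
    ← intervalIntegral.integral_const_mul, ← intervalIntegral.integral_sub]
  · refine intervalIntegral.integral_mono_on (by norm_num) ?_ ?_ fun s hs' => ?_
    · exact Continuous.intervalIntegrable (by fun_prop) _ _
    · exact ((hs_cont A B c).add hc').intervalIntegrable _ _
    · obtain ⟨s0, s1⟩ := hs'
      have m1 : min s (1 - s) = s := min_eq_left (by linarith)
      have m2 : min (1 - s) (1 - (1 - s)) = s := by
        rw [sub_sub_cancel]
        exact min_eq_right (by linarith)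
      have k1 : 0 ≤ s * (1 - s) := mul_nonneg s0 (by linarith)
      have k2 : s * (1 - s) ≤ 1 / 4 := by nlinarith [sq_nonneg (s - 1 / 2)]
      have g1 : 1 - s + s ^ 2 = 1 - s * (1 - s) := by ring
      have g2 : 1 - (1 - s) + (1 - s) ^ 2 = 1 - s * (1 - s) := by ring
      have hQ2 := Q2_le k1 k2
      have hQ3 := Q3_ge k1 k2
      simp only [hs, m1, m2, g1, g2]
      set G2 := 1 / (1 - s * (1 - s)) ^ 2 with hG2
      set G3 := 1 / (1 - s * (1 - s)) ^ 3 with hG3
      have hG0 : 0 ≤ G3 := by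
        rw [hG3]
        have : 0 < 1 - s * (1 - s) := by linarith
        positivity
      have e2 : s * ((A * s + B * (1 - s)) / 2 * G2 - c * (A * s + B * (1 - s)) ^ 2 * G3)
          + s * ((A * (1 - s) + B * (1 - (1 - s))) / 2 * G2
            - c * (A * (1 - s) + B * (1 - (1 - s))) ^ 2 * G3)
          = (A + B) / 2 * s * G2 - c * s * G3 * ((A ^ 2 + B ^ 2)
            - 2 * (s * (1 - s)) * (A - B) ^ 2) := by ring
      rw [e2]
      have p1 := mul_le_mul_of_nonneg_left hQ2 (show 0 ≤ (A + B) / 2 * s by positivity)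
      have p2 := mul_le_mul_of_nonneg_left hQ3 (show 0 ≤ c * (A ^ 2 + B ^ 2) * s by positivity)
      have p3 : 0 ≤ c * s * G3 * (2 * (s * (1 - s)) * (A - B) ^ 2) :=
        mul_nonneg (by positivity) (mul_nonneg (by linarith) (sq_nonneg _))
      linarith
  · exact Continuous.intervalIntegrable (by fun_prop) _ _
  · exact Continuous.intervalIntegrable (by fun_prop) _ _

/-- corner part -/
theorem corner_int {M a : ℝ} (ha : 0 ≤ a) (ha1 : a ≤ 1) :
    IntegrableOn (fun s => (Icc (0 : ℝ) a).indicator (fun s => s * M) s) (Icc 0 1) ∧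
      ∫ s in Icc (0 : ℝ) 1, (Icc (0 : ℝ) a).indicator (fun s => s * M) s = a ^ 2 / 2 * M := by
  have hi : IntegrableOn (fun s : ℝ => s * M) (Icc 0 1) :=
    (by fun_prop : Continuous fun s : ℝ => s * M).continuousOn.integrableOn_compact isCompact_Icc
  refine ⟨hi.indicator measurableSet_Icc, ?_⟩
  rw [setIntegral_indicator measurableSet_Icc]
  have : Icc (0 : ℝ) 1 ∩ Icc 0 a = Icc 0 a := by
    ext s
    simp only [mem_inter_iff, mem_Icc]
    constructor
    · exact fun h => h.2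
    · exact fun h => ⟨⟨h.1, h.2.trans ha1⟩, h⟩
  rw [this, integral_Icc_eq_integral_Ioc, ← intervalIntegral.integral_of_le ha,
    intervalIntegral.integral_mul_const, integral_id]
  ring

/-- corner part, other end -/
theorem corner_int' {M a : ℝ} (ha : 0 ≤ a) (ha1 : a ≤ 1) :
    IntegrableOn (fun s => (Icc (1 - a) 1).indicator (fun s => (1 - s) * M) s) (Icc (0 : ℝ) 1) ∧
      ∫ s in Icc (0 : ℝ) 1, (Icc (1 - a) 1).indicator (fun s => (1 - s) * M) s
        = a ^ 2 / 2 * M := by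
  have hi : IntegrableOn (fun s : ℝ => (1 - s) * M) (Icc 0 1) :=
    (by fun_prop : Continuous fun s : ℝ => (1 - s) * M).continuousOn.integrableOn_compact
      isCompact_Icc
  refine ⟨hi.indicator measurableSet_Icc, ?_⟩
  rw [setIntegral_indicator measurableSet_Icc]
  have : Icc (0 : ℝ) 1 ∩ Icc (1 - a) 1 = Icc (1 - a) 1 := by
    ext s
    simp only [mem_inter_iff, mem_Icc]
    constructor
    · exact fun h => h.2
    · exact fun h => ⟨⟨by linarith [h.1], h.2⟩, h⟩
  rw [this, integral_Icc_eq_integral_Ioc, ← intervalIntegral.integral_of_le (by linarith),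
    intervalIntegral.integral_mul_const,
    intervalIntegral.integral_comp_sub_left (fun s => s) 1, integral_id]
  ring

end Pool.Agent.Helper96.Kap
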