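import Pool.Agent.Helper96.MEI.SlB

/-!
# Project MEI, regime I: the slice lemma, assembly
-/

namespace Helper96.MEI

open Set MeasureTheory Real Helper22.MEI
open Pool.Agent.Helper55.MEI (nz nz_pos nz_sq nz_neg nz_cont nz_ge nz_ge' nz_mono c0 c0_pos c0_sq om
  om_pos om_neg om_cont Wz Wz_om Wz_cont Wz_neg z_om_le)

variable {e m : ℝ} {u u' : ℝ → ℝ}

theorem rl_cont1 (u : ℝ → ℝ) : Continuous (rl u) := by
  unfold rl
  exact (lp_cont.mul continuous_const).add (lq_cont.mul continuous_const)

theorem u_eq (u : ℝ → ℝ) (z : ℝ) : u z = rl u z + wc u z := by unfold wc; ring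

/-- the weight against the convex part -/
theorem Sli.cW (h : Sli e u u') :
    ∫ z in (-z0)..z0, Wz z * (u z - rl u z) = ∫ z in (0 : ℝ)..z0, Wz z * gg u z := by
  have h1 := fold (F := fun z => Wz z * wc u z) (Wz_cont.continuousOn.mul h.wcc)
  show ∫ z in (-z0)..z0, Wz z * wc u z = _
  rw [h1]
  refine intervalIntegral.integral_congr fun z _ => ?_
  show Wz z * wc u z + Wz (-z) * wc u (-z) = Wz z * (wc u z + wc u (-z))
  rw [Wz_neg]
  ring

theorem Sli.cA (h : Sli e u u') :
    ∫ z in (-z0)..z0, Wz z * (rl u z + (u z - rl u z) / 2) =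
      (u z0 + u (-z0)) * (π / 6 - c0 / 2) + (∫ z in (0 : ℝ)..z0, Wz z * gg u z) / 2 := by
  have h1 := fold (F := fun z => Wz z * (rl u z + wc u z / 2))
    (Wz_cont.continuousOn.mul ((rl_cont1 u).continuousOn.add (h.wcc.div_const 2)))
  show ∫ z in (-z0)..z0, Wz z * (rl u z + wc u z / 2) = _
  have h2 : IntervalIntegrable (fun z => (u z0 + u (-z0)) * Wz z) volume 0 z0 :=
    (Wz_cont.intervalIntegrable _ _).const_mul _
  rw [h1, ← int_W, ← intervalIntegral.integral_const_mul, ← intervalIntegral.integral_div,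
    ← intervalIntegral.integral_add h2 (h.iWg.div_const 2)]
  refine intervalIntegral.integral_congr fun z _ => ?_
  show Wz z * (rl u z + wc u z / 2) + Wz (-z) * (rl u (-z) + wc u (-z) / 2) =
    (u z0 + u (-z0)) * Wz z + Wz z * gg u z / 2
  rw [Wz_neg, ← rl_sum u z]
  unfold gg
  ring

/-- the left lens -/
theorem Sli.lensl (h : Sli e u u') (hm : |u' (-z0)| ≤ 1 / 60) :
    (∫ z in (-e)..(-z0), 2 * u z / (1 + z ^ 2) ^ 2) + (∫ z in (-e)..(-z0), u' z ^ 2 / nz z) +
      (∫ z in (-e)..(-z0), om z * (|z| * |u' z| * u z)) ≤ 0.0828005 * u (-z0) := by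
  have h1 := h.refl.lens (by rwa [abs_neg])
  have e1 : ∫ z in (-e)..(-z0), 2 * u z / (1 + z ^ 2) ^ 2 =
      ∫ z in z0..e, 2 * u (-z) / (1 + z ^ 2) ^ 2 := by
    rw [← intervalIntegral.integral_comp_neg]
    refine intervalIntegral.integral_congr fun z _ => ?_
    show 2 * u (-z) / (1 + (-z) ^ 2) ^ 2 = _
    rw [neg_sq]
  have e2 : ∫ z in (-e)..(-z0), u' z ^ 2 / nz z = ∫ z in z0..e, (-u' (-z)) ^ 2 / nz z := by
    rw [← intervalIntegral.integral_comp_neg]
    refine intervalIntegral.integral_congr fun z _ => ?_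
    show u' (-z) ^ 2 / nz (-z) = _
    rw [neg_sq, nz_neg]
  have e3 : ∫ z in (-e)..(-z0), om z * (|z| * |u' z| * u z) =
      ∫ z in z0..e, om z * (|z| * |(-u' (-z))| * u (-z)) := by
    rw [← intervalIntegral.integral_comp_neg]
    refine intervalIntegral.integral_congr fun z _ => ?_
    show om (-z) * (|(-z)| * |u' (-z)| * u (-z)) = _
    rw [om_neg, abs_neg, abs_neg]
  rw [e1, e2, e3]
  exact h1

/-- row R5: the slice lemma -/
theorem Sli.main (h : Sli e u u') (hm1 : |u' z0| ≤ 1 / 60) (hm2 : |u' (-z0)| ≤ 1 / 60) :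
    0.001 * (u z0 + u (-z0)) + 0.11 * (∫ z in (-z0)..z0, Wz z * (u z - rl u z)) ≤ FS e u u' := by
  have hz0 := z0_pos
  have hg := z0_gt
  have hl := z0_lt
  have hp : 0 ≤ u z0 := h.nn (left_mem_Icc.2 h.he)
  have hq : 0 ≤ u (-z0) := h.refl.nn (left_mem_Icc.2 h.he)
  have hee : e - z0 < 0.12977 := by linarith [s_sub, h.hes]
  have hp1 : u z0 ≤ 0.12977 / 60 := by
    have := h.p_le hm1
    linarith
  have hq1 : u (-z0) ≤ 0.12977 / 60 := by
    have := h.refl.p_le (m := 1 / 60) (by rwa [abs_neg])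
    linarith
  -- slope of the chord
  have hb : |bb u| ≤ 0.0018733 := by
    unfold bb
    rw [abs_div, abs_of_pos (by linarith : (0:ℝ) < 2 * z0), div_le_iff₀ (by linarith)]
    have : |u z0 - u (-z0)| ≤ 0.12977 / 60 := by
      rw [abs_le]
      constructor <;> linarith
    linarith
  have hb2 : 2 * z0 * bb u ^ 2 ≤ 0.0018733 * (u z0 + u (-z0)) := by
    have e1 : 2 * z0 * bb u ^ 2 = |bb u| * |u z0 - u (-z0)| := by
      rw [← abs_mul]
      have : bb u * (u z0 - u (-z0)) = 2 * z0 * bb u ^ 2 := by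
        unfold bb
        field_simp
      rw [this, abs_of_nonneg (by positivity)]
    rw [e1]
    have e2 : |u z0 - u (-z0)| ≤ u z0 + u (-z0) := by
      rw [abs_le]
      constructor <;> linarith
    exact mul_le_mul hb e2 (abs_nonneg _) (by norm_num)
  have hbl := (abs_le.mp hb).1
  have hbr := (abs_le.mp hb).2
  have hv := h.vsq (M := 0.01854) (by linarith [(abs_le.mp hm2).2])
    (by linarith [(abs_le.mp hm1).1])
  have hT := h.cT
  have hcg := h.cg
  have hch := h.ch
  have hsq := h.sqJ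
  have hA := h.cA
  have hW := h.cW
  have hL := h.lens hm1
  have hLl := h.lensl hm2
  have hwc0 : 0 ≤ wc u 0 := h.wcn ⟨by linarith, hz0.le⟩
  set C := ∫ z in (0 : ℝ)..z0, Wz z * gg u z with hC
  -- the three parts of the square integral
  have cD : ContinuousOn (fun z => u' z ^ 2 / nz z) (Icc (-e) e) :=
    ContinuousOn.div (h.cu.pow 2) nz_cont.continuousOn fun z _ => (nz_pos z).ne'
  have mne : -e ∈ Icc (-e) e := ⟨le_rfl, by linarith [h.he]⟩
  have hD : ∫ z in (-e)..e, u' z ^ 2 / nz z = (∫ z in (-e)..(-z0), u' z ^ 2 / nz z) +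
      (∫ z in (-z0)..z0, u' z ^ 2 / nz z) + ∫ z in z0..e, u' z ^ 2 / nz z := by
    have j1 := Sli.ii cD mne h.memn0
    have j2 := Sli.ii cD h.memn0 h.mem0
    have j3 := Sli.ii cD h.mem0 h.meme
    rw [intervalIntegral.integral_add_adjacent_intervals j1 j2,
      intervalIntegral.integral_add_adjacent_intervals (j1.trans j2) j3]
  -- the mixed terms of the middle
  have cuJ : ContinuousOn u' (Icc (-z0) z0) := h.cu.mono fun z hz => h.memJ hz
  have cuu : ContinuousOn u (Icc (-z0) z0) := h.cont.mono fun z hz => h.memJ hz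
  have hM : ∫ z in (-z0)..z0, om z * (-(z * u' z * (u z - rl u z)) +
      z0 * (lp z * |u' z0| + lq z * |u' (-z0)|) * u z) ≤
      (1 / 60) * (∫ z in (0 : ℝ)..z0, om z * z * gg u z) + z0 / 120 * (u z0 + u (-z0)) +
        z0 / 60 * ∫ z in (0 : ℝ)..z0, om z * gg u z := by
    have c1 : ContinuousOn (fun z => om z * (-(z * u' z * (u z - rl u z)) +
        z0 * (lp z * |u' z0| + lq z * |u' (-z0)|) * u z)) (Icc (-z0) z0) := by
      refine om_cont.continuousOn.mul ((((continuousOn_id.mul cuJ).mul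
        (cuu.sub (rl_cont1 u).continuousOn)).neg).add ((continuousOn_const.mul
        ((lp_cont.continuousOn.mul continuousOn_const).add
        (lq_cont.continuousOn.mul continuousOn_const))).mul cuu))
    have c2 : ContinuousOn (fun z => om z * (|z| / 60 * wc u z + z0 / 60 * (rl u z + wc u z)))
        (Icc (-z0) z0) := by
      refine om_cont.continuousOn.mul (((continuous_abs.continuousOn.div_const 60).mul h.wcc).add
        (continuousOn_const.mul ((rl_cont1 u).continuousOn.add h.wcc)))
    have k1 : ∫ z in (-z0)..z0, om z * (-(z * u' z * (u z - rl u z)) +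
        z0 * (lp z * |u' z0| + lq z * |u' (-z0)|) * u z) ≤
        ∫ z in (-z0)..z0, om z * (|z| / 60 * wc u z + z0 / 60 * (rl u z + wc u z)) := by
      refine intervalIntegral.integral_mono_on nzz
        (ContinuousOn.intervalIntegrable (by rwa [uIcc_of_le nzz]))
        (ContinuousOn.intervalIntegrable (by rwa [uIcc_of_le nzz])) fun z hz => ?_
      refine mul_le_mul_of_nonneg_left ?_ (om_pos z).le
      have w1 := h.wcn hz
      have l1 := lp_nonneg hz
      have l2 := lq_nonneg hz
      have l3 := lp_add_lq z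
      have r1 : 0 ≤ rl u z := add_nonneg (mul_nonneg l1 hp) (mul_nonneg l2 hq)
      have b1 : |u' z| ≤ 1 / 60 := by
        have a1 := h.am (left_mem_Icc.2 nzz) hz hz.1
        have a2 := h.am hz (right_mem_Icc.2 nzz) hz.2
        rw [abs_le]
        constructor
        · linarith [(abs_le.mp hm1).1]
        · linarith [(abs_le.mp hm2).2]
      have b2 : -(z * u' z * (u z - rl u z)) ≤ |z| / 60 * wc u z := by
        have b3 : -(z * u' z) ≤ |z| / 60 := by
          calc -(z * u' z) ≤ |z * u' z| := neg_le_abs _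
            _ = |z| * |u' z| := abs_mul _ _
            _ ≤ |z| * (1 / 60) := mul_le_mul_of_nonneg_left b1 (abs_nonneg _)
            _ = |z| / 60 := by ring
        have b4 := mul_le_mul_of_nonneg_right b3 w1
        show -(z * u' z * wc u z) ≤ _
        linarith
      have b5 : lp z * |u' z0| + lq z * |u' (-z0)| ≤ 1 / 60 := by
        have := mul_le_mul_of_nonneg_left hm1 l1
        have := mul_le_mul_of_nonneg_left hm2 l2
        linarith
      have b6 : z0 * (lp z * |u' z0| + lq z * |u' (-z0)|) * u z ≤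
          z0 / 60 * (rl u z + wc u z) := by
        rw [← u_eq u z]
        have b7 : 0 ≤ u z := by
          rw [u_eq u z]
          linarith
        have b8 : z0 * (lp z * |u' z0| + lq z * |u' (-z0)|) ≤ z0 / 60 := by
          have := mul_le_mul_of_nonneg_left b5 hz0.le
          linarith
        exact mul_le_mul_of_nonneg_right b8 b7
      linarith
    have k2 := fold c2
    have k3 : ∫ z in (0 : ℝ)..z0, (om z * (|z| / 60 * wc u z + z0 / 60 * (rl u z + wc u z)) +
        om (-z) * (|(-z)| / 60 * wc u (-z) + z0 / 60 * (rl u (-z) + wc u (-z)))) =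
        (1 / 60) * (∫ z in (0 : ℝ)..z0, om z * z * gg u z) +
        (z0 / 60 * (u z0 + u (-z0))) * (∫ z in (0 : ℝ)..z0, om z) +
        z0 / 60 * ∫ z in (0 : ℝ)..z0, om z * gg u z := by
      have j1 := h.iozg.const_mul (1 / 60)
      have j2 : IntervalIntegrable (fun z => (z0 / 60 * (u z0 + u (-z0))) * om z) volume 0 z0 :=
        (om_cont.intervalIntegrable _ _).const_mul _
      have j3 := h.iog.const_mul (z0 / 60)
      rw [← intervalIntegral.integral_const_mul, ← intervalIntegral.integral_const_mul,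
        ← intervalIntegral.integral_const_mul, ← intervalIntegral.integral_add j1 j2,
        ← intervalIntegral.integral_add (j1.add j2) j3]
      refine intervalIntegral.integral_congr fun z hz => ?_
      rw [uIcc_of_le hz0.le] at hz
      show om z * (|z| / 60 * wc u z + z0 / 60 * (rl u z + wc u z)) +
        om (-z) * (|(-z)| / 60 * wc u (-z) + z0 / 60 * (rl u (-z) + wc u (-z))) =
        1 / 60 * (om z * z * gg u z) + z0 / 60 * (u z0 + u (-z0)) * om z +
        z0 / 60 * (om z * gg u z)
      rw [om_neg, abs_neg, abs_of_nonneg hz.1, ← rl_sum u z]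
      unfold gg
      ring
    rw [k2, k3, int_om] at k1
    linarith
  -- sum
  unfold FS
  rw [hA, hW, hD]
  have hC0 : 0 ≤ C := by linarith
  have n1 : 0.090585 * (u z0 + u (-z0)) ≤ (u z0 + u (-z0)) * (π / 6 - c0 / 2) := by
    have n2 : 0.090585 ≤ π / 6 - c0 / 2 := by
      have := Real.pi_gt_d6
      linarith [c0_lt]
    have := mul_le_mul_of_nonneg_left n2 (add_nonneg hp hq)
    linarith
  have n3 : z0 / 120 * (u z0 + u (-z0)) ≤ 0.57736 / 120 * (u z0 + u (-z0)) :=
    mul_le_mul_of_nonneg_right (by linarith) (add_nonneg hp hq)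
  have n4 : z0 / 60 * (∫ z in (0 : ℝ)..z0, om z * gg u z) ≤ 0.57736 / 60 * (5.52 * C) := by
    have n5 : 0 ≤ ∫ z in (0 : ℝ)..z0, om z * gg u z :=
      intervalIntegral.integral_nonneg hz0.le fun z hz => mul_nonneg (om_pos z).le (h.ggn hz)
    exact mul_le_mul (by linarith) hch n5 (by norm_num)
  linarith

end Helper96.MEI
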