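import Pool.Agent.Helper22.MEI.CylAdm
import Pool.Agent.Helper96.MEI.E2c
import Pool.Agent.Helper55.MEI.R1c
import Pool.Agent.Helper96.MEI.SlC

/-!
# Project MEI, regime I: the local theorem
-/

namespace Helper96.MEI

open Set MeasureTheory Real Helper22.MEI
open Pool.Agent.Helper55.MEI (nz nz_pos nz_sq nz_neg nz_cont c0 om om_pos om_neg om_cont Wz Wz_om
  Wz_cont)

variable {f : ℝ × ℝ → ℝ}

theorem g0Y_mid {p : ℝ × ℝ} (h : 3 * p.2 ^ 2 ≤ 1 + p.1 ^ 2) : g0Y p = 0 := by
  unfold g0Y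
  rw [if_pos h]

theorem g0Y_lens {p : ℝ × ℝ} (h : 1 + p.1 ^ 2 ≤ 3 * p.2 ^ 2) :
    g0Y p = p.2 / NN p - sg p.2 / 2 := by
  have hh : 1 / 2 < |p.2| := half_lt h
  unfold g0Y
  split_ifs with hc
  · have he : 3 * p.2 ^ 2 = 1 + p.1 ^ 2 := le_antisymm hc h
    obtain ⟨e1, e2⟩ := iface he
    rw [e1]
    have hy0 : |p.2| ≠ 0 := by linarith
    have h5 : p.2 = sg p.2 * |p.2| := by
      rw [← sg_mul hh.le, ← mul_assoc, sg_sq hh.le, one_mul]
    have : p.2 / (2 * |p.2|) = sg p.2 / 2 := by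
      rw [div_eq_div_iff (by positivity) two_ne_zero]
      linear_combination 2 * h5
    rw [this]
    ring
  · rfl

/-- position of the interface on the curve -/
theorem cu_mid {a z : ℝ} (ha : a ∈ Icc (-p0) p0) (hz : |z| ≤ z0) :
    3 * (cu z a).2 ^ 2 ≤ 1 + (cu z a).1 ^ 2 := by
  have hc := cos_pos_p0 ha
  refine mid_iff.2 ?_
  show |z / cos a| ≤ yi (tan a)
  rw [abs_div, abs_of_pos hc, yi_tan hc]
  exact div_le_div_of_nonneg_right hz hc.le

theorem cu_lens {a z : ℝ} (ha : a ∈ Icc (-p0) p0) (hz : z0 ≤ |z|) :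
    1 + (cu z a).1 ^ 2 ≤ 3 * (cu z a).2 ^ 2 := by
  have hc := cos_pos_p0 ha
  have h1 : yi (tan a) ≤ |z / cos a| := by
    rw [abs_div, abs_of_pos hc, yi_tan hc]
    exact div_le_div_of_nonneg_right hz hc.le
  rw [← yi_sq, ← sq_abs (cu z a).2]
  have h2 := pow_le_pow_left₀ (yi_pos (tan a)).le h1 2
  show 3 * yi (tan a) ^ 2 ≤ 3 * |z / cos a| ^ 2
  linarith

theorem half_cu {a z : ℝ} (ha : a ∈ Icc (-p0) p0) (hz : z0 ≤ |z|) : 1 / 2 < |z / cos a| :=
  half_lt (cu_lens ha hz)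

theorem sli_of_adm (h : Adm f) {a : ℝ} (ha : a ∈ Icc (-p0) p0) :
    Sli (s * Real.cos a) (wF f a) (wzF f a) := by
  have hc := cos_pos_p0 ha
  have hz0 := z0_pos
  have he := z0_le_e ha
  have hes := e_le_s a
  -- derivative
  have hd : ∀ z, HasDerivAt (wF f a) (wzF f a z) z := by
    intro z
    have h1 := line_Y (PP_diff h) (tan a) (z / cos a)
    have h2 : HasDerivAt (fun z => z / cos a) (1 / cos a) z := (hasDerivAt_id z).div_const _
    have h3 := (h1.comp z h2).const_mul (cos a)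
    refine h3.congr_deriv ?_
    show cos a * (dY (PP f) (tan a, z / cos a) * (1 / cos a)) = dY (PP f) (tan a, z / cos a)
    field_simp
  have hcont : Continuous (wzF f a) := by
    refine (dY_PP_cont h).comp ?_
    show Continuous fun z : ℝ => (tan a, z / cos a)
    fun_prop
  have hval : ∀ z, wzF f a z = g0Y (cu z a) - dY f (cu z a) := fun z => dY_PP h _
  have hmono : ∀ x y : ℝ, x ≤ y → x / cos a ≤ y / cos a := fun x y hxy =>
    div_le_div_of_nonneg_right hxy hc.le
  have hN : ∀ x y : ℝ, x ≤ y → (cu x a).2 / NN (cu x a) - dY f (cu x a) ≤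
      (cu y a).2 / NN (cu y a) - dY f (cu y a) := by
    intro x y hxy
    have := dY_mono' h (tan a) (hmono x y hxy)
    show x / cos a / NN (tan a, x / cos a) - dY f (tan a, x / cos a) ≤
      y / cos a / NN (tan a, y / cos a) - dY f (tan a, y / cos a)
    linarith
  refine ⟨he, hes, fun z _ => hd z, hcont.continuousOn, ?_, ?_, ?_, ?_, ?_, ?_, ?_⟩
  · intro x hx y hy hxy
    rw [hval x, hval y, g0Y_mid (cu_mid ha (abs_le.mpr hx)), g0Y_mid (cu_mid ha (abs_le.mpr hy))]
    have := dY_mono h (tan a) (hmono x y hxy)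
    show 0 - dY f (tan a, y / cos a) ≤ 0 - dY f (tan a, x / cos a)
    linarith
  · intro x hx y hy hxy
    have hx1 : z0 ≤ |x| := hx.1.trans (le_abs_self x)
    have hy1 : z0 ≤ |y| := hy.1.trans (le_abs_self y)
    have sx : sg (x / cos a) = 1 := by
      refine sg_pos ?_
      have := half_cu ha hx1
      rw [abs_of_nonneg (div_nonneg (by linarith [hx.1]) hc.le)] at this
      exact this.le
    have sy : sg (y / cos a) = 1 := by
      refine sg_pos ?_
      have := half_cu ha hy1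
      rw [abs_of_nonneg (div_nonneg (by linarith [hy.1]) hc.le)] at this
      exact this.le
    rw [hval x, hval y, g0Y_lens (cu_lens ha hx1), g0Y_lens (cu_lens ha hy1)]
    have h1 := hN x y hxy
    have h2 : sg (cu x a).2 = 1 := sx
    have h3 : sg (cu y a).2 = 1 := sy
    rw [h2, h3]
    linarith
  · intro x hx y hy hxy
    have hx1 : z0 ≤ |x| := by
      have := neg_le_abs x
      linarith [hx.2]
    have hy1 : z0 ≤ |y| := by
      have := neg_le_abs y
      linarith [hy.2]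
    have sx : sg (x / cos a) = -1 := by
      refine sg_neg ?_
      have := half_cu ha hx1
      rw [abs_of_nonpos (div_nonpos_of_nonpos_of_nonneg (by linarith [hx.2]) hc.le)] at this
      linarith
    have sy : sg (y / cos a) = -1 := by
      refine sg_neg ?_
      have := half_cu ha hy1
      rw [abs_of_nonpos (div_nonpos_of_nonpos_of_nonneg (by linarith [hy.2]) hc.le)] at this
      linarith
    rw [hval x, hval y, g0Y_lens (cu_lens ha hx1), g0Y_lens (cu_lens ha hy1)]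
    have h1 := hN x y hxy
    have h2 : sg (cu x a).2 = -1 := sx
    have h3 : sg (cu y a).2 = -1 := sy
    rw [h2, h3]
    linarith
  · exact (cyl_of_adm h).b2 a ha _ (abs_of_nonneg (mul_nonneg s_pos.le hc.le))
  · exact (cyl_of_adm h).b2 a ha _ (by
      rw [abs_neg]; exact abs_of_nonneg (mul_nonneg s_pos.le hc.le))
  · refine dY_PP_bY h ?_ (tan_le_s ha)
    show |s * cos a / cos a| = s
    rw [mul_div_cancel_right₀ _ hc.ne', abs_of_pos s_pos]
  · refine dY_PP_bY h ?_ (tan_le_s ha)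
    show |(-(s * cos a) / cos a)| = s
    rw [neg_div, abs_neg, mul_div_cancel_right₀ _ hc.ne', abs_of_pos s_pos]

/-- the coercive lower bound of one slice -/
noncomputable def LB (u : ℝ → ℝ) : ℝ :=
  0.001 * (u z0 + u (-z0)) + 0.11 * ∫ z in (-z0)..z0, Wz z * (u z - rl u z)

theorem LB_cont {w wp wz : ℝ → ℝ → ℝ} (h : Cyl w wp wz) :
    ContinuousOn (fun a => LB (w a)) (Icc (-p0) p0) := by
  have cz0 : Continuous fun _ : ℝ => z0 := continuous_const
  have cnz0 : Continuous fun _ : ℝ => -z0 := continuous_const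
  have c1 : ContinuousOn (Function.uncurry fun a z => Wz z * (w a z - rl (w a) z))
      (Icc (-p0) p0 ×ˢ Icc (-s) s) := (cont_snd Wz_cont).mul (h.cw.sub (rl_cont h))
  unfold LB
  exact (continuousOn_const.mul ((slice_cont h.cw z0_mem).add (slice_cont h.cw nz0_mem))).add
    (continuousOn_const.mul (param_cont c1 cnz0 cz0 (fun _ _ => nz0_mem) fun _ _ => z0_mem))

theorem LB_nonneg (h : Adm f) {a : ℝ} (ha : a ∈ Icc (-p0) p0) : 0 ≤ LB (wF f a) := by
  have hs := sli_of_adm h ha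
  have h1 : 0 ≤ wF f a z0 := hs.nn (left_mem_Icc.2 hs.he)
  have h2 : 0 ≤ wF f a (-z0) := hs.refl.nn (left_mem_Icc.2 hs.he)
  have h3 : 0 ≤ ∫ z in (-z0)..z0, Wz z * (wF f a z - rl (wF f a) z) :=
    intervalIntegral.integral_nonneg nzz fun z hz =>
      mul_nonneg (Pool.Agent.Helper55.MEI.Wz_nonneg (abs_le.mpr hz)) (hs.wcn hz)
  unfold LB
  positivity

/-- local theorem, coercive form -/
theorem local_coercive (h : Adm f) (hM : ∀ a ∈ Icc (-p0) p0, |wzF f a z0| ≤ 1 / 60 ∧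
    |wzF f a (-z0)| ≤ 1 / 60) :
    ∫ a in (-p0)..p0, LB (wF f a) ≤
      ∫ a in (-p0)..p0, DS (s * Real.cos a) (wF f a) (wzF f a) (wpF f a) := by
  have hC := cyl_of_adm h
  refine le_trans ?_ (E2 hC)
  refine intervalIntegral.integral_mono_on ple (ii (LB_cont hC)) (ii (FS_cont hC)) fun a ha => ?_
  exact (sli_of_adm h ha).main (hM a ha).1 (hM a ha).2

/-- local theorem -/
theorem local_nonneg (h : Adm f) (hM : ∀ a ∈ Icc (-p0) p0, |wzF f a z0| ≤ 1 / 60 ∧
    |wzF f a (-z0)| ≤ 1 / 60) :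
    0 ≤ ∫ a in (-p0)..p0, DS (s * Real.cos a) (wF f a) (wzF f a) (wpF f a) := by
  refine le_trans ?_ (local_coercive h hM)
  exact intervalIntegral.integral_nonneg ple fun a ha => LB_nonneg h ha

/-- slopes of `P` on the `Y`-interfaces are at most `m` -/
def SlopeY (f : ℝ × ℝ → ℝ) (m : ℝ) : Prop :=
  ∀ p : ℝ × ℝ, |p.1| ≤ s → 3 * p.2 ^ 2 = 1 + p.1 ^ 2 → |dY (PP f) p| ≤ m

theorem slope_cyl {m : ℝ} (hM : SlopeY f m) {a : ℝ} (ha : a ∈ Icc (-p0) p0) :
    |wzF f a z0| ≤ m ∧ |wzF f a (-z0)| ≤ m := by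
  have hc := cos_pos_p0 ha
  have h1 : 3 * (z0 / cos a) ^ 2 = 1 + tan a ^ 2 := by
    rw [← yi_sq, yi_tan hc]
  constructor
  · exact hM (cu z0 a) (tan_le_s ha) h1
  · refine hM (cu (-z0) a) (tan_le_s ha) ?_
    show 3 * (-z0 / cos a) ^ 2 = 1 + tan a ^ 2
    rw [← h1, neg_div, neg_sq]

/-- local theorem, coercive form, for the functional -/
theorem local_Dfun_coercive (h : Adm f) (hM : SlopeY f (1 / 60)) :
    ∫ a in (-p0)..p0, LB (wF f a) ≤ Dfun (fun p => f0 p - f p) := by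
  rw [Helper55.MEI.dfun_DS h]
  exact local_coercive h fun a ha => slope_cyl hM ha

/-- **local theorem** -/
theorem local_Dfun (h : Adm f) (hM : SlopeY f (1 / 60)) : 0 ≤ Dfun (fun p => f0 p - f p) := by
  rw [Helper55.MEI.dfun_DS h]
  exact local_nonneg h fun a ha => slope_cyl hM ha

/-- the same for the other function -/
theorem local_Dfun' (h : Adm f) (hM : SlopeY (sw f) (1 / 60)) :
    0 ≤ Dfun (fun p => f0 p - f p) := by
  rw [← Dfun_swap h]
  exact local_Dfun h.swap hM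

end Helper96.MEI
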