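import Pool.Agent.Helper96.MEI.SpC

/-!
# Project MEI, regime I: the slice lemma in terms of values, assembly
-/

namespace Helper96.MEI

open Set MeasureTheory Real Helper22.MEI
open Pool.Agent.Helper55.MEI (nz nz_pos nz_sq nz_neg nz_cont nz_ge nz_ge' nz_mono c0 c0_pos c0_sq om
  om_pos om_neg om_cont om_le Wz Wz_om Wz_cont Wz_neg z_om_le)

variable {e m : ℝ} {u u' : ℝ → ℝ}

/-- the mixed terms of the middle -/
theorem Sli.midM (h : Sli e u u') (hm1 : |u' z0| ≤ m) (hm2 : |u' (-z0)| ≤ m) :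
    ∫ z in (-z0)..z0, om z * (-(z * u' z * (u z - rl u z)) +
      z0 * (lp z * |u' z0| + lq z * |u' (-z0)|) * u z) ≤
      m * (∫ z in (0 : ℝ)..z0, om z * z * gg u z) + z0 * m / 2 * (u z0 + u (-z0)) +
        z0 * m * ∫ z in (0 : ℝ)..z0, om z * gg u z := by
  have hz0 := z0_pos
  have hp : 0 ≤ u z0 := h.nn (left_mem_Icc.2 h.he)
  have hq : 0 ≤ u (-z0) := h.refl.nn (left_mem_Icc.2 h.he)
  have cuJ : ContinuousOn u' (Icc (-z0) z0) := h.cu.mono fun z hz => h.memJ hz
  have cuu : ContinuousOn u (Icc (-z0) z0) := h.cont.mono fun z hz => h.memJ hz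
  have c1 : ContinuousOn (fun z => om z * (-(z * u' z * (u z - rl u z)) +
      z0 * (lp z * |u' z0| + lq z * |u' (-z0)|) * u z)) (Icc (-z0) z0) := by
    refine om_cont.continuousOn.mul ((((continuousOn_id.mul cuJ).mul
      (cuu.sub (rl_cont1 u).continuousOn)).neg).add ((continuousOn_const.mul
      ((lp_cont.continuousOn.mul continuousOn_const).add
      (lq_cont.continuousOn.mul continuousOn_const))).mul cuu))
  have c2 : ContinuousOn (fun z => om z * (|z| * m * wc u z + z0 * m * (rl u z + wc u z)))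
      (Icc (-z0) z0) := by
    refine om_cont.continuousOn.mul (((continuous_abs.continuousOn.mul
      continuousOn_const).mul h.wcc).add
      (continuousOn_const.mul ((rl_cont1 u).continuousOn.add h.wcc)))
  have k1 : ∫ z in (-z0)..z0, om z * (-(z * u' z * (u z - rl u z)) +
      z0 * (lp z * |u' z0| + lq z * |u' (-z0)|) * u z) ≤
      ∫ z in (-z0)..z0, om z * (|z| * m * wc u z + z0 * m * (rl u z + wc u z)) := by
    refine intervalIntegral.integral_mono_on nzz
      (ContinuousOn.intervalIntegrable (by rwa [uIcc_of_le nzz]))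
      (ContinuousOn.intervalIntegrable (by rwa [uIcc_of_le nzz])) fun z hz => ?_
    refine mul_le_mul_of_nonneg_left ?_ (om_pos z).le
    have w1 := h.wcn hz
    have l1 := lp_nonneg hz
    have l2 := lq_nonneg hz
    have l3 := lp_add_lq z
    have r1 : 0 ≤ rl u z := add_nonneg (mul_nonneg l1 hp) (mul_nonneg l2 hq)
    have b1 : |u' z| ≤ m := by
      have a1 := h.am (left_mem_Icc.2 nzz) hz hz.1
      have a2 := h.am hz (right_mem_Icc.2 nzz) hz.2
      rw [abs_le]
      constructor
      · linarith [(abs_le.mp hm1).1]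
      · linarith [(abs_le.mp hm2).2]
    have b2 : -(z * u' z * (u z - rl u z)) ≤ |z| * m * wc u z := by
      have b3 : -(z * u' z) ≤ |z| * m := by
        calc -(z * u' z) ≤ |z * u' z| := neg_le_abs _
          _ = |z| * |u' z| := abs_mul _ _
          _ ≤ |z| * m := mul_le_mul_of_nonneg_left b1 (abs_nonneg _)
      have b4 := mul_le_mul_of_nonneg_right b3 w1
      show -(z * u' z * wc u z) ≤ _
      linarith
    have b5 : lp z * |u' z0| + lq z * |u' (-z0)| ≤ m := by
      have t1 := mul_le_mul_of_nonneg_left hm1 l1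
      have t2 := mul_le_mul_of_nonneg_left hm2 l2
      have t3 : lp z * m + lq z * m = m := by rw [← add_mul, l3, one_mul]
      linarith
    have b6 : z0 * (lp z * |u' z0| + lq z * |u' (-z0)|) * u z ≤
        z0 * m * (rl u z + wc u z) := by
      rw [← u_eq u z]
      have b7 : 0 ≤ u z := by
        rw [u_eq u z]
        linarith
      have b8 : z0 * (lp z * |u' z0| + lq z * |u' (-z0)|) ≤ z0 * m := by
        have := mul_le_mul_of_nonneg_left b5 hz0.le
        linarith
      exact mul_le_mul_of_nonneg_right b8 b7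
    linarith
  have k2 := fold c2
  have k3 : ∫ z in (0 : ℝ)..z0, (om z * (|z| * m * wc u z + z0 * m * (rl u z + wc u z)) +
      om (-z) * (|(-z)| * m * wc u (-z) + z0 * m * (rl u (-z) + wc u (-z)))) =
      m * (∫ z in (0 : ℝ)..z0, om z * z * gg u z) +
      (z0 * m * (u z0 + u (-z0))) * (∫ z in (0 : ℝ)..z0, om z) +
      z0 * m * ∫ z in (0 : ℝ)..z0, om z * gg u z := by
    have j1 := h.iozg.const_mul m
    have j2 : IntervalIntegrable (fun z => (z0 * m * (u z0 + u (-z0))) * om z) volume 0 z0 :=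
      (om_cont.intervalIntegrable _ _).const_mul _
    have j3 := h.iog.const_mul (z0 * m)
    rw [← intervalIntegral.integral_const_mul, ← intervalIntegral.integral_const_mul,
      ← intervalIntegral.integral_const_mul, ← intervalIntegral.integral_add j1 j2,
      ← intervalIntegral.integral_add (j1.add j2) j3]
    refine intervalIntegral.integral_congr fun z hz => ?_
    rw [uIcc_of_le hz0.le] at hz
    show om z * (|z| * m * wc u z + z0 * m * (rl u z + wc u z)) +
      om (-z) * (|(-z)| * m * wc u (-z) + z0 * m * (rl u (-z) + wc u (-z))) =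
      m * (om z * z * gg u z) + z0 * m * (u z0 + u (-z0)) * om z +
      z0 * m * (om z * gg u z)
    rw [om_neg, abs_neg, abs_of_nonneg hz.1, ← rl_sum u z]
    unfold gg
    ring
  rw [k2, k3, int_om] at k1
  linarith

/-- the left lens -/
theorem SliL.lensEl (h : SliL e u u') (hq : u (-z0) ≤ 0.00069) :
    (∫ z in (-e)..(-z0), 2 * u z / (1 + z ^ 2) ^ 2) + (∫ z in (-e)..(-z0), u' z ^ 2 / nz z) +
      (∫ z in (-e)..(-z0), om z * (|z| * |u' z| * u z)) ≤ 0.07875 * u (-z0) := by
  have h1 := h.reflL.lensE hq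
  have h2 := h.reflL.lens3' hq
  have e1 : ∫ z in (-e)..(-z0), 2 * u z / (1 + z ^ 2) ^ 2 =
      ∫ z in z0..e, 2 * u (-z) / (1 + z ^ 2) ^ 2 := by
    rw [← intervalIntegral.integral_comp_neg]
    refine intervalIntegral.integral_congr fun z _ => ?_
    show 2 * u (-z) / (1 + (-z) ^ 2) ^ 2 = _
    rw [neg_sq]
  have e2 : ∫ z in (-e)..(-z0), u' z ^ 2 / nz z = ∫ z in z0..e, (-u' (-z)) ^ 2 / nz z := by
    rw [← intervalIntegral.integral_comp_neg]
    refine intervalIntegral.integral_congr fun z _ => ?_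
    show u' (-z) ^ 2 / nz (-z) = _
    rw [neg_sq, nz_neg]
  have e3 : ∫ z in (-e)..(-z0), om z * (|z| * |u' z| * u z) =
      ∫ z in z0..e, om z * (|z| * |(-u' (-z))| * u (-z)) := by
    rw [← intervalIntegral.integral_comp_neg]
    refine intervalIntegral.integral_congr fun z _ => ?_
    show om (-z) * (|(-z)| * |u' (-z)| * u (-z)) = _
    rw [om_neg, abs_neg, abs_neg]
  rw [e1, e2, e3]
  linarith

/-- row S' of helper37: slice lemma in terms of the values -/
theorem SliL.mainS (h : SliL e u u') (hp1 : u z0 ≤ 0.00069) (hq1 : u (-z0) ≤ 0.00069)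
    (hβ : ∀ z ∈ Icc (-z0) z0, u z ≤ 0.003) :
    0.002 * (u z0 + u (-z0)) + 0.017 * (∫ z in (-z0)..z0, Wz z * (u z - rl u z)) ≤
      FS e u u' := by
  have hz0 := z0_pos
  have hg := z0_gt
  have hl := z0_lt
  have hp : 0 ≤ u z0 := h.nn (left_mem_Icc.2 h.he)
  have hq : 0 ≤ u (-z0) := h.refl.nn (left_mem_Icc.2 h.he)
  have hm1 : |u' z0| ≤ 0.03 := h.slope' hp1
  have hm2 : |u' (-z0)| ≤ 0.03 := by
    have := h.reflL.slope' hq1
    rwa [abs_neg] at this
  have hb : |bb u| ≤ 0.0006 := by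
    unfold bb
    rw [abs_div, abs_of_pos (by linarith : (0:ℝ) < 2 * z0), div_le_iff₀ (by linarith)]
    have : |u z0 - u (-z0)| ≤ 0.00069 := by
      rw [abs_le]
      constructor <;> linarith
    linarith
  have hb2 : 2 * z0 * bb u ^ 2 ≤ 0.0006 * (u z0 + u (-z0)) := by
    have e1 : 2 * z0 * bb u ^ 2 = |bb u| * |u z0 - u (-z0)| := by
      rw [← abs_mul]
      have : bb u * (u z0 - u (-z0)) = 2 * z0 * bb u ^ 2 := by
        unfold bb
        field_simp
      rw [this, abs_of_nonneg (by positivity)]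
    rw [e1]
    have e2 : |u z0 - u (-z0)| ≤ u z0 + u (-z0) := by
      rw [abs_le]
      constructor <;> linarith
    exact mul_le_mul hb e2 (abs_nonneg _) (by norm_num)
  have hbl := (abs_le.mp hb).1
  have hbr := (abs_le.mp hb).2
  have hrl : ∀ z ∈ Icc (-z0) z0, 0 ≤ rl u z := fun z hz =>
    add_nonneg (mul_nonneg (lp_nonneg hz) hp) (mul_nonneg (lq_nonneg hz) hq)
  have hδ0 : (0:ℝ) < 0.003 / 0.0306 := by norm_num
  have hδ1 : (0.003 / 0.0306 : ℝ) ≤ z0 := by
    have : (0.003 / 0.0306 : ℝ) ≤ 0.5 := by norm_num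
    linarith
  have hv := energy3 (v := fun z => u' z - bb u) (h := wc u) (a := z0)
    (b := z0 - 0.003 / 0.0306) (M := 0.0306) (β := 0.003) (by linarith) (by linarith)
    (fun z hz => h.wcd hz)
    ((h.cu.mono fun z hz => h.memJ hz).sub continuousOn_const)
    (fun x hx y hy hxy => by
      have := h.am hx hy hxy
      show u' y - bb u ≤ u' x - bb u
      linarith)
    (wc_z0 u) (wc_nz0 u)
    (fun z hz => by
      have := hβ z hz
      have := hrl z hz
      unfold wc
      linarith)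
    (by
      show u' (-z0) - bb u ≤ 0.0306
      linarith [(abs_le.mp hm2).2])
    (by
      show -0.0306 ≤ u' z0 - bb u
      linarith [(abs_le.mp hm1).1])
    (by norm_num)
  have hcB := h.cB hδ0 hδ1
  have hcg := h.cg
  have hch := h.ch
  have hsq := h.sqJ
  have hA := h.cA
  have hW := h.cW
  have hL := h.lensE hp1
  have hL3 := h.lens3' hp1
  have hLl := h.lensEl hq1
  have hM := h.midM hm1 hm2
  set C := ∫ z in (0 : ℝ)..z0, Wz z * gg u z with hC
  have hgg : wc u (z0 - 0.003 / 0.0306) + wc u (-(z0 - 0.003 / 0.0306)) =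
      gg u (z0 - 0.003 / 0.0306) := rfl
  rw [hgg] at hv
  have hg0 : 0 ≤ gg u (z0 - 0.003 / 0.0306) := h.ggn ⟨by linarith, by linarith⟩
  have hgC : 0.08935 * gg u (z0 - 0.003 / 0.0306) ≤ C := by
    refine le_trans (mul_le_mul_of_nonneg_right ?_ hg0) hcB
    have := Real.pi_gt_d6
    have h5 : (0.77 * (0.003 / 0.0306) ^ 2 / 6 : ℝ) ≤ 0.001234 := by norm_num
    linarith [c0_lt]
  -- the three parts of the square integral
  have cD : ContinuousOn (fun z => u' z ^ 2 / nz z) (Icc (-e) e) :=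
    ContinuousOn.div (h.cu.pow 2) nz_cont.continuousOn fun z _ => (nz_pos z).ne'
  have mne : -e ∈ Icc (-e) e := ⟨le_rfl, by linarith [h.he]⟩
  have hD : ∫ z in (-e)..e, u' z ^ 2 / nz z = (∫ z in (-e)..(-z0), u' z ^ 2 / nz z) +
      (∫ z in (-z0)..z0, u' z ^ 2 / nz z) + ∫ z in z0..e, u' z ^ 2 / nz z := by
    have j1 := Sli.ii cD mne h.memn0
    have j2 := Sli.ii cD h.memn0 h.mem0
    have j3 := Sli.ii cD h.mem0 h.meme
    rw [intervalIntegral.integral_add_adjacent_intervals j1 j2,
      intervalIntegral.integral_add_adjacent_intervals (j1.trans j2) j3]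
  have hC0 : 0 ≤ C := by linarith
  unfold FS
  rw [hA, hW, hD]
  have n1 : 0.090585 * (u z0 + u (-z0)) ≤ (u z0 + u (-z0)) * (π / 6 - c0 / 2) := by
    have n2 : 0.090585 ≤ π / 6 - c0 / 2 := by
      have := Real.pi_gt_d6
      linarith [c0_lt]
    have := mul_le_mul_of_nonneg_left n2 (add_nonneg hp hq)
    linarith
  have n3 : z0 * 0.03 / 2 * (u z0 + u (-z0)) ≤ 0.0086604 * (u z0 + u (-z0)) :=
    mul_le_mul_of_nonneg_right (by linarith) (add_nonneg hp hq)
  have n4 : z0 * 0.03 * (∫ z in (0 : ℝ)..z0, om z * gg u z) ≤ 0.0173208 * (5.52 * C) := by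
    have n5 : 0 ≤ ∫ z in (0 : ℝ)..z0, om z * gg u z :=
      intervalIntegral.integral_nonneg hz0.le fun z hz => mul_nonneg (om_pos z).le (h.ggn hz)
    exact mul_le_mul (by linarith) hch n5 (by norm_num)
  have n6 : 0.0306 * gg u (z0 - 0.003 / 0.0306) ≤ 0.34248 * C := by
    have : 0.0306 * gg u (z0 - 0.003 / 0.0306) ≤ 0.34248 *
        (0.08935 * gg u (z0 - 0.003 / 0.0306)) := by nlinarith
    linarith
  linarith

end Helper96.MEI
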