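import Pool.Agent.Helper96.MEI.Loc
import Pool.Agent.Helper96.MEI.SpD

/-!
# Project MEI, regime I: the local theorem in terms of the values
-/

namespace Helper96.MEI

open Set MeasureTheory Real Helper22.MEI
open Pool.Agent.Helper55.MEI (nz nz_pos nz_sq nz_neg nz_cont nz_ge' c0 c0_pos om om_pos om_neg
  om_cont Wz Wz_om Wz_cont)

variable {f : ℝ × ℝ → ℝ}

theorem om_lens {z : ℝ} (hz : z0 ≤ |z|) : om z ≤ 0.65 := by
  have h1 : 2 * z0 ≤ nz z := nz_ge' hz
  have h2 := z0_pos
  have h3 : 1 / nz z ≤ 0.866026 := by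
    have h4 : 1 / nz z ≤ 1 / (2 * z0) := one_div_le_one_div_of_le (by linarith) h1
    have h5 : 1 / (2 * z0) = c0 := by
      have := c0_z0
      field_simp
      linarith
    rw [h5] at h4
    exact h4.trans c0_lt.le
  have h6 : om z = (1 / nz z) ^ 3 := by
    unfold om
    rw [div_pow, one_pow]
  rw [h6]
  have h7 : 0 ≤ 1 / nz z := (div_pos one_pos (nz_pos z)).le
  calc (1 / nz z) ^ 3 ≤ 0.866026 ^ 3 := pow_le_pow_left₀ h7 h3 3
    _ ≤ 0.65 := by norm_num

theorem znz_deriv (z : ℝ) : HasDerivAt (fun z => z / nz z) (om z) z := by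
  have a1 : HasDerivAt (fun y : ℝ => 1 + y ^ 2) (2 * z) z := by
    have := (hasDerivAt_pow 2 z).const_add 1
    refine this.congr_deriv ?_
    norm_num
  have a2 : HasDerivAt nz (2 * z / (2 * √(1 + z ^ 2))) z := a1.sqrt (by positivity)
  have hp := nz_pos z
  have a3 := (hasDerivAt_id z).div a2 hp.ne'
  refine a3.congr_deriv ?_
  show (1 * nz z - z * (2 * z / (2 * nz z))) / nz z ^ 2 = om z
  unfold om
  have hsq := nz_sq z
  field_simp
  rw [hsq]
  ring

theorem znz_lip {x y : ℝ} (hxy : x ≤ y) (h : ∀ z ∈ Icc x y, z0 ≤ |z|) :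
    y / nz y - x / nz x ≤ 0.65 * (y - x) := by
  have i1 : ∫ z in x..y, om z = y / nz y - x / nz x :=
    intervalIntegral.integral_eq_sub_of_hasDerivAt (fun z _ => znz_deriv z)
      (om_cont.intervalIntegrable _ _)
  have i2 : ∫ z in x..y, om z ≤ ∫ z in x..y, (0.65 : ℝ) :=
    intervalIntegral.integral_mono_on hxy (om_cont.intervalIntegrable _ _)
      intervalIntegrable_const fun z hz => om_lens (h z hz)
  rw [intervalIntegral.integral_const, smul_eq_mul] at i2
  linarith

theorem NY_cu (z : ℝ) {a : ℝ} (ha : 0 < cos a) : (cu z a).2 / NN (cu z a) = z / nz z := by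
  rw [NN_cu z ha]
  show z / cos a / (nz z / cos a) = z / nz z
  have := nz_pos z
  field_simp

theorem sliL_of_adm (h : Adm f) {a : ℝ} (ha : a ∈ Icc (-p0) p0) :
    SliL (s * Real.cos a) (wF f a) (wzF f a) where
  toSli := sli_of_adm h ha
  lipR := by
    intro x hx y hy hxy
    have hc := cos_pos_p0 ha
    have hz0 := z0_pos
    have hx1 : z0 ≤ |x| := hx.1.trans (le_abs_self x)
    have hy1 : z0 ≤ |y| := hy.1.trans (le_abs_self y)
    have hval : ∀ z, wzF f a z = g0Y (cu z a) - dY f (cu z a) := fun z => dY_PP h _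
    have sx : sg (cu x a).2 = 1 := by
      refine sg_pos ?_
      have := half_cu ha hx1
      rw [abs_of_nonneg (div_nonneg (by linarith [hx.1]) hc.le)] at this
      exact this.le
    have sy : sg (cu y a).2 = 1 := by
      refine sg_pos ?_
      have := half_cu ha hy1
      rw [abs_of_nonneg (div_nonneg (by linarith [hy.1]) hc.le)] at this
      exact this.le
    rw [hval x, hval y, g0Y_lens (cu_lens ha hx1), g0Y_lens (cu_lens ha hy1), sx, sy,
      NY_cu x hc, NY_cu y hc]
    have h1 : dY f (cu x a) ≤ dY f (cu y a) :=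
      dY_mono h (tan a) (div_le_div_of_nonneg_right hxy hc.le)
    have h2 := znz_lip hxy fun z hz => (hx.1.trans hz.1).trans (le_abs_self z)
    linarith
  lipL := by
    intro x hx y hy hxy
    have hc := cos_pos_p0 ha
    have hz0 := z0_pos
    have hx1 : z0 ≤ |x| := by
      have := neg_le_abs x
      linarith [hx.2]
    have hy1 : z0 ≤ |y| := by
      have := neg_le_abs y
      linarith [hy.2]
    have hval : ∀ z, wzF f a z = g0Y (cu z a) - dY f (cu z a) := fun z => dY_PP h _
    have sx : sg (cu x a).2 = -1 := by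
      refine sg_neg ?_
      have := half_cu ha hx1
      rw [abs_of_nonpos (div_nonpos_of_nonpos_of_nonneg (by linarith [hx.2]) hc.le)] at this
      show x / cos a ≤ _
      linarith
    have sy : sg (cu y a).2 = -1 := by
      refine sg_neg ?_
      have := half_cu ha hy1
      rw [abs_of_nonpos (div_nonpos_of_nonpos_of_nonneg (by linarith [hy.2]) hc.le)] at this
      show y / cos a ≤ _
      linarith
    rw [hval x, hval y, g0Y_lens (cu_lens ha hx1), g0Y_lens (cu_lens ha hy1), sx, sy,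
      NY_cu x hc, NY_cu y hc]
    have h1 : dY f (cu x a) ≤ dY f (cu y a) :=
      dY_mono h (tan a) (div_le_div_of_nonneg_right hxy hc.le)
    have h2 := znz_lip hxy fun z hz => by
      have h3 := neg_le_abs z
      have h4 := hz.2.trans hy.2
      linarith
    linarith

theorem wF_le_PP (h : Adm f) {a : ℝ} (ha : a ∈ Icc (-p0) p0) (z : ℝ) :
    wF f a z ≤ PP f (cu z a) := by
  have h1 : 0 ≤ PP f (cu z a) := PP_nonneg h (tan_le_s ha)
  show cos a * PP f (cu z a) ≤ _
  nlinarith [Real.cos_le_one a]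

/-- the coercive lower bound -/
noncomputable def LB2 (u : ℝ → ℝ) : ℝ :=
  0.002 * (u z0 + u (-z0)) + 0.017 * ∫ z in (-z0)..z0, Wz z * (u z - rl u z)

theorem LB2_cont {w wp wz : ℝ → ℝ → ℝ} (h : Cyl w wp wz) :
    ContinuousOn (fun a => LB2 (w a)) (Icc (-p0) p0) := by
  have cz0 : Continuous fun _ : ℝ => z0 := continuous_const
  have cnz0 : Continuous fun _ : ℝ => -z0 := continuous_const
  have c1 : ContinuousOn (Function.uncurry fun a z => Wz z * (w a z - rl (w a) z))
      (Icc (-p0) p0 ×ˢ Icc (-s) s) := (cont_snd Wz_cont).mul (h.cw.sub (rl_cont h))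
  unfold LB2
  exact (continuousOn_const.mul ((slice_cont h.cw z0_mem).add (slice_cont h.cw nz0_mem))).add
    (continuousOn_const.mul (param_cont c1 cnz0 cz0 (fun _ _ => nz0_mem) fun _ _ => z0_mem))

theorem LB2_nonneg (h : Adm f) {a : ℝ} (ha : a ∈ Icc (-p0) p0) : 0 ≤ LB2 (wF f a) := by
  have hs := sli_of_adm h ha
  have h1 : 0 ≤ wF f a z0 := hs.nn (left_mem_Icc.2 hs.he)
  have h2 : 0 ≤ wF f a (-z0) := hs.refl.nn (left_mem_Icc.2 hs.he)
  have h3 : 0 ≤ ∫ z in (-z0)..z0, Wz z * (wF f a z - rl (wF f a) z) :=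
    intervalIntegral.integral_nonneg nzz fun z hz =>
      mul_nonneg (Pool.Agent.Helper55.MEI.Wz_nonneg (abs_le.mpr hz)) (hs.wcn hz)
  unfold LB2
  positivity

/-- local theorem in terms of the values, coercive form -/
theorem localS_coercive (h : Adm f)
    (hI : ∀ a ∈ Icc (-p0) p0, wF f a z0 ≤ 0.00069 ∧ wF f a (-z0) ≤ 0.00069)
    (hP : ∀ a ∈ Icc (-p0) p0, ∀ z ∈ Icc (-z0) z0, wF f a z ≤ 0.003) :
    ∫ a in (-p0)..p0, LB2 (wF f a) ≤ Dfun (fun p => f0 p - f p) := by
  have hC := cyl_of_adm h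
  refine le_trans ?_ (Helper55.MEI.dfun_ge h)
  refine intervalIntegral.integral_mono_on ple (ii (LB2_cont hC)) (ii (FS_cont hC))
    fun a ha => ?_
  exact (sliL_of_adm h ha).mainS (hI a ha).1 (hI a ha).2 (hP a ha)

/-- **local theorem in terms of the values** -/
theorem localS (h : Adm f)
    (hI : ∀ a ∈ Icc (-p0) p0, wF f a z0 ≤ 0.00069 ∧ wF f a (-z0) ≤ 0.00069)
    (hP : ∀ p : ℝ × ℝ, |p.1| ≤ s → |p.2| ≤ s → PP f p ≤ 0.003) :
    0 ≤ Dfun (fun p => f0 p - f p) := by
  refine le_trans ?_ (localS_coercive h hI fun a ha z hz => ?_)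
  · exact intervalIntegral.integral_nonneg ple fun a ha => LB2_nonneg h ha
  · refine (wF_le_PP h ha z).trans (hP _ (tan_le_s ha) ?_)
    have hc := cos_pos_p0 ha
    show |z / cos a| ≤ s
    rw [abs_div, abs_of_pos hc, div_le_iff₀ hc]
    exact mid_lens ha hz

end Helper96.MEI
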