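import Pool.Agent.Helper96.MEI.Cone

/-!
# Project MEI (M2): closed forms of the integrals over the contact cone

The layer formula for tents over the flat triangle, the moments of a quadratic form against a
tent, and the lower bounds of the integrals of linear functions and of tents over a cone
spanned by three nodes.
-/

namespace Helper96.Psi

open MeasureTheory Set Helper29.MEI Helper96.Cone
open scoped ENNReal

/-- the upper part of the flat triangle -/
def SL (A B C l : ℝ) : Set (ℝ × ℝ) := {t | l * A ≤ t.1 ∧ l * B ≤ t.2 ∧ l * C ≤ 1 - t.1 - t.2}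

/-- `T` is the tent with apex `(A, B, C)` -/
structure IsTent (A B C : ℝ) (T : ℝ × ℝ → ℝ) : Prop where
  cont : Continuous T
  nn : ∀ t ∈ TD, 0 ≤ T t
  le : ∀ t ∈ TD, T t ≤ 1
  iff : ∀ t ∈ TD, ∀ l : ℝ, 0 < l → (l ≤ T t ↔ t ∈ SL A B C l)

theorem SL_sub {A B C l : ℝ} (hA : 0 ≤ A) (hB : 0 ≤ B) (hC : 0 ≤ C) (hl : 0 ≤ l) :
    SL A B C l ⊆ TD := by
  rintro t ⟨h1, h2, h3⟩
  have e1 := mul_nonneg hl hA
  have e2 := mul_nonneg hl hB
  have e3 := mul_nonneg hl hC
  exact ⟨e1.trans h1, e2.trans h2, by linarith⟩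

/-- the scaled copy of the triangle -/
theorem scale_int {A B C l : ℝ} (hs : A + B + C = 1) (hl : l < 1) (f : ℝ × ℝ → ℝ) :
    ∫ t in SL A B C l, f t =
      (1 - l) ^ 2 * ∫ s in TD, f (l * A + (1 - l) * s.1, l * B + (1 - l) * s.2) := by
  have h1 : 0 < 1 - l := by linarith
  have hm : MeasurableSet (SL A B C l) := by
    have m1 : IsClosed {t : ℝ × ℝ | l * A ≤ t.1} := isClosed_le continuous_const continuous_fst
    have m2 : IsClosed {t : ℝ × ℝ | l * B ≤ t.2} := isClosed_le continuous_const continuous_snd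
    have m3 : IsClosed {t : ℝ × ℝ | l * C ≤ 1 - t.1 - t.2} :=
      isClosed_le continuous_const (by fun_prop)
    exact (m1.inter (m2.inter m3)).measurableSet
  have i2 : (volume : Measure (ℝ × ℝ)).IsAddHaarMeasure := by
    rw [Measure.volume_eq_prod]
    infer_instance
  rw [← integral_indicator hm, ← integral_indicator TD_meas]
  have e1 := Measure.integral_comp_smul (volume : Measure (ℝ × ℝ))
    (fun x : ℝ × ℝ => (SL A B C l).indicator f ((l * A, l * B) + x)) (1 - l)
  have e2 : ∫ x : ℝ × ℝ, (SL A B C l).indicator f ((l * A, l * B) + x) =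
      ∫ x, (SL A B C l).indicator f x :=
    integral_add_left_eq_self ((SL A B C l).indicator f) (l * A, l * B)
  have hfr : Module.finrank ℝ (ℝ × ℝ) = 2 := by simp
  rw [e2, hfr, abs_of_pos (by positivity), smul_eq_mul] at e1
  have e3 : ∀ s : ℝ × ℝ, (SL A B C l).indicator f ((l * A, l * B) + (1 - l) • s) =
      TD.indicator (fun s => f (l * A + (1 - l) * s.1, l * B + (1 - l) * s.2)) s := by
    intro s
    have h2 : ((l * A, l * B) : ℝ × ℝ) + (1 - l) • s =
        (l * A + (1 - l) * s.1, l * B + (1 - l) * s.2) := by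
      refine Prod.ext ?_ ?_ <;> simp
    rw [h2]
    by_cases hsT : s ∈ TD
    · rw [indicator_of_mem hsT, indicator_of_mem]
      obtain ⟨k1, k2, k3⟩ := hsT
      have j1 := mul_nonneg h1.le k1
      have j2 := mul_nonneg h1.le k2
      have j3 := mul_nonneg h1.le (sub_nonneg.2 k3)
      refine ⟨?_, ?_, ?_⟩
      · show l * A ≤ l * A + (1 - l) * s.1
        linarith
      · show l * B ≤ l * B + (1 - l) * s.2
        linarith
      · show l * C ≤ 1 - (l * A + (1 - l) * s.1) - (l * B + (1 - l) * s.2)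
        have : l * A + l * B + l * C = l := by rw [← mul_add, ← mul_add, hs, mul_one]
        nlinarith
    · rw [indicator_of_notMem hsT, indicator_of_notMem]
      rintro ⟨k1, k2, k3⟩
      simp only at k1 k2 k3
      apply hsT
      have j1 : 0 ≤ (1 - l) * s.1 := by linarith
      have j2 : 0 ≤ (1 - l) * s.2 := by linarith
      have j3 : 0 ≤ (1 - l) * (1 - (s.1 + s.2)) := by
        have : l * A + l * B + l * C = l := by rw [← mul_add, ← mul_add, hs, mul_one]
        nlinarith
      exact ⟨nonneg_of_mul_nonneg_right j1 h1, nonneg_of_mul_nonneg_right j2 h1,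
        sub_nonneg.1 (nonneg_of_mul_nonneg_right j3 h1)⟩
  simp only [e3] at e1
  rw [e1, ← mul_assoc, mul_inv_cancel₀ (by positivity), one_mul]

/-- the layer set -/
def LE (A B C : ℝ) : Set (ℝ × (ℝ × ℝ)) := {p | 0 < p.1 ∧ p.1 ≤ 1 ∧ p.2 ∈ SL A B C p.1}

theorem LE_meas (A B C : ℝ) : MeasurableSet (LE A B C) := by
  have m0 : MeasurableSet {p : ℝ × (ℝ × ℝ) | 0 < p.1} :=
    measurableSet_lt measurable_const measurable_fst
  have m00 : MeasurableSet {p : ℝ × (ℝ × ℝ) | p.1 ≤ 1} :=
    measurableSet_le measurable_fst measurable_const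
  have m1 : MeasurableSet {p : ℝ × (ℝ × ℝ) | p.1 * A ≤ p.2.1} :=
    measurableSet_le (by fun_prop) (by fun_prop)
  have m2 : MeasurableSet {p : ℝ × (ℝ × ℝ) | p.1 * B ≤ p.2.2} :=
    measurableSet_le (by fun_prop) (by fun_prop)
  have m3 : MeasurableSet {p : ℝ × (ℝ × ℝ) | p.1 * C ≤ 1 - p.2.1 - p.2.2} :=
    measurableSet_le (by fun_prop) (by fun_prop)
  exact m0.inter (m00.inter (m1.inter (m2.inter m3)))

/-- **the layer formula for tents** -/
theorem layer {A B C : ℝ} (hA : 0 ≤ A) (hB : 0 ≤ B) (hC : 0 ≤ C) (hs : A + B + C = 1)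
    {T : ℝ × ℝ → ℝ} (hT : IsTent A B C T) {f : ℝ × ℝ → ℝ} (hf : Continuous f) :
    ∫ t in TD, T t * f t = ∫ l in (0 : ℝ)..1,
      (1 - l) ^ 2 * ∫ s in TD, f (l * A + (1 - l) * s.1, l * B + (1 - l) * s.2) := by
  -- the integrable function on the product
  obtain ⟨c, hc⟩ := TD_compact.exists_bound_of_continuousOn hf.continuousOn
  have hsub : LE A B C ⊆ Icc (0 : ℝ) 1 ×ˢ TD := by
    rintro ⟨l, t⟩ ⟨h1, h2, h3⟩
    exact ⟨⟨h1.le, h2⟩, SL_sub hA hB hC h1.le h3⟩
  have hfin : (volume : Measure ℝ).prod (volume : Measure (ℝ × ℝ)) (LE A B C) < ⊤ := by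
    refine lt_of_le_of_lt (measure_mono hsub) ?_
    rw [Measure.prod_prod, Real.volume_Icc]
    exact ENNReal.mul_lt_top ENNReal.ofReal_lt_top TD_compact.measure_lt_top
  have hI : Integrable ((LE A B C).indicator fun p => f p.2)
      ((volume : Measure ℝ).prod (volume : Measure (ℝ × ℝ))) := by
    rw [integrable_indicator_iff (LE_meas A B C)]
    refine ⟨(hf.comp continuous_snd).aestronglyMeasurable, ?_⟩
    refine HasFiniteIntegral.restrict_of_bounded (C := c) hfin ?_
    filter_upwards [ae_restrict_mem (LE_meas A B C)] with p hp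
    exact hc _ (hsub hp).2
  have hswap := integral_integral_swap (f := fun l t => (LE A B C).indicator (fun p => f p.2) (l, t))
    hI
  -- the inner integral in `l`
  have e1 : ∀ t, ∫ l, (LE A B C).indicator (fun p => f p.2) (l, t) =
      TD.indicator (fun t => T t * f t) t := by
    intro t
    by_cases ht : t ∈ TD
    · rw [indicator_of_mem ht]
      have : ∀ l, (LE A B C).indicator (fun p => f p.2) (l, t) =
          (Ioc 0 (T t)).indicator (fun _ => f t) l := by
        intro l
        by_cases hl : l ∈ Ioc 0 (T t)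
        · rw [indicator_of_mem hl, indicator_of_mem]
          exact ⟨hl.1, hl.2.trans (hT.le t ht), (hT.iff t ht l hl.1).1 hl.2⟩
        · rw [indicator_of_notMem hl, indicator_of_notMem]
          rintro ⟨k1, k2, k3⟩
          exact hl ⟨k1, (hT.iff t ht l k1).2 k3⟩
      simp only [this]
      rw [integral_indicator measurableSet_Ioc, setIntegral_const, Measure.real,
        Real.volume_Ioc, sub_zero, ENNReal.toReal_ofReal (hT.nn t ht), smul_eq_mul]
    · rw [indicator_of_notMem ht]
      have : ∀ l, (LE A B C).indicator (fun p => f p.2) (l, t) = 0 := by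
        intro l
        rw [indicator_of_notMem]
        exact fun k => ht (hsub k).2
      simp only [this, integral_zero]
  -- the inner integral in `t`
  have e2 : ∀ l, ∫ t, (LE A B C).indicator (fun p => f p.2) (l, t) =
      (Ioc (0 : ℝ) 1).indicator (fun l => ∫ t in SL A B C l, f t) l := by
    intro l
    by_cases hl : l ∈ Ioc (0 : ℝ) 1
    · rw [indicator_of_mem hl]
      have hm : MeasurableSet (SL A B C l) := by
        have m1 : IsClosed {t : ℝ × ℝ | l * A ≤ t.1} :=
          isClosed_le continuous_const continuous_fst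
        have m2 : IsClosed {t : ℝ × ℝ | l * B ≤ t.2} :=
          isClosed_le continuous_const continuous_snd
        have m3 : IsClosed {t : ℝ × ℝ | l * C ≤ 1 - t.1 - t.2} :=
          isClosed_le continuous_const (by fun_prop)
        exact (m1.inter (m2.inter m3)).measurableSet
      rw [← integral_indicator hm]
      refine integral_congr_ae (Filter.Eventually.of_forall fun t => ?_)
      show (LE A B C).indicator (fun p => f p.2) (l, t) = (SL A B C l).indicator f t
      by_cases ht : t ∈ SL A B C l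
      · rw [indicator_of_mem ht, indicator_of_mem]
        exact ⟨hl.1, hl.2, ht⟩
      · rw [indicator_of_notMem ht, indicator_of_notMem]
        exact fun k => ht k.2.2
    · rw [indicator_of_notMem hl]
      have : ∀ t, (LE A B C).indicator (fun p => f p.2) (l, t) = 0 := by
        intro t
        rw [indicator_of_notMem]
        exact fun k => hl ⟨k.1, k.2.1⟩
      simp only [this, integral_zero]
  simp only [e1, e2] at hswap
  rw [integral_indicator TD_meas, integral_indicator measurableSet_Ioc] at hswap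
  rw [← hswap, intervalIntegral.integral_of_le zero_le_one, integral_Ioc_eq_integral_Ioo,
    integral_Ioc_eq_integral_Ioo]
  refine setIntegral_congr_fun measurableSet_Ioo fun l hl => ?_
  exact scale_int hs hl.2 f

/-- the integral over the flat triangle as an iterated integral -/
theorem TD_iter {f : ℝ × ℝ → ℝ} (hf : Continuous f) :
    ∫ t in TD, f t = ∫ x in (0 : ℝ)..1, ∫ y in (0 : ℝ)..(1 - x), f (x, y) := by
  have hI : Integrable (TD.indicator f) ((volume : Measure ℝ).prod (volume : Measure ℝ)) := by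
    rw [integrable_indicator_iff TD_meas, ← Measure.volume_eq_prod]
    exact hf.continuousOn.integrableOn_compact TD_compact
  rw [← integral_indicator TD_meas, Measure.volume_eq_prod, integral_prod _ hI]
  have e : ∀ x, ∫ y, TD.indicator f (x, y) =
      (Icc (0 : ℝ) 1).indicator (fun x => ∫ y in (0 : ℝ)..(1 - x), f (x, y)) x := by
    intro x
    by_cases hx : x ∈ Icc (0 : ℝ) 1
    · rw [indicator_of_mem hx, intervalIntegral.integral_of_le (by linarith [hx.2]),
        ← integral_Icc_eq_integral_Ioc, ← integral_indicator measurableSet_Icc]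
      refine integral_congr_ae (Filter.Eventually.of_forall fun y => ?_)
      show TD.indicator f (x, y) = (Icc (0 : ℝ) (1 - x)).indicator (fun y => f (x, y)) y
      by_cases hy : y ∈ Icc (0 : ℝ) (1 - x)
      · rw [indicator_of_mem hy, indicator_of_mem]
        exact ⟨hx.1, hy.1, by show x + y ≤ 1; linarith [hy.2]⟩
      · rw [indicator_of_notMem hy, indicator_of_notMem]
        rintro ⟨_, k2, k3⟩
        have k3' : x + y ≤ 1 := k3
        exact hy ⟨k2, by linarith⟩
    · rw [indicator_of_notMem hx]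
      have : ∀ y, TD.indicator f (x, y) = 0 := by
        intro y
        rw [indicator_of_notMem]
        rintro ⟨k1, k2, k3⟩
        have k1' : 0 ≤ x := k1
        have k2' : 0 ≤ y := k2
        have k3' : x + y ≤ 1 := k3
        exact hx ⟨k1', by linarith⟩
      simp only [this, integral_zero]
  simp only [e]
  rw [integral_indicator measurableSet_Icc, integral_Icc_eq_integral_Ioc,
    ← intervalIntegral.integral_of_le zero_le_one]

theorem TD_quad (c0 c1 c2 c11 c12 c22 : ℝ) :
    ∫ t in TD, (c0 + c1 * t.1 + c2 * t.2 + c11 * t.1 ^ 2 + c12 * (t.1 * t.2) + c22 * t.2 ^ 2) =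
      c0 / 2 + (c1 + c2) / 6 + (c11 + c22) / 12 + c12 / 24 := by
  rw [TD_iter (by fun_prop)]
  have e1 : ∀ x : ℝ, ∫ y in (0 : ℝ)..(1 - x),
      (c0 + c1 * x + c2 * y + c11 * x ^ 2 + c12 * (x * y) + c22 * y ^ 2) =
      (c0 + c1 * x + c11 * x ^ 2) * (1 - x) + (c2 + c12 * x) * (1 - x) ^ 2 / 2 +
        c22 * (1 - x) ^ 3 / 3 := by
    intro x
    have hd : ∀ y ∈ uIcc (0 : ℝ) (1 - x), HasDerivAt (fun y : ℝ =>
        (c0 + c1 * x + c11 * x ^ 2) * y + (c2 + c12 * x) * y ^ 2 / 2 + c22 * y ^ 3 / 3)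
        (c0 + c1 * x + c2 * y + c11 * x ^ 2 + c12 * (x * y) + c22 * y ^ 2) y := by
      intro y _
      have h1 := (hasDerivAt_id y).const_mul (c0 + c1 * x + c11 * x ^ 2)
      have h2 := (((hasDerivAt_pow 2 y).const_mul (c2 + c12 * x)).div_const 2)
      have h3 := (((hasDerivAt_pow 3 y).const_mul c22).div_const 3)
      exact ((h1.add h2).add h3).congr_deriv (by push_cast; ring)
    rw [intervalIntegral.integral_eq_sub_of_hasDerivAt hd
      (Continuous.intervalIntegrable (by fun_prop) _ _)]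
    ring
  show ∫ x in (0 : ℝ)..1, ∫ y in (0 : ℝ)..(1 - x),
      (c0 + c1 * x + c2 * y + c11 * x ^ 2 + c12 * (x * y) + c22 * y ^ 2) = _
  simp only [e1]
  have hd : ∀ x ∈ uIcc (0 : ℝ) 1, HasDerivAt (fun x : ℝ =>
      c0 * (x - x ^ 2 / 2) + c1 * (x ^ 2 / 2 - x ^ 3 / 3) + c11 * (x ^ 3 / 3 - x ^ 4 / 4) +
        c2 * (x - x ^ 2 + x ^ 3 / 3) / 2 + c12 * (x ^ 2 / 2 - 2 * x ^ 3 / 3 + x ^ 4 / 4) / 2 +
        c22 * (x - 3 * x ^ 2 / 2 + x ^ 3 - x ^ 4 / 4) / 3)
      ((c0 + c1 * x + c11 * x ^ 2) * (1 - x) + (c2 + c12 * x) * (1 - x) ^ 2 / 2 +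
        c22 * (1 - x) ^ 3 / 3) x := by
    intro x _
    have p1 := hasDerivAt_id x
    have p2 := hasDerivAt_pow 2 x
    have p3 := hasDerivAt_pow 3 x
    have p4 := hasDerivAt_pow 4 x
    have q0 := (p1.sub (p2.div_const 2)).const_mul c0
    have q1 := ((p2.div_const 2).sub (p3.div_const 3)).const_mul c1
    have q11 := ((p3.div_const 3).sub (p4.div_const 4)).const_mul c11
    have q2 := (((p1.sub p2).add (p3.div_const 3)).const_mul c2).div_const 2
    have q12 := ((((p2.div_const 2).sub ((p3.const_mul 2).div_const 3)).add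
      (p4.div_const 4)).const_mul c12).div_const 2
    have q22 := ((((p1.sub ((p2.const_mul 3).div_const 2)).add p3).sub
      (p4.div_const 4)).const_mul c22).div_const 3
    exact (((((q0.add q1).add q11).add q2).add q12).add q22).congr_deriv (by push_cast; ring)
  rw [intervalIntegral.integral_eq_sub_of_hasDerivAt hd
    (Continuous.intervalIntegrable (by fun_prop) _ _)]
  ring

/-- a quadratic form on the flat triangle -/
def qd (g11 g22 g33 g12 g13 g23 : ℝ) (p : ℝ × ℝ × ℝ) : ℝ :=
  g11 * p.1 ^ 2 + g22 * p.2.1 ^ 2 + g33 * p.2.2 ^ 2 + 2 * g12 * (p.1 * p.2.1) +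
    2 * g13 * (p.1 * p.2.2) + 2 * g23 * (p.2.1 * p.2.2)

theorem qd_cont (g11 g22 g33 g12 g13 g23 : ℝ) :
    Continuous fun t : ℝ × ℝ => qd g11 g22 g33 g12 g13 g23 (fl t) := by
  unfold qd fl
  fun_prop

/-- the moment of a quadratic form over a scaled copy of the triangle -/
theorem qd_inner (g11 g22 g33 g12 g13 g23 : ℝ) {A B C : ℝ} (hs : A + B + C = 1) (l : ℝ) :
    ∫ s in TD, qd g11 g22 g33 g12 g13 g23
        (fl (l * A + (1 - l) * s.1, l * B + (1 - l) * s.2)) =
      l ^ 2 * (qd g11 g22 g33 g12 g13 g23 (A, B, C) / 2) +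
        l * (1 - l) * ((g11 * A + g22 * B + g33 * C + g12 * (A + B) + g13 * (A + C) +
          g23 * (B + C)) / 3) +
        (1 - l) ^ 2 * ((g11 + g22 + g33 + g12 + g13 + g23) / 12) := by
  have hC : C = 1 - A - B := by linarith
  subst hC
  have e := TD_quad
    (g11 * (l * A) ^ 2 + g22 * (l * B) ^ 2 + g33 * (1 - l * A - l * B) ^ 2 +
      2 * g12 * (l * A * (l * B)) + 2 * g13 * (l * A * (1 - l * A - l * B)) +
      2 * g23 * (l * B * (1 - l * A - l * B)))
    ((1 - l) * (2 * g11 * (l * A) - 2 * g33 * (1 - l * A - l * B) + 2 * g12 * (l * B) +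
      2 * g13 * (1 - l * A - l * B - l * A) - 2 * g23 * (l * B)))
    ((1 - l) * (2 * g22 * (l * B) - 2 * g33 * (1 - l * A - l * B) + 2 * g12 * (l * A) -
      2 * g13 * (l * A) + 2 * g23 * (1 - l * A - l * B - l * B)))
    ((1 - l) ^ 2 * (g11 + g33 - 2 * g13))
    ((1 - l) ^ 2 * (2 * g33 + 2 * g12 - 2 * g13 - 2 * g23))
    ((1 - l) ^ 2 * (g22 + g33 - 2 * g23))
  have e2 : ∀ s : ℝ × ℝ, qd g11 g22 g33 g12 g13 g23
        (fl (l * A + (1 - l) * s.1, l * B + (1 - l) * s.2)) =
      (g11 * (l * A) ^ 2 + g22 * (l * B) ^ 2 + g33 * (1 - l * A - l * B) ^ 2 +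
      2 * g12 * (l * A * (l * B)) + 2 * g13 * (l * A * (1 - l * A - l * B)) +
      2 * g23 * (l * B * (1 - l * A - l * B))) +
      ((1 - l) * (2 * g11 * (l * A) - 2 * g33 * (1 - l * A - l * B) + 2 * g12 * (l * B) +
      2 * g13 * (1 - l * A - l * B - l * A) - 2 * g23 * (l * B))) * s.1 +
      ((1 - l) * (2 * g22 * (l * B) - 2 * g33 * (1 - l * A - l * B) + 2 * g12 * (l * A) -
      2 * g13 * (l * A) + 2 * g23 * (1 - l * A - l * B - l * B))) * s.2 +
      ((1 - l) ^ 2 * (g11 + g33 - 2 * g13)) * s.1 ^ 2 +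
      ((1 - l) ^ 2 * (2 * g33 + 2 * g12 - 2 * g13 - 2 * g23)) * (s.1 * s.2) +
      ((1 - l) ^ 2 * (g22 + g33 - 2 * g23)) * s.2 ^ 2 := by
    intro s
    unfold qd fl
    simp only
    ring
  simp only [e2]
  rw [e]
  unfold qd
  simp only
  ring

/-- the moment of a quadratic form against a tent -/
theorem tent_qd (g11 g22 g33 g12 g13 g23 : ℝ) {A B C : ℝ} (hA : 0 ≤ A) (hB : 0 ≤ B) (hC : 0 ≤ C)
    (hs : A + B + C = 1) {T : ℝ × ℝ → ℝ} (hT : IsTent A B C T) :
    ∫ t in TD, T t * qd g11 g22 g33 g12 g13 g23 (fl t) =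
      (qd g11 g22 g33 g12 g13 g23 (A, B, C) + (g11 * A + g22 * B + g33 * C + g12 * (A + B) +
        g13 * (A + C) + g23 * (B + C)) + (g11 + g22 + g33 + g12 + g13 + g23)) / 60 := by
  rw [layer hA hB hC hs hT (qd_cont g11 g22 g33 g12 g13 g23)]
  simp only [qd_inner g11 g22 g33 g12 g13 g23 hs]
  set a := qd g11 g22 g33 g12 g13 g23 (A, B, C) / 2 with ha
  set b := (g11 * A + g22 * B + g33 * C + g12 * (A + B) + g13 * (A + C) + g23 * (B + C)) / 3
    with hb
  set c := (g11 + g22 + g33 + g12 + g13 + g23) / 12 with hc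
  have hd : ∀ l ∈ uIcc (0 : ℝ) 1, HasDerivAt (fun l : ℝ =>
      a * (l ^ 3 / 3 - l ^ 4 / 2 + l ^ 5 / 5) + b * (l ^ 2 / 2 - l ^ 3 + l ^ 4 * 3 / 4 - l ^ 5 / 5) +
        c * (l - 2 * l ^ 2 + 2 * l ^ 3 - l ^ 4 + l ^ 5 / 5))
      ((1 - l) ^ 2 * (l ^ 2 * a + l * (1 - l) * b + (1 - l) ^ 2 * c)) l := by
    intro l _
    have p1 := hasDerivAt_id l
    have p2 := hasDerivAt_pow 2 l
    have p3 := hasDerivAt_pow 3 l
    have p4 := hasDerivAt_pow 4 l
    have p5 := hasDerivAt_pow 5 l
    have q1 := (((p3.div_const 3).sub (p4.div_const 2)).add (p5.div_const 5)).const_mul a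
    have q2 := ((((p2.div_const 2).sub p3).add ((p4.mul_const 3).div_const 4)).sub
      (p5.div_const 5)).const_mul b
    have q3 := ((((p1.sub (p2.const_mul 2)).add (p3.const_mul 2)).sub p4).add
      (p5.div_const 5)).const_mul c
    exact ((q1.add q2).add q3).congr_deriv (by push_cast; ring)
  rw [intervalIntegral.integral_eq_sub_of_hasDerivAt hd
    (Continuous.intervalIntegrable (by fun_prop) _ _), ha, hb, hc]
  ring

/-- the mass of a tent -/
theorem tent_one {A B C : ℝ} (hA : 0 ≤ A) (hB : 0 ≤ B) (hC : 0 ≤ C)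
    (hs : A + B + C = 1) {T : ℝ × ℝ → ℝ} (hT : IsTent A B C T) : ∫ t in TD, T t = 1 / 6 := by
  have h := layer hA hB hC hs hT (f := fun _ => 1) continuous_const
  simp only [mul_one] at h
  have e : ∫ s in TD, (1 : ℝ) = 1 / 2 := by
    have := TD_quad 1 0 0 0 0 0
    simp only [zero_mul, add_zero, zero_div] at this
    exact this
  rw [e] at h
  rw [h]
  have hd : ∀ l ∈ uIcc (0 : ℝ) 1, HasDerivAt (fun l : ℝ => (l - l ^ 2 + l ^ 3 / 3) / 2)
      ((1 - l) ^ 2 * (1 / 2)) l := by
    intro l _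
    have q3 := (((hasDerivAt_id l).sub (hasDerivAt_pow 2 l)).add
      ((hasDerivAt_pow 3 l).div_const 3)).div_const 2
    exact q3.congr_deriv (by push_cast; ring)
  rw [intervalIntegral.integral_eq_sub_of_hasDerivAt hd
    (Continuous.intervalIntegrable (by fun_prop) _ _)]
  norm_num

end Helper96.Psi
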