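import Pool.Agent.Helper96.MEI.Psi

/-!
# Project MEI (M2): closed lower bounds of the integrals over a cone of three nodes
-/

namespace Helper96.Psi

open MeasureTheory Set Helper29.MEI Helper96.Cone
open scoped ENNReal

/-- the Gram matrix of the columns of `M` in the form of the lengths -/
noncomputable def gM (M : Matrix (Fin 3) (Fin 3) ℝ) (i j : Fin 3) : ℝ :=
  M 0 i * M 0 j + M 1 i * M 1 j + M 2 i * M 2 j +
    (M 0 i * M 1 j + M 1 i * M 0 j + M 0 i * M 2 j + M 2 i * M 0 j + M 1 i * M 2 j +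
      M 2 i * M 1 j) / 2

theorem gM_comm (M : Matrix (Fin 3) (Fin 3) ℝ) (i j : Fin 3) : gM M i j = gM M j i := by
  unfold gM
  ring

theorem Qf_mv (M : Matrix (Fin 3) (Fin 3) ℝ) (p : ℝ × ℝ × ℝ) :
    Qf (mv M p) = qd (gM M 0 0) (gM M 1 1) (gM M 2 2) (gM M 0 1) (gM M 0 2) (gM M 1 2) p := by
  unfold Qf mv qd gM
  simp only
  ring

/-- the sum of the entries `i ≤ j` -/
noncomputable def SM (M : Matrix (Fin 3) (Fin 3) ℝ) : ℝ :=
  gM M 0 0 + gM M 1 1 + gM M 2 2 + gM M 0 1 + gM M 0 2 + gM M 1 2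

/-- the constant of the tent with apex `(A, B, C)` -/
noncomputable def FA (M : Matrix (Fin 3) (Fin 3) ℝ) (A B C : ℝ) : ℝ :=
  (Qf (mv M (A, B, C)) + (gM M 0 0 * A + gM M 1 1 * B + gM M 2 2 * C + gM M 0 1 * (A + B) +
    gM M 0 2 * (A + C) + gM M 1 2 * (B + C)) + SM M) / 30

/-- the constants of the coordinates -/
noncomputable def FM (M : Matrix (Fin 3) (Fin 3) ℝ) (k : Fin 3) : ℝ :=
  (gM M k k + (gM M k 0 + gM M k 1 + gM M k 2) + SM M) / 30

theorem FA_e0 (M : Matrix (Fin 3) (Fin 3) ℝ) : FA M 1 0 0 = FM M 0 := by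
  unfold FA FM
  rw [Qf_mv]
  unfold qd
  simp only
  ring

theorem FA_e1 (M : Matrix (Fin 3) (Fin 3) ℝ) : FA M 0 1 0 = FM M 1 := by
  unfold FA FM
  rw [Qf_mv, gM_comm M 1 0]
  unfold qd
  simp only
  ring

theorem FA_e2 (M : Matrix (Fin 3) (Fin 3) ℝ) : FA M 0 0 1 = FM M 2 := by
  unfold FA FM
  rw [Qf_mv, gM_comm M 2 0, gM_comm M 2 1]
  unfold qd
  simp only
  ring

theorem Qf_nonneg (p : ℝ × ℝ × ℝ) : 0 ≤ Qf p := by
  unfold Qf
  nlinarith [sq_nonneg (p.1 + p.2.1), sq_nonneg (p.1 + p.2.2), sq_nonneg (p.2.1 + p.2.2)]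

theorem Qf_ge (p : ℝ × ℝ × ℝ) : 2 / 3 * (p.1 + p.2.1 + p.2.2) ^ 2 ≤ Qf p := by
  unfold Qf
  nlinarith [sq_nonneg (p.1 - p.2.1), sq_nonneg (p.1 - p.2.2), sq_nonneg (p.2.1 - p.2.2)]

/-- the constant is below the average of its corner values -/
theorem FA_le {M : Matrix (Fin 3) (Fin 3) ℝ} {A B C : ℝ} (hA : 0 ≤ A) (hB : 0 ≤ B) (hC : 0 ≤ C)
    (hs : A + B + C = 1) : FA M A B C ≤ A * FM M 0 + B * FM M 1 + C * FM M 2 := by
  have k : ∀ i j : Fin 3, 0 ≤ gM M i i + gM M j j - 2 * gM M i j := by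
    intro i j
    have := Qf_nonneg (M 0 i - M 0 j, M 1 i - M 1 j, M 2 i - M 2 j)
    unfold Qf at this
    simp only at this
    unfold gM
    nlinarith
  have h1 := mul_nonneg (mul_nonneg hA hB) (k 0 1)
  have h2 := mul_nonneg (mul_nonneg hA hC) (k 0 2)
  have h3 := mul_nonneg (mul_nonneg hB hC) (k 1 2)
  have e : A * FM M 0 + B * FM M 1 + C * FM M 2 - FA M A B C =
      (A * B * (gM M 0 0 + gM M 1 1 - 2 * gM M 0 1) + A * C * (gM M 0 0 + gM M 2 2 - 2 * gM M 0 2) +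
        B * C * (gM M 1 1 + gM M 2 2 - 2 * gM M 1 2)) / 30 := by
    have hC' : C = 1 - A - B := by linarith
    subst hC'
    unfold FA FM SM
    rw [Qf_mv, gM_comm M 1 0, gM_comm M 2 0, gM_comm M 2 1]
    unfold qd
    simp only
    ring
  have : 0 ≤ A * FM M 0 + B * FM M 1 + C * FM M 2 - FA M A B C := by
    rw [e]
    linarith
  linarith

theorem FA_max {M : Matrix (Fin 3) (Fin 3) ℝ} {A B C F : ℝ} (hA : 0 ≤ A) (hB : 0 ≤ B)
    (hC : 0 ≤ C) (hs : A + B + C = 1) (h : ∀ k, FM M k ≤ F) : FA M A B C ≤ F := by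
  have h0 := mul_le_mul_of_nonneg_left (h 0) hA
  have h1 := mul_le_mul_of_nonneg_left (h 1) hB
  have h2 := mul_le_mul_of_nonneg_left (h 2) hC
  have e : A * F + B * F + C * F = F := by rw [← add_mul, ← add_mul, hs, one_mul]
  have := FA_le (M := M) hA hB hC hs
  linarith

/-- the tangent of `1 / q ^ 2` -/
theorem tan_wt {q q0 : ℝ} (hq : 0 < q) (h0 : 0 < q0) :
    3 / q0 ^ 2 - 2 / q0 ^ 3 * q ≤ 1 / q ^ 2 := by
  have h : 1 / q ^ 2 - (3 / q0 ^ 2 - 2 / q0 ^ 3 * q) =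
      (q - q0) ^ 2 * (2 * q + q0) / (q ^ 2 * q0 ^ 3) := by
    field_simp
    ring
  have : 0 ≤ (q - q0) ^ 2 * (2 * q + q0) / (q ^ 2 * q0 ^ 3) := by positivity
  linarith

/-- **the flat bound** -/
theorem psi_flat {M : Matrix (Fin 3) (Fin 3) ℝ} (hq : ∀ t ∈ TD, 0 < Qf (mv M (fl t)))
    {A B C F : ℝ} (hA : 0 ≤ A) (hB : 0 ≤ B) (hC : 0 ≤ C) (hs : A + B + C = 1) (hF0 : 0 < F)
    (hF : FA M A B C ≤ F) {T : ℝ × ℝ → ℝ} (hT : IsTent A B C T) :
    1 / (54 * F ^ 2) ≤ ∫ t in TD, T t / Qf (mv M (fl t)) ^ 2 := by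
  have hcq : Continuous fun t : ℝ × ℝ => Qf (mv M (fl t)) := by
    have : (fun t : ℝ × ℝ => Qf (mv M (fl t))) = fun t => qd (gM M 0 0) (gM M 1 1) (gM M 2 2)
        (gM M 0 1) (gM M 0 2) (gM M 1 2) (fl t) := funext fun t => Qf_mv M _
    rw [this]
    exact qd_cont _ _ _ _ _ _
  have hI1 : IntegrableOn (fun t => T t * (3 / (3 * F) ^ 2 - 2 / (3 * F) ^ 3 * Qf (mv M (fl t))))
      TD := by
    refine ContinuousOn.integrableOn_compact TD_compact ?_
    exact (hT.cont.mul (continuous_const.sub (continuous_const.mul hcq))).continuousOn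
  have hI2 : IntegrableOn (fun t => T t / Qf (mv M (fl t)) ^ 2) TD := by
    refine ContinuousOn.integrableOn_compact TD_compact ?_
    refine hT.cont.continuousOn.div (hcq.pow 2).continuousOn fun t ht => ?_
    exact (pow_pos (hq t ht) 2).ne'
  have h1 : ∫ t in TD, T t * (3 / (3 * F) ^ 2 - 2 / (3 * F) ^ 3 * Qf (mv M (fl t))) ≤
      ∫ t in TD, T t / Qf (mv M (fl t)) ^ 2 := by
    refine setIntegral_mono_on hI1 hI2 TD_meas fun t ht => ?_
    rw [div_eq_mul_one_div (T t)]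
    exact mul_le_mul_of_nonneg_left (tan_wt (hq t ht) (by positivity)) (hT.nn t ht)
  have e1 : ∫ t in TD, T t * (3 / (3 * F) ^ 2 - 2 / (3 * F) ^ 3 * Qf (mv M (fl t))) =
      3 / (3 * F) ^ 2 * (∫ t in TD, T t) -
        2 / (3 * F) ^ 3 * ∫ t in TD, T t * Qf (mv M (fl t)) := by
    rw [← integral_const_mul, ← integral_const_mul, ← integral_sub]
    · refine integral_congr_ae (Filter.Eventually.of_forall fun t => ?_)
      show T t * (3 / (3 * F) ^ 2 - 2 / (3 * F) ^ 3 * Qf (mv M (fl t))) =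
        3 / (3 * F) ^ 2 * T t - 2 / (3 * F) ^ 3 * (T t * Qf (mv M (fl t)))
      ring
    · exact (hT.cont.continuousOn.integrableOn_compact TD_compact).const_mul _
    · exact ((hT.cont.mul hcq).continuousOn.integrableOn_compact TD_compact).const_mul _
  have e2 : ∫ t in TD, T t * Qf (mv M (fl t)) = FA M A B C / 2 := by
    have h := tent_qd (gM M 0 0) (gM M 1 1) (gM M 2 2) (gM M 0 1) (gM M 0 2) (gM M 1 2) hA hB hC
      hs hT
    simp only [← Qf_mv] at h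
    rw [h]
    unfold FA SM
    ring
  rw [e1, tent_one hA hB hC hs hT, e2] at h1
  refine le_trans ?_ h1
  have h3 : 2 / (3 * F) ^ 3 * (FA M A B C / 2) ≤ 2 / (3 * F) ^ 3 * (F / 2) :=
    mul_le_mul_of_nonneg_left (by linarith) (by positivity)
  have e3 : 3 / (3 * F) ^ 2 * (1 / 6) - 2 / (3 * F) ^ 3 * (F / 2) = 1 / (54 * F ^ 2) := by
    field_simp
    norm_num
  linarith

theorem qpos {M : Matrix (Fin 3) (Fin 3) ℝ} (hcol : ∀ j, 0 < M 0 j + M 1 j + M 2 j) {t : ℝ × ℝ}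
    (ht : t ∈ TD) : 0 < Qf (mv M (fl t)) := by
  have h := Qf_ge (mv M (fl t))
  have e : (mv M (fl t)).1 + (mv M (fl t)).2.1 + (mv M (fl t)).2.2 =
      Sf (M 0 0 + M 1 0 + M 2 0, M 0 1 + M 1 1 + M 2 1, M 0 2 + M 1 2 + M 2 2) (fl t) := by
    unfold Sf mv
    simp only
    ring
  rw [e] at h
  have h2 := Sf_pos (s := (M 0 0 + M 1 0 + M 2 0, M 0 1 + M 1 1 + M 2 1, M 0 2 + M 1 2 + M 2 2))
    (hcol 0) (hcol 1) (hcol 2) ht
  have h3 := pow_pos h2 2
  linarith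

/-- **(PSI)**, the general form: any function of degree one whose restriction to the flat
triangle is a multiple of a tent -/
theorem psi_gen {M : Matrix (Fin 3) (Fin 3) ℝ} (h0 : ∀ i j, 0 ≤ M i j) (hdet : 0 < M.det)
    (hcol : ∀ j, 0 < M 0 j + M 1 j + M 2 j) {A B C F σ : ℝ} (hA : 0 ≤ A) (hB : 0 ≤ B)
    (hC : 0 ≤ C) (hs : A + B + C = 1) (hF0 : 0 < F) (hF : FA M A B C ≤ F) (hσ : 0 < σ)
    {T : ℝ × ℝ → ℝ} (hT : IsTent A B C T) {f : ℝ × ℝ × ℝ → ℝ} (hf : Measurable f)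
    (hf0 : ∀ p ∈ Cp, 0 ≤ f p) (hf1 : ∀ τ : ℝ, 0 < τ → ∀ p ∈ Cp, f (sc τ p) = τ * f p)
    (hfT : ∀ t ∈ TD, f (fl t) = T t / σ) :
    M.det / (54 * √2 * F ^ 2 * σ) ≤
      1 / √2 * ∫ t in TD ∩ {t | mv M⁻¹ (fl t) ∈ Cp}, f (mv M⁻¹ (fl t)) / (1 - e2 t.1 t.2) ^ 2 := by
  have h2 : (0 : ℝ) < √2 := by positivity
  rw [cone_int h0 hdet hcol hf hf0 hf1]
  have h := psi_flat (M := M) (fun t ht => qpos hcol ht) hA hB hC hs hF0 hF hT
  have e : ∫ t in TD, f (fl t) / Qf (mv M (fl t)) ^ 2 =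
      (∫ t in TD, T t / Qf (mv M (fl t)) ^ 2) / σ := by
    rw [← integral_div]
    refine setIntegral_congr_fun TD_meas fun t ht => ?_
    show f (fl t) / Qf (mv M (fl t)) ^ 2 = T t / Qf (mv M (fl t)) ^ 2 / σ
    rw [hfT t ht, div_right_comm]
  rw [e]
  have h3 : 1 / (54 * F ^ 2) / σ ≤ (∫ t in TD, T t / Qf (mv M (fl t)) ^ 2) / σ :=
    div_le_div_of_nonneg_right h hσ.le
  have h4 : M.det / (54 * √2 * F ^ 2 * σ) = 1 / √2 * (M.det * (1 / (54 * F ^ 2) / σ)) := by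
    field_simp
  rw [h4]
  exact mul_le_mul_of_nonneg_left (mul_le_mul_of_nonneg_left h3 hdet.le) (by positivity)

/-! ### The tents -/

theorem isTent_e0 : IsTent 1 0 0 fun t => t.1 where
  cont := continuous_fst
  nn := fun t ht => ht.1
  le := fun t ht => by
    obtain ⟨h1, h2, h3⟩ := ht
    linarith
  iff := fun t ht l hl => by
    obtain ⟨h1, h2, h3⟩ := ht
    unfold SL
    simp only [mem_ofPred_eq, mul_one, mul_zero]
    exact ⟨fun h => ⟨h, h2, by linarith⟩, fun h => h.1⟩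

theorem isTent_e1 : IsTent 0 1 0 fun t => t.2 where
  cont := continuous_snd
  nn := fun t ht => ht.2.1
  le := fun t ht => by
    obtain ⟨h1, h2, h3⟩ := ht
    linarith
  iff := fun t ht l hl => by
    obtain ⟨h1, h2, h3⟩ := ht
    unfold SL
    simp only [mem_ofPred_eq, mul_one, mul_zero]
    exact ⟨fun h => ⟨h1, h, by linarith⟩, fun h => h.2.1⟩

theorem isTent_e2 : IsTent 0 0 1 fun t => 1 - t.1 - t.2 where
  cont := by fun_prop
  nn := fun t ht => by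
    obtain ⟨h1, h2, h3⟩ := ht
    linarith
  le := fun t ht => by
    obtain ⟨h1, h2, h3⟩ := ht
    linarith
  iff := fun t ht l hl => by
    obtain ⟨h1, h2, h3⟩ := ht
    unfold SL
    simp only [mem_ofPred_eq, mul_one, mul_zero]
    exact ⟨fun h => ⟨h1, h2, h⟩, fun h => h.2.2⟩

/-- the full tent -/
theorem isTent_full {A B C : ℝ} (hA : 0 < A) (hB : 0 < B) (hC : 0 < C) (hs : A + B + C = 1) :
    IsTent A B C fun t => tent A B C t.1 t.2 where
  cont := tent_cont A B C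
  nn := fun t ht => tent_nonneg hA hB hC ht
  le := fun t ht => by
    by_contra h
    push Not at h
    unfold tent at h
    rw [lt_min_iff, lt_min_iff, one_lt_div hA, one_lt_div hB, one_lt_div hC] at h
    linarith [h.1, h.2.1, h.2.2]
  iff := fun t ht l hl => by
    unfold SL tent
    simp only [mem_ofPred_eq]
    rw [le_min_iff, le_min_iff, le_div_iff₀ hA, le_div_iff₀ hB, le_div_iff₀ hC]

/-- the half tents -/
theorem isTent_01 {A B : ℝ} (hA : 0 < A) (hB : 0 < B) (hs : A + B = 1) :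
    IsTent A B 0 fun t => min (t.1 / A) (t.2 / B) where
  cont := by fun_prop
  nn := fun t ht => le_min (div_nonneg ht.1 hA.le) (div_nonneg ht.2.1 hB.le)
  le := fun t ht => by
    obtain ⟨h1, h2, h3⟩ := ht
    by_contra h
    push Not at h
    rw [lt_min_iff, one_lt_div hA, one_lt_div hB] at h
    linarith [h.1, h.2]
  iff := fun t ht l hl => by
    obtain ⟨h1, h2, h3⟩ := ht
    unfold SL
    simp only [mem_ofPred_eq, mul_zero]
    rw [le_min_iff, le_div_iff₀ hA, le_div_iff₀ hB]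
    exact ⟨fun h => ⟨h.1, h.2, by linarith⟩, fun h => ⟨h.1, h.2.1⟩⟩

theorem isTent_02 {A C : ℝ} (hA : 0 < A) (hC : 0 < C) (hs : A + C = 1) :
    IsTent A 0 C fun t => min (t.1 / A) ((1 - t.1 - t.2) / C) where
  cont := by fun_prop
  nn := fun t ht => le_min (div_nonneg ht.1 hA.le)
    (div_nonneg (by obtain ⟨h1, h2, h3⟩ := ht; linarith) hC.le)
  le := fun t ht => by
    obtain ⟨h1, h2, h3⟩ := ht
    by_contra h
    push Not at h
    rw [lt_min_iff, one_lt_div hA, one_lt_div hC] at h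
    linarith [h.1, h.2]
  iff := fun t ht l hl => by
    obtain ⟨h1, h2, h3⟩ := ht
    unfold SL
    simp only [mem_ofPred_eq, mul_zero]
    rw [le_min_iff, le_div_iff₀ hA, le_div_iff₀ hC]
    exact ⟨fun h => ⟨h.1, h2, h.2⟩, fun h => ⟨h.1, h.2.2⟩⟩

theorem isTent_12 {B C : ℝ} (hB : 0 < B) (hC : 0 < C) (hs : B + C = 1) :
    IsTent 0 B C fun t => min (t.2 / B) ((1 - t.1 - t.2) / C) where
  cont := by fun_prop
  nn := fun t ht => le_min (div_nonneg ht.2.1 hB.le)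
    (div_nonneg (by obtain ⟨h1, h2, h3⟩ := ht; linarith) hC.le)
  le := fun t ht => by
    obtain ⟨h1, h2, h3⟩ := ht
    by_contra h
    push Not at h
    rw [lt_min_iff, one_lt_div hB, one_lt_div hC] at h
    linarith [h.1, h.2]
  iff := fun t ht l hl => by
    obtain ⟨h1, h2, h3⟩ := ht
    unfold SL
    simp only [mem_ofPred_eq, mul_zero]
    rw [le_min_iff, le_div_iff₀ hB, le_div_iff₀ hC]
    exact ⟨fun h => ⟨h1, h.1, h.2⟩, fun h => ⟨h.2.1, h.2.2⟩⟩

/-! ### The rows -/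

section rows

variable {M : Matrix (Fin 3) (Fin 3) ℝ} (h0 : ∀ i j, 0 ≤ M i j) (hdet : 0 < M.det)
  (hcol : ∀ j, 0 < M 0 j + M 1 j + M 2 j) {F : ℝ} (hF0 : 0 < F)

include h0 hdet hcol hF0

/-- **(PSI1)**, first coordinate -/
theorem psi_lin0 (hF : FM M 0 ≤ F) : M.det / (54 * √2 * F ^ 2) ≤ 1 / √2 *
    ∫ t in TD ∩ {t | mv M⁻¹ (fl t) ∈ Cp}, (mv M⁻¹ (fl t)).1 / (1 - e2 t.1 t.2) ^ 2 := by
  have h := psi_gen h0 hdet hcol (A := 1) (B := 0) (C := 0) (σ := 1) zero_le_one le_rfl le_rfl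
    (by norm_num) hF0 (by rw [FA_e0]; exact hF) one_pos isTent_e0 (f := fun p => p.1)
    measurable_fst (fun p hp => hp.1) (fun τ _ p _ => rfl) (fun t _ => (div_one _).symm)
  rwa [mul_one] at h

/-- second coordinate -/
theorem psi_lin1 (hF : FM M 1 ≤ F) : M.det / (54 * √2 * F ^ 2) ≤ 1 / √2 *
    ∫ t in TD ∩ {t | mv M⁻¹ (fl t) ∈ Cp}, (mv M⁻¹ (fl t)).2.1 / (1 - e2 t.1 t.2) ^ 2 := by
  have h := psi_gen h0 hdet hcol (A := 0) (B := 1) (C := 0) (σ := 1) le_rfl zero_le_one le_rfl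
    (by norm_num) hF0 (by rw [FA_e1]; exact hF) one_pos isTent_e1 (f := fun p => p.2.1)
    (measurable_fst.comp measurable_snd) (fun p hp => hp.2.1) (fun τ _ p _ => rfl)
    (fun t _ => (div_one _).symm)
  rwa [mul_one] at h

/-- third coordinate -/
theorem psi_lin2 (hF : FM M 2 ≤ F) : M.det / (54 * √2 * F ^ 2) ≤ 1 / √2 *
    ∫ t in TD ∩ {t | mv M⁻¹ (fl t) ∈ Cp}, (mv M⁻¹ (fl t)).2.2 / (1 - e2 t.1 t.2) ^ 2 := by
  have h := psi_gen h0 hdet hcol (A := 0) (B := 0) (C := 1) (σ := 1) le_rfl le_rfl zero_le_one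
    (by norm_num) hF0 (by rw [FA_e2]; exact hF) one_pos isTent_e2 (f := fun p => p.2.2)
    (measurable_snd.comp measurable_snd) (fun p hp => hp.2.2) (fun τ _ p _ => rfl)
    (fun t _ => (div_one _).symm)
  rwa [mul_one] at h

/-- the minimum of the three scaled coordinates -/
noncomputable def mn (u v w : ℝ) (p : ℝ × ℝ × ℝ) : ℝ := min (p.1 / u) (min (p.2.1 / v) (p.2.2 / w))

omit h0 hdet hcol hF0 in
theorem mn_meas (u v w : ℝ) : Measurable (mn u v w) := by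
  unfold mn
  fun_prop

omit h0 hdet hcol hF0 in
theorem mn_nonneg {u v w : ℝ} (hu : 0 < u) (hv : 0 < v) (hw : 0 < w) {p : ℝ × ℝ × ℝ}
    (hp : p ∈ Cp) : 0 ≤ mn u v w p :=
  le_min (div_nonneg hp.1 hu.le) (le_min (div_nonneg hp.2.1 hv.le) (div_nonneg hp.2.2 hw.le))

omit h0 hdet hcol hF0 in
theorem mn_sc (u v w : ℝ) {τ : ℝ} (hτ : 0 < τ) (p : ℝ × ℝ × ℝ) :
    mn u v w (sc τ p) = τ * mn u v w p := by
  unfold mn sc
  simp only
  rw [mul_div_assoc, mul_div_assoc, mul_div_assoc, mul_min_of_nonneg _ _ hτ.le,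
    mul_min_of_nonneg _ _ hτ.le]

/-- **(PSI2)**, the tent with apex `(u, v, w)` (contact coordinates of the apex) -/
theorem psi_min {u v w : ℝ} (hu : 0 < u) (hv : 0 < v) (hw : 0 < w)
    (hF : FA M (u / (u + v + w)) (v / (u + v + w)) (w / (u + v + w)) ≤ F) :
    M.det / (54 * √2 * F ^ 2 * (u + v + w)) ≤ 1 / √2 *
    ∫ t in TD ∩ {t | mv M⁻¹ (fl t) ∈ Cp}, mn u v w (mv M⁻¹ (fl t)) / (1 - e2 t.1 t.2) ^ 2 := by
  have hσ : 0 < u + v + w := by positivity
  have hA := div_pos hu hσ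
  have hB := div_pos hv hσ
  have hC := div_pos hw hσ
  have hs : u / (u + v + w) + v / (u + v + w) + w / (u + v + w) = 1 := by
    rw [← add_div, ← add_div, div_self hσ.ne']
  exact psi_gen h0 hdet hcol hA.le hB.le hC.le hs hF0 hF hσ (isTent_full hA hB hC hs)
    (mn_meas u v w) (fun p hp => mn_nonneg hu hv hw hp) (fun τ hτ p _ => mn_sc u v w hτ p)
    (fun t _ => tent_scale hu hv hw hσ t.1 t.2)

/-- **(PSI2)** with the maximum of the corner constants -/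
theorem psi_min' {u v w : ℝ} (hu : 0 < u) (hv : 0 < v) (hw : 0 < w) (hF : ∀ k, FM M k ≤ F) :
    M.det / (54 * √2 * F ^ 2 * (u + v + w)) ≤ 1 / √2 *
    ∫ t in TD ∩ {t | mv M⁻¹ (fl t) ∈ Cp}, mn u v w (mv M⁻¹ (fl t)) / (1 - e2 t.1 t.2) ^ 2 := by
  have hσ : 0 < u + v + w := by positivity
  refine psi_min h0 hdet hcol hF0 hu hv hw (FA_max (div_pos hu hσ).le (div_pos hv hσ).le
    (div_pos hw hσ).le ?_ hF)
  rw [← add_div, ← add_div, div_self hσ.ne']

/-- **(PSI3)**, the half tent over the wall of the nodes 0 and 1 -/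
theorem psi_half01 {u v : ℝ} (hu : 0 < u) (hv : 0 < v) (hF : ∀ k, FM M k ≤ F) :
    M.det / (54 * √2 * F ^ 2 * (u + v)) ≤ 1 / √2 *
    ∫ t in TD ∩ {t | mv M⁻¹ (fl t) ∈ Cp},
      min ((mv M⁻¹ (fl t)).1 / u) ((mv M⁻¹ (fl t)).2.1 / v) / (1 - e2 t.1 t.2) ^ 2 := by
  have hσ : 0 < u + v := by positivity
  have h1 := div_pos hu hσ
  have h2 := div_pos hv hσ
  have hs : u / (u + v) + v / (u + v) = 1 := by rw [← add_div, div_self hσ.ne']
  refine psi_gen h0 hdet hcol (A := u / (u + v)) (B := v / (u + v)) (C := 0) (by positivity) (by positivity)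
    (by positivity) (by rw [← hs]; ring) hF0 (FA_max (by positivity) (by positivity)
    (by positivity) (by rw [← hs]; ring) hF) hσ (isTent_01 h1 h2 hs)
    (f := fun p => min (p.1 / u) (p.2.1 / v)) (by fun_prop)
    (fun p hp => le_min (div_nonneg hp.1 hu.le) (div_nonneg hp.2.1 hv.le))
    (fun τ hτ p _ => ?_) (fun t _ => ?_)
  · show min (τ * p.1 / u) (τ * p.2.1 / v) = τ * min (p.1 / u) (p.2.1 / v)
    rw [mul_div_assoc, mul_div_assoc, mul_min_of_nonneg _ _ hτ.le]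
  · show min ((fl t).1 / u) ((fl t).2.1 / v) =
      min ((fl t).1 / (u / (u + v))) ((fl t).2.1 / (v / (u + v))) / (u + v)
    rw [← min_div_div_right hσ.le]
    have e : ∀ a b : ℝ, 0 < b → a / (b / (u + v)) / (u + v) = a / b := by
      intro a b hb
      field_simp
    rw [e _ _ hu, e _ _ hv]

/-- **(PSI3)**, the half tent over the wall of the nodes 0 and 2 -/
theorem psi_half02 {u v : ℝ} (hu : 0 < u) (hv : 0 < v) (hF : ∀ k, FM M k ≤ F) :
    M.det / (54 * √2 * F ^ 2 * (u + v)) ≤ 1 / √2 *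
    ∫ t in TD ∩ {t | mv M⁻¹ (fl t) ∈ Cp},
      min ((mv M⁻¹ (fl t)).1 / u) ((mv M⁻¹ (fl t)).2.2 / v) / (1 - e2 t.1 t.2) ^ 2 := by
  have hσ : 0 < u + v := by positivity
  have h1 := div_pos hu hσ
  have h2 := div_pos hv hσ
  have hs : u / (u + v) + v / (u + v) = 1 := by rw [← add_div, div_self hσ.ne']
  refine psi_gen h0 hdet hcol (A := u / (u + v)) (B := 0) (C := v / (u + v)) (by positivity) (by positivity)
    (by positivity) (by rw [← hs]; ring) hF0 (FA_max (by positivity) (by positivity)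
    (by positivity) (by rw [← hs]; ring) hF) hσ (isTent_02 h1 h2 hs)
    (f := fun p => min (p.1 / u) (p.2.2 / v)) (by fun_prop)
    (fun p hp => le_min (div_nonneg hp.1 hu.le) (div_nonneg hp.2.2 hv.le))
    (fun τ hτ p _ => ?_) (fun t _ => ?_)
  · show min (τ * p.1 / u) (τ * p.2.2 / v) = τ * min (p.1 / u) (p.2.2 / v)
    rw [mul_div_assoc, mul_div_assoc, mul_min_of_nonneg _ _ hτ.le]
  · show min ((fl t).1 / u) ((fl t).2.2 / v) =
      min ((fl t).1 / (u / (u + v))) ((fl t).2.2 / (v / (u + v))) / (u + v)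
    rw [← min_div_div_right hσ.le]
    have e : ∀ a b : ℝ, 0 < b → a / (b / (u + v)) / (u + v) = a / b := by
      intro a b hb
      field_simp
    rw [e _ _ hu, e _ _ hv]

/-- **(PSI3)**, the half tent over the wall of the nodes 1 and 2 -/
theorem psi_half12 {u v : ℝ} (hu : 0 < u) (hv : 0 < v) (hF : ∀ k, FM M k ≤ F) :
    M.det / (54 * √2 * F ^ 2 * (u + v)) ≤ 1 / √2 *
    ∫ t in TD ∩ {t | mv M⁻¹ (fl t) ∈ Cp},
      min ((mv M⁻¹ (fl t)).2.1 / u) ((mv M⁻¹ (fl t)).2.2 / v) / (1 - e2 t.1 t.2) ^ 2 := by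
  have hσ : 0 < u + v := by positivity
  have h1 := div_pos hu hσ
  have h2 := div_pos hv hσ
  have hs : u / (u + v) + v / (u + v) = 1 := by rw [← add_div, div_self hσ.ne']
  refine psi_gen h0 hdet hcol (A := 0) (B := u / (u + v)) (C := v / (u + v)) (by positivity) (by positivity)
    (by positivity) (by rw [← hs]; ring) hF0 (FA_max (by positivity) (by positivity)
    (by positivity) (by rw [← hs]; ring) hF) hσ (isTent_12 h1 h2 hs)
    (f := fun p => min (p.2.1 / u) (p.2.2 / v)) (by fun_prop)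
    (fun p hp => le_min (div_nonneg hp.2.1 hu.le) (div_nonneg hp.2.2 hv.le))
    (fun τ hτ p _ => ?_) (fun t _ => ?_)
  · show min (τ * p.2.1 / u) (τ * p.2.2 / v) = τ * min (p.2.1 / u) (p.2.2 / v)
    rw [mul_div_assoc, mul_div_assoc, mul_min_of_nonneg _ _ hτ.le]
  · show min ((fl t).2.1 / u) ((fl t).2.2 / v) =
      min ((fl t).2.1 / (u / (u + v))) ((fl t).2.2 / (v / (u + v))) / (u + v)
    rw [← min_div_div_right hσ.le]
    have e : ∀ a b : ℝ, 0 < b → a / (b / (u + v)) / (u + v) = a / b := by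
      intro a b hb
      field_simp
    rw [e _ _ hu, e _ _ hv]

end rows

end Helper96.Psi
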