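import Pool.Agent.Helper98.MEI.Wall2

/-!
# Wall masses with the exact leak of two nodes: the integral over the directions
-/

namespace Pool.Agent.Helper96.Rr4

open Set MeasureTheory Pool.Agent.Helper55.Sx Pool.Agent.Helper55.Mass Pool.Agent.Helper98.Wall2

/-- positive part -/
noncomputable def pp (x : ℝ) : ℝ := max x 0

theorem pp_nonneg (x : ℝ) : 0 ≤ pp x := le_max_right _ _

theorem le_pp (x : ℝ) : x ≤ pp x := le_max_left _ _

theorem pp_of_nonneg {x : ℝ} (h : 0 ≤ x) : pp x = x := max_eq_left h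

theorem pp_of_nonpos {x : ℝ} (h : x ≤ 0) : pp x = 0 := max_eq_right h

theorem pp_cont : Continuous pp := continuous_id.max continuous_const

theorem pp_sub (x : ℝ) : pp x = x + pp (-x) := by
  rcases le_total 0 x with h | h
  · rw [pp_of_nonneg h, pp_of_nonpos (by linarith), add_zero]
  · rw [pp_of_nonpos h, pp_of_nonneg (by linarith)]
    ring

theorem pp_mul {c x : ℝ} (hc : 0 ≤ c) : pp (c * x) = c * pp x := by
  rcases le_total 0 x with h | h
  · rw [pp_of_nonneg h, pp_of_nonneg (mul_nonneg hc h)]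
  · rw [pp_of_nonpos h, pp_of_nonpos (mul_nonpos_of_nonneg_of_nonpos hc h), mul_zero]

theorem pp_mono {x y : ℝ} (h : x ≤ y) : pp x ≤ pp y := max_le_max h le_rfl

/-- lower moments -/
theorem int_L (u v : ℝ) : ∫ s in (0 : ℝ)..1, (u * s ^ 2 + v * (s * (1 - s)))
    * (1 + 2 * (s * (1 - s)) + 3 * (s * (1 - s)) ^ 2 + 4 * (s * (1 - s)) ^ 3)
    = (148 / 315) * u + (47 / 180) * v := by
  refine Eq.trans (intervalIntegral.integral_congr fun y _ => ?_)
    ((P11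
      ((0) * u + (0) * v)
      ((0) * u + (1) * v)
      ((1) * u + (1) * v)
      ((2) * u + (-1) * v)
      ((1) * u + (-3) * v)
      ((-2) * u + (-7) * v)
      ((-9) * u + (21) * v)
      ((12) * u + (-16) * v)
      ((-4) * u + (4) * v)
      ((0) * u + (0) * v)
      ((0) * u + (0) * v)
      (0 : ℝ) 1).trans ?_)
  · ring
  · ring

/-- third order moments -/
theorem int_M (u v w : ℝ) : ∫ s in (0 : ℝ)..1,
    (u * s ^ 3 + v * (s ^ 2 * (1 - s)) + w * (s * (1 - s) ^ 2))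
      * (0.5786 + 2.52 * (s * (1 - s)))
    = (4573 / 20000) * u + (5413 / 60000) * v + (5413 / 60000) * w := by
  refine Eq.trans (intervalIntegral.integral_congr fun y _ => ?_)
    ((P11
      ((0) * u + (0) * v + (0) * w)
      ((0) * u + (0) * v + (2893/5000) * w)
      ((0) * u + (2893/5000) * v + (3407/2500) * w)
      ((2893/5000) * u + (9707/5000) * v + (-34907/5000) * w)
      ((63/25) * u + (-126/25) * v + (189/25) * w)
      ((-63/25) * u + (63/25) * v + (-63/25) * w)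
      ((0) * u + (0) * v + (0) * w)
      ((0) * u + (0) * v + (0) * w)
      ((0) * u + (0) * v + (0) * w)
      ((0) * u + (0) * v + (0) * w)
      ((0) * u + (0) * v + (0) * w)
      (0 : ℝ) 1).trans ?_)
  · ring
  · ring

theorem U_le {σ : ℝ} (h0 : 0 ≤ σ) (h1 : σ ≤ 1 / 4) :
    (0.5786 + 0.4 * σ) * (1 / (1 - σ) ^ 2) ≤ 0.5786 + 2.52 * σ := by
  have hp : 0 < (1 - σ) ^ 2 := by
    have : 0 < 1 - σ := by linarith
    positivity
  rw [mul_one_div, div_le_iff₀ hp]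
  have e : (0.5786 + 2.52 * σ) * (1 - σ) ^ 2 - (0.5786 + 0.4 * σ)
      = σ * (0.9628 - 4.4614 * σ + 2.52 * σ ^ 2) := by ring
  have h2 : 0 ≤ 0.9628 - 4.4614 * σ + 2.52 * σ ^ 2 := by nlinarith
  have h3 := mul_nonneg h0 h2
  linarith

/-- the corner of the own node -/
theorem int_q {q : ℝ} (h0 : 0 ≤ q) (h1 : q ≤ 2 / 5) :
    ∫ s in (0 : ℝ)..1, (2 - s) * pp (q * s - (1 - s)) ≤ q ^ 2 / 2 * (1 - q / 2) := by
  set s0 : ℝ := 1 / (1 + q) with hs0
  have hq1 : 0 < 1 + q := by linarith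
  have a0 : 0 ≤ s0 := by positivity
  have a1 : s0 ≤ 1 := by
    rw [hs0, div_le_one hq1]
    linarith
  have e0 : (1 + q) * s0 = 1 := by
    rw [hs0]; field_simp
  have hc : Continuous fun s : ℝ => (2 - s) * pp (q * s - (1 - s)) :=
    (by fun_prop : Continuous fun s : ℝ => 2 - s).mul
      (pp_cont.comp (by fun_prop : Continuous fun s : ℝ => q * s - (1 - s)))
  rw [← intervalIntegral.integral_add_adjacent_intervals (hc.intervalIntegrable 0 s0)
    (hc.intervalIntegrable s0 1)]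
  have i1 : ∫ s in (0 : ℝ)..s0, (2 - s) * pp (q * s - (1 - s)) = 0 := by
    rw [intervalIntegral.integral_congr (g := fun _ => (0 : ℝ))]
    · simp
    · intro s hs
      rw [uIcc_of_le a0] at hs
      have : (1 + q) * s ≤ (1 + q) * s0 := mul_le_mul_of_nonneg_left hs.2 hq1.le
      simp only
      rw [pp_of_nonpos (by linarith), mul_zero]
  have i2 : ∫ s in s0..(1 : ℝ), (2 - s) * pp (q * s - (1 - s))
      = ∫ s in s0..(1 : ℝ), ((-2) * s ^ 0 + (1 + 2 * (1 + q)) * s ^ 1 + (-(1 + q)) * s ^ 2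
        + 0 * s ^ 3 + 0 * s ^ 4 + 0 * s ^ 5 + 0 * s ^ 6 + 0 * s ^ 7 + 0 * s ^ 8 + 0 * s ^ 9
        + 0 * s ^ 10) := by
    refine intervalIntegral.integral_congr fun s hs => ?_
    rw [uIcc_of_le a1] at hs
    have : (1 + q) * s0 ≤ (1 + q) * s := mul_le_mul_of_nonneg_left hs.1 hq1.le
    rw [pp_of_nonneg (by linarith)]
    ring
  rw [i1, i2, P11, zero_add]
  have h2 : s0 = 1 / (1 + q) := hs0
  have key : -2 * ((1 ^ 1 - s0 ^ 1) / 1) + (1 + 2 * (1 + q)) * ((1 ^ 2 - s0 ^ 2) / 2)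
      + -(1 + q) * ((1 ^ 3 - s0 ^ 3) / 3) + 0 * ((1 ^ 4 - s0 ^ 4) / 4)
      + 0 * ((1 ^ 5 - s0 ^ 5) / 5) + 0 * ((1 ^ 6 - s0 ^ 6) / 6) + 0 * ((1 ^ 7 - s0 ^ 7) / 7)
      + 0 * ((1 ^ 8 - s0 ^ 8) / 8) + 0 * ((1 ^ 9 - s0 ^ 9) / 9) + 0 * ((1 ^ 10 - s0 ^ 10) / 10)
      + 0 * ((1 ^ 11 - s0 ^ 11) / 11) = (3 * q ^ 2 + 4 * q ^ 3) / (6 * (1 + q) ^ 2) := by
    rw [h2]
    field_simp
    ring
  rw [key, div_le_iff₀ (by positivity)]
  have e : q ^ 2 / 2 * (1 - q / 2) * (6 * (1 + q) ^ 2) - (3 * q ^ 2 + 4 * q ^ 3)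
      = q ^ 3 * (1 / 2 - 3 / 2 * q ^ 2) := by ring
  have : 0 ≤ q ^ 3 * (1 / 2 - 3 / 2 * q ^ 2) :=
    mul_nonneg (by positivity) (by nlinarith)
  linarith

/-- the corner of the other node -/
theorem int_p {p : ℝ} (h0 : 0 ≤ p) :
    ∫ s in (0 : ℝ)..1, (1 + p) ^ 2 * (s * pp (p * (1 - s) - s)) ≤ p ^ 3 / 6 := by
  set s0 : ℝ := p / (1 + p) with hs0
  have hp1 : 0 < 1 + p := by linarith
  have a0 : 0 ≤ s0 := by positivity
  have a1 : s0 ≤ 1 := by
    rw [hs0, div_le_one hp1]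
    linarith
  have e0 : (1 + p) * s0 = p := by
    rw [hs0]; field_simp
  have hc : Continuous fun s : ℝ => (1 + p) ^ 2 * (s * pp (p * (1 - s) - s)) :=
    continuous_const.mul (continuous_id.mul
      (pp_cont.comp (by fun_prop : Continuous fun s : ℝ => p * (1 - s) - s)))
  rw [← intervalIntegral.integral_add_adjacent_intervals (hc.intervalIntegrable 0 s0)
    (hc.intervalIntegrable s0 1)]
  have i1 : ∫ s in s0..(1 : ℝ), (1 + p) ^ 2 * (s * pp (p * (1 - s) - s)) = 0 := by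
    rw [intervalIntegral.integral_congr (g := fun _ => (0 : ℝ))]
    · simp
    · intro s hs
      rw [uIcc_of_le a1] at hs
      have : (1 + p) * s0 ≤ (1 + p) * s := mul_le_mul_of_nonneg_left hs.1 hp1.le
      simp only
      rw [pp_of_nonpos (by linarith), mul_zero, mul_zero]
  have i2 : ∫ s in (0 : ℝ)..s0, (1 + p) ^ 2 * (s * pp (p * (1 - s) - s))
      = ∫ s in (0 : ℝ)..s0, (0 * s ^ 0 + ((1 + p) ^ 2 * p) * s ^ 1 + (-(1 + p) ^ 3) * s ^ 2
        + 0 * s ^ 3 + 0 * s ^ 4 + 0 * s ^ 5 + 0 * s ^ 6 + 0 * s ^ 7 + 0 * s ^ 8 + 0 * s ^ 9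
        + 0 * s ^ 10) := by
    refine intervalIntegral.integral_congr fun s hs => ?_
    rw [uIcc_of_le a0] at hs
    have : (1 + p) * s ≤ (1 + p) * s0 := mul_le_mul_of_nonneg_left hs.2 hp1.le
    rw [pp_of_nonneg (by linarith)]
    ring
  rw [i1, i2, P11, add_zero]
  have h2 : s0 = p / (1 + p) := hs0
  refine le_of_eq ?_
  rw [h2]
  field_simp
  ring

/-- pointwise: the corner of the own node -/
theorem wq {s : ℝ} (_h0 : 0 ≤ s) (h1 : s ≤ 1) :
    s * (1 / (1 - s * (1 - s)) ^ 2) ≤ 2 - s := by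
  have hp : 0 < 1 - s * (1 - s) := by nlinarith [sq_nonneg (s - 1 / 2)]
  rw [mul_one_div, div_le_iff₀ (by positivity)]
  set r := 1 - s with hr
  have hr0 : 0 ≤ r := by linarith
  have hr1 : r ≤ 1 := by linarith
  have hs : s = 1 - r := by rw [hr]; ring
  rw [hs]
  have e : (2 - (1 - r)) * (1 - (1 - r) * r) ^ 2 - (1 - r)
      = r ^ 2 * (1 + r - r ^ 2 + r ^ 3) := by ring
  have : 0 ≤ r ^ 2 * (1 + r - r ^ 2 + r ^ 3) := by
    have h3 : 0 ≤ r - r ^ 2 := by nlinarith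
    have h4 : 0 ≤ r ^ 3 := by positivity
    exact mul_nonneg (by positivity) (by linarith)
  linarith

/-- pointwise: the corner of the other node -/
theorem wp {p s : ℝ} (h0 : 0 ≤ s) (h1 : s ≤ 1) (hp : 0 ≤ p) :
    s * pp (p * (1 - s) - s) * (1 / (1 - s * (1 - s)) ^ 2)
      ≤ (1 + p) ^ 2 * (s * pp (p * (1 - s) - s)) := by
  have hq : 0 < 1 - s * (1 - s) := by nlinarith [sq_nonneg (s - 1 / 2)]
  rcases le_total (p * (1 - s) - s) 0 with h | h
  · rw [pp_of_nonpos h]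
    simp
  · have h2 : 0 ≤ s * pp (p * (1 - s) - s) := mul_nonneg h0 (pp_nonneg _)
    rw [mul_comm ((1 + p) ^ 2)]
    refine mul_le_mul_of_nonneg_left ?_ h2
    rw [div_le_iff₀ (by positivity), ← mul_pow]
    have h3 : 1 ≤ (1 + p) * (1 - s * (1 - s)) := by nlinarith [sq_nonneg s, mul_nonneg hp (sq_nonneg s)]
    exact one_le_pow₀ h3

end Pool.Agent.Helper96.Rr4
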