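import Pool.Agent.Helper96.MEI.Rr4a

/-!
# Wall masses with the exact leak of two nodes: the wall integral
-/

namespace Pool.Agent.Helper96.Rr4

open Set MeasureTheory Pool.Agent.Helper55.Sx Pool.Agent.Helper55.Mass Pool.Agent.Helper98.Wall2

/-- the leak of the two nodes at the target `(y, z)` -/
noncomputable def Lb (a b p q y z : ℝ) : ℝ :=
  min (a * (pp (y - p * z) + p * q * y) + b * (pp (z - q * y) + p * q * z)) (a * y + b * z)

theorem Lb_le (a b p q y z : ℝ) : Lb a b p q y z ≤ a * y + b * z := min_le_right _ _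

theorem Lb_nonneg {a b p q y z : ℝ} (ha : 0 ≤ a) (hb : 0 ≤ b) (hp : 0 ≤ p) (hq : 0 ≤ q)
    (hy : 0 ≤ y) (hz : 0 ≤ z) : 0 ≤ Lb a b p q y z := by
  have h1 := pp_nonneg (y - p * z)
  have h2 := pp_nonneg (z - q * y)
  exact le_min (by positivity) (by positivity)

theorem Lb_hom {a b p q y z c : ℝ} (hc : 0 ≤ c) :
    Lb a b p q (c * y) (c * z) = c * Lb a b p q y z := by
  unfold Lb
  have e1 : c * y - p * (c * z) = c * (y - p * z) := by ring
  have e2 : c * z - q * (c * y) = c * (z - q * y) := by ring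
  rw [e1, e2, pp_mul hc, pp_mul hc, mul_min_of_nonneg _ _ hc]
  congr 1 <;> ring

theorem Lb_cont (a b p q : ℝ) : Continuous fun t : ℝ × ℝ => Lb a b p q t.1 t.2 := by
  unfold Lb
  refine Continuous.min ?_ (by fun_prop)
  refine (continuous_const.mul ((pp_cont.comp (by fun_prop)).add (by fun_prop))).add
    (continuous_const.mul ((pp_cont.comp (by fun_prop)).add (by fun_prop)))

/-- the majorant over the direction `s` -/
noncomputable def Psi (a b p q s : ℝ) : ℝ :=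
  ((1 + p * q) * a / 2 * s ^ 2 + (1 + p * q) * b / 2 * (s * (1 - s)) + 0 * (1 - s) ^ 2)
      * (1 + 2 * (s * (1 - s)) + 3 * (s * (1 - s)) ^ 2 + 4 * (s * (1 - s)) ^ 3
        + 64 / 9 * (s * (1 - s)) ^ 4)
    - (b * q / 2 * s ^ 2 + a * p / 2 * (s * (1 - s)))
      * (1 + 2 * (s * (1 - s)) + 3 * (s * (1 - s)) ^ 2 + 4 * (s * (1 - s)) ^ 3)
    - (a ^ 2 / 2 * s ^ 3 + a * b * (s ^ 2 * (1 - s)) + b ^ 2 / 2 * (s * (1 - s) ^ 2)
        + 0 * (1 - s) ^ 3)
      * (0.5786 + 1.5572 * (s * (1 - s)) + 2.5358 * (s * (1 - s)) ^ 2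
        + 3.5144 * (s * (1 - s)) ^ 3)
    + ((1 + p * q) * (a * b * q) * s ^ 3 + (1 + p * q) * (a ^ 2 * p + b ^ 2 * q)
        * (s ^ 2 * (1 - s)) + (1 + p * q) * (a * b * p) * (s * (1 - s) ^ 2))
      * (0.5786 + 2.52 * (s * (1 - s)))
    + b / 2 * ((2 - s) * pp (q * s - (1 - s)))
    + a / 2 * ((1 + p) ^ 2 * (s * pp (p * (1 - s) - s)))

theorem dir_le {a b p q s : ℝ} (ha : 0 ≤ a) (hb : 0 ≤ b) (hp : 0 ≤ p) (hq : 0 ≤ q)
    (ha' : a ≤ 2 / 5) (hb' : b ≤ 2 / 5) (hp' : p ≤ 2 / 5) (hq' : q ≤ 2 / 5)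
    (hs : 0 ≤ s) (hs' : s ≤ 1) :
    s * Lb a b p q s (1 - s) / 2
      * (1 - (0.5786 + 0.4 * (s * (1 - s))) * Lb a b p q s (1 - s))
      * (1 / (1 - s * (1 - s)) ^ 2) ≤ Psi a b p q s := by
  have hr : 0 ≤ 1 - s := by linarith
  set σ := s * (1 - s) with hσ
  have k1 : 0 ≤ σ := mul_nonneg hs hr
  have k2 : σ ≤ 1 / 4 := by nlinarith [sq_nonneg (s - 1 / 2)]
  set e := Lb a b p q s (1 - s) with he
  have e0 : 0 ≤ e := Lb_nonneg ha hb hp hq hs hr
  have hpq : 0 ≤ p * q := mul_nonneg hp hq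
  have hpq' : p * q ≤ 4 / 25 := by nlinarith
  set A := a * s + b * (1 - s) with hA
  have A0 : 0 ≤ A := by positivity
  have A1 : A ≤ 2 / 5 := by nlinarith
  have e1 : e ≤ A := Lb_le _ _ _ _ _ _
  set B := b * q * s + a * p * (1 - s) with hB
  have B0 : 0 ≤ B := by positivity
  set d1 := pp (p * (1 - s) - s) with hd1
  set d2 := pp (q * s - (1 - s)) with hd2
  have d10 : 0 ≤ d1 := pp_nonneg _
  have d20 : 0 ≤ d2 := pp_nonneg _
  have x1 : pp (s - p * (1 - s)) = s - p * (1 - s) + d1 := by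
    rw [pp_sub, hd1]
    congr 2
    ring
  have x2 : pp (1 - s - q * s) = 1 - s - q * s + d2 := by
    rw [pp_sub, hd2]
    congr 2
    ring
  have x1' : pp (s - p * (1 - s)) ≤ s := by
    refine max_le ?_ hs
    linarith [mul_nonneg hp hr]
  have x2' : pp (1 - s - q * s) ≤ 1 - s := by
    refine max_le ?_ hr
    linarith [mul_nonneg hq hs]
  set E := a * (pp (s - p * (1 - s)) + p * q * s) + b * (pp (1 - s - q * s) + p * q * (1 - s))
    with hE
  have e2 : e ≤ E := min_le_left _ _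
  have E1 : E ≤ 1 := by
    have y1 : a * (pp (s - p * (1 - s)) + p * q * s) ≤ a * (s + 4 / 25 * s) :=
      mul_le_mul_of_nonneg_left (add_le_add x1' (mul_le_mul_of_nonneg_right hpq' hs)) ha
    have y2 : b * (pp (1 - s - q * s) + p * q * (1 - s)) ≤ b * ((1 - s) + 4 / 25 * (1 - s)) :=
      mul_le_mul_of_nonneg_left (add_le_add x2' (mul_le_mul_of_nonneg_right hpq' hr)) hb
    have y3 : a * (s + 4 / 25 * s) + b * ((1 - s) + 4 / 25 * (1 - s)) = 29 / 25 * A := by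
      rw [hA]; ring
    linarith
  have E2 : E = (1 + p * q) * A - B + (a * d1 + b * d2) := by
    rw [hE, x1, x2, hA, hB]; ring
  set c := 0.5786 + 0.4 * σ with hc
  have c0 : 0 ≤ c := by rw [hc]; positivity
  have c1 : c ≤ 0.6786 := by rw [hc]; linarith
  -- monotonicity
  have m1 : e * (1 - c * e) ≤ E * (1 - c * E) := by
    have h1 : 0 ≤ E - e := by linarith
    have h2 : c * (E + e) ≤ 0.6786 * (E + e) := mul_le_mul_of_nonneg_right c1 (by linarith)
    have h3 : 0 ≤ 1 - c * (E + e) := by linarith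
    have h4 := mul_nonneg h1 h3
    have h5 : (E - e) * (1 - c * (E + e)) = E * (1 - c * E) - e * (1 - c * e) := by ring
    linarith
  set A' := (1 + p * q) * A with hA'
  have A'0 : A ≤ A' := by
    rw [hA']
    linarith [mul_nonneg hpq A0]
  have m2 : E * (1 - c * E) ≤ A' - B + (a * d1 + b * d2) - c * A ^ 2 + 2 * c * (A' * B) := by
    have h1 : 0 ≤ a * d1 + b * d2 := by positivity
    have h2 : E ^ 2 - A' ^ 2 + 2 * (A' * B)
        = 2 * (A' * (a * d1 + b * d2)) + ((a * d1 + b * d2) - B) ^ 2 := by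
      rw [E2]; ring
    have h3 : 0 ≤ A' * (a * d1 + b * d2) := mul_nonneg (A0.trans A'0) h1
    have h4 : A ^ 2 ≤ A' ^ 2 := pow_le_pow_left₀ A0 A'0 2
    have h5 : A ^ 2 - 2 * (A' * B) ≤ E ^ 2 := by
      linarith [sq_nonneg ((a * d1 + b * d2) - B)]
    have h6 := mul_le_mul_of_nonneg_left h5 c0
    have h7 : E * (1 - c * E) = E - c * E ^ 2 := by ring
    rw [h7, E2]
    rw [E2] at h6
    linarith
  set κ := 1 / (1 - σ) ^ 2 with hκ
  have κ0 : 0 ≤ κ := by positivity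
  have hR := R_ge k2
  have hL := L_le k1 k2
  have hT := T_le k1 k2
  have hU := U_le k1 k2
  have hq := wq hs hs'
  have hp2 := wp (p := p) hs hs' hp
  rw [← hσ, ← hκ] at hq hp2
  rw [← hd1] at hp2
  rw [← hκ] at hR hL hT hU
  rw [← hc] at hT hU
  -- the five terms
  have n1 : 0 ≤ s * A' / 2 := by
    have := A0.trans A'0
    positivity
  have n2 : 0 ≤ s * B / 2 := by positivity
  have n3 : 0 ≤ s * A ^ 2 / 2 := by positivity
  have n4 : 0 ≤ s * (A' * B) := by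
    have := A0.trans A'0
    positivity
  have t1 := mul_le_mul_of_nonneg_left hR n1
  have t2 := mul_le_mul_of_nonneg_left hL n2
  have t3 := mul_le_mul_of_nonneg_left hT n3
  have t4 := mul_le_mul_of_nonneg_left hU n4
  have t5 : b / 2 * (d2 * (s * κ)) ≤ b / 2 * (d2 * (2 - s)) :=
    mul_le_mul_of_nonneg_left (mul_le_mul_of_nonneg_left hq d20) (by positivity)
  have t6 : a / 2 * (s * d1 * κ) ≤ a / 2 * ((1 + p) ^ 2 * (s * d1)) :=
    mul_le_mul_of_nonneg_left hp2 (by positivity)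
  have hfin : s * e / 2 * (1 - c * e) * κ
      ≤ s / 2 * κ * (A' - B + (a * d1 + b * d2) - c * A ^ 2 + 2 * c * (A' * B)) := by
    have h1 := mul_le_mul_of_nonneg_left (m1.trans m2) (by positivity : 0 ≤ s / 2 * κ)
    have h2 : s * e / 2 * (1 - c * e) * κ = s / 2 * κ * (e * (1 - c * e)) := by ring
    rw [h2]
    exact h1
  refine hfin.trans ?_
  have hexp : s / 2 * κ * (A' - B + (a * d1 + b * d2) - c * A ^ 2 + 2 * c * (A' * B))
      = s * A' / 2 * κ - s * B / 2 * κ - s * A ^ 2 / 2 * (c * κ) + s * (A' * B) * (c * κ)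
        + b / 2 * (d2 * (s * κ)) + a / 2 * (s * d1 * κ) := by ring
  rw [hexp]
  have hPsi : Psi a b p q s = s * A' / 2
        * (1 + 2 * σ + 3 * σ ^ 2 + 4 * σ ^ 3 + 64 / 9 * σ ^ 4)
      - s * B / 2 * (1 + 2 * σ + 3 * σ ^ 2 + 4 * σ ^ 3)
      - s * A ^ 2 / 2 * (0.5786 + 1.5572 * σ + 2.5358 * σ ^ 2 + 3.5144 * σ ^ 3)
      + s * (A' * B) * (0.5786 + 2.52 * σ)
      + b / 2 * (d2 * (2 - s)) + a / 2 * ((1 + p) ^ 2 * (s * d1)) := by
    unfold Psi
    rw [← hσ, ← hd1, ← hd2, hA', hA, hB]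
    rw [hσ]
    ring
  rw [hPsi]
  linarith

theorem Psi_cont (a b p q : ℝ) : Continuous (Psi a b p q) := by
  unfold Psi
  have h1 : Continuous fun s : ℝ => pp (q * s - (1 - s)) := pp_cont.comp (by fun_prop)
  have h2 : Continuous fun s : ℝ => pp (p * (1 - s) - s) := pp_cont.comp (by fun_prop)
  fun_prop

theorem int6 {f1 f2 f3 f4 f5 f6 : ℝ → ℝ} (c1 : Continuous f1) (c2 : Continuous f2)
    (c3 : Continuous f3) (c4 : Continuous f4) (c5 : Continuous f5) (c6 : Continuous f6) :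
    ∫ s in (0 : ℝ)..1, (f1 s - f2 s - f3 s + f4 s + f5 s + f6 s)
      = (∫ s in (0 : ℝ)..1, f1 s) - (∫ s in (0 : ℝ)..1, f2 s) - (∫ s in (0 : ℝ)..1, f3 s)
        + (∫ s in (0 : ℝ)..1, f4 s) + (∫ s in (0 : ℝ)..1, f5 s) + (∫ s in (0 : ℝ)..1, f6 s) := by
  have i1 := c1.intervalIntegrable (μ := volume) 0 1
  have i2 := c2.intervalIntegrable (μ := volume) 0 1
  have i3 := c3.intervalIntegrable (μ := volume) 0 1
  have i4 := c4.intervalIntegrable (μ := volume) 0 1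
  have i5 := c5.intervalIntegrable (μ := volume) 0 1
  have i6 := c6.intervalIntegrable (μ := volume) 0 1
  have e1 := intervalIntegral.integral_sub i1 i2
  have e2 := intervalIntegral.integral_sub (i1.sub i2) i3
  have e3 := intervalIntegral.integral_add ((i1.sub i2).sub i3) i4
  have e4 := intervalIntegral.integral_add (((i1.sub i2).sub i3).add i4) i5
  have e5 := intervalIntegral.integral_add ((((i1.sub i2).sub i3).add i4).add i5) i6
  rw [← e1, ← e2, ← e3, ← e4, ← e5]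

theorem Psi_int {a b p q : ℝ} (ha : 0 ≤ a) (hb : 0 ≤ b) (hp : 0 ≤ p) (hq : 0 ≤ q)
    (hq' : q ≤ 2 / 5) :
    ∫ s in (0 : ℝ)..1, Psi a b p q s
      ≤ (4916 / 10395) * ((1 + p * q) * a / 2) + (32891 / 124740) * ((1 + p * q) * b / 2)
        - ((148 / 315) * (b * q / 2) + (47 / 180) * (a * p / 2))
        - (k30 * (a ^ 2 / 2) + k21 * (a * b + b ^ 2 / 2))
        + ((4573 / 20000) * ((1 + p * q) * (a * b * q))
          + (5413 / 60000) * ((1 + p * q) * (a ^ 2 * p + b ^ 2 * q))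
          + (5413 / 60000) * ((1 + p * q) * (a * b * p)))
        + b / 2 * (q ^ 2 / 2 * (1 - q / 2)) + a / 2 * (p ^ 3 / 6) := by
  have c1 : Continuous fun s : ℝ => ((1 + p * q) * a / 2 * s ^ 2
      + (1 + p * q) * b / 2 * (s * (1 - s)) + 0 * (1 - s) ^ 2)
      * (1 + 2 * (s * (1 - s)) + 3 * (s * (1 - s)) ^ 2 + 4 * (s * (1 - s)) ^ 3
        + 64 / 9 * (s * (1 - s)) ^ 4) := by fun_prop
  have c2 : Continuous fun s : ℝ => (b * q / 2 * s ^ 2 + a * p / 2 * (s * (1 - s)))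
      * (1 + 2 * (s * (1 - s)) + 3 * (s * (1 - s)) ^ 2 + 4 * (s * (1 - s)) ^ 3) := by fun_prop
  have c3 : Continuous fun s : ℝ => (a ^ 2 / 2 * s ^ 3 + a * b * (s ^ 2 * (1 - s))
      + b ^ 2 / 2 * (s * (1 - s) ^ 2) + 0 * (1 - s) ^ 3)
      * (0.5786 + 1.5572 * (s * (1 - s)) + 2.5358 * (s * (1 - s)) ^ 2
        + 3.5144 * (s * (1 - s)) ^ 3) := by fun_prop
  have c4 : Continuous fun s : ℝ => ((1 + p * q) * (a * b * q) * s ^ 3
      + (1 + p * q) * (a ^ 2 * p + b ^ 2 * q)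
        * (s ^ 2 * (1 - s)) + (1 + p * q) * (a * b * p) * (s * (1 - s) ^ 2))
      * (0.5786 + 2.52 * (s * (1 - s))) := by fun_prop
  have h1 : Continuous fun s : ℝ => pp (q * s - (1 - s)) := pp_cont.comp (by fun_prop)
  have h2 : Continuous fun s : ℝ => pp (p * (1 - s) - s) := pp_cont.comp (by fun_prop)
  have c5 : Continuous fun s : ℝ => b / 2 * ((2 - s) * pp (q * s - (1 - s))) := by fun_prop
  have c6 : Continuous fun s : ℝ => a / 2 * ((1 + p) ^ 2 * (s * pp (p * (1 - s) - s))) := by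
    fun_prop
  have i1 := int_R ((1 + p * q) * a / 2) ((1 + p * q) * b / 2) 0
  have i2 := int_L (b * q / 2) (a * p / 2)
  have i3 := int_T (a ^ 2 / 2) (a * b) (b ^ 2 / 2) 0
  have i4 := int_M ((1 + p * q) * (a * b * q)) ((1 + p * q) * (a ^ 2 * p + b ^ 2 * q))
    ((1 + p * q) * (a * b * p))
  have i5 := mul_le_mul_of_nonneg_left (int_q hq hq') (by positivity : 0 ≤ b / 2)
  have i6 := mul_le_mul_of_nonneg_left (int_p hp) (by positivity : 0 ≤ a / 2)
  rw [← intervalIntegral.integral_const_mul] at i5 i6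
  have hs : ∫ s in (0 : ℝ)..1, Psi a b p q s
      = (∫ s in (0 : ℝ)..1, ((1 + p * q) * a / 2 * s ^ 2
      + (1 + p * q) * b / 2 * (s * (1 - s)) + 0 * (1 - s) ^ 2)
      * (1 + 2 * (s * (1 - s)) + 3 * (s * (1 - s)) ^ 2 + 4 * (s * (1 - s)) ^ 3
        + 64 / 9 * (s * (1 - s)) ^ 4))
      - (∫ s in (0 : ℝ)..1, (b * q / 2 * s ^ 2 + a * p / 2 * (s * (1 - s)))
      * (1 + 2 * (s * (1 - s)) + 3 * (s * (1 - s)) ^ 2 + 4 * (s * (1 - s)) ^ 3))
      - (∫ s in (0 : ℝ)..1, (a ^ 2 / 2 * s ^ 3 + a * b * (s ^ 2 * (1 - s))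
      + b ^ 2 / 2 * (s * (1 - s) ^ 2) + 0 * (1 - s) ^ 3)
      * (0.5786 + 1.5572 * (s * (1 - s)) + 2.5358 * (s * (1 - s)) ^ 2
        + 3.5144 * (s * (1 - s)) ^ 3))
      + (∫ s in (0 : ℝ)..1, ((1 + p * q) * (a * b * q) * s ^ 3
      + (1 + p * q) * (a ^ 2 * p + b ^ 2 * q)
        * (s ^ 2 * (1 - s)) + (1 + p * q) * (a * b * p) * (s * (1 - s) ^ 2))
      * (0.5786 + 2.52 * (s * (1 - s))))
      + (∫ s in (0 : ℝ)..1, b / 2 * ((2 - s) * pp (q * s - (1 - s))))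
      + (∫ s in (0 : ℝ)..1, a / 2 * ((1 + p) ^ 2 * (s * pp (p * (1 - s) - s)))) := by
    exact int6 c1 c2 c3 c4 c5 c6
  rw [hs, i1, i2, i3, i4]
  unfold k30 k21
  linarith

end Pool.Agent.Helper96.Rr4
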