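import Pool.Agent.Helper96.MEI.Rr4b

/-!
# Wall masses with the exact leak of two nodes: the integral over the simplex
-/

namespace Pool.Agent.Helper96.Rr4

open Set MeasureTheory Pool.Agent.Helper55.Sx Pool.Agent.Helper55.Mass Pool.Agent.Helper98.Wall2

/-- the wall function near the side `t.1 = 0`, weight `t.2` -/
noncomputable def wB (a b p q : ℝ) (t : ℝ × ℝ) : ℝ :=
  if t.1 < Lb a b p q t.2 (t3 t) then
    (1 - t.1 / Lb a b p q t.2 (t3 t)) * t.2 / mm t ^ 2 else 0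

theorem LbT_meas (a b p q : ℝ) : Measurable fun t : ℝ × ℝ => Lb a b p q t.2 (t3 t) := by
  have h3 : Continuous t3 := by unfold t3; fun_prop
  have h : Continuous fun t : ℝ × ℝ => (t.2, t3 t) := continuous_snd.prodMk h3
  exact ((Lb_cont a b p q).comp h).measurable

theorem wB_meas (a b p q : ℝ) : Measurable (wB a b p q) := by
  unfold wB
  refine Measurable.ite (measurableSet_lt measurable_fst (LbT_meas a b p q)) ?_ measurable_const
  exact ((measurable_const.sub (measurable_fst.div (LbT_meas a b p q))).mul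
    measurable_snd).div (mm_cont.measurable.pow_const 2)

theorem wB_ray {a b p q x : ℝ} (s : ℝ) (hx : 0 ≤ 1 - x) :
    (1 - x) * wB a b p q (ray (x, s))
    = (1 - x) * (if x < (1 - x) * Lb a b p q s (1 - s) then
      (1 - x / ((1 - x) * Lb a b p q s (1 - s))) * ((1 - x) * s)
        / ((1 - s + s ^ 2) * (1 - x) ^ 2 + x) ^ 2 else 0) := by
  have e1 : Lb a b p q ((1 - x) * s) (t3 (x, (1 - x) * s)) = (1 - x) * Lb a b p q s (1 - s) := by
    have : t3 (x, (1 - x) * s) = (1 - x) * (1 - s) := by simp only [t3]; ring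
    rw [this, Lb_hom hx]
  simp only [wB, ray, mm_ray, e1]

theorem wB_bd {a b p q : ℝ} {t : ℝ × ℝ} (ht : t ∈ Sim) : 0 ≤ wB a b p q t ∧ wB a b p q t ≤ 9 / 4 := by
  obtain ⟨a1, a2, a3⟩ := ht
  have a4 : 0 ≤ t3 t := by simp only [t3]; linarith
  unfold wB
  split_ifs with hc
  · have hL : 0 < Lb a b p q t.2 (t3 t) := lt_of_le_of_lt a1 hc
    have hm := mm_pos t
    have hm2 : (4 / 9 : ℝ) ≤ mm t ^ 2 := by nlinarith
    have n1 : 0 ≤ 1 - t.1 / Lb a b p q t.2 (t3 t) := by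
      have : t.1 / Lb a b p q t.2 (t3 t) ≤ 1 := by
        rw [div_le_one hL]; exact hc.le
      linarith
    have n2 : 1 - t.1 / Lb a b p q t.2 (t3 t) ≤ 1 := by
      have : 0 ≤ t.1 / Lb a b p q t.2 (t3 t) := div_nonneg a1 hL.le
      linarith
    refine ⟨by positivity, ?_⟩
    rw [div_le_iff₀ (by positivity)]
    have k1 : (1 - t.1 / Lb a b p q t.2 (t3 t)) * t.2 ≤ t.2 := mul_le_of_le_one_left a2 n2
    linarith
  · exact ⟨le_rfl, by norm_num⟩

/-- **the wall integral with the exact leak of the two nodes** -/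
theorem wB_int {a b p q : ℝ} (ha : 0 ≤ a) (hb : 0 ≤ b) (hp : 0 ≤ p) (hq : 0 ≤ q)
    (ha' : a ≤ 2 / 5) (hb' : b ≤ 2 / 5) (hp' : p ≤ 2 / 5) (hq' : q ≤ 2 / 5) :
    ∫ t in Sim, wB a b p q t ≤ ∫ s in (0 : ℝ)..1, Psi a b p q s := by
  have hbd : ∀ t ∈ Sim, 0 ≤ wB a b p q t ∧ wB a b p q t ≤ 9 / 4 := fun t ht =>
    wB_bd ht
  rw [ray_int (wB_meas _ _ _ _)]
  set H : ℝ × ℝ → ℝ := fun p' => (1 - p'.1) * wB a b p q (ray p') with hH
  have hHm : Measurable H :=
    (by fun_prop : Measurable fun p : ℝ × ℝ => 1 - p.1).mul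
      ((wB_meas _ _ _ _).comp ray_contin.measurable)
  have hrS : ∀ p ∈ Sq, ray p ∈ Sim := by
    rintro p ⟨⟨a1, a2⟩, a3, a4⟩
    have hx : 0 ≤ 1 - p.1 := by linarith
    refine ⟨a1, mul_nonneg hx a3, ?_⟩
    have : (1 - p.1) * p.2 ≤ 1 - p.1 := mul_le_of_le_one_right hx a4
    simp only [ray]
    linarith
  have hHi : IntegrableOn H Sq := by
    refine Measure.integrableOn_of_bounded (M := 9 / 4) Sq_fin.ne
      hHm.aestronglyMeasurable ?_
    filter_upwards [ae_restrict_mem Sq_meas] with p' hp'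
    obtain ⟨b1, b2⟩ := hbd _ (hrS p' hp')
    have hx : 0 ≤ 1 - p'.1 := by linarith [hp'.1.2]
    have hx1 : 1 - p'.1 ≤ 1 := by linarith [hp'.1.1]
    rw [Real.norm_eq_abs, abs_of_nonneg (mul_nonneg hx b1)]
    exact (mul_le_of_le_one_left b1 hx1).trans b2
  have hFub : ∫ p in Sq, H p = ∫ s in Icc (0 : ℝ) 1, ∫ x in Icc (0 : ℝ) 1, H (x, s) := by
    have hi := hHi
    rw [IntegrableOn, Sq, Measure.volume_eq_prod, ← Measure.prod_restrict] at hi
    rw [Sq, Measure.volume_eq_prod, ← Measure.prod_restrict]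
    exact integral_prod_symm _ hi
  rw [hFub, intervalIntegral.integral_of_le zero_le_one, ← integral_Icc_eq_integral_Ioc]
  refine integral_mono_of_nonneg ?_ ?_ ?_
  · filter_upwards [ae_restrict_mem measurableSet_Icc] with s hs
    refine setIntegral_nonneg measurableSet_Icc fun x hx => ?_
    exact mul_nonneg (by simp only; linarith [hx.2]) (hbd _ (hrS (x, s) ⟨hx, hs⟩)).1
  · exact (Psi_cont a b p q).continuousOn.integrableOn_compact isCompact_Icc
  · filter_upwards [ae_restrict_mem measurableSet_Icc] with s hs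
    have hs' : 0 ≤ 1 - s := by linarith [hs.2]
    have k2 : s * (1 - s) ≤ 1 / 4 := by nlinarith [sq_nonneg (s - 1 / 2)]
    have k1 : 0 ≤ s * (1 - s) := mul_nonneg hs.1 hs'
    have n0 : 0 ≤ Lb a b p q s (1 - s) := Lb_nonneg ha hb hp hq hs.1 hs'
    have n5 : Lb a b p q s (1 - s) ≤ 2 / 5 := by
      refine (Lb_le _ _ _ _ _ _).trans ?_
      nlinarith [mul_le_mul_of_nonneg_right ha' hs.1, mul_le_mul_of_nonneg_right hb' hs']
    have hf := fibre3 (S := s) (ε := Lb a b p q s (1 - s)) k1 k2 n0 n5 hs.1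
    have eg : 1 - s * (1 - s) = 1 - s + s ^ 2 := by ring
    have e : ∀ x ∈ Icc (0 : ℝ) 1, H (x, s) = (1 - x) * (if x < (1 - x) * Lb a b p q s (1 - s) then
      (1 - x / ((1 - x) * Lb a b p q s (1 - s))) * ((1 - x) * s)
        / ((1 - s + s ^ 2) * (1 - x) ^ 2 + x) ^ 2 else 0) := fun x hx =>
      wB_ray s (by linarith [hx.2])
    rw [setIntegral_congr_fun measurableSet_Icc e]
    rw [eg] at hf
    refine hf.trans ?_
    have hd := dir_le ha hb hp hq ha' hb' hp' hq' hs.1 hs.2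
    rw [eg] at hd
    exact hd

/-- the polynomial of one wall: own leak `a`, leak `b` of the other node, `p`, `q` the leaks of
the two nodes into each other -/
noncomputable def P3 (a b p q : ℝ) : ℝ :=
  0.1673 * a + 0.0933 * b - 0.1661 * (b * q) - 0.0923 * (a * p)
    - (0.0763 * a ^ 2 + 0.0608 * (a * b) + 0.0304 * b ^ 2)
    + p * q * (0.1673 * a + 0.0933 * b)
    + (1 + p * q) * (0.1617 * (a * b * q) + 0.0638 * (a ^ 2 * p + b ^ 2 * q + a * b * p))
    + 0.1768 * (b * q ^ 2) * (1 - q / 2) + 0.059 * (a * p ^ 3)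

/-- **mass of the wall function** -/
theorem wB_mass {a b p q : ℝ} (ha : 0 ≤ a) (hb : 0 ≤ b) (hp : 0 ≤ p) (hq : 0 ≤ q)
    (ha' : a ≤ 2 / 5) (hb' : b ≤ 2 / 5) (hp' : p ≤ 2 / 5) (hq' : q ≤ 2 / 5) :
    1 / √2 * ∫ t in Sim, wB a b p q t ≤ P3 a b p q := by
  have h := (wB_int ha hb hp hq ha' hb' hp' hq').trans (Psi_int ha hb hp hq hq')
  have h0 : (0 : ℝ) ≤ 1 / √2 := by positivity
  have hsq : (1.4142 : ℝ) ≤ √2 := Real.le_sqrt_of_sq_le (by norm_num)
  have hsq2 : √2 ≤ (1.41422 : ℝ) := by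
    rw [Real.sqrt_le_left (by norm_num)]
    norm_num
  have hr1 : 1 / √2 ≤ 1 / 1.4142 := one_div_le_one_div_of_le (by norm_num) hsq
  have hr2 : 1 / 1.41422 ≤ 1 / √2 := one_div_le_one_div_of_le (by positivity) hsq2
  set r := 1 / √2 with hr
  have hpq : 0 ≤ p * q := mul_nonneg hp hq
  have c1 : r * (4916 / 10395 / 2) ≤ 0.1673 := by nlinarith
  have c2 : r * (32891 / 124740 / 2) ≤ 0.0933 := by nlinarith
  have c3 : 0.1661 ≤ r * (148 / 315 / 2) := by nlinarith
  have c4 : 0.0923 ≤ r * (47 / 180 / 2) := by nlinarith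
  have c5 : 0.0763 ≤ r * (k30 / 2) := by
    rw [k30]
    nlinarith
  have c6 : 0.0608 ≤ r * k21 := by
    rw [k21]
    nlinarith
  have c7 : 0.0304 ≤ r * (k21 / 2) := by
    rw [k21]
    nlinarith
  have c8 : r * (4573 / 20000) ≤ 0.1617 := by nlinarith
  have c9 : r * (5413 / 60000) ≤ 0.0638 := by nlinarith
  have c10 : r * (1 / 4) ≤ 0.1768 := by nlinarith
  have c11 : r * (1 / 12) ≤ 0.059 := by nlinarith
  have m1 := mul_le_mul_of_nonneg_right c1 (by positivity : 0 ≤ (1 + p * q) * a)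
  have m2 := mul_le_mul_of_nonneg_right c2 (by positivity : 0 ≤ (1 + p * q) * b)
  have m3 := mul_le_mul_of_nonneg_right c3 (mul_nonneg hb hq)
  have m4 := mul_le_mul_of_nonneg_right c4 (mul_nonneg ha hp)
  have m5 := mul_le_mul_of_nonneg_right c5 (sq_nonneg a)
  have m6 := mul_le_mul_of_nonneg_right c6 (mul_nonneg ha hb)
  have m7 := mul_le_mul_of_nonneg_right c7 (sq_nonneg b)
  have m8 := mul_le_mul_of_nonneg_right c8 (by positivity : 0 ≤ (1 + p * q) * (a * b * q))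
  have m9 := mul_le_mul_of_nonneg_right c9
    (by positivity : 0 ≤ (1 + p * q) * (a ^ 2 * p + b ^ 2 * q + a * b * p))
  have hq2 : 0 ≤ 1 - q / 2 := by linarith
  have m10 := mul_le_mul_of_nonneg_right c10
    (by positivity : 0 ≤ (b * q ^ 2) * (1 - q / 2))
  have m11 := mul_le_mul_of_nonneg_right c11 (by positivity : 0 ≤ a * p ^ 3)
  have h3 := mul_le_mul_of_nonneg_left h h0
  refine h3.trans ?_
  have e : r * ((4916 / 10395) * ((1 + p * q) * a / 2) + (32891 / 124740) * ((1 + p * q) * b / 2)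
        - ((148 / 315) * (b * q / 2) + (47 / 180) * (a * p / 2))
        - (k30 * (a ^ 2 / 2) + k21 * (a * b + b ^ 2 / 2))
        + ((4573 / 20000) * ((1 + p * q) * (a * b * q))
          + (5413 / 60000) * ((1 + p * q) * (a ^ 2 * p + b ^ 2 * q))
          + (5413 / 60000) * ((1 + p * q) * (a * b * p)))
        + b / 2 * (q ^ 2 / 2 * (1 - q / 2)) + a / 2 * (p ^ 3 / 6))
      = r * (4916 / 10395 / 2) * ((1 + p * q) * a) + r * (32891 / 124740 / 2) * ((1 + p * q) * b)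
        - r * (148 / 315 / 2) * (b * q) - r * (47 / 180 / 2) * (a * p)
        - r * (k30 / 2) * a ^ 2 - r * k21 * (a * b) - r * (k21 / 2) * b ^ 2
        + r * (4573 / 20000) * ((1 + p * q) * (a * b * q))
        + r * (5413 / 60000) * ((1 + p * q) * (a ^ 2 * p + b ^ 2 * q + a * b * p))
        + r * (1 / 4) * ((b * q ^ 2) * (1 - q / 2)) + r * (1 / 12) * (a * p ^ 3) := by ring
  rw [e]
  have e2 : P3 a b p q = 0.1673 * ((1 + p * q) * a) + 0.0933 * ((1 + p * q) * b)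
        - 0.1661 * (b * q) - 0.0923 * (a * p)
        - 0.0763 * a ^ 2 - 0.0608 * (a * b) - 0.0304 * b ^ 2
        + 0.1617 * ((1 + p * q) * (a * b * q))
        + 0.0638 * ((1 + p * q) * (a ^ 2 * p + b ^ 2 * q + a * b * p))
        + 0.1768 * ((b * q ^ 2) * (1 - q / 2)) + 0.059 * (a * p ^ 3) := by
    unfold P3
    ring
  rw [e2]
  linarith

end Pool.Agent.Helper96.Rr4
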