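import Pool.Agent.Helper96.MEI.E2b

/-!
# Project MEI, regime I: the slice lemma, lens part
-/

namespace Helper96.MEI

open Set MeasureTheory Real Helper22.MEI
open Pool.Agent.Helper55.MEI (nz nz_pos nz_sq nz_neg nz_cont nz_ge nz_ge' c0 c0_pos om om_pos om_neg
  om_cont Wz Wz_om Wz_cont Wz_neg z_om_le)

theorem z0_gt : 0.5773 < z0 := Pool.Agent.Helper55.MEI.z0_gt

theorem z0_lt : z0 < 0.57736 := Pool.Agent.Helper55.MEI.z0_lt

theorem c0_z0 : 2 * c0 * z0 = 1 := Pool.Agent.Helper55.MEI.c0_z0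

theorem s_sub : s - z0 < 0.12977 := Pool.Agent.Helper55.MEI.s0_sub_z0

/-- data of one slice -/
structure Sli (e : ℝ) (u u' : ℝ → ℝ) : Prop where
  he : z0 ≤ e
  hes : e ≤ s
  du : ∀ z ∈ Icc (-e) e, HasDerivAt u (u' z) z
  cu : ContinuousOn u' (Icc (-e) e)
  am : AntitoneOn u' (Icc (-z0) z0)
  m1 : MonotoneOn u' (Icc z0 e)
  m2 : MonotoneOn u' (Icc (-e) (-z0))
  u1 : u e = 0
  u2 : u (-e) = 0
  v1 : u' e = 0
  v2 : u' (-e) = 0

variable {e m : ℝ} {u u' : ℝ → ℝ}

theorem Sli.refl (h : Sli e u u') : Sli e (fun z => u (-z)) (fun z => -u' (-z)) where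
  he := h.he
  hes := h.hes
  du := fun z hz => by
    have h1 := h.du (-z) ⟨by linarith [hz.2], by linarith [hz.1]⟩
    have h2 := h1.scomp z (hasDerivAt_neg z)
    refine h2.congr_deriv ?_
    simp
  cu := by
    refine ContinuousOn.neg ?_
    refine h.cu.comp continuousOn_neg fun z hz => ?_
    exact ⟨by linarith [hz.2], by linarith [hz.1]⟩
  am := fun x hx y hy hxy => by
    have := h.am (a := -y) ⟨by linarith [hy.2], by linarith [hy.1]⟩ (b := -x)
      ⟨by linarith [hx.2], by linarith [hx.1]⟩ (by linarith)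
    show -u' (-y) ≤ -u' (-x)
    linarith
  m1 := fun x hx y hy hxy => by
    have := h.m2 (a := -y) ⟨by linarith [hy.2], by linarith [hy.1]⟩ (b := -x)
      ⟨by linarith [hx.2], by linarith [hx.1]⟩ (by linarith)
    show -u' (-x) ≤ -u' (-y)
    linarith
  m2 := fun x hx y hy hxy => by
    have := h.m1 (a := -y) ⟨by linarith [hy.2], by linarith [hy.1]⟩ (b := -x)
      ⟨by linarith [hx.2], by linarith [hx.1]⟩ (by linarith)
    show -u' (-x) ≤ -u' (-y)
    linarith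
  u1 := h.u2
  u2 := by
    show u (- -e) = 0
    rw [neg_neg]
    exact h.u1
  v1 := by
    show -u' (-e) = 0
    rw [h.v2, neg_zero]
  v2 := by
    show -u' (- -e) = 0
    rw [neg_neg, h.v1, neg_zero]

theorem Sli.cont (h : Sli e u u') : ContinuousOn u (Icc (-e) e) :=
  fun z hz => (h.du z hz).continuousAt.continuousWithinAt

theorem Sli.ii {f : ℝ → ℝ} (hf : ContinuousOn f (Icc (-e) e)) {x y : ℝ} (hx : x ∈ Icc (-e) e)
    (hy : y ∈ Icc (-e) e) : IntervalIntegrable f volume x y :=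
  ContinuousOn.intervalIntegrable (hf.mono (uIcc_subset_Icc hx hy))

theorem Sli.int (h : Sli e u u') {x y : ℝ} (hx : x ∈ Icc (-e) e) (hy : y ∈ Icc (-e) e) :
    ∫ z in x..y, u' z = u y - u x :=
  intervalIntegral.integral_eq_sub_of_hasDerivAt
    (fun z hz => h.du z (uIcc_subset_Icc hx hy hz)) (Sli.ii h.cu hx hy)

/-- chord bound of the weight of the lens -/
theorem lens_wt {z : ℝ} (h1 : z0 ≤ z) (h2 : z ≤ s) :
    2 / (1 + z ^ 2) ^ 2 ≤ 9 / 8 - 1.8 * (z - z0) := by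
  have hz0 := z0_gt
  have hz1 := z0_lt
  have hsq := z0_sq
  have hd : z - z0 < 0.12977 := by linarith [s_sub]
  set d := z - z0 with hdd
  have hd0 : 0 ≤ d := by rw [hdd]; linarith
  have hz : z = z0 + d := by rw [hdd]; ring
  have e1 : (1 + z ^ 2) ^ 2 = 16 / 9 + 16 / 3 * z0 * d + 4 * d ^ 2 + 4 * z0 * d ^ 3 + d ^ 4 := by
    rw [hz]
    have : 1 + (z0 + d) ^ 2 = 4 / 3 + 2 * z0 * d + d ^ 2 := by
      rw [add_sq, hsq]
      ring
    rw [this]
    have : (4 / 3 + 2 * z0 * d + d ^ 2) ^ 2 = 16 / 9 + 16 / 3 * z0 * d + 4 * z0 ^ 2 * d ^ 2 +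
        8 / 3 * d ^ 2 + 4 * z0 * d ^ 3 + d ^ 4 := by ring
    rw [this, hsq]
    ring
  rw [div_le_iff₀ (by positivity), e1]
  have e2 : (9 / 8 - 1.8 * d) * (16 / 9 + 16 / 3 * z0 * d + 4 * d ^ 2 + 4 * z0 * d ^ 3 + d ^ 4) =
      2 + d * ((6 * z0 - 3.2) + d * ((9 / 2 - 9.6 * z0) + d * ((9 / 2 * z0 - 7.2) +
        d * ((9 / 8 - 7.2 * z0) + d * (-1.8))))) := by ring
  rw [e2]
  have k4 : -3.4 ≤ (9 / 8 - 7.2 * z0) + d * (-1.8) := by nlinarith
  have k3 : -5.1 ≤ (9 / 2 * z0 - 7.2) + d * ((9 / 8 - 7.2 * z0) + d * (-1.8)) := by nlinarith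
  have k2 : -1.8 ≤ (9 / 2 - 9.6 * z0) + d * ((9 / 2 * z0 - 7.2) +
      d * ((9 / 8 - 7.2 * z0) + d * (-1.8))) := by nlinarith
  have k1 : 0 ≤ (6 * z0 - 3.2) + d * ((9 / 2 - 9.6 * z0) + d * ((9 / 2 * z0 - 7.2) +
      d * ((9 / 8 - 7.2 * z0) + d * (-1.8)))) := by nlinarith
  nlinarith [mul_nonneg hd0 k1]

theorem Sli.mem0 (h : Sli e u u') : z0 ∈ Icc (-e) e := ⟨by linarith [h.he, z0_pos], h.he⟩

theorem Sli.memn0 (h : Sli e u u') : -z0 ∈ Icc (-e) e := ⟨by linarith [h.he], by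
  linarith [h.he, z0_pos]⟩

theorem Sli.meme (h : Sli e u u') : e ∈ Icc (-e) e := ⟨by linarith [h.he, z0_pos], le_rfl⟩

theorem Sli.memr (h : Sli e u u') {z : ℝ} (hz : z ∈ Icc z0 e) : z ∈ Icc (-e) e :=
  ⟨by linarith [h.he, z0_pos, hz.1], hz.2⟩

theorem Sli.sgn (h : Sli e u u') {z : ℝ} (hz : z ∈ Icc z0 e) : u' z ≤ 0 := by
  rw [← h.v1]
  exact h.m1 hz ⟨h.he, le_rfl⟩ hz.2

theorem Sli.low (h : Sli e u u') (hm : |u' z0| ≤ m) {z : ℝ} (hz : z ∈ Icc z0 e) : -m ≤ u' z := by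
  have h1 := h.m1 (left_mem_Icc.2 h.he) hz hz.1
  linarith [(abs_le.mp hm).1]

theorem Sli.nn (h : Sli e u u') {z : ℝ} (hz : z ∈ Icc z0 e) : 0 ≤ u z := by
  have h1 := h.int (h.memr hz) h.meme
  rw [h.u1] at h1
  have h2 : 0 ≤ ∫ y in z..e, -u' y := by
    refine intervalIntegral.integral_nonneg hz.2 fun y hy => ?_
    have := h.sgn (z := y) ⟨hz.1.trans hy.1, hy.2⟩
    linarith
  rw [intervalIntegral.integral_neg] at h2
  linarith

theorem Sli.p_le (h : Sli e u u') (hm : |u' z0| ≤ m) : u z0 ≤ m * (e - z0) := by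
  have h1 := h.int h.mem0 h.meme
  rw [h.u1] at h1
  have h2 : ∫ y in z0..e, -u' y ≤ ∫ y in z0..e, m := by
    refine intervalIntegral.integral_mono_on h.he (Sli.ii h.cu h.mem0 h.meme).neg
      intervalIntegrable_const fun y hy => ?_
    have := h.low hm hy
    linarith
  rw [intervalIntegral.integral_neg, intervalIntegral.integral_const, smul_eq_mul] at h2
  linarith

theorem Sli.chord (h : Sli e u u') {z : ℝ} (hz : z ∈ Icc z0 e) : u z * (e - z0) ≤
    u z0 * (e - z) := by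
  rcases h.he.eq_or_lt with h0 | h0
  · have : z = e := le_antisymm hz.2 (by rw [← h0]; exact hz.1)
    rw [this, h.u1]
    simp
  have hcv : ConvexOn ℝ (Icc z0 e) u := by
    refine MonotoneOn.convexOn_of_deriv (convex_Icc _ _)
      (h.cont.mono fun y hy => h.memr hy) ?_ ?_
    · intro y hy
      rw [interior_Icc] at hy
      exact (h.du y (h.memr (Ioo_subset_Icc_self hy))).differentiableAt.differentiableWithinAt
    · rw [interior_Icc]
      intro x hx y hy hxy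
      rw [(h.du x (h.memr (Ioo_subset_Icc_self hx))).deriv,
        (h.du y (h.memr (Ioo_subset_Icc_self hy))).deriv]
      exact h.m1 (Ioo_subset_Icc_self hx) (Ioo_subset_Icc_self hy) hxy
  have hl : 0 < e - z0 := by linarith
  have h1 := hcv.2 (left_mem_Icc.2 h.he) (right_mem_Icc.2 h.he)
    (show 0 ≤ (e - z) / (e - z0) from div_nonneg (by linarith [hz.2]) hl.le)
    (show 0 ≤ (z - z0) / (e - z0) from div_nonneg (by linarith [hz.1]) hl.le)
    (by field_simp; ring)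
  have h2 : ((e - z) / (e - z0)) • z0 + ((z - z0) / (e - z0)) • e = z := by
    simp only [smul_eq_mul]
    field_simp
    ring
  rw [h2, h.u1] at h1
  simp only [smul_eq_mul, mul_zero, add_zero] at h1
  calc u z * (e - z0) ≤ (e - z) / (e - z0) * u z0 * (e - z0) :=
        mul_le_mul_of_nonneg_right h1 hl.le
    _ = u z0 * (e - z) := by field_simp

theorem Sli.lens1 (h : Sli e u u') :
    ∫ z in z0..e, 2 * u z / (1 + z ^ 2) ^ 2 ≤ 0.06795 * u z0 := by
  have hp := h.nn (left_mem_Icc.2 h.he)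
  rcases h.he.eq_or_lt with h0 | h0
  · rw [← h0, intervalIntegral.integral_same]
    positivity
  have hl : 0 < e - z0 := by linarith
  have hl2 : e - z0 < 0.12977 := by linarith [s_sub, h.hes]
  have c1 : ContinuousOn (fun z => 2 * u z / (1 + z ^ 2) ^ 2) (Icc (-e) e) := by
    refine ContinuousOn.div (continuousOn_const.mul h.cont) (by fun_prop) fun z _ => ?_
    positivity
  have h1 : ∫ z in z0..e, 2 * u z / (1 + z ^ 2) ^ 2 ≤
      ∫ z in z0..e, u z0 / (e - z0) * ((9 / 8 - 1.8 * (z - z0)) * (e - z)) := by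
    refine intervalIntegral.integral_mono_on h.he (Sli.ii c1 h.mem0 h.meme)
      (Continuous.intervalIntegrable (by fun_prop) _ _) fun z hz => ?_
    have h2 := h.chord hz
    have h3 := lens_wt hz.1 (hz.2.trans h.hes)
    have h4 : u z ≤ u z0 / (e - z0) * (e - z) := by
      rw [div_mul_eq_mul_div, le_div_iff₀ hl]
      exact h2
    have h5 : 0 ≤ u z0 / (e - z0) * (e - z) := (h.nn hz).trans h4
    calc 2 * u z / (1 + z ^ 2) ^ 2 = u z * (2 / (1 + z ^ 2) ^ 2) := by ring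
      _ ≤ u z0 / (e - z0) * (e - z) * (2 / (1 + z ^ 2) ^ 2) :=
        mul_le_mul_of_nonneg_right h4 (by positivity)
      _ ≤ u z0 / (e - z0) * (e - z) * (9 / 8 - 1.8 * (z - z0)) :=
        mul_le_mul_of_nonneg_left h3 h5
      _ = _ := by ring
  have h2 : ∫ z in z0..e, (9 / 8 - 1.8 * (z - z0)) * (e - z) =
      9 / 16 * (e - z0) ^ 2 - 0.3 * (e - z0) ^ 3 := by
    have hd : ∀ z ∈ uIcc z0 e, HasDerivAt (fun z => 9 / 8 * (e - z0) * (z - z0) -
        (9 / 8 + 1.8 * (e - z0)) * (z - z0) ^ 2 / 2 + 1.8 * (z - z0) ^ 3 / 3)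
        ((9 / 8 - 1.8 * (z - z0)) * (e - z)) z := by
      intro z _
      have a1 : HasDerivAt (fun z : ℝ => z - z0) 1 z := (hasDerivAt_id z).sub_const z0
      have a2 := (((a1.const_mul (9 / 8 * (e - z0))).sub
        (((a1.pow 2).const_mul (9 / 8 + 1.8 * (e - z0))).div_const 2)).add
        (((a1.pow 3).const_mul 1.8).div_const 3))
      refine a2.congr_deriv ?_
      norm_num
      ring
    rw [intervalIntegral.integral_eq_sub_of_hasDerivAt hd
      (Continuous.intervalIntegrable (by fun_prop) _ _)]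
    ring
  rw [intervalIntegral.integral_const_mul, h2] at h1
  have h3 : u z0 / (e - z0) * (9 / 16 * (e - z0) ^ 2 - 0.3 * (e - z0) ^ 3) =
      u z0 * (9 / 16 * (e - z0) - 0.3 * (e - z0) ^ 2) := by
    field_simp
  rw [h3] at h1
  have h4 : 9 / 16 * (e - z0) - 0.3 * (e - z0) ^ 2 ≤ 0.06795 := by nlinarith
  nlinarith [mul_le_mul_of_nonneg_left h4 hp]

theorem Sli.lens2 (h : Sli e u u') (hm : |u' z0| ≤ m) :
    ∫ z in z0..e, u' z ^ 2 / nz z ≤ c0 * m * u z0 := by
  have c1 : ContinuousOn (fun z => u' z ^ 2 / nz z) (Icc (-e) e) :=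
    ContinuousOn.div (h.cu.pow 2) nz_cont.continuousOn fun z _ => (nz_pos z).ne'
  have h0 := h.int h.mem0 h.meme
  rw [h.u1] at h0
  have hc := c0_z0
  have hcp := c0_pos
  have hz0 := z0_pos
  have h1 : ∫ z in z0..e, u' z ^ 2 / nz z ≤ ∫ z in z0..e, c0 * m * (-u' z) := by
    refine intervalIntegral.integral_mono_on h.he (Sli.ii c1 h.mem0 h.meme)
      ((Sli.ii h.cu h.mem0 h.meme).neg.const_mul _) fun z hz => ?_
    have h2 := h.sgn hz
    have h3 := h.low hm hz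
    have h4 : 2 * z0 ≤ nz z := nz_ge' (hz.1.trans (le_abs_self z))
    rw [div_le_iff₀ (nz_pos z)]
    have h5 : u' z ^ 2 ≤ m * (-u' z) := by nlinarith
    have h6 : 0 ≤ m * (-u' z) := (sq_nonneg _).trans h5
    calc u' z ^ 2 ≤ m * (-u' z) := h5
      _ = m * (-u' z) * (c0 * (2 * z0)) := by rw [show c0 * (2 * z0) = 2 * c0 * z0 by ring, hc]; ring
      _ ≤ m * (-u' z) * (c0 * nz z) :=
        mul_le_mul_of_nonneg_left (mul_le_mul_of_nonneg_left h4 hcp.le) h6
      _ = _ := by ring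
  rw [intervalIntegral.integral_const_mul, intervalIntegral.integral_neg, h0] at h1
  linarith

theorem Sli.lens3 (h : Sli e u u') (hm : |u' z0| ≤ m) :
    ∫ z in z0..e, om z * (|z| * |u' z| * u z) ≤ 0.025 * m * u z0 := by
  have hm0 : 0 ≤ m := (abs_nonneg _).trans hm
  have c1 : ContinuousOn (fun z => om z * (|z| * |u' z| * u z)) (Icc (-e) e) :=
    om_cont.continuousOn.mul ((continuous_abs.continuousOn.mul h.cu.abs).mul h.cont)
  have c2 : ContinuousOn (fun z => -(u z * u' z)) (Icc (-e) e) := (h.cont.mul h.cu).neg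
  have h0 : ∫ z in z0..e, -(u z * u' z) = u z0 ^ 2 / 2 := by
    have hd : ∀ z ∈ uIcc z0 e, HasDerivAt (fun z => -(u z ^ 2 / 2)) (-(u z * u' z)) z := by
      intro z hz
      rw [uIcc_of_le h.he] at hz
      have a1 := (((h.du z (h.memr hz)).pow 2).div_const 2).neg
      refine a1.congr_deriv ?_
      norm_num
      ring
    rw [intervalIntegral.integral_eq_sub_of_hasDerivAt hd (Sli.ii c2 h.mem0 h.meme), h.u1]
    ring
  have h1 : ∫ z in z0..e, om z * (|z| * |u' z| * u z) ≤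
      ∫ z in z0..e, 0.38491 * (-(u z * u' z)) := by
    refine intervalIntegral.integral_mono_on h.he (Sli.ii c1 h.mem0 h.meme)
      ((Sli.ii c2 h.mem0 h.meme).const_mul _) fun z hz => ?_
    have h2 := h.sgn hz
    have h3 := h.nn hz
    have h4 := z_om_le z
    have h5 : 0 ≤ -(u z * u' z) := by nlinarith
    rw [abs_of_nonpos h2]
    calc om z * (|z| * -u' z * u z) = |z| * om z * (-(u z * u' z)) := by ring
      _ ≤ 0.38491 * (-(u z * u' z)) := mul_le_mul_of_nonneg_right h4 h5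
  rw [intervalIntegral.integral_const_mul, h0] at h1
  have hp := h.nn (left_mem_Icc.2 h.he)
  have h2 := h.p_le hm
  have h3 : e - z0 < 0.12977 := by linarith [s_sub, h.hes]
  have h4 : u z0 ≤ m * 0.12977 := h2.trans (mul_le_mul_of_nonneg_left h3.le hm0)
  have h5 : u z0 ^ 2 ≤ m * 0.12977 * u z0 := by
    rw [sq]
    exact mul_le_mul_of_nonneg_right h4 hp
  have h6 : 0 ≤ m * u z0 := mul_nonneg hm0 hp
  nlinarith

/-- the right lens -/
theorem Sli.lens (h : Sli e u u') (hm : |u' z0| ≤ 1 / 60) :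
    (∫ z in z0..e, 2 * u z / (1 + z ^ 2) ^ 2) + (∫ z in z0..e, u' z ^ 2 / nz z) +
      (∫ z in z0..e, om z * (|z| * |u' z| * u z)) ≤ 0.0828005 * u z0 := by
  have h1 := h.lens1
  have h2 := h.lens2 hm
  have h3 := h.lens3 hm
  have hp := h.nn (left_mem_Icc.2 h.he)
  have hc : c0 < 0.866026 := Pool.Agent.Helper55.MEI.c0_lt
  nlinarith [mul_le_mul_of_nonneg_right hc.le hp]

end Helper96.MEI
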