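import Pool.Agent.Helper96.MEI.SlA

/-!
# Project MEI, regime I: the slice lemma
-/

namespace Helper96.MEI

open Set MeasureTheory Real Helper22.MEI
open Pool.Agent.Helper55.MEI (nz nz_pos nz_sq nz_neg nz_cont nz_ge nz_ge' nz_mono c0 c0_pos c0_sq om
  om_pos om_neg om_cont Wz Wz_om Wz_cont Wz_neg z_om_le)

variable {e m : ℝ} {u u' : ℝ → ℝ}

noncomputable def wc (u : ℝ → ℝ) (z : ℝ) : ℝ := u z - rl u z

noncomputable def bb (u : ℝ → ℝ) : ℝ := (u z0 - u (-z0)) / (2 * z0)

theorem rl_deriv (u : ℝ → ℝ) (z : ℝ) : HasDerivAt (rl u) (bb u) z := by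
  have a1 : HasDerivAt (fun z : ℝ => (z0 + z) / (2 * z0) * u z0) (1 / (2 * z0) * u z0) z :=
    (((hasDerivAt_id z).const_add z0).div_const (2 * z0)).mul_const (u z0)
  have a2 : HasDerivAt (fun z : ℝ => (z0 - z) / (2 * z0) * u (-z0)) (-1 / (2 * z0) * u (-z0)) z :=
    (((hasDerivAt_id z).const_sub z0).div_const (2 * z0)).mul_const (u (-z0))
  refine (a1.add a2).congr_deriv ?_
  unfold bb
  ring

theorem rl_z0 (u : ℝ → ℝ) : rl u z0 = u z0 := by
  have := z0_pos
  unfold rl lp lq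
  field_simp
  ring

theorem rl_nz0 (u : ℝ → ℝ) : rl u (-z0) = u (-z0) := by
  have := z0_pos
  unfold rl lp lq
  field_simp
  ring

theorem rl_sum (u : ℝ → ℝ) (z : ℝ) : rl u z + rl u (-z) = u z0 + u (-z0) := by
  have := z0_pos
  unfold rl lp lq
  field_simp
  ring

theorem wc_z0 (u : ℝ → ℝ) : wc u z0 = 0 := by unfold wc; rw [rl_z0]; ring

theorem wc_nz0 (u : ℝ → ℝ) : wc u (-z0) = 0 := by unfold wc; rw [rl_nz0]; ring

theorem nzz : -z0 ≤ z0 := by linarith [z0_pos]

theorem Sli.memJ (h : Sli e u u') {z : ℝ} (hz : z ∈ Icc (-z0) z0) : z ∈ Icc (-e) e :=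
  ⟨by linarith [h.he, hz.1], by linarith [h.he, hz.2]⟩

theorem Sli.wcd (h : Sli e u u') {z : ℝ} (hz : z ∈ Icc (-z0) z0) :
    HasDerivAt (wc u) (u' z - bb u) z :=
  (h.du z (h.memJ hz)).sub (rl_deriv u z)

theorem Sli.wcc (h : Sli e u u') : ContinuousOn (wc u) (Icc (-z0) z0) :=
  fun _ hz => (h.wcd hz).continuousAt.continuousWithinAt

theorem Sli.conc (h : Sli e u u') : ConcaveOn ℝ (Icc (-z0) z0) (wc u) := by
  refine AntitoneOn.concaveOn_of_deriv (convex_Icc _ _) h.wcc ?_ ?_
  · intro y hy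
    rw [interior_Icc] at hy
    exact (h.wcd (Ioo_subset_Icc_self hy)).differentiableAt.differentiableWithinAt
  · rw [interior_Icc]
    intro x hx y hy hxy
    rw [(h.wcd (Ioo_subset_Icc_self hx)).deriv, (h.wcd (Ioo_subset_Icc_self hy)).deriv]
    have := h.am (Ioo_subset_Icc_self hx) (Ioo_subset_Icc_self hy) hxy
    linarith

theorem Sli.wcn (h : Sli e u u') {z : ℝ} (hz : z ∈ Icc (-z0) z0) : 0 ≤ wc u z := by
  have hz0 := z0_pos
  have h1 := h.conc.2 (right_mem_Icc.2 nzz) (left_mem_Icc.2 nzz) (lp_nonneg hz) (lq_nonneg hz)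
    (lp_add_lq z)
  have h2 : lp z • z0 + lq z • -z0 = z := by
    simp only [smul_eq_mul]
    unfold lp lq
    field_simp
    ring
  rw [h2, wc_z0, wc_nz0] at h1
  simpa using h1

theorem Sli.wcl (h : Sli e u u') {z : ℝ} (hz : z ∈ Icc 0 z0) :
    wc u 0 * (1 - z / z0) ≤ wc u z ∧ wc u 0 * (1 - z / z0) ≤ wc u (-z) := by
  have hz0 := z0_pos
  have h0 : (0 : ℝ) ∈ Icc (-z0) z0 := ⟨by linarith, hz0.le⟩
  have hd : 0 ≤ 1 - z / z0 := by
    rw [sub_nonneg, div_le_one hz0]
    exact hz.2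
  have hd2 : 0 ≤ z / z0 := div_nonneg hz.1 hz0.le
  constructor
  · have h1 := h.conc.2 h0 (right_mem_Icc.2 nzz) hd hd2 (by ring)
    have h2 : (1 - z / z0) • (0 : ℝ) + (z / z0) • z0 = z := by
      simp only [smul_eq_mul]
      field_simp
      ring
    rw [h2, wc_z0] at h1
    simp only [smul_eq_mul, mul_zero, add_zero] at h1
    linarith
  · have h1 := h.conc.2 h0 (left_mem_Icc.2 nzz) hd hd2 (by ring)
    have h2 : (1 - z / z0) • (0 : ℝ) + (z / z0) • -z0 = -z := by
      simp only [smul_eq_mul]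
      field_simp
      ring
    rw [h2, wc_nz0] at h1
    simp only [smul_eq_mul, mul_zero, add_zero] at h1
    linarith

theorem mem_of_pos {z : ℝ} (hz : z ∈ Icc 0 z0) : z ∈ Icc (-z0) z0 :=
  ⟨by linarith [hz.1, z0_pos], hz.2⟩

theorem mem_of_neg {z : ℝ} (hz : z ∈ Icc 0 z0) : -z ∈ Icc (-z0) z0 :=
  ⟨by linarith [hz.2], by linarith [hz.1, z0_pos]⟩

/-- folding -/
theorem fold {F : ℝ → ℝ} (hF : ContinuousOn F (Icc (-z0) z0)) :
    ∫ z in (-z0)..z0, F z = ∫ z in (0 : ℝ)..z0, (F z + F (-z)) := by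
  have hz0 := z0_pos
  have i1 : IntervalIntegrable F volume (-z0) 0 := by
    refine ContinuousOn.intervalIntegrable ?_
    rw [uIcc_of_le (by linarith)]
    exact hF.mono (Icc_subset_Icc le_rfl hz0.le)
  have i2 : IntervalIntegrable F volume 0 z0 := by
    refine ContinuousOn.intervalIntegrable ?_
    rw [uIcc_of_le hz0.le]
    exact hF.mono (Icc_subset_Icc (by linarith) le_rfl)
  have i3 : IntervalIntegrable (fun z => F (-z)) volume 0 z0 := by
    refine ContinuousOn.intervalIntegrable ?_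
    rw [uIcc_of_le hz0.le]
    exact hF.comp continuousOn_neg fun z hz => mem_of_neg hz
  rw [intervalIntegral.integral_add i2 i3, intervalIntegral.integral_comp_neg, neg_zero,
    ← intervalIntegral.integral_add_adjacent_intervals i1 i2]
  ring

/-- the even part -/
noncomputable def gg (u : ℝ → ℝ) (z : ℝ) : ℝ := wc u z + wc u (-z)

theorem Sli.ggc (h : Sli e u u') : ContinuousOn (gg u) (Icc 0 z0) := by
  unfold gg
  exact (h.wcc.mono fun z hz => mem_of_pos hz).add
    (h.wcc.comp continuousOn_neg fun z hz => mem_of_neg hz)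

theorem Sli.ggn (h : Sli e u u') {z : ℝ} (hz : z ∈ Icc 0 z0) : 0 ≤ gg u z :=
  add_nonneg (h.wcn (mem_of_pos hz)) (h.wcn (mem_of_neg hz))

theorem Sli.gga (h : Sli e u u') : AntitoneOn (gg u) (Icc 0 z0) := by
  have hz0 := z0_pos
  refine antitoneOn_of_deriv_nonpos (convex_Icc _ _) h.ggc ?_ ?_
  · intro z hz
    rw [interior_Icc] at hz
    have hz' := Ioo_subset_Icc_self hz
    have a1 := h.wcd (mem_of_pos hz')
    have a2 := (h.wcd (mem_of_neg hz')).scomp z (hasDerivAt_neg z)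
    exact (a1.add a2).differentiableAt.differentiableWithinAt
  · intro z hz
    rw [interior_Icc] at hz
    have hz' := Ioo_subset_Icc_self hz
    have a1 := h.wcd (mem_of_pos hz')
    have a2 := (h.wcd (mem_of_neg hz')).scomp z (hasDerivAt_neg z)
    have a3 : deriv (gg u) z = (u' z - bb u) + (-1 : ℝ) • (u' (-z) - bb u) := (a1.add a2).deriv
    rw [a3]
    have := h.am (mem_of_neg hz') (mem_of_pos hz') (by linarith [hz.1])
    simp only [smul_eq_mul]
    linarith

/-- one sign change -/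
theorem osc {p g wt : ℝ → ℝ} (hp : ContinuousOn p (Icc 0 z0)) (hpa : AntitoneOn p (Icc 0 z0))
    (hp0 : 0 ≤ p 0) (hp1 : p z0 ≤ 0) (hg : ContinuousOn g (Icc 0 z0))
    (hga : AntitoneOn g (Icc 0 z0)) (hgn : ∀ z ∈ Icc 0 z0, 0 ≤ g z) (hw : Continuous wt)
    (hwn : ∀ z, 0 ≤ wt z) (hi : 0 ≤ ∫ z in (0 : ℝ)..z0, wt z * p z) :
    0 ≤ ∫ z in (0 : ℝ)..z0, wt z * p z * g z := by
  have hz0 := z0_pos
  obtain ⟨z1, hz1, hpz⟩ := intermediate_value_Icc' hz0.le hp (show (0 : ℝ) ∈ Icc (p z0) (p 0) from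
    ⟨hp1, hp0⟩)
  have ii : ∀ {f : ℝ → ℝ}, ContinuousOn f (Icc 0 z0) →
      IntervalIntegrable f volume 0 z0 := fun {f} hf =>
    ContinuousOn.intervalIntegrable (by rwa [uIcc_of_le hz0.le])
  have c1 : ContinuousOn (fun z => wt z * p z) (Icc 0 z0) := hw.continuousOn.mul hp
  have h1 : ∫ z in (0 : ℝ)..z0, g z1 * (wt z * p z) ≤ ∫ z in (0 : ℝ)..z0, wt z * p z * g z := by
    refine intervalIntegral.integral_mono_on hz0.le ((ii c1).const_mul _) (ii (c1.mul hg))
      fun z hz => ?_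
    rcases le_total z z1 with h2 | h2
    · have h3 := hpa hz hz1 h2
      have h4 := hga hz hz1 h2
      rw [hpz] at h3
      have h5 : 0 ≤ wt z * p z := mul_nonneg (hwn z) h3
      nlinarith
    · have h3 := hpa hz1 hz h2
      have h4 := hga hz1 hz h2
      rw [hpz] at h3
      have h5 : wt z * p z ≤ 0 := mul_nonpos_of_nonneg_of_nonpos (hwn z) h3
      nlinarith
  rw [intervalIntegral.integral_const_mul] at h1
  exact (mul_nonneg (hgn z1 hz1) hi).trans h1

theorem inz_cont : Continuous fun z => 1 / nz z :=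
  continuous_const.div nz_cont fun z => (nz_pos z).ne'

theorem inz_anti {x y : ℝ} (hx : 0 ≤ x) (hxy : x ≤ y) : 1 / nz y ≤ 1 / nz x :=
  one_div_le_one_div_of_le (nz_pos x) (nz_mono hx hxy)

theorem nz_0 : nz 0 = 1 := by unfold nz; norm_num

theorem inz_z0 : 1 / nz z0 = c0 := by
  have h1 : nz z0 = 2 * z0 := Pool.Agent.Helper55.MEI.nz_z0
  have h2 := c0_z0
  have h3 := z0_pos
  rw [h1]
  field_simp
  linarith

theorem int_om : ∫ z in (0:ℝ)..z0, om z = 1 / 2 := Pool.Agent.Helper55.MEI.int_om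

theorem int_zom : ∫ z in (0:ℝ)..z0, om z * z = 1 - c0 := Pool.Agent.Helper55.MEI.int_zom

theorem int_W : ∫ z in (0:ℝ)..z0, Wz z = π / 6 - c0 / 2 := Pool.Agent.Helper55.MEI.int_W

theorem int_zW : ∫ z in (0:ℝ)..z0, Wz z * z = 7 / 4 - 2 * c0 := Pool.Agent.Helper55.MEI.int_zW

theorem c0_lt : c0 < 0.866026 := Pool.Agent.Helper55.MEI.c0_lt

theorem c0_gt : 0.86602 < c0 := Pool.Agent.Helper55.MEI.c0_gt

theorem iic {f : ℝ → ℝ} (hf : ContinuousOn f (Icc 0 z0)) : IntervalIntegrable f volume 0 z0 :=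
  ContinuousOn.intervalIntegrable (by rwa [uIcc_of_le z0_pos.le])

theorem izom : IntervalIntegrable (fun z => om z * z) volume 0 z0 :=
  (om_cont.mul continuous_id).intervalIntegrable _ _

theorem izW : IntervalIntegrable (fun z => Wz z * z) volume 0 z0 :=
  (Wz_cont.mul continuous_id).intervalIntegrable _ _

theorem Sli.iWg (h : Sli e u u') : IntervalIntegrable (fun z => Wz z * gg u z) volume 0 z0 :=
  iic (Wz_cont.continuousOn.mul h.ggc)

theorem Sli.iog (h : Sli e u u') : IntervalIntegrable (fun z => om z * gg u z) volume 0 z0 :=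
  iic (om_cont.continuousOn.mul h.ggc)

theorem Sli.iozg (h : Sli e u u') : IntervalIntegrable (fun z => om z * z * gg u z) volume 0 z0 :=
  iic ((om_cont.mul continuous_id).continuousOn.mul h.ggc)

/-- (g) -/
theorem Sli.cg (h : Sli e u u') :
    ∫ z in (0 : ℝ)..z0, om z * z * gg u z ≤ 1.48 * ∫ z in (0 : ℝ)..z0, Wz z * gg u z := by
  have hz0 := z0_pos
  have h1 := osc (p := fun z => 1.48 * (2 * (1 / nz z - c0)) - z) (g := gg u) (wt := om)
    (((((inz_cont.sub continuous_const).const_smul (2:ℝ)).const_smul (1.48:ℝ)).sub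
      continuous_id).continuousOn)
    (fun x hx y hy hxy => by
      have := inz_anti hx.1 hxy
      show 1.48 * (2 * (1 / nz y - c0)) - y ≤ 1.48 * (2 * (1 / nz x - c0)) - x
      linarith)
    (by
      show (0:ℝ) ≤ 1.48 * (2 * (1 / nz 0 - c0)) - 0
      rw [nz_0]
      linarith [c0_lt])
    (by
      show 1.48 * (2 * (1 / nz z0 - c0)) - z0 ≤ 0
      rw [inz_z0]
      linarith)
    h.ggc h.gga (fun z hz => h.ggn hz) om_cont (fun z => (om_pos z).le)
    (by
      have e1 : ∫ z in (0:ℝ)..z0, om z * (1.48 * (2 * (1 / nz z - c0)) - z) =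
          1.48 * (∫ z in (0:ℝ)..z0, Wz z) - ∫ z in (0:ℝ)..z0, om z * z := by
        rw [← intervalIntegral.integral_const_mul, ← intervalIntegral.integral_sub
          ((Wz_cont.intervalIntegrable _ _).const_mul _) izom]
        refine intervalIntegral.integral_congr fun z _ => ?_
        show _ = 1.48 * Wz z - om z * z
        rw [Wz_om]
        ring
      rw [e1, int_W, int_zom]
      have := Real.pi_gt_d6
      linarith [c0_gt])
  have e2 : ∫ z in (0:ℝ)..z0, om z * (1.48 * (2 * (1 / nz z - c0)) - z) * gg u z =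
      1.48 * (∫ z in (0:ℝ)..z0, Wz z * gg u z) - ∫ z in (0:ℝ)..z0, om z * z * gg u z := by
    rw [← intervalIntegral.integral_const_mul, ← intervalIntegral.integral_sub
      (h.iWg.const_mul _) h.iozg]
    refine intervalIntegral.integral_congr fun z _ => ?_
    show _ = 1.48 * (Wz z * gg u z) - om z * z * gg u z
    rw [Wz_om]
    ring
  rw [e2] at h1
  linarith

/-- (h) -/
theorem Sli.ch (h : Sli e u u') :
    ∫ z in (0 : ℝ)..z0, om z * gg u z ≤ 5.52 * ∫ z in (0 : ℝ)..z0, Wz z * gg u z := by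
  have hz0 := z0_pos
  have h1 := osc (p := fun z => 5.52 * (2 * (1 / nz z - c0)) - 1) (g := gg u) (wt := om)
    (((((inz_cont.sub continuous_const).const_smul (2:ℝ)).const_smul (5.52:ℝ)).sub
      continuous_const).continuousOn)
    (fun x hx y hy hxy => by
      have := inz_anti hx.1 hxy
      show 5.52 * (2 * (1 / nz y - c0)) - 1 ≤ 5.52 * (2 * (1 / nz x - c0)) - 1
      linarith)
    (by
      show (0:ℝ) ≤ 5.52 * (2 * (1 / nz 0 - c0)) - 1
      rw [nz_0]
      linarith [c0_lt])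
    (by
      show 5.52 * (2 * (1 / nz z0 - c0)) - 1 ≤ 0
      rw [inz_z0]
      linarith)
    h.ggc h.gga (fun z hz => h.ggn hz) om_cont (fun z => (om_pos z).le)
    (by
      have e1 : ∫ z in (0:ℝ)..z0, om z * (5.52 * (2 * (1 / nz z - c0)) - 1) =
          5.52 * (∫ z in (0:ℝ)..z0, Wz z) - ∫ z in (0:ℝ)..z0, om z := by
        rw [← intervalIntegral.integral_const_mul, ← intervalIntegral.integral_sub
          ((Wz_cont.intervalIntegrable _ _).const_mul _)
          (om_cont.intervalIntegrable _ _)]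
        refine intervalIntegral.integral_congr fun z _ => ?_
        show _ = 5.52 * Wz z - om z
        rw [Wz_om]
        ring
      rw [e1, int_W, int_om]
      have := Real.pi_gt_d6
      linarith [c0_lt])
  have e2 : ∫ z in (0:ℝ)..z0, om z * (5.52 * (2 * (1 / nz z - c0)) - 1) * gg u z =
      5.52 * (∫ z in (0:ℝ)..z0, Wz z * gg u z) - ∫ z in (0:ℝ)..z0, om z * gg u z := by
    rw [← intervalIntegral.integral_const_mul, ← intervalIntegral.integral_sub
      (h.iWg.const_mul _) h.iog]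
    refine intervalIntegral.integral_congr fun z _ => ?_
    show _ = 5.52 * (Wz z * gg u z) - om z * gg u z
    rw [Wz_om]
    ring
  rw [e2] at h1
  linarith

/-- the centre value -/
theorem Sli.cT (h : Sli e u u') :
    0.118989 * wc u 0 ≤ ∫ z in (0 : ℝ)..z0, Wz z * gg u z := by
  have hz0 := z0_pos
  have h0 : 0 ≤ wc u 0 := h.wcn ⟨by linarith, hz0.le⟩
  have h1 : ∫ z in (0 : ℝ)..z0, (2 * wc u 0 * Wz z - 2 * wc u 0 / z0 * (Wz z * z)) ≤
      ∫ z in (0 : ℝ)..z0, Wz z * gg u z := by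
    refine intervalIntegral.integral_mono_on hz0.le (Continuous.intervalIntegrable ?_ _ _)
      (iic (Wz_cont.continuousOn.mul h.ggc)) fun z hz => ?_
    · exact (continuous_const.mul Wz_cont).sub (continuous_const.mul
        (Wz_cont.mul continuous_id))
    · have h2 := h.wcl hz
      have h3 : 2 * (wc u 0 * (1 - z / z0)) ≤ gg u z := by unfold gg; linarith [h2.1, h2.2]
      have h4 : 0 ≤ Wz z := Pool.Agent.Helper55.MEI.Wz_nonneg (z := z) (by
        rw [abs_of_nonneg hz.1]; exact hz.2)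
      calc 2 * wc u 0 * Wz z - 2 * wc u 0 / z0 * (Wz z * z) =
          Wz z * (2 * (wc u 0 * (1 - z / z0))) := by field_simp
        _ ≤ Wz z * gg u z := mul_le_mul_of_nonneg_left h3 h4
  rw [intervalIntegral.integral_sub ((Wz_cont.intervalIntegrable _ _).const_mul _)
    (izW.const_mul _), intervalIntegral.integral_const_mul, intervalIntegral.integral_const_mul, int_W, int_zW] at h1
  have h2 : 1 / z0 = 2 * c0 := by
    have := c0_z0
    field_simp
    linarith
  have h3 : 2 * wc u 0 * (π / 6 - c0 / 2) - 2 * wc u 0 / z0 * (7 / 4 - 2 * c0) =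
      wc u 0 * (π / 3 + 6 - 8 * c0) := by
    rw [show 2 * wc u 0 / z0 = 2 * wc u 0 * (1 / z0) by ring, h2]
    have := c0_sq
    linear_combination 8 * wc u 0 * this
  rw [h3] at h1
  have h4 : 0.118989 ≤ π / 3 + 6 - 8 * c0 := by
    have := Real.pi_gt_d6
    linarith [c0_lt]
  nlinarith [mul_le_mul_of_nonneg_left h4 h0]

/-- (f) -/
theorem Sli.vsq (h : Sli e u u') {M : ℝ} (h1 : u' (-z0) - bb u ≤ M) (h2 : -M ≤ u' z0 - bb u) :
    ∫ z in (-z0)..z0, (u' z - bb u) ^ 2 ≤ 2 * M * wc u 0 := by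
  have hz0 := z0_pos
  have m0 : (0 : ℝ) ∈ Icc (-z0) z0 := ⟨by linarith, hz0.le⟩
  have cv : ContinuousOn (fun z => u' z - bb u) (Icc (-z0) z0) :=
    (h.cu.mono fun z hz => h.memJ hz).sub continuousOn_const
  have cvl : ContinuousOn (fun z => u' z - bb u) (uIcc (-z0) 0) := by
    rw [uIcc_of_le (by linarith)]
    exact cv.mono (Icc_subset_Icc le_rfl hz0.le)
  have cvr : ContinuousOn (fun z => u' z - bb u) (uIcc 0 z0) := by
    rw [uIcc_of_le hz0.le]
    exact cv.mono (Icc_subset_Icc (by linarith) le_rfl)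
  have i1 : ∫ z in (-z0)..0, (u' z - bb u) = wc u 0 := by
    rw [intervalIntegral.integral_eq_sub_of_hasDerivAt (f := wc u) (fun z hz => ?_)
      cvl.intervalIntegrable, wc_nz0, sub_zero]
    rw [uIcc_of_le (by linarith)] at hz
    exact h.wcd ⟨hz.1, hz.2.trans hz0.le⟩
  have i2 : ∫ z in (0:ℝ)..z0, (u' z - bb u) = -wc u 0 := by
    rw [intervalIntegral.integral_eq_sub_of_hasDerivAt (f := wc u) (fun z hz => ?_)
      cvr.intervalIntegrable, wc_z0, zero_sub]
    rw [uIcc_of_le hz0.le] at hz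
    exact h.wcd (mem_of_pos hz)
  set v0 : ℝ := u' 0 - bb u with hv0
  have hl : ∫ z in (-z0)..0, (u' z - bb u) ^ 2 ≤
      ∫ z in (-z0)..0, ((M + v0) * (u' z - bb u) - M * v0) := by
    refine intervalIntegral.integral_mono_on (by linarith) (cvl.pow 2).intervalIntegrable
      ((cvl.intervalIntegrable.const_mul _).sub intervalIntegrable_const) fun z hz => ?_
    have hz' : z ∈ Icc (-z0) z0 := ⟨hz.1, hz.2.trans hz0.le⟩
    have a1 := h.am (left_mem_Icc.2 nzz) hz' hz.1
    have a2 := h.am hz' m0 hz.2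
    nlinarith [mul_nonneg (show 0 ≤ M - (u' z - bb u) by linarith)
      (show 0 ≤ (u' z - bb u) - v0 by rw [hv0]; linarith)]
  have hr : ∫ z in (0:ℝ)..z0, (u' z - bb u) ^ 2 ≤
      ∫ z in (0:ℝ)..z0, ((v0 - M) * (u' z - bb u) + M * v0) := by
    refine intervalIntegral.integral_mono_on hz0.le (cvr.pow 2).intervalIntegrable
      ((cvr.intervalIntegrable.const_mul _).add intervalIntegrable_const) fun z hz => ?_
    have hz' := mem_of_pos hz
    have a1 := h.am hz' (right_mem_Icc.2 nzz) hz.2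
    have a2 := h.am m0 hz' hz.1
    nlinarith [mul_nonneg (show 0 ≤ M + (u' z - bb u) by linarith)
      (show 0 ≤ v0 - (u' z - bb u) by rw [hv0]; linarith)]
  rw [intervalIntegral.integral_sub (cvl.intervalIntegrable.const_mul _) intervalIntegrable_const,
    intervalIntegral.integral_const_mul, i1, intervalIntegral.integral_const, smul_eq_mul] at hl
  rw [intervalIntegral.integral_add (cvr.intervalIntegrable.const_mul _) intervalIntegrable_const,
    intervalIntegral.integral_const_mul, i2, intervalIntegral.integral_const, smul_eq_mul] at hr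
  have j1 : IntervalIntegrable (fun z => (u' z - bb u) ^ 2) volume (-z0) 0 :=
    (cvl.pow 2).intervalIntegrable
  have j2 : IntervalIntegrable (fun z => (u' z - bb u) ^ 2) volume 0 z0 :=
    (cvr.pow 2).intervalIntegrable
  rw [← intervalIntegral.integral_add_adjacent_intervals j1 j2]
  nlinarith

/-- (e) -/
theorem Sli.sqJ (h : Sli e u u') :
    ∫ z in (-z0)..z0, u' z ^ 2 / nz z ≤
      (∫ z in (-z0)..z0, (u' z - bb u) ^ 2) + 2 * z0 * bb u ^ 2 := by
  have hz0 := z0_pos
  have cu : ContinuousOn u' (uIcc (-z0) z0) := by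
    rw [uIcc_of_le nzz]
    exact h.cu.mono fun z hz => h.memJ hz
  have i1 : ∫ z in (-z0)..z0, u' z = 2 * z0 * bb u := by
    rw [h.int h.memn0 h.mem0]
    unfold bb
    field_simp
  have j1 : IntervalIntegrable (fun z => (u' z - bb u) ^ 2) volume (-z0) z0 :=
    ((cu.sub continuousOn_const).pow 2).intervalIntegrable
  have j2 : IntervalIntegrable (fun z => 2 * bb u * u' z) volume (-z0) z0 :=
    cu.intervalIntegrable.const_mul _
  have j3 : IntervalIntegrable (fun z => 2 * bb u * u' z - bb u ^ 2) volume (-z0) z0 :=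
    j2.sub intervalIntegrable_const
  have h1 : ∫ z in (-z0)..z0, u' z ^ 2 / nz z ≤ ∫ z in (-z0)..z0,
      ((u' z - bb u) ^ 2 + (2 * bb u * u' z - bb u ^ 2)) := by
    refine intervalIntegral.integral_mono_on nzz (ContinuousOn.intervalIntegrable
      (ContinuousOn.div (cu.pow 2) nz_cont.continuousOn fun z _ => (nz_pos z).ne'))
      (j1.add j3) fun z _ => ?_
    have h2 : u' z ^ 2 / nz z ≤ u' z ^ 2 := div_le_self (sq_nonneg _) (nz_ge z)
    linarith
  rw [intervalIntegral.integral_add j1 j3, intervalIntegral.integral_sub j2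
    intervalIntegrable_const, intervalIntegral.integral_const_mul, i1,
    intervalIntegral.integral_const, smul_eq_mul] at h1
  linarith

end Helper96.MEI
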