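import Pool.Agent.Helper96.MEI.SlC

/-!
# Project MEI, regime I: the slice lemma in terms of values, lens part
-/

namespace Helper96.MEI

open Set MeasureTheory Real Helper22.MEI
open Pool.Agent.Helper55.MEI (nz nz_pos nz_sq nz_neg nz_cont nz_ge nz_ge' nz_mono c0 c0_pos c0_sq om
  om_pos om_neg om_cont om_le Wz Wz_om Wz_cont Wz_neg z_om_le)

/-- a slice whose slope is Lipschitz in the lens -/
structure SliL (e : ℝ) (u u' : ℝ → ℝ) : Prop extends Sli e u u' where
  lipR : ∀ x ∈ Icc z0 e, ∀ y ∈ Icc z0 e, x ≤ y → u' y - u' x ≤ 0.65 * (y - x)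
  lipL : ∀ x ∈ Icc (-e) (-z0), ∀ y ∈ Icc (-e) (-z0), x ≤ y → u' y - u' x ≤ 0.65 * (y - x)

variable {e m : ℝ} {u u' : ℝ → ℝ}

theorem SliL.reflL (h : SliL e u u') : SliL e (fun z => u (-z)) (fun z => -u' (-z)) where
  toSli := h.toSli.refl
  lipR := fun x hx y hy hxy => by
    have := h.lipL (-y) ⟨by linarith [hy.2], by linarith [hy.1]⟩ (-x)
      ⟨by linarith [hx.2], by linarith [hx.1]⟩ (by linarith)
    show -u' (-y) - -u' (-x) ≤ _
    linarith
  lipL := fun x hx y hy hxy => by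
    have := h.lipR (-y) ⟨by linarith [hy.2], by linarith [hy.1]⟩ (-x)
      ⟨by linarith [hx.2], by linarith [hx.1]⟩ (by linarith)
    show -u' (-y) - -u' (-x) ≤ _
    linarith

/-- (a') the slope is controlled by the value -/
theorem SliL.slope (h : SliL e u u') : |u' z0| ^ 2 ≤ 1.3 * u z0 := by
  have hl := h.he
  have hm : u' z0 ≤ 0 := h.sgn (left_mem_Icc.2 h.he)
  set m := -u' z0 with hmd
  have hm0 : 0 ≤ m := by rw [hmd]; linarith
  have h1 := h.lipR z0 (left_mem_Icc.2 h.he) e (right_mem_Icc.2 h.he) h.he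
  rw [h.v1] at h1
  have h2 : m / 0.65 ≤ e - z0 := by
    rw [div_le_iff₀ (by norm_num)]
    rw [hmd]
    linarith
  have h3 : 0 ≤ m / 0.65 := by positivity
  have mx : z0 + m / 0.65 ∈ Icc z0 e := ⟨by linarith, by linarith⟩
  have i1 := h.int h.mem0 (h.memr mx)
  have hnn := h.nn mx
  have h4 : ∫ z in z0..(z0 + m / 0.65), (m - 0.65 * (z - z0)) ≤
      ∫ z in z0..(z0 + m / 0.65), -u' z := by
    refine intervalIntegral.integral_mono_on (by linarith)
      (Continuous.intervalIntegrable (by fun_prop) _ _)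
      (Sli.ii h.cu h.mem0 (h.memr mx)).neg fun z hz => ?_
    have := h.lipR z0 (left_mem_Icc.2 h.he) z ⟨hz.1, hz.2.trans mx.2⟩ hz.1
    rw [hmd]
    linarith
  have h5 : ∫ z in z0..(z0 + m / 0.65), (m - 0.65 * (z - z0)) = m ^ 2 / 1.3 := by
    have hd : ∀ z ∈ uIcc z0 (z0 + m / 0.65), HasDerivAt (fun z => m * (z - z0) -
        0.65 * (z - z0) ^ 2 / 2) (m - 0.65 * (z - z0)) z := by
      intro z _
      have a1 : HasDerivAt (fun z : ℝ => z - z0) 1 z := (hasDerivAt_id z).sub_const z0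
      have a2 := (a1.const_mul m).sub (((a1.pow 2).const_mul 0.65).div_const 2)
      refine a2.congr_deriv ?_
      norm_num
      ring
    rw [intervalIntegral.integral_eq_sub_of_hasDerivAt hd
      (Continuous.intervalIntegrable (by fun_prop) _ _)]
    ring
  rw [h5, intervalIntegral.integral_neg, i1] at h4
  have h6 : |u' z0| = m := by rw [abs_of_nonpos hm]
  rw [h6]
  rw [div_le_iff₀ (by norm_num)] at h4
  nlinarith

theorem SliL.slope' (h : SliL e u u') (hq : u z0 ≤ 0.00069) : |u' z0| ≤ 0.03 := by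
  have h1 := h.slope
  by_contra hc
  push Not at hc
  nlinarith [abs_nonneg (u' z0)]

theorem SliL.ac (h : SliL e u u') : AbsolutelyContinuousOnInterval u' z0 e := by
  have h1 : LipschitzOnWith 1 u' (Icc z0 e) := by
    refine LipschitzOnWith.of_dist_le_mul fun x hx y hy => ?_
    rw [Real.dist_eq, Real.dist_eq, NNReal.coe_one, one_mul]
    rcases le_total x y with hxy | hxy
    · have a1 := h.lipR x hx y hy hxy
      have a2 := h.m1 hx hy hxy
      rw [abs_sub_comm, abs_of_nonneg (by linarith), abs_sub_comm, abs_of_nonneg (by linarith)]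
      linarith
    · have a1 := h.lipR y hy x hx hxy
      have a2 := h.m1 hy hx hxy
      rw [abs_of_nonneg (by linarith), abs_of_nonneg (by linarith)]
      linarith
  rw [← uIcc_of_le h.he] at h1
  exact h1.absolutelyContinuousOnInterval

/-- derivative of a monotone function -/
theorem deriv_nonneg_of_mono {v : ℝ → ℝ} {x y z : ℝ} (hv : MonotoneOn v (Icc x y))
    (hz : z ∈ Ioo x y) (hd : DifferentiableAt ℝ v z) : 0 ≤ deriv v z := by
  have h1 := hd.hasDerivAt
  have h2 := hasDerivAt_iff_tendsto_slope.1 h1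
  refine ge_of_tendsto h2 ?_
  have h3 : ∀ᶠ r in nhdsWithin z {z}ᶜ, r ∈ Ioo x y :=
    nhdsWithin_le_nhds (isOpen_Ioo.mem_nhds hz)
  filter_upwards [h3, self_mem_nhdsWithin] with r hr hr2
  rw [slope_def_field]
  rcases lt_or_gt_of_ne (show r ≠ z from hr2) with hlt | hlt
  · have := hv (Ioo_subset_Icc_self hr) (Ioo_subset_Icc_self hz) hlt.le
    exact div_nonneg_of_nonpos (by linarith) (by linarith)
  · have := hv (Ioo_subset_Icc_self hz) (Ioo_subset_Icc_self hr) hlt.le
    exact div_nonneg (by linarith) (by linarith)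

/-- (b') numerical bracket -/
theorem brk {T p v : ℝ} (hT0 : 0 ≤ T) (hT1 : T ≤ 0.12977) (hp : p ≤ 0.00069) (h1 : v ≤ 0.03)
    (h2 : T * v ≤ p) (hv : 0 ≤ v) : 0 ≤ T * (0.078 - 0.5625 * T + 0.3 * T ^ 2 - 2 * c0 * v) := by
  have hc := c0_lt
  have hcp := c0_pos
  rcases le_total T 0.023 with h3 | h3
  · refine mul_nonneg hT0 ?_
    nlinarith
  · have h4 : 2 * c0 * (T * v) ≤ 2 * 0.866026 * 0.00069 := by
      have h5 : T * v ≤ 0.00069 := h2.trans hp
      have h6 : 0 ≤ T * v := mul_nonneg hT0 hv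
      nlinarith
    have h7 : 0.0011952 ≤ T * (0.078 - 0.5625 * T + 0.3 * T ^ 2) := by
      nlinarith [mul_nonneg (sub_nonneg.2 h3) (sub_nonneg.2 hT1), pow_nonneg hT0 3,
        mul_nonneg hT0 (mul_nonneg (sub_nonneg.2 h3) (sub_nonneg.2 hT1))]
    nlinarith

end Helper96.MEI
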