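import Pool.Agent.Helper96.MEI.SpA
import Pool.Agent.Helper22.MEI.Lat

/-!
# Project MEI, regime I: the slice lemma in terms of values, lens and middle energies
-/

namespace Helper96.MEI

open Set MeasureTheory Real Helper22.MEI
open Pool.Agent.Helper55.MEI (nz nz_pos nz_sq nz_neg nz_cont nz_ge nz_ge' nz_mono c0 c0_pos c0_sq om
  om_pos om_neg om_cont om_le Wz Wz_om Wz_cont Wz_neg z_om_le)

variable {e m : ℝ} {u u' : ℝ → ℝ}

theorem ae_ne' (a : ℝ) : ∀ᵐ x : ℝ, x ≠ a := compl_mem_ae_iff.mpr (measure_singleton a)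

theorem SliL.xi (h : SliL e u u') (hq : u z0 ≤ 0.00069) :
    ∫ z in z0..e, ((0.078 - 1.125 * (z - z0) + 0.9 * (z - z0) ^ 2) * u' z + c0 * u' z ^ 2) ≤ 0 := by
  have hle := h.he
  have hac := h.ac
  set A : ℝ → ℝ := fun z => 0.078 * (z - z0) - 0.5625 * (z - z0) ^ 2 + 0.3 * (z - z0) ^ 3 with hA
  have dA : ∀ z, HasDerivAt A (0.078 - 1.125 * (z - z0) + 0.9 * (z - z0) ^ 2) z := by
    intro z
    have a1 : HasDerivAt (fun z : ℝ => z - z0) 1 z := (hasDerivAt_id z).sub_const z0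
    have a2 := ((a1.const_mul 0.078).sub ((a1.pow 2).const_mul 0.5625)).add
      ((a1.pow 3).const_mul 0.3)
    refine a2.congr_deriv ?_
    norm_num
    ring
  have dT : ∀ z : ℝ, HasDerivAt (fun z : ℝ => c0 * (z - z0)) c0 z := by
    intro z
    have a1 : HasDerivAt (fun z : ℝ => z - z0) 1 z := (hasDerivAt_id z).sub_const z0
    have a2 := a1.const_mul c0
    rwa [mul_one] at a2
  have acA : AbsolutelyContinuousOnInterval A z0 e :=
    ac_of_deriv hle (fun z _ => dA z) (by fun_prop)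
  have acT : AbsolutelyContinuousOnInterval (fun z : ℝ => c0 * (z - z0)) z0 e :=
    ac_of_deriv hle (fun z _ => dT z) (by fun_prop)
  have acX : AbsolutelyContinuousOnInterval
      (fun z => A z * u' z + c0 * (z - z0) * (u' z * u' z)) z0 e :=
    (acA.fun_mul hac).add (acT.fun_mul (hac.fun_mul hac))
  have hX := acX.integral_deriv_eq_sub
  have hX0 : A z0 * u' z0 + c0 * (z0 - z0) * (u' z0 * u' z0) = 0 := by
    rw [hA]
    simp
  have hXe : A e * u' e + c0 * (e - z0) * (u' e * u' e) = 0 := by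
    rw [h.v1]
    simp
  simp only [hX0, hXe, sub_zero] at hX
  rw [← hX]
  have cu : ContinuousOn u' (uIcc z0 e) := by
    rw [uIcc_of_le hle]
    exact h.cu.mono fun z hz => h.memr hz
  refine intervalIntegral.integral_mono_ae_restrict hle (ContinuousOn.intervalIntegrable
    ((ContinuousOn.mul (by fun_prop) cu).add (continuousOn_const.mul (cu.pow 2))))
    acX.intervalIntegrable_deriv ?_
  rw [Filter.EventuallyLE, ae_restrict_iff' measurableSet_Icc]
  filter_upwards [hac.ae_differentiableAt, ae_ne' z0, ae_ne' e] with z hz hz1 hz2 hm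
  have hd := hz (by rwa [uIcc_of_le hle])
  have hio : z ∈ Ioo z0 e := ⟨lt_of_le_of_ne hm.1 (Ne.symm hz1), lt_of_le_of_ne hm.2 hz2⟩
  have hD := deriv_nonneg_of_mono h.m1 hio hd
  set D := deriv u' z with hDd
  have hXd : HasDerivAt (fun z => A z * u' z + c0 * (z - z0) * (u' z * u' z))
      ((0.078 - 1.125 * (z - z0) + 0.9 * (z - z0) ^ 2) * u' z + A z * D +
        (c0 * (u' z * u' z) + c0 * (z - z0) * (D * u' z + u' z * D))) z :=
    ((dA z).mul hd.hasDerivAt).add ((dT z).mul (hd.hasDerivAt.mul hd.hasDerivAt))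
  rw [hXd.deriv]
  have hs := h.sgn hm
  have hb := brk (T := z - z0) (p := u z0) (v := -u' z) (by linarith [hm.1])
    (by linarith [s_sub, h.hes, hm.2]) hq (by linarith [h.low (h.slope' hq) hm]) (by
      -- (z - z0) * (-u' z) ≤ u z0
      have i1 := h.int h.mem0 (h.memr hm)
      have hnn := h.nn hm
      have i2 : ∫ y in z0..z, -u' z ≤ ∫ y in z0..z, -u' y := by
        refine intervalIntegral.integral_mono_on hm.1 intervalIntegrable_const
          (Sli.ii h.cu h.mem0 (h.memr hm)).neg fun y hy => ?_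
        have := h.m1 ⟨hy.1, hy.2.trans hm.2⟩ hm hy.2
        linarith
      rw [intervalIntegral.integral_const, smul_eq_mul, intervalIntegral.integral_neg, i1] at i2
      linarith) (by linarith)
  have hb2 := mul_nonneg hD hb
  have e1 : D * ((z - z0) * (0.078 - 0.5625 * (z - z0) + 0.3 * (z - z0) ^ 2 - 2 * c0 * -u' z)) =
      A z * D + c0 * (z - z0) * (D * u' z + u' z * D) := by
    rw [hA]
    ring
  rw [e1] at hb2
  nlinarith

/-- (b') the lens -/
theorem SliL.lensE (h : SliL e u u') (hq : u z0 ≤ 0.00069) :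
    (∫ z in z0..e, 2 * u z / (1 + z ^ 2) ^ 2) + (∫ z in z0..e, u' z ^ 2 / nz z) ≤
      0.078 * u z0 := by
  have hle := h.he
  have hX := h.xi hq
  have cu : ContinuousOn u' (Icc (-e) e) := h.cu
  have cc := h.cont
  have c1 : ContinuousOn (fun z => 2 * u z / (1 + z ^ 2) ^ 2) (Icc (-e) e) := by
    refine ContinuousOn.div (continuousOn_const.mul cc) (by fun_prop) fun z _ => ?_
    positivity
  have c2 : ContinuousOn (fun z => (9 / 8 - 1.8 * (z - z0)) * u z) (Icc (-e) e) :=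
    ContinuousOn.mul (by fun_prop) cc
  have c3' : ContinuousOn (fun z => u' z ^ 2 / nz z) (Icc (-e) e) :=
    ContinuousOn.div (cu.pow 2) nz_cont.continuousOn fun z _ => (nz_pos z).ne'
  have c4 : ContinuousOn (fun z => c0 * u' z ^ 2) (Icc (-e) e) := continuousOn_const.mul (cu.pow 2)
  have c5 : ContinuousOn (fun z => (9 / 8 * (z - z0) - 0.9 * (z - z0) ^ 2) * u' z) (Icc (-e) e) :=
    ContinuousOn.mul (by fun_prop) cu
  have h1 : ∫ z in z0..e, 2 * u z / (1 + z ^ 2) ^ 2 ≤
      ∫ z in z0..e, (9 / 8 - 1.8 * (z - z0)) * u z := by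
    refine intervalIntegral.integral_mono_on hle (Sli.ii c1 h.mem0 h.meme)
      (Sli.ii c2 h.mem0 h.meme) fun z hz => ?_
    have h3 := lens_wt hz.1 (hz.2.trans h.hes)
    calc 2 * u z / (1 + z ^ 2) ^ 2 = 2 / (1 + z ^ 2) ^ 2 * u z := by ring
      _ ≤ _ := mul_le_mul_of_nonneg_right h3 (h.nn hz)
  have h2 : ∫ z in z0..e, u' z ^ 2 / nz z ≤ ∫ z in z0..e, c0 * u' z ^ 2 := by
    refine intervalIntegral.integral_mono_on hle (Sli.ii c3' h.mem0 h.meme)
      (Sli.ii c4 h.mem0 h.meme) fun z hz => ?_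
    have h4 : 2 * z0 ≤ nz z := nz_ge' (hz.1.trans (le_abs_self z))
    rw [div_le_iff₀ (nz_pos z)]
    have hc := c0_z0
    calc u' z ^ 2 = u' z ^ 2 * (c0 * (2 * z0)) := by
          rw [show c0 * (2 * z0) = 2 * c0 * z0 by ring, hc, mul_one]
      _ ≤ u' z ^ 2 * (c0 * nz z) :=
        mul_le_mul_of_nonneg_left (mul_le_mul_of_nonneg_left h4 c0_pos.le) (sq_nonneg _)
      _ = _ := by ring
  have h3 : (∫ z in z0..e, (9 / 8 - 1.8 * (z - z0)) * u z) +
      ∫ z in z0..e, (9 / 8 * (z - z0) - 0.9 * (z - z0) ^ 2) * u' z = 0 := by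
    rw [← intervalIntegral.integral_add (Sli.ii c2 h.mem0 h.meme) (Sli.ii c5 h.mem0 h.meme)]
    have hd : ∀ z ∈ uIcc z0 e, HasDerivAt (fun z => (9 / 8 * (z - z0) - 0.9 * (z - z0) ^ 2) * u z)
        ((9 / 8 - 1.8 * (z - z0)) * u z + (9 / 8 * (z - z0) - 0.9 * (z - z0) ^ 2) * u' z) z := by
      intro z hz
      rw [uIcc_of_le hle] at hz
      have a1 : HasDerivAt (fun z : ℝ => z - z0) 1 z := (hasDerivAt_id z).sub_const z0
      have a2 : HasDerivAt (fun z : ℝ => 9 / 8 * (z - z0) - 0.9 * (z - z0) ^ 2)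
          (9 / 8 - 1.8 * (z - z0)) z := by
        refine ((a1.const_mul (9 / 8)).sub ((a1.pow 2).const_mul 0.9)).congr_deriv ?_
        norm_num
        ring
      exact a2.mul (h.du z (h.memr hz))
    rw [intervalIntegral.integral_eq_sub_of_hasDerivAt hd
      ((Sli.ii c2 h.mem0 h.meme).add (Sli.ii c5 h.mem0 h.meme)), h.u1]
    ring
  have h4 := h.int h.mem0 h.meme
  rw [h.u1] at h4
  have h5 : ∫ z in z0..e, ((0.078 - 1.125 * (z - z0) + 0.9 * (z - z0) ^ 2) * u' z +
      c0 * u' z ^ 2) = 0.078 * (∫ z in z0..e, u' z) -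
      (∫ z in z0..e, (9 / 8 * (z - z0) - 0.9 * (z - z0) ^ 2) * u' z) +
      ∫ z in z0..e, c0 * u' z ^ 2 := by
    have j1 : IntervalIntegrable (fun z => 0.078 * u' z) volume z0 e :=
      (Sli.ii cu h.mem0 h.meme).const_mul _
    have j2 := Sli.ii c5 h.mem0 h.meme
    have j3 := Sli.ii c4 h.mem0 h.meme
    rw [← intervalIntegral.integral_const_mul, ← intervalIntegral.integral_sub j1 j2,
      ← intervalIntegral.integral_add (j1.sub j2) j3]
    refine intervalIntegral.integral_congr fun z _ => ?_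
    ring
  rw [h5, h4] at hX
  linarith

/-- (c') -/
theorem SliL.lens3' (h : SliL e u u') (hq : u z0 ≤ 0.00069) :
    ∫ z in z0..e, om z * (|z| * |u' z| * u z) ≤ 0.00075 * u z0 := by
  have h1 := h.lens3 (h.slope' hq)
  linarith

end Helper96.MEI
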