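import Pool.Agent.Helper96.MEI.SpB

/-!
# Project MEI, regime I: the slice lemma in terms of values, middle energy
-/

namespace Helper96.MEI

open Set MeasureTheory Real Helper22.MEI
open Pool.Agent.Helper55.MEI (nz nz_pos nz_sq nz_neg nz_cont nz_ge nz_ge' nz_mono c0 c0_pos c0_sq om
  om_pos om_neg om_cont om_le Wz Wz_om Wz_cont Wz_neg z_om_le)

variable {e m : ℝ} {u u' : ℝ → ℝ}

/-- one piece of the energy -/
theorem piece {v h : ℝ → ℝ} {x y α β : ℝ} (hxy : x ≤ y)
    (hd : ∀ z ∈ Icc x y, HasDerivAt h (v z) z) (cv : ContinuousOn v (Icc x y))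
    (hq : ∀ z ∈ Icc x y, v z ^ 2 ≤ α * v z + β) :
    ∫ z in x..y, v z ^ 2 ≤ α * (h y - h x) + β * (y - x) := by
  have cu : ContinuousOn v (uIcc x y) := by rwa [uIcc_of_le hxy]
  have i1 : ∫ z in x..y, v z = h y - h x :=
    intervalIntegral.integral_eq_sub_of_hasDerivAt (fun z hz => hd z (by
      rwa [uIcc_of_le hxy] at hz)) cu.intervalIntegrable
  have h1 : ∫ z in x..y, v z ^ 2 ≤ ∫ z in x..y, (α * v z + β) :=
    intervalIntegral.integral_mono_on hxy (cu.pow 2).intervalIntegrable
      ((cu.intervalIntegrable.const_mul _).add intervalIntegrable_const) hq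
  rw [intervalIntegral.integral_add (cu.intervalIntegrable.const_mul _) intervalIntegrable_const,
    intervalIntegral.integral_const_mul, i1, intervalIntegral.integral_const, smul_eq_mul] at h1
  linarith

/-- the energy of a concave function below a trapezoid -/
theorem energy3 {v h : ℝ → ℝ} {a b M β : ℝ} (hb0 : 0 ≤ b) (hba : b ≤ a)
    (hd : ∀ z ∈ Icc (-a) a, HasDerivAt h (v z) z) (cv : ContinuousOn v (Icc (-a) a))
    (hv : AntitoneOn v (Icc (-a) a)) (h0 : h a = 0) (h1 : h (-a) = 0)
    (hβ : ∀ z ∈ Icc (-a) a, h z ≤ β) (hl : v (-a) ≤ M) (hr : -M ≤ v a)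
    (hM : M * (a - b) = β) : ∫ z in (-a)..a, v z ^ 2 ≤ M * (h b + h (-b)) := by
  have mb : b ∈ Icc (-a) a := ⟨by linarith, hba⟩
  have mnb : -b ∈ Icc (-a) a := ⟨by linarith, by linarith⟩
  have ma : a ∈ Icc (-a) a := ⟨by linarith, le_rfl⟩
  have mna : -a ∈ Icc (-a) a := ⟨le_rfl, by linarith⟩
  set v1 := v (-b) with hv1
  set v2 := v b with hv2
  have h12 : v2 ≤ v1 := hv mnb mb (by linarith)
  have sub1 : Icc (-b) b ⊆ Icc (-a) a := Icc_subset_Icc (by linarith) hba
  have mid : ∃ z ∈ Icc (-b) b, ∫ y in (-b)..b, v y ^ 2 ≤ v1 * (h z - h (-b)) +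
      v2 * (h b - h z) := by
    by_cases c1 : 0 ≤ v2
    · refine ⟨b, ⟨by linarith, le_rfl⟩, ?_⟩
      have k := piece (v := v) (h := h) (x := -b) (y := b) (α := v1) (β := 0) (by linarith)
        (fun z hz => hd z (sub1 hz)) (cv.mono sub1) fun z hz => by
          have a1 := hv (sub1 hz) mb hz.2
          have a2 := hv mnb (sub1 hz) hz.1
          nlinarith
      linarith
    · push Not at c1
      by_cases c2 : v1 ≤ 0
      · refine ⟨-b, ⟨le_rfl, by linarith⟩, ?_⟩
        have k := piece (v := v) (h := h) (x := -b) (y := b) (α := v2) (β := 0) (by linarith)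
          (fun z hz => hd z (sub1 hz)) (cv.mono sub1) fun z hz => by
            have a1 := hv (sub1 hz) mb hz.2
            have a2 := hv mnb (sub1 hz) hz.1
            nlinarith
        linarith
      · push Not at c2
        obtain ⟨z, hz, hvz⟩ := intermediate_value_Icc' (show -b ≤ b by linarith) (cv.mono sub1)
          (show (0 : ℝ) ∈ Icc (v b) (v (-b)) from ⟨c1.le, c2.le⟩)
        refine ⟨z, hz, ?_⟩
        have s1 : Icc (-b) z ⊆ Icc (-a) a := Icc_subset_Icc (by linarith) (hz.2.trans hba)
        have s2 : Icc z b ⊆ Icc (-a) a := Icc_subset_Icc (by linarith [hz.1]) hba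
        have k1 := piece (v := v) (h := h) (x := -b) (y := z) (α := v1) (β := 0) hz.1
          (fun y hy => hd y (s1 hy)) (cv.mono s1) fun y hy => by
            have a1 := hv (s1 hy) (sub1 hz) hy.2
            have a2 := hv mnb (s1 hy) hy.1
            nlinarith
        have k2 := piece (v := v) (h := h) (x := z) (y := b) (α := v2) (β := 0) hz.2
          (fun y hy => hd y (s2 hy)) (cv.mono s2) fun y hy => by
            have a1 := hv (sub1 hz) (s2 hy) hy.1
            have a2 := hv (s2 hy) mb hy.2
            nlinarith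
        have j1 : IntervalIntegrable (fun y => v y ^ 2) volume (-b) z := by
          refine ContinuousOn.intervalIntegrable ?_
          rw [uIcc_of_le hz.1]
          exact (cv.mono s1).pow 2
        have j2 : IntervalIntegrable (fun y => v y ^ 2) volume z b := by
          refine ContinuousOn.intervalIntegrable ?_
          rw [uIcc_of_le hz.2]
          exact (cv.mono s2).pow 2
        rw [← intervalIntegral.integral_add_adjacent_intervals j1 j2]
        linarith
  obtain ⟨z, hz, hmid⟩ := mid
  have sl : Icc (-a) (-b) ⊆ Icc (-a) a := Icc_subset_Icc le_rfl (by linarith)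
  have sr : Icc b a ⊆ Icc (-a) a := Icc_subset_Icc (by linarith) le_rfl
  have kl := piece (v := v) (h := h) (x := -a) (y := -b) (α := M + v1) (β := -(M * v1))
    (by linarith) (fun y hy => hd y (sl hy)) (cv.mono sl) fun y hy => by
      have a1 := hv (sl hy) mnb hy.2
      have a2 := hv mna (sl hy) hy.1
      nlinarith [mul_nonneg (show 0 ≤ M - v y by linarith) (show 0 ≤ v y - v1 by linarith)]
  have kr := piece (v := v) (h := h) (x := b) (y := a) (α := v2 - M) (β := M * v2)
    hba (fun y hy => hd y (sr hy)) (cv.mono sr) fun y hy => by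
      have a1 := hv mb (sr hy) hy.1
      have a2 := hv (sr hy) ma hy.2
      nlinarith [mul_nonneg (show 0 ≤ M + v y by linarith) (show 0 ≤ v2 - v y by linarith)]
  have jj : ∀ x y : ℝ, x ≤ y → Icc x y ⊆ Icc (-a) a →
      IntervalIntegrable (fun y => v y ^ 2) volume x y := fun x y hxy hs => by
    refine ContinuousOn.intervalIntegrable ?_
    rw [uIcc_of_le hxy]
    exact (cv.mono hs).pow 2
  have j1 := jj (-a) (-b) (by linarith) sl
  have j2 := jj (-b) b (by linarith) sub1
  have j3 := jj b a hba sr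
  rw [← intervalIntegral.integral_add_adjacent_intervals (j1.trans j2) j3,
    ← intervalIntegral.integral_add_adjacent_intervals j1 j2]
  have hzβ := hβ z (sub1 hz)
  rw [h0] at kr
  rw [h1] at kl
  have e1 : (v1 - v2) * (β - h z) ≥ 0 := mul_nonneg (by linarith) (by linarith)
  have e2 : M * v1 * (-b - -a) = v1 * β := by rw [← hM]; ring
  have e3 : M * v2 * (a - b) = v2 * β := by rw [← hM]; ring
  nlinarith

/-- the value at an interior point against the weight -/
theorem Sli.cB (h : Sli e u u') {δ : ℝ} (hδ0 : 0 < δ) (hδ : δ ≤ z0) :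
    (π / 6 - c0 / 2 - 0.77 * δ ^ 2 / 6) * gg u (z0 - δ) ≤
      ∫ z in (0 : ℝ)..z0, Wz z * gg u z := by
  have hz0 := z0_pos
  set b := z0 - δ with hb
  have hb0 : 0 ≤ b := by rw [hb]; linarith
  have hbz : b ≤ z0 := by rw [hb]; linarith
  have mb : b ∈ Icc 0 z0 := ⟨hb0, hbz⟩
  have hg0 := h.ggn mb
  -- concavity of the even part
  have hconc : ∀ z ∈ Icc b z0, gg u b * ((z0 - z) / δ) ≤ gg u z := by
    intro z hz
    have d1 : 0 ≤ (z0 - z) / δ := div_nonneg (by linarith [hz.2]) hδ0.le
    have d2 : 0 ≤ (z - b) / δ := div_nonneg (by linarith [hz.1]) hδ0.le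
    have d3 : (z0 - z) / δ + (z - b) / δ = 1 := by
      rw [hb]
      field_simp
      ring
    have d4 : (z0 - z) / δ * b + (z - b) / δ * z0 = z := by
      rw [hb]
      field_simp
      ring
    have k1 := h.conc.2 (mem_of_pos mb) (right_mem_Icc.2 nzz) d1 d2 d3
    have k2 := h.conc.2 (mem_of_neg mb) (left_mem_Icc.2 nzz) d1 d2 d3
    simp only [smul_eq_mul] at k1 k2
    rw [d4, wc_z0] at k1
    have d5 : (z0 - z) / δ * -b + (z - b) / δ * -z0 = -z := by linarith
    rw [d5, wc_nz0] at k2
    unfold gg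
    linarith
  have hWle : ∀ z ∈ Icc b z0, Wz z ≤ 0.77 * (z0 - z) := by
    intro z hz
    have hz0' : 0 ≤ z := hb0.trans hz.1
    rw [Wz_om]
    -- 1 / nz z - c0 ≤ 0.38491 (z0 - z)
    have hd : ∀ y : ℝ, HasDerivAt (fun y => 1 / nz y) (-(y * om y)) y := by
      intro y
      have a1 : HasDerivAt (fun y : ℝ => 1 + y ^ 2) (2 * y) y := by
        have := (hasDerivAt_pow 2 y).const_add 1
        refine this.congr_deriv ?_
        norm_num
      have a2 : HasDerivAt nz (2 * y / (2 * √(1 + y ^ 2))) y := a1.sqrt (by positivity)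
      have hp := nz_pos y
      have a3 := a2.inv hp.ne'
      have a4 : (fun y => 1 / nz y) = fun y => (nz y)⁻¹ := by
        funext y
        rw [one_div]
      rw [a4]
      refine a3.congr_deriv ?_
      show -(2 * y / (2 * nz y)) / nz y ^ 2 = -(y * om y)
      unfold om
      field_simp
    have hmv : 1 / nz z - 1 / nz z0 ≤ 0.38491 * (z0 - z) := by
      have i1 : ∫ y in z..z0, -(y * om y) = 1 / nz z0 - 1 / nz z :=
        intervalIntegral.integral_eq_sub_of_hasDerivAt (fun y _ => hd y)
          (Continuous.intervalIntegrable ((continuous_id.mul om_cont).neg) _ _)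
      have i2 : ∫ y in z..z0, y * om y ≤ ∫ y in z..z0, (0.38491 : ℝ) := by
        refine intervalIntegral.integral_mono_on hz.2
          (Continuous.intervalIntegrable (continuous_id.mul om_cont) _ _)
          intervalIntegrable_const fun y hy => ?_
        have := z_om_le y
        rwa [abs_of_nonneg (hz0'.trans hy.1)] at this
      rw [intervalIntegral.integral_neg] at i1
      rw [intervalIntegral.integral_const, smul_eq_mul] at i2
      linarith
    rw [inz_z0] at hmv
    have ho := om_le (z := z)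
    have hop := om_pos z
    have hn : 0 ≤ 0.38491 * (z0 - z) := by
      have := hz.2
      nlinarith
    calc om z * (2 * (1 / nz z - c0)) ≤ om z * (2 * (0.38491 * (z0 - z))) :=
          mul_le_mul_of_nonneg_left (by linarith) hop.le
      _ ≤ 1 * (2 * (0.38491 * (z0 - z))) := mul_le_mul_of_nonneg_right ho (by linarith)
      _ ≤ 0.77 * (z0 - z) := by linarith [hz.2]
  have iW : ∀ x y : ℝ, IntervalIntegrable Wz volume x y := fun x y =>
    Wz_cont.intervalIntegrable x y
  have ig1 : IntervalIntegrable (fun z => Wz z * gg u z) volume 0 b := by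
    refine ContinuousOn.intervalIntegrable ?_
    rw [uIcc_of_le hb0]
    exact Wz_cont.continuousOn.mul (h.ggc.mono (Icc_subset_Icc le_rfl hbz))
  have ig2 : IntervalIntegrable (fun z => Wz z * gg u z) volume b z0 := by
    refine ContinuousOn.intervalIntegrable ?_
    rw [uIcc_of_le hbz]
    exact Wz_cont.continuousOn.mul (h.ggc.mono (Icc_subset_Icc hb0 le_rfl))
  have p1 : ∫ z in (0:ℝ)..b, gg u b * Wz z ≤ ∫ z in (0:ℝ)..b, Wz z * gg u z := by
    refine intervalIntegral.integral_mono_on hb0 ((iW _ _).const_mul _) ig1 fun z hz => ?_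
    have h4 : 0 ≤ Wz z := Pool.Agent.Helper55.MEI.Wz_nonneg (z := z) (by
      rw [abs_of_nonneg hz.1]; exact hz.2.trans hbz)
    have h5 := h.gga ⟨hz.1, hz.2.trans hbz⟩ mb hz.2
    rw [mul_comm]
    exact mul_le_mul_of_nonneg_left h5 h4
  have p2 : ∫ z in b..z0, (gg u b * Wz z - gg u b * (0.77 / δ) * ((z0 - z) * (z - b))) ≤
      ∫ z in b..z0, Wz z * gg u z := by
    refine intervalIntegral.integral_mono_on hbz (((iW _ _).const_mul _).sub
      (Continuous.intervalIntegrable (by fun_prop) _ _)) ig2 fun z hz => ?_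
    have h4 : 0 ≤ Wz z := Pool.Agent.Helper55.MEI.Wz_nonneg (z := z) (by
      rw [abs_of_nonneg (hb0.trans hz.1)]; exact hz.2)
    have h5 := mul_le_mul_of_nonneg_left (hconc z hz) h4
    have h6 : 0 ≤ (z - b) / δ := div_nonneg (by linarith [hz.1]) hδ0.le
    have h7 := mul_le_mul_of_nonneg_right (hWle z hz) (mul_nonneg hg0 h6)
    have e1 : Wz z * (gg u b * ((z0 - z) / δ)) = gg u b * Wz z - Wz z * (gg u b * ((z - b) / δ)) := by
      have : (z0 - z) / δ = 1 - (z - b) / δ := by
        rw [hb]
        field_simp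
        ring
      rw [this]
      ring
    have e2 : 0.77 * (z0 - z) * (gg u b * ((z - b) / δ)) =
        gg u b * (0.77 / δ) * ((z0 - z) * (z - b)) := by
      field_simp
    rw [e1] at h5
    rw [e2] at h7
    linarith
  have i3 : ∫ z in b..z0, (z0 - z) * (z - b) = δ ^ 3 / 6 := by
    have hd : ∀ z ∈ uIcc b z0, HasDerivAt (fun z => δ * (z - b) ^ 2 / 2 - (z - b) ^ 3 / 3)
        ((z0 - z) * (z - b)) z := by
      intro z _
      have a1 : HasDerivAt (fun z : ℝ => z - b) 1 z := (hasDerivAt_id z).sub_const b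
      have a2 := (((a1.pow 2).const_mul δ).div_const 2).sub ((a1.pow 3).div_const 3)
      refine a2.congr_deriv ?_
      norm_num
      rw [hb]
      ring
    rw [intervalIntegral.integral_eq_sub_of_hasDerivAt hd
      (Continuous.intervalIntegrable (by fun_prop) _ _)]
    rw [hb]
    ring
  have jp : IntervalIntegrable (fun z => gg u b * (0.77 / δ) * ((z0 - z) * (z - b))) volume b z0 :=
    Continuous.intervalIntegrable (by fun_prop) _ _
  rw [intervalIntegral.integral_sub ((iW _ _).const_mul _) jp,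
    intervalIntegral.integral_const_mul, intervalIntegral.integral_const_mul, i3] at p2
  rw [intervalIntegral.integral_const_mul] at p1
  have i4 := intervalIntegral.integral_add_adjacent_intervals (iW 0 b) (iW b z0)
  rw [int_W] at i4
  rw [← intervalIntegral.integral_add_adjacent_intervals ig1 ig2]
  have e3 : gg u b * (0.77 / δ) * (δ ^ 3 / 6) = gg u b * (0.77 * δ ^ 2 / 6) := by
    field_simp
  rw [e3] at p2
  have e4 : gg u b * (∫ z in (0:ℝ)..b, Wz z) + gg u b * (∫ z in b..z0, Wz z) =
      gg u b * (π / 6 - c0 / 2) := by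
    rw [← mul_add, i4]
  nlinarith

end Helper96.MEI
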