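import Pool.Agent.Helper96.MEI.Eq8

/-!
# From the quantitative inequality to the theorem with the case of equality
-/

namespace Helper96.MEI

open Set Metric MeasureTheory Helper80.CW Helper82.CW Helper14.CW Helper22.MEI
open scoped ContDiff Topology RealInnerProductSpace Real

/-- bodies of constant width one are complete -/
theorem mem_of_dist {K : Set E3} (hK : IsCompact K) (hc : Convex ℝ K) (hw : Width1 K) {x : E3}
    (hx : ∀ q ∈ K, dist q x ≤ 1) : x ∈ K := by
  have hne := hw.nonempty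
  have key : ∀ u, ⟪x - 0, u⟫ ≤ H0 K 0 u := by
    intro u
    obtain ⟨q, hq, hqu⟩ := supp_attained hK hne (-u)
    have h1 := supp_width hK hw u
    rw [hqu, inner_neg_right] at h1
    have h2 : ‖x - q‖ ≤ 1 := by
      have := hx q hq
      rw [dist_eq_norm, norm_sub_rev] at this
      exact this
    have h3 := inner_le_of (u := u) h2
    unfold H0
    rw [sub_zero, inner_zero_left]
    linarith
  have := mem_of_ineq (x0 := 0) hK hc hw key
  simpa using this

/-- the vertices are in the body -/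
theorem mem_MB {a : Fin 4 → E3} (hd : ∀ i j, i ≠ j → dist (a i) (a j) = 1) (c : Fin 3 → Bool)
    (i : Fin 4) : a i ∈ MB a c := by
  refine ⟨mem_iInter.2 (fun j => ?_), mem_iInter₂.2 (fun y hy => ?_)⟩
  · rw [mem_closedBall]
    by_cases hij : i = j
    · rw [hij, dist_self]
      exact zero_le_one
    · exact (hd i j hij).le
  · rw [mem_closedBall, dist_comm]
    rcases hy with (hy | hy) | hy
    · by_cases h : c 0 = true
      · rw [if_pos h] at hy
        exact hy.2.2 i
      · rw [if_neg h] at hy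
        exact hy.2.2 i
    · by_cases h : c 1 = true
      · rw [if_pos h] at hy
        exact hy.2.2 i
      · rw [if_neg h] at hy
        exact hy.2.2 i
    · by_cases h : c 2 = true
      · rw [if_pos h] at hy
        exact hy.2.2 i
      · rw [if_neg h] at hy
        exact hy.2.2 i

/-- the value of the volume of the Meissner bodies -/
noncomputable def VMe : ℝ := Real.pi * (2 / 3 - Real.sqrt 3 / 4 * Real.arccos (1 / 3))

/-- **The equality case from a closeness statement.** -/
theorem top_of_close {K : Set E3} (hK : IsCompact K) (hc : Convex ℝ K) (hw : Width1 K)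
    (h1 : ENNReal.ofReal VMe ≤ volume K)
    (h2 : volume K = ENNReal.ofReal VMe → ∃ a : Fin 4 → E3, (∀ i j, i ≠ j → dist (a i) (a j) = 1) ∧
      ∀ i, ∀ q ∈ K, dist q (a i) ≤ 1) :
    ENNReal.ofReal VMe ≤ volume K ∧
      (volume K = ENNReal.ofReal VMe ↔ ∃ a : Fin 4 → E3, (∀ i j, i ≠ j → dist (a i) (a j) = 1) ∧
        ∃ c : Fin 3 → Bool, K = MB a c) := by
  refine ⟨h1, ?_, ?_⟩
  · intro hV
    obtain ⟨a, hd, ha⟩ := h2 hV
    have hmem : ∀ i, a i ∈ K := fun i => mem_of_dist hK hc hw (ha i)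
    exact ⟨a, hd, (class_T_iff hK hc hw hmem hd).2.1 hV⟩
  · rintro ⟨a, hd, c, hMB⟩
    have hmem : ∀ i, a i ∈ K := fun i => by
      rw [hMB]
      exact mem_MB hd c i
    exact (class_T_iff hK hc hw hmem hd).2.2 ⟨c, hMB⟩

/-- **The equality case from the quantitative inequality.** -/
theorem top_of_quant {κ : ℝ} (hκ : 0 < κ) {K : Set E3} (hK : IsCompact K) (hc : Convex ℝ K)
    (hw : Width1 K) (h1 : ENNReal.ofReal VMe ≤ volume K)
    (h2 : ∃ a : Fin 4 → E3, (∀ i j, i ≠ j → dist (a i) (a j) = 1) ∧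
      ∀ i, ∀ q ∈ K, ENNReal.ofReal (VMe + κ * (dist q (a i) ^ 2 - 1)) ≤ volume K) :
    ENNReal.ofReal VMe ≤ volume K ∧
      (volume K = ENNReal.ofReal VMe ↔ ∃ a : Fin 4 → E3, (∀ i j, i ≠ j → dist (a i) (a j) = 1) ∧
        ∃ c : Fin 3 → Bool, K = MB a c) := by
  apply top_of_close hK hc hw h1
  intro hV
  obtain ⟨a, hd, ha⟩ := h2
  refine ⟨a, hd, fun i q hq => ?_⟩
  have h3 := ha i q hq
  rw [hV, ENNReal.ofReal_le_ofReal_iff (show 0 ≤ VMe from VM_nonneg)] at h3
  have h4 : κ * (dist q (a i) ^ 2 - 1) ≤ 0 := by linarith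
  have h5 : dist q (a i) ^ 2 - 1 ≤ 0 := by
    by_contra hcon
    have := mul_pos hκ (not_le.1 hcon)
    linarith
  have h6 := dist_nonneg (x := q) (y := a i)
  nlinarith

end Helper96.MEI
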