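import Pool.Agent.Helper14.CW.Vol1

/-!
# Upper bound for the volume of a smooth body of constant width: equality in the volume formula
-/

namespace Helper96.MEI

open Set Metric MeasureTheory Helper80.CW Helper82.CW Helper14.CW
open scoped ContDiff Topology RealInnerProductSpace Real

theorem minor_nonneg {A B C : ℝ} (h : ∀ x y : ℝ, 0 ≤ A * x ^ 2 + 2 * B * x * y + C * y ^ 2) :
    0 ≤ A * C - B ^ 2 := by
  have hA : 0 ≤ A := by have := h 1 0; linarith
  rcases eq_or_lt_of_le hA with h0 | h0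
  · have hB : B = 0 := by
      by_contra hB
      have h6 := h (-(C + 1) / (2 * B)) 1
      rw [← h0] at h6
      have e2 : 2 * B * (-(C + 1) / (2 * B)) * 1 = -(C + 1) := by field_simp
      rw [e2] at h6
      linarith
    rw [hB, ← h0]
    norm_num
  · have h1 := h (-B) A
    have h2 : A * (-B) ^ 2 + 2 * B * (-B) * A + C * A ^ 2 = A * (A * C - B ^ 2) := by ring
    rw [h2] at h1
    exact nonneg_of_mul_nonneg_right h1 h0

section
variable {f : E3 → ℝ} {c : ℝ}

theorem lap_hs2 (h : SSup f c) {x : E3} (hx : x ≠ 0) : 0 ≤ lap f x ^ 2 - hs2 f x := by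
  have key : ∀ i j : Fin 3, i ≠ j →
      0 ≤ pd i (pd i f) x * pd j (pd j f) x - pd j (pd i f) x ^ 2 := by
    intro i j hij
    apply minor_nonneg
    intro a b
    have h1 := h.psd hx (a • e i + b • e j)
    have h2 := h.symm hx i j
    have hji := Ne.symm hij
    have ev : ∀ k, (a • e i + b • e j) k = (if k = i then a else 0) + (if k = j then b else 0) := by
      intro k
      unfold e
      simp
    have e1 : ∑ k, ∑ l, (a • e i + b • e j) k * (a • e i + b • e j) l * pd l (pd k f) x =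
        pd i (pd i f) x * a ^ 2 + 2 * pd j (pd i f) x * a * b + pd j (pd j f) x * b ^ 2 := by
      simp only [ev, add_mul, mul_add, Finset.sum_add_distrib, ite_mul, mul_ite, zero_mul, mul_zero,
        Finset.sum_ite_eq', Finset.mem_univ, if_true]
      rw [← h2]
      ring
    rw [e1] at h1
    exact h1
  have e : lap f x ^ 2 - hs2 f x = ∑ i, ∑ j, (pd i (pd i f) x * pd j (pd j f) x -
      pd j (pd i f) x ^ 2) := by
    unfold lap hs2
    rw [sq, Finset.sum_mul_sum, ← Finset.sum_sub_distrib]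
    apply Finset.sum_congr rfl
    intro i _
    rw [← Finset.sum_sub_distrib]
  rw [e]
  apply Finset.sum_nonneg
  intro i _
  apply Finset.sum_nonneg
  intro j _
  by_cases hij : i = j
  · subst hij
    rw [← sq, sub_self]
  · exact key i j hij

/-- every point of the body is a value of the parametrisation -/
theorem surj (h : SSup f c) (hpos : ∀ x, x ≠ 0 → 0 < f x) {y : E3}
    (hy : ∀ z, ⟪y, z⟫ ≤ f z) (hy0 : y ≠ 0) : ∃ x : E3, (x ≠ 0 ∧ ‖x‖ ≤ 1) ∧ Fm f x = y := by
  have hne : (sphere (0 : E3) 1).Nonempty := ⟨e 0, by simp [norm_e]⟩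
  have hcf : ContinuousOn f (sphere (0 : E3) 1) := by
    intro x hx
    have hx0 : x ≠ 0 := by
      rintro rfl
      simp at hx
    exact (h.sm x hx0).continuousAt.continuousWithinAt
  have hg : ContinuousOn (fun u : E3 => ⟪y, u⟫ / f u) (sphere (0 : E3) 1) := by
    apply ContinuousOn.div (by fun_prop) hcf
    intro x hx
    have hx0 : x ≠ 0 := by
      rintro rfl
      simp at hx
    exact (hpos x hx0).ne'
  obtain ⟨u, hu, hmax⟩ := (isCompact_sphere (0 : E3) 1).exists_isMaxOn hne hg
  have hu1 : ‖u‖ = 1 := by simpa using hu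
  have hu0 : u ≠ 0 := by
    rintro rfl
    simp at hu1
  set r : ℝ := ⟪y, u⟫ / f u with hr
  have hfu := hpos u hu0
  have hall : ∀ z, ⟪y, z⟫ ≤ r * f z := by
    intro z
    by_cases hz : z = 0
    · subst hz
      rw [inner_zero_right, h.zero, mul_zero]
    · have hn : 0 < ‖z‖ := norm_pos_iff.2 hz
      have h1 : ‖z‖⁻¹ • z ∈ sphere (0 : E3) 1 := by simp [norm_smul, hn.ne']
      have h2 := hmax h1
      have h2' : ⟪y, ‖z‖⁻¹ • z⟫ / f (‖z‖⁻¹ • z) ≤ r := h2
      have h3 : 0 < f (‖z‖⁻¹ • z) := hpos _ (smul_ne_zero (inv_ne_zero hn.ne') hz)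
      rw [div_le_iff₀ h3, h.pos_smul (inv_nonneg.2 hn.le), real_inner_smul_right] at h2'
      have h4 := mul_le_mul_of_nonneg_left h2' hn.le
      have e1 : ‖z‖ * (‖z‖⁻¹ * ⟪y, z⟫) = ⟪y, z⟫ := by field_simp
      have e2 : ‖z‖ * (r * (‖z‖⁻¹ * f z)) = r * f z := by field_simp
      rw [e1, e2] at h4
      exact h4
  have hr1 : r ≤ 1 := by
    rw [hr, div_le_one hfu]
    exact hy u
  have hr0 : 0 < r := by
    have h1 := hall y
    have h2 : 0 < ⟪y, y⟫ := by
      rw [real_inner_self_eq_norm_sq]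
      have := norm_pos_iff.2 hy0
      positivity
    have h3 := hpos y hy0
    by_contra hcon
    have : r * f y ≤ 0 := mul_nonpos_of_nonpos_of_nonneg (not_lt.1 hcon) h3.le
    linarith
  have hgrad : ∀ i, r * pd i f u = y i := by
    intro i
    have hd := hasDerivAt_line h.sm hu0 (e i)
    have hd1 : HasDerivAt (fun t : ℝ => f (u + t • e i)) (pd i f u) 0 := by
      refine hd.congr_deriv ?_
      rw [← fderiv_eq_sum]
      rfl
    have hd2 : HasDerivAt (fun t : ℝ => ⟪y, u + t • e i⟫) (y i) 0 := by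
      have e1 : (fun t : ℝ => ⟪y, u + t • e i⟫) = fun t : ℝ => ⟪y, u⟫ + t * ⟪y, e i⟫ := by
        ext t
        rw [inner_add_right, real_inner_smul_right]
      rw [e1]
      have h5 : HasDerivAt (fun t : ℝ => ⟪y, u⟫ + t * ⟪y, e i⟫) (1 * ⟪y, e i⟫) 0 :=
        ((hasDerivAt_id (0 : ℝ)).mul_const _).const_add _
      refine h5.congr_deriv ?_
      unfold e
      rw [EuclideanSpace.inner_single_right]
      simp
    have hd3 := (hd1.const_mul r).sub hd2
    have hmin : IsLocalMin ((fun t : ℝ => r * f (u + t • e i)) - fun t : ℝ => ⟪y, u + t • e i⟫) 0 := by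
      filter_upwards with t
      simp only [Pi.sub_apply, zero_smul, add_zero]
      have h5 := hall (u + t • e i)
      have h6 : r * f u = ⟪y, u⟫ := by
        rw [hr]
        field_simp
      rw [h6, sub_self]
      linarith
    have := hmin.hasDerivAt_eq_zero hd3
    linarith
  refine ⟨r • u, ⟨smul_ne_zero hr0.ne' hu0, ?_⟩, ?_⟩
  · rw [norm_smul, hu1, Real.norm_of_nonneg hr0.le, mul_one]
    exact hr1
  · ext i
    rw [Fm_apply, norm_smul, hu1, Real.norm_of_nonneg hr0.le, mul_one]
    have h7 := h.hom.pd h.sm i r hr0 u hu0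
    norm_num at h7
    rw [h7]
    exact hgrad i

/-- **Upper bound** for the volume of the body with support function `f`. -/
theorem volume_le_smooth (h : SSup f c) (hpos : ∀ x, x ≠ 0 → 0 < f x) {V0 : ℝ}
    (hV : SI (fun x => f x * (lap f x ^ 2 - hs2 f x)) ≤ 6 * V0) :
    volume {y : E3 | ∀ z, ⟪y, z⟫ ≤ f z} ≤ ENNReal.ofReal V0 := by
  set D : E3 → ℝ := fun x => (fderiv ℝ (Fm f) x).det with hD
  have hD0 : ∀ x, x ≠ 0 → 0 ≤ D x := by
    intro x hx
    rw [hD]
    simp only
    rw [h.det_eq hx]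
    have h1 := lap_hs2 h hx
    have h2 := hpos x hx
    have h3 := norm_nonneg x
    positivity
  set U : Set E3 := {x | x ≠ 0} with hU
  have hUo : IsOpen U := isOpen_ne
  have hDc : ContinuousOn D U := by
    intro x hx
    have h1 : ContinuousAt (fderiv ℝ (Fm f)) x :=
      ((contDiffAt_Fm h.sm hx).fderiv_right (m := ∞) (by simp)).continuousAt
    exact (ContinuousLinearMap.continuous_det.continuousAt.comp h1).continuousWithinAt
  have hDhom : Hom 0 D := by
    have e1 : ∀ x, x ≠ 0 → D x = ‖x‖ * (f x * (lap f x ^ 2 - hs2 f x)) / 2 := by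
      intro x hx
      rw [hD]
      simp only
      rw [h.det_eq hx]
      ring
    have a := (h.hom.lap h.sm).sq
    have b := h.hom.hs2 h.sm
    norm_num at a b
    have e2 := Hom.norm.mul (h.hom.mul (a.sub b))
    norm_num at e2
    intro r hr x hx
    rw [e1 x hx, e1 _ (smul_ne_zero hr.ne' hx)]
    have := e2 r hr x hx
    norm_num at this ⊢
    linarith
  set s : Set E3 := {x | x ≠ 0 ∧ ‖x‖ ≤ 1} with hs
  have hsm : MeasurableSet s := by
    have : s = U ∩ closedBall 0 1 := by
      ext x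
      simp [hs, hU]
    rw [this]
    exact hUo.measurableSet.inter measurableSet_closedBall
  have hcover : {y : E3 | ∀ z, ⟪y, z⟫ ≤ f z} ⊆ {0} ∪ Fm f '' s := by
    intro y hy
    by_cases hy0 : y = 0
    · left
      exact hy0
    · right
      obtain ⟨x, hx, hxy⟩ := surj h hpos hy hy0
      exact ⟨x, hx, hxy⟩
  have h1 : volume {y : E3 | ∀ z, ⟪y, z⟫ ≤ f z} ≤ volume (Fm f '' s) := by
    refine (measure_mono hcover).trans ((measure_union_le _ _).trans ?_)
    simp
  have h2 := addHaar_image_le_lintegral_abs_det_fderiv (μ := (volume : Measure E3)) hsm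
    (f := Fm f) (f' := fun x => fderiv ℝ (Fm f) x)
    (fun x hx => (Fm_diffAt h.sm hx.1).hasFDerivAt.hasFDerivWithinAt)
  refine h1.trans (h2.trans ?_)
  have hae : ∀ᵐ x : E3 ∂(volume.restrict s), 0 ≤ D x := by
    filter_upwards [ae_restrict_mem hsm] with x hx
    exact hD0 x hx.1
  have h3 : ∫⁻ x in s, ENNReal.ofReal |(fderiv ℝ (Fm f) x).det| = ∫⁻ x in s, ENNReal.ofReal (D x) := by
    apply lintegral_congr_ae
    filter_upwards [hae] with x hx
    congr 1
    exact abs_of_nonneg hx
  obtain ⟨C, hC⟩ := (isCompact_sphere (0 : E3) 1).exists_bound_of_continuousOn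
    (hDc.mono (fun x hx => by
      rw [hU]
      rintro rfl
      simp at hx))
  have hbd : ∀ x, x ≠ 0 → ‖D x‖ ≤ C := by
    intro x hx
    have hn : 0 < ‖x‖ := norm_pos_iff.2 hx
    have h5 := hDhom ‖x‖⁻¹ (inv_pos.2 hn) x hx
    simp only [zpow_zero, one_mul] at h5
    rw [← h5]
    apply hC
    simp [norm_smul, hn.ne']
  have hfin : volume s ≠ ⊤ := by
    refine ne_top_of_le_ne_top (measure_closedBall_lt_top (x := (0 : E3)) (r := 1)).ne
      (measure_mono ?_)
    intro x hx
    simpa using hx.2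
  have hDi : IntegrableOn D s := by
    apply Measure.integrableOn_of_bounded (M := C) hfin
    · have hms : AEStronglyMeasurable D (volume.restrict {0}ᶜ) :=
        hDc.aestronglyMeasurable (measurableSet_singleton _).compl
      rw [restrict_compl_singleton] at hms
      exact hms
    · filter_upwards [ae_restrict_mem hsm] with x hx
      exact hbd x hx.1
  rw [h3, ← ofReal_integral_eq_lintegral_ofReal hDi hae]
  apply ENNReal.ofReal_le_ofReal
  have h4 : ∫ x in s, D x = ∫ x in ball (0 : E3) 1, D x := by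
    apply setIntegral_congr_set
    have hsph : volume (sphere (0 : E3) 1) = 0 := Measure.addHaar_sphere _ _ _
    have h0 : ∀ᵐ x : E3, x ≠ 0 := by simp [ae_iff, measure_singleton]
    have h1 : ∀ᵐ x : E3, x ∉ sphere (0 : E3) 1 := measure_eq_zero_iff_ae_notMem.1 hsph
    filter_upwards [h0, h1] with x hx0 hx1
    apply propext
    show (x ≠ 0 ∧ ‖x‖ ≤ 1) ↔ x ∈ ball (0 : E3) 1
    rw [mem_ball_zero_iff]
    constructor
    · rintro ⟨-, h5⟩
      exact lt_of_le_of_ne h5 (fun h6 => hx1 (by simpa using h6))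
    · intro h5
      exact ⟨hx0, h5.le⟩
  have hSI : SI D = (1 / 2) * SI (fun x => f x * (lap f x ^ 2 - hs2 f x)) := by
    rw [← SI_const_mul]
    apply SI_congr
    intro x hx
    have hx0 : x ≠ 0 := by
      rintro rfl
      simp at hx
    rw [hD]
    simp only
    rw [h.det_eq hx0, hx]
    ring
  rw [h4, ball_SI hDhom, hSI]
  linarith

theorem smooth_ball_le (h : SSup f c) (hpos : ∀ x, x ≠ 0 → 0 < f x) :
    volume {y : E3 | ∀ z, ⟪y, z⟫ ≤ f z} ≤
      ENNReal.ofReal (3 * c / 4 * (∫ x in ball (0 : E3) 1, Fv f x) - π * c ^ 3 / 3) := by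
  apply volume_le_smooth h hpos
  rw [vol_smooth_id h, ball_SI (Fv_hom h.hom h.sm)]
  have h1 : SI (Fv f) = 3 * SI (fun x => f x ^ 2) - SI (gr2 f) := by
    rw [← SI_const_mul, ← SI_sub ((Sm.const _).mul (h.sm.pow 2)) h.sm.gr2]
    apply SI_congr
    intro x hx
    unfold Fv
    rw [hx]
    ring
  rw [h1]
  apply le_of_eq
  ring

end

end Helper96.MEI
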